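import Mathlib

/-! Polynomial functions on matrices: base change of vanishing ideals, invariant derivations, curves. -/

set_option autoImplicit false
set_option linter.unusedSectionVars false
set_option linter.unusedSimpArgs false

namespace Pool.Agent.Helper78_MT

open MvPolynomial

variable {n : Type*} [Fintype n] [DecidableEq n]

/-- the value of a polynomial at a matrix -/
noncomputable def pev {F L : Type*} [Field F] [Field L] [Algebra F L] (M : Matrix n n L) :
    MvPolynomial (n × n) F →ₐ[F] L := aeval (fun ij : n × n => M ij.1 ij.2)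

theorem pev_X {F L : Type*} [Field F] [Field L] [Algebra F L] (M : Matrix n n L) (ij : n × n) :
    pev (F := F) M (X ij) = M ij.1 ij.2 := by simp [pev]

theorem pev_C {F L : Type*} [Field F] [Field L] [Algebra F L] (M : Matrix n n L) (a : F) :
    pev (F := F) M (C a) = algebraMap F L a := by simp [pev]

section basechange
variable {F K : Type*} [Field F] [Field K] [Algebra F K]

theorem pev_map {L : Type*} [Field L] [Algebra F L] [Algebra K L] [IsScalarTower F K L]
    (M : Matrix n n L) (p : MvPolynomial (n × n) F) :
    pev M (MvPolynomial.map (algebraMap F K) p) = pev M p := by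
  simp [pev, aeval_map_algebraMap]

theorem pev_algebraMap {L : Type*} [Field L] [Algebra F L]
    (M : Matrix n n F) (p : MvPolynomial (n × n) F) :
    pev (M.map (algebraMap F L)) p = algebraMap F L (pev M p) := by
  have h : pev (F := F) (M.map (algebraMap F L)) = (Algebra.ofId F L).comp (pev (F := F) M) := by
    apply MvPolynomial.algHom_ext
    intro ij
    simp [pev, Algebra.ofId_apply]
  rw [h]; rfl

/-- A polynomial over `K` vanishing on a set of matrices over `F` vanishes wherever all polynomials
over `F` vanishing on that set vanish. -/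
theorem vanish_basechange {S : Set (Matrix n n F)} {M : Matrix n n K}
    (hM : ∀ p : MvPolynomial (n × n) F, (∀ s ∈ S, pev s p = 0) → pev M p = 0)
    (q : MvPolynomial (n × n) K) (hq : ∀ s ∈ S, pev (s.map (algebraMap F K)) q = 0) : pev M q = 0 := by
  classical
  let B := Module.Basis.ofVectorSpace F K
  let co : Module.Basis.ofVectorSpaceIndex F K → MvPolynomial (n × n) F := fun i =>
    ∑ m ∈ q.support, monomial m (B.repr (coeff m q) i)
  let s₀ : Finset (Module.Basis.ofVectorSpaceIndex F K) :=
    q.support.biUnion (fun m => (B.repr (coeff m q)).support)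
  have hcoeff : ∀ i m, coeff m (co i) = B.repr (coeff m q) i := by
    intro i m
    simp only [co, coeff_sum, coeff_monomial]
    rw [Finset.sum_ite_eq' q.support m]
    split_ifs with h
    · rfl
    · rw [notMem_support_iff.mp h]; simp
  have hdec : q = ∑ i ∈ s₀, C (B i) * MvPolynomial.map (algebraMap F K) (co i) := by
    ext m
    rw [coeff_sum]
    simp only [coeff_C_mul, coeff_map, hcoeff]
    by_cases hm : m ∈ q.support
    · have h1 := B.linearCombination_repr (coeff m q)
      conv_lhs => rw [← h1]
      rw [Finsupp.linearCombination_apply,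
        Finsupp.sum_of_support_subset (s := s₀) _ (by
          intro i hi
          exact Finset.mem_biUnion.mpr ⟨m, hm, hi⟩) _ (by simp)]
      apply Finset.sum_congr rfl
      intro i _
      rw [Algebra.smul_def, mul_comm]
    · rw [notMem_support_iff.mp hm]; simp
  have hval : ∀ (L : Matrix n n K), pev L q = ∑ i ∈ s₀, B i * pev L (co i) := by
    intro L
    conv_lhs => rw [hdec]
    rw [map_sum]
    apply Finset.sum_congr rfl
    intro i _
    rw [map_mul, pev_C, pev_map]
    rfl
  have hco : ∀ i ∈ s₀, ∀ s ∈ S, pev s (co i) = 0 := by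
    intro i hi s hs
    have h1 := hq s hs
    rw [hval] at h1
    have h2 : ∑ i ∈ s₀, pev s (co i) • B i = 0 := by
      rw [← h1]
      apply Finset.sum_congr rfl
      intro j _
      rw [pev_algebraMap, Algebra.smul_def, mul_comm]
    exact linearIndependent_iff'.mp B.linearIndependent s₀ _ h2 i hi
  rw [hval]
  apply Finset.sum_eq_zero
  intro i hi
  rw [hM _ (hco i hi), mul_zero]

end basechange

section closure
variable {K : Type*} [Field K]

/-- substitution of a left multiple -/
noncomputable def lsub (A : Matrix n n K) : MvPolynomial (n × n) K →ₐ[K] MvPolynomial (n × n) K :=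
  aeval (fun ij : n × n => ∑ k, C (A ij.1 k) * X (k, ij.2))

/-- substitution of a right multiple -/
noncomputable def rsub (A : Matrix n n K) : MvPolynomial (n × n) K →ₐ[K] MvPolynomial (n × n) K :=
  aeval (fun ij : n × n => ∑ k, X (ij.1, k) * C (A k ij.2))

theorem pev_lsub (A M : Matrix n n K) (p : MvPolynomial (n × n) K) :
    pev M (lsub A p) = pev (A * M) p := by
  have h : (pev (F := K) M).comp (lsub A) = pev (F := K) (A * M) := by
    apply MvPolynomial.algHom_ext
    intro ij
    simp [pev, lsub, Matrix.mul_apply]
  rw [← h]; rfl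

theorem pev_rsub (A M : Matrix n n K) (p : MvPolynomial (n × n) K) :
    pev M (rsub A p) = pev (M * A) p := by
  have h : (pev (F := K) M).comp (rsub A) = pev (F := K) (M * A) := by
    apply MvPolynomial.algHom_ext
    intro ij
    simp [pev, rsub, Matrix.mul_apply]
  rw [← h]; rfl

/-- The Zariski closure over `K`. -/
def zcl (T : Set (Matrix n n K)) : Set (Matrix n n K) :=
  {M | IsUnit M.det ∧ ∀ p : MvPolynomial (n × n) K, (∀ t ∈ T, pev t p = 0) → pev M p = 0}

theorem zcl_mul {T : Set (Matrix n n K)} (hT : ∀ a ∈ T, ∀ b ∈ T, a * b ∈ T) {A B : Matrix n n K}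
    (hA : A ∈ zcl T) (hB : B ∈ zcl T) : A * B ∈ zcl T := by
  have h1 : ∀ a ∈ T, ∀ p : MvPolynomial (n × n) K, (∀ t ∈ T, pev t p = 0) → pev (a * B) p = 0 := by
    intro a ha p hp
    rw [← pev_lsub]
    apply hB.2
    intro t ht
    rw [pev_lsub]
    exact hp _ (hT a ha t ht)
  refine ⟨?_, ?_⟩
  · rw [Matrix.det_mul]; exact hA.1.mul hB.1
  · intro p hp
    rw [← pev_rsub]
    apply hA.2
    intro t ht
    rw [pev_rsub]
    exact h1 t ht p hp

theorem subset_zcl {T : Set (Matrix n n K)} (hT : ∀ a ∈ T, IsUnit a.det) : T ⊆ zcl T :=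
  fun a ha => ⟨hT a ha, fun _ hp => hp a ha⟩

end closure

section deriv
variable {K : Type*} [Field K]

/-- the left-invariant derivation attached to a matrix -/
noncomputable def dr (A : Matrix n n K) : Derivation K (MvPolynomial (n × n) K) (MvPolynomial (n × n) K) :=
  mkDerivation K (fun ij : n × n => ∑ k, A k ij.2 • X (ij.1, k))

theorem dr_X (A : Matrix n n K) (ij : n × n) : dr A (X ij) = ∑ k, A k ij.2 • X (ij.1, k) := by
  simp [dr, mkDerivation_X]

theorem dr_add (A B : Matrix n n K) (p : MvPolynomial (n × n) K) : dr (A + B) p = dr A p + dr B p := by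
  have h : dr (A + B) = dr A + dr B := by
    apply MvPolynomial.derivation_ext
    intro ij
    rw [Derivation.add_apply, dr_X, dr_X, dr_X, ← Finset.sum_add_distrib]
    apply Finset.sum_congr rfl
    intro k _
    rw [Matrix.add_apply, add_smul]
  rw [h, Derivation.add_apply]

theorem dr_smul (c : K) (A : Matrix n n K) (p : MvPolynomial (n × n) K) : dr (c • A) p = c • dr A p := by
  have h : dr (c • A) = c • dr A := by
    apply MvPolynomial.derivation_ext
    intro ij
    rw [Derivation.smul_apply, dr_X, dr_X, Finset.smul_sum]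
    apply Finset.sum_congr rfl
    intro k _
    rw [Matrix.smul_apply, smul_smul, smul_eq_mul]
  rw [h, Derivation.smul_apply]

theorem dr_zero (p : MvPolynomial (n × n) K) : dr (0 : Matrix n n K) p = 0 := by
  have := dr_smul (0 : K) (0 : Matrix n n K) p
  rwa [zero_smul, zero_smul] at this

theorem dr_br (A B : Matrix n n K) (p : MvPolynomial (n × n) K) :
    dr (A * B - B * A) p = dr A (dr B p) - dr B (dr A p) := by
  have h : dr (A * B - B * A) = ⁅dr A, dr B⁆ := by
    apply MvPolynomial.derivation_ext
    intro ij
    rw [Derivation.commutator_apply, dr_X, dr_X, dr_X, map_sum, map_sum]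
    simp only [Derivation.map_smul, dr_X, Finset.smul_sum, smul_smul]
    rw [Finset.sum_comm, Finset.sum_comm (f := fun k l => (A k ij.2 * B l k) • X (ij.1, l)),
      ← Finset.sum_sub_distrib]
    apply Finset.sum_congr rfl
    intro k _
    rw [← Finset.sum_smul, ← Finset.sum_smul, ← sub_smul]
    congr 1
    rw [Matrix.sub_apply, Matrix.mul_apply, Matrix.mul_apply]
    congr 1
    · apply Finset.sum_congr rfl; intro l _; ring
    · apply Finset.sum_congr rfl; intro l _; ring
  rw [h, Derivation.commutator_apply]

/-- polynomial along a curve -/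
noncomputable def cev (Γ : Matrix n n (Polynomial K)) : MvPolynomial (n × n) K →ₐ[K] Polynomial K :=
  aeval (fun ij : n × n => Γ ij.1 ij.2)

theorem cev_eval (Γ : Matrix n n (Polynomial K)) (t : K) (p : MvPolynomial (n × n) K) :
    (cev Γ p).eval t = pev (Γ.map (Polynomial.eval t)) p := by
  have h : (Polynomial.aeval (R := K) t).comp (cev Γ) = pev (F := K) (Γ.map (Polynomial.eval t)) := by
    apply MvPolynomial.algHom_ext
    intro ij
    simp [pev, cev, Polynomial.aeval_def, Polynomial.eval₂_eq_eval_map]
  rw [← h]
  simp [Polynomial.aeval_def, Polynomial.eval₂_eq_eval_map]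

theorem cev_deriv {Γ : Matrix n n (Polynomial K)} {a : Polynomial K} {A : Matrix n n K}
    (h : ∀ i j, a * Polynomial.derivative (Γ i j) = ∑ k, A k j • Γ i k)
    (p : MvPolynomial (n × n) K) :
    a * Polynomial.derivative (cev Γ p) = cev Γ (dr A p) := by
  induction p using MvPolynomial.induction_on with
  | C c => simp [cev]
  | add p q hp hq => rw [map_add, map_add, mul_add, hp, hq, map_add, map_add]
  | mul_X p ij hp =>
    rw [map_mul, Polynomial.derivative_mul, Derivation.leibniz, map_add, smul_eq_mul, smul_eq_mul,
      map_mul, map_mul, ← hp, dr_X, map_sum]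
    have e1 : cev Γ (X ij) = Γ ij.1 ij.2 := by simp [cev]
    have e2 : ∀ k, cev Γ (A k ij.2 • X (ij.1, k)) = A k ij.2 • Γ ij.1 k := by
      intro k; rw [map_smul]; simp [cev]
    rw [e1, Finset.sum_congr rfl (fun k _ => e2 k), ← h]
    ring

theorem poly_zero_of_eval [Infinite K] {f : Polynomial K} (h : ∀ t : K, t ≠ 0 → f.eval t = 0) : f = 0 := by
  apply Polynomial.eq_zero_of_infinite_isRoot
  apply Set.Infinite.mono (s := {t : K | t ≠ 0})
  · intro t ht
    exact h t ht
  · have : ({t : K | t ≠ 0}) = ({0} : Set K)ᶜ := by ext; simp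
    rw [this]
    exact (Set.finite_singleton (0 : K)).infinite_compl

theorem poly_zero_of_deriv [CharZero K] {f : Polynomial K}
    (h : ∀ k : ℕ, (Polynomial.derivative^[k] f).eval 0 = 0) : f = 0 := by
  ext k
  have h1 := h k
  rw [← Polynomial.coeff_zero_eq_eval_zero, Polynomial.coeff_iterate_derivative, zero_add,
    Nat.descFactorial_self, nsmul_eq_mul] at h1
  rw [Polynomial.coeff_zero]
  exact (mul_eq_zero.mp h1).resolve_left (Nat.cast_ne_zero.mpr (Nat.factorial_ne_zero k))

end deriv

end Pool.Agent.Helper78_MT
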