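import Pool.Agent.Helper78_MT.GroupD

/-! Zariski closures, the Mumford-Tate group of a weight one Hodge structure, the connected algebraic
monodromy group of a representation with coefficients in `ℚ_ℓ`. -/

set_option autoImplicit false
set_option linter.unusedSectionVars false
set_option linter.unusedSimpArgs false

namespace Pool.Agent.Helper78_MT

open MvPolynomial Matrix Module

variable {n : Type*} [Fintype n] [DecidableEq n]

/-- The `K`-points of the Zariski closure over `F`, inside `GL_n`, of a set `S` of matrices over `L`: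
the invertible matrices over `K` at which vanish all polynomials over `F` in the entries which vanish
on `S`. -/
def zclosure (F : Type*) {L : Type*} (K : Type*) [Field F] [Field L] [Field K] [Algebra F L] [Algebra F K]
    (S : Set (Matrix n n L)) : Set (Matrix n n K) :=
  {M | IsUnit M.det ∧ ∀ p : MvPolynomial (n × n) F, (∀ s ∈ S, pev s p = 0) → pev M p = 0}

/-- The `L`-points of the closed subset of `GL_n` defined by a set `I` of rational polynomials in the
entries: the invertible matrices over `L` at which all polynomials in `I` vanish. -/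
def zeros (I : Set (MvPolynomial (n × n) ℚ)) (L : Type*) [Field L] [CharZero L] :
    Set (Matrix n n L) :=
  {M | IsUnit M.det ∧ ∀ p ∈ I, pev M p = 0}

/-- The closed subset of `GL_n` defined by `I` is an algebraic subgroup over `ℚ`: its complex points
form a subgroup of `GL_n(ℂ)`. -/
def IsAlgSubgroup (I : Set (MvPolynomial (n × n) ℚ)) : Prop :=
  (1 : Matrix n n ℂ) ∈ zeros I ℂ ∧
    (∀ X ∈ zeros I ℂ, ∀ Y ∈ zeros I ℂ, X * Y ∈ zeros I ℂ) ∧
      ∀ X ∈ zeros I ℂ, X⁻¹ ∈ zeros I ℂ

/-- The `K`-points of the Mumford-Tate group of the Hodge structure on `ℚⁿ` of weight one with complex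
structure `J`: the smallest algebraic subgroup over `ℚ` of `GL_n` which contains the real matrices
`a + b J`, with `a + b i` nonzero. -/
def mumfordTate (J : Matrix n n ℝ) (K : Type*) [Field K] [CharZero K] : Set (Matrix n n K) :=
  {M | ∀ I : Set (MvPolynomial (n × n) ℚ), IsAlgSubgroup I →
    (∀ a b : ℝ, ¬ (a = 0 ∧ b = 0) → a • (1 : Matrix n n ℝ) + b • J ∈ zeros I ℝ) → M ∈ zeros I K}

/-- The `K`-points of the identity component of the Zariski closure over `F` of the image of a
representation: the intersection of the Zariski closures of the images of all subgroups of finite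
index. -/
def monodromy {F Γ : Type*} [Field F] [Group Γ] (ρ : Γ →* GL n F) (K : Type*) [Field K] [Algebra F K] :
    Set (Matrix n n K) :=
  {M | ∀ Γ' : Subgroup Γ, Γ'.FiniteIndex →
    M ∈ zclosure F K {X : Matrix n n F | ∃ γ ∈ Γ', X = (ρ γ : Matrix n n F)}}

/-- The symplectic similitudes of the form `E`. -/
def similitudes (E : Matrix n n ℚ) (K : Type*) [Field K] [CharZero K] : Set (Matrix n n K) :=
  {X | IsUnit X.det ∧ ∃ c : K, Xᵀ * E.map (algebraMap ℚ K) * X = c • E.map (algebraMap ℚ K)}

/-- `r` is odd or equal to two -/
def OddOrTwo (r : ℕ) : Prop := Odd r ∨ r = 2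

/-- `C` is skew for the form `ψ` -/
def IsSkew {K V : Type*} [Field K] [AddCommGroup V] [Module K V] (ψ : V →ₗ[K] V →ₗ[K] K)
    (C : Module.End K V) : Prop := ∀ u v, ψ (C u) v = -ψ u (C v)

end Pool.Agent.Helper78_MT
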