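import Pool.Agent.Helper78_MT.StepF
import Mathlib.Algebra.Lie.CartanCriterion
import Mathlib.Algebra.Lie.Semisimple.Lemmas

/-! Nondegeneracy of the trace form, and the main statement on Lie algebras. -/

set_option autoImplicit false
set_option linter.unusedSectionVars false
set_option linter.unusedSimpArgs false

namespace Pool.Agent.Helper78_MT

open Module LinearMap

attribute [local instance 100] LieRing.ofAssociativeRing

variable {K V : Type*} [Field K] [CharZero K] [AddCommGroup V] [Module K V]
  [FiniteDimensional K V]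

/-- an ideal on which the trace form vanishes is solvable -/
theorem solvable_of_trace {L : LieSubalgebra K (End K V)} (I : LieIdeal K L)
    (h : ∀ X ∈ I, ∀ Y ∈ I, trace K V ((X : End K V) * (Y : End K V)) = 0) : LieAlgebra.IsSolvable I := by
  have htf : LieModule.traceForm K I V = 0 := by
    ext ⟨X, hX⟩ ⟨Y, hY⟩
    exact h X hX Y hY
  have hnil : LieModule.IsNilpotent (LieAlgebra.derivedSeries K I 1) V :=
    LieModule.isNilpotent_derivedSeries_of_traceForm_eq_zero htf
  have hnil2 : LieRing.IsNilpotent (LieAlgebra.derivedSeries K I 1) := by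
    rw [LieAlgebra.isNilpotent_iff_forall (R := K)]
    intro x
    have h1 := (LieModule.isNilpotent_iff_forall' (R := K)).mp hnil x
    have h2 := LieAlgebra.ad_nilpotent_of_nilpotent (R := K) h1
    obtain ⟨n, hn⟩ := h2
    refine ⟨n, ?_⟩
    let f : LieAlgebra.derivedSeries K I 1 →ₗ[K] End K V :=
      (LieModule.toEnd K (LieAlgebra.derivedSeries K I 1) V : _ →ₗ[K] _)
    have hf : Function.Injective f := by
      intro a b hab
      apply Subtype.ext
      apply Subtype.ext
      apply Subtype.ext
      exact hab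
    have hcomm : ∀ (k : ℕ) (y : LieAlgebra.derivedSeries K I 1),
        f (((LieAlgebra.ad K _ x) ^ k) y) = ((LieAlgebra.ad K (End K V) (f x)) ^ k) (f y) := by
      intro k
      induction k with
      | zero => intro y; rfl
      | succ k ih =>
        intro y
        rw [pow_succ', pow_succ', Module.End.mul_apply, Module.End.mul_apply, ← ih]
        exact LieHom.map_lie (LieModule.toEnd K (LieAlgebra.derivedSeries K I 1) V) _ _
    ext1 y
    apply hf
    rw [hcomm]
    have : (LieAlgebra.ad K (End K V) (f x)) ^ n = 0 := hn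
    rw [this]
    simp
  obtain ⟨k, hk⟩ := LieAlgebra.IsSolvable.solvable K (LieAlgebra.derivedSeries K I 1)
  refine LieAlgebra.IsSolvable.mk (k := k + 1) (R := K) ?_
  rw [LieIdeal.derivedSeries_eq_bot_iff] at hk
  rw [LieAlgebra.derivedSeries_def, LieAlgebra.derivedSeriesOfIdeal_add]
  exact hk

theorem nd_of_irr [IsAlgClosed K] [Nontrivial V] {g : Submodule K (End K V)} (hb : BrClosed g)
    (hirr : Irr g) (htr : ∀ X ∈ g, trace K V X = 0) :
    ∀ X ∈ g, (∀ Y ∈ g, trace K V (X * Y) = 0) → X = 0 := by
  let L : LieSubalgebra K (End K V) :=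
    { g with lie_mem' := fun {x y} hx hy => hb x hx y hy }
  have hL : ∀ X, X ∈ L ↔ X ∈ g := fun X => Iff.rfl
  have : LieModule.IsIrreducible K L V := by
    apply LieModule.IsIrreducible.mk
    intro U hU
    have h1 := hirr U.toSubmodule (fun X hX u hu => U.lie_mem (x := (⟨X, hX⟩ : L)) hu)
    rcases h1 with h1 | h1
    · exact absurd ((LieSubmodule.toSubmodule_eq_bot U).mp h1) hU
    · exact (LieSubmodule.toSubmodule_eq_top (N := U)).mp h1
  have : LieModule.IsFaithful K L V := ⟨fun x y h => Subtype.ext h⟩
  have : LieAlgebra.HasTrivialRadical K L :=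
    LieAlgebra.hasTrivialRadical_of_isIrreducible_of_isFaithful K L V (fun x => htr x x.2)
  let I : LieIdeal K L :=
    { carrier := {X | ∀ Y ∈ g, trace K V ((X : End K V) * Y) = 0}
      add_mem' := by
        intro a b ha hb Y hY
        change trace K V (((a : End K V) + b) * Y) = 0
        rw [add_mul, map_add, ha Y hY, hb Y hY, add_zero]
      zero_mem' := by
        intro Y hY
        change trace K V ((0 : End K V) * Y) = 0
        simp
      smul_mem' := by
        intro s a ha Y hY
        change trace K V ((s • (a : End K V)) * Y) = 0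
        rw [smul_mul_assoc, map_smul, ha Y hY, smul_zero]
      lie_mem := by
        intro X Z hZ Y hY
        change trace K V (((X : End K V) * Z - Z * X) * Y) = 0
        have e : trace K V (((X : End K V) * Z - Z * X) * Y) =
            -trace K V ((Z : End K V) * ((X : End K V) * Y - Y * X)) := by
          rw [sub_mul, map_sub, mul_sub, map_sub, mul_assoc (X : End K V) (Z : End K V) Y,
            trace_mul_comm K (X : End K V) ((Z : End K V) * Y), mul_assoc (Z : End K V) (X : End K V) Y,
            mul_assoc (Z : End K V) Y (X : End K V)]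
          ring
        rw [e, hZ _ (hb _ X.2 _ hY), neg_zero] }
  have hI : LieAlgebra.IsSolvable I :=
    solvable_of_trace I (fun X hX Y _ => hX Y Y.2)
  have hle : I ≤ LieAlgebra.radical K L := (LieAlgebra.LieIdeal.solvable_iff_le_radical K L I).mp hI
  rw [LieAlgebra.HasTrivialRadical.radical_eq_bot] at hle
  intro X hX hX0
  have h1 : (⟨X, hX⟩ : L) ∈ I := hX0
  have h2 := hle h1
  rw [LieSubmodule.mem_bot] at h2
  exact congrArg Subtype.val h2

/-- **Main statement on Lie algebras.**  A Lie algebra of skew endomorphisms of a symplectic space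
whose elements `h` with `h² = 1/4` act irreducibly and which contains an element of square zero and of
rank odd or two is the whole symplectic Lie algebra. -/
theorem lie_main [IsAlgClosed K] {ψ : V →ₗ[K] V →ₗ[K] K} {g : Submodule K (End K V)} (hb : BrClosed g)
    (hsp : ∀ X ∈ g, ∀ u v, ψ (X u) v = -ψ u (X v)) (nψ : ∀ u, (∀ v, ψ u v = 0) → u = 0)
    (skew : ∀ u v, ψ u v = -ψ v u)
    (hirr : ∀ U : Submodule K V, (∀ h ∈ g, h * h = (1 / 4 : K) • 1 → ∀ u ∈ U, h u ∈ U) → U = ⊥ ∨ U = ⊤)
    {N : End K V} (hN : N ∈ g) (hN2 : N * N = 0) (hr : Odd (rk N) ∨ rk N = 2)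
    {C : End K V} (hC : ∀ u v, ψ (C u) v = -ψ u (C v)) : C ∈ g := by
  have hN0 : N ≠ 0 := by
    intro h0
    have : rk N = 0 := by rw [h0]; unfold rk; rw [LinearMap.range_zero, finrank_bot]
    rw [this] at hr
    rcases hr with h | h
    · exact absurd h (by decide)
    · exact absurd h (by decide)
  obtain ⟨v, hv⟩ : ∃ v, N v ≠ 0 := by
    by_contra hcon
    push Not at hcon
    exact hN0 (LinearMap.ext hcon)
  have : Nontrivial V := ⟨N v, 0, hv⟩
  have hI : Irr g := by
    intro U hU
    exact hirr U (fun h hh _ => hU h hh)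
  obtain ⟨h₀, hhg₀, hh₀⟩ : ∃ h ∈ g, h * h = (1 / 4 : K) • 1 := by
    by_contra hcon
    push Not at hcon
    rcases hirr (range N) (fun h hh hh2 => absurd hh2 (hcon h hh)) with h1 | h1
    · have : N v ∈ range N := ⟨v, rfl⟩
      rw [h1, Submodule.mem_bot] at this
      exact hv this
    · apply hv
      have : v ∈ range N := by rw [h1]; trivial
      obtain ⟨w, hw⟩ := this
      rw [← hw, ← Module.End.mul_apply, hN2]; rfl
  have htr : ∀ X ∈ g, trace K V X = 0 := by
    intro X hX
    have h1 : trace K V X = trace K V (-X) := by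
      apply trace_adj nψ
      intro u v
      rw [hsp X hX, LinearMap.neg_apply, map_neg]
    rw [map_neg] at h1
    have h2 : (2 : K) * trace K V X = 0 := by linear_combination h1
    exact (mul_eq_zero.mp h2).resolve_left two_ne_zero
  have c : Ctx ψ g := ⟨hb, hsp, nd_of_irr hb hI htr, hI, nψ, skew⟩
  classical
  by_cases hodd : ∃ r, ∃ X ∈ g, X * X = 0 ∧ rk X = r ∧ Odd r
  · obtain ⟨X, hX, hX2, hXr, hXo⟩ := Nat.find_spec hodd
    have hg : Good g (Nat.find hodd) := by
      refine ⟨?_, Or.inl hXo⟩
      intro Y hY hY2 hlt ho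
      exact Nat.find_min hodd hlt ⟨Y, hY, hY2, rfl, ho⟩
    have h1 := c.odd_rank_one hg hXo hirr hh₀ hhg₀ hX hX2 hXr
    rw [h1] at hXr
    exact c.rank_one hX hXr hC
  · exfalso
    push Not at hodd
    have hr2 : rk N = 2 := by
      rcases hr with h | h
      · exact absurd h (hodd _ N hN hN2 rfl)
      · exact h
    exact c.no_two ⟨fun X hX hX2 _ => hodd _ X hX hX2 rfl, Or.inr rfl⟩ hN hN2 hr2

end Pool.Agent.Helper78_MT
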