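import Pool.Agent.Helper78_MT.StepF

/-! The symplectic group is generated by transvections. -/

set_option autoImplicit false
set_option linter.unusedSectionVars false
set_option linter.unusedSimpArgs false

namespace Pool.Agent.Helper78_MT

open Module LinearMap

variable {K V : Type*} [Field K] [CharZero K] [AddCommGroup V] [Module K V]
  [FiniteDimensional K V]
variable {ψ : V →ₗ[K] V →ₗ[K] K}

theorem alt_of_skew (skew : ∀ u v, ψ u v = -ψ v u) (u : V) : ψ u u = 0 := by
  have := skew u u
  have h2 : (2 : K) * ψ u u = 0 := by linear_combination this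
  exact (mul_eq_zero.mp h2).resolve_left two_ne_zero

theorem r1_sq (skew : ∀ u v, ψ u v = -ψ v u) (d : V) : r1 ψ d d * r1 ψ d d = 0 := by
  ext u
  simp [r1, alt_of_skew skew d]

theorem transv_iso (skew : ∀ u v, ψ u v = -ψ v u) (d : V) (a : K) (u v : V) :
    ψ ((1 + a • r1 ψ d d) u) ((1 + a • r1 ψ d d) v) = ψ u v := by
  simp only [LinearMap.add_apply, Module.End.one_apply, LinearMap.smul_apply, r1_apply, map_add,
    map_smul, smul_eq_mul, alt_of_skew skew d]
  rw [skew u d]
  ring

theorem transv_inv (skew : ∀ u v, ψ u v = -ψ v u) (d : V) (a : K) :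
    (1 + (-a) • r1 ψ d d) * (1 + a • r1 ψ d d) = (1 : End K V) := by
  rw [mul_add, mul_one, add_mul, one_mul, smul_mul_smul_comm, r1_sq skew, smul_zero, add_zero]
  module

theorem fix_step (skew : ∀ u v, ψ u v = -ψ v u) {A : End K V} (hA : ∀ u v, ψ (A u) (A v) = ψ u v)
    {v : V} (hv : ψ v (A v) ≠ 0) : ∃ (d : V) (a : K),
      ker (A - 1) ≤ ker ((1 + a • r1 ψ d d) * A - 1) ∧ v ∈ ker ((1 + a • r1 ψ d d) * A - 1) := by
  obtain ⟨d, hd⟩ : ∃ d, d = A v - v := ⟨_, rfl⟩
  have h1 : ψ d (A v) = -ψ v (A v) := by
    rw [hd, map_sub, LinearMap.sub_apply, alt_of_skew skew, zero_sub]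
  have h1' : ψ d (A v) ≠ 0 := by rw [h1]; exact neg_ne_zero.mpr hv
  refine ⟨d, -(ψ d (A v))⁻¹, ?_, ?_⟩
  · intro w hw
    rw [LinearMap.mem_ker, LinearMap.sub_apply, Module.End.one_apply, sub_eq_zero] at hw ⊢
    rw [Module.End.mul_apply, hw, LinearMap.add_apply, LinearMap.smul_apply, r1_apply,
      Module.End.one_apply]
    have : ψ d w = 0 := by
      rw [hd, map_sub, LinearMap.sub_apply]
      nth_rewrite 1 [← hw]
      rw [hA, sub_self]
    rw [this, zero_smul, smul_zero, add_zero]
  · rw [LinearMap.mem_ker, LinearMap.sub_apply, Module.End.one_apply, sub_eq_zero,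
      Module.End.mul_apply, LinearMap.add_apply, LinearMap.smul_apply, r1_apply,
      Module.End.one_apply, smul_smul, neg_mul, inv_mul_cancel₀ h1', hd]
    module

theorem sp_gen (nψ : ∀ u, (∀ v, ψ u v = 0) → u = 0) (skew : ∀ u v, ψ u v = -ψ v u)
    {S : Set (End K V)} (hmul : ∀ a ∈ S, ∀ b ∈ S, a * b ∈ S) (hone : 1 ∈ S)
    (hS : ∀ (v : V) (a : K), 1 + a • r1 ψ v v ∈ S) {A : End K V}
    (hA : ∀ u v, ψ (A u) (A v) = ψ u v) : A ∈ S := by
  have main : ∀ (m : ℕ) (A : End K V), (∀ u v, ψ (A u) (A v) = ψ u v) →
      finrank K V ≤ finrank K (ker (A - 1)) + m → A ∈ S := by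
    intro m
    induction m with
    | zero =>
      intro A hA hm
      have h1 : ker (A - 1) = ⊤ :=
        Submodule.eq_top_of_finrank_eq (le_antisymm (Submodule.finrank_le _) (by simpa using hm))
      have h2 : A = 1 := by
        rw [LinearMap.ker_eq_top] at h1
        exact sub_eq_zero.mp h1
      rw [h2]; exact hone
    | succ m ih =>
      intro A hA hm
      -- removing one transvection
      have rem : ∀ (B : End K V), (∀ u v, ψ (B u) (B v) = ψ u v) → ∀ (d : V) (a : K),
          ker (A - 1) < ker ((1 + a • r1 ψ d d) * B - 1) → B ∈ S := by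
        intro B hB d a hlt
        have h1 := Submodule.finrank_lt_finrank_of_lt hlt
        have h2 : (1 + a • r1 ψ d d) * B ∈ S := by
          apply ih
          · intro u v
            rw [Module.End.mul_apply, Module.End.mul_apply, transv_iso skew, hB]
          · omega
        have h3 : B = (1 + (-a) • r1 ψ d d) * ((1 + a • r1 ψ d d) * B) := by
          rw [← mul_assoc, transv_inv skew, one_mul]
        rw [h3]
        exact hmul _ (hS _ _) _ h2
      have fixne : ∀ (B : End K V) (v : V), ψ v (B v) ≠ 0 → v ∉ ker (B - 1) := by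
        intro B v hv hmem
        rw [LinearMap.mem_ker, LinearMap.sub_apply, Module.End.one_apply, sub_eq_zero] at hmem
        rw [hmem, alt_of_skew skew] at hv
        exact hv rfl
      by_cases hc : ∃ v, ψ v (A v) ≠ 0
      · obtain ⟨v, hv⟩ := hc
        obtain ⟨d, a, h1, h2⟩ := fix_step skew hA hv
        apply rem A hA d a
        refine lt_of_le_of_ne h1 ?_
        intro h3
        rw [← h3] at h2
        exact fixne A v hv h2
      · push Not at hc
        by_cases hA1 : A = 1
        · rw [hA1]; exact hone
        -- `A` is an involution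
        have hpol : ∀ u v, ψ u (A v) = ψ (A u) v := by
          intro u v
          have h1 := hc (u + v)
          rw [map_add, map_add, map_add, LinearMap.add_apply, LinearMap.add_apply, hc, hc] at h1
          rw [skew (A u) v]
          linear_combination h1
        have hA2 : ∀ u, A (A u) = u := by
          intro u
          rw [← sub_eq_zero]
          apply nψ
          intro w
          rw [map_sub, LinearMap.sub_apply, ← hpol, ← hA u w, sub_self]
        obtain ⟨v₀, hv₀⟩ : ∃ v, A v ≠ v := by
          by_contra hcon
          push Not at hcon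
          exact hA1 (LinearMap.ext hcon)
        obtain ⟨v, hv⟩ : ∃ v, v = A v₀ - v₀ := ⟨_, rfl⟩
        have hv0 : v ≠ 0 := by rw [hv]; exact sub_ne_zero.mpr hv₀
        have hAv : A v = -v := by rw [hv, map_sub, hA2]; abel
        obtain ⟨w', hw'⟩ : ∃ w, ψ v w ≠ 0 := by
          by_contra hcon
          push Not at hcon
          exact hv0 (nψ v hcon)
        obtain ⟨w, hw⟩ : ∃ w, w = w' - A w' := ⟨_, rfl⟩
        have hAw : A w = -w := by rw [hw, map_sub, hA2]; abel
        have hvw : ψ v w ≠ 0 := by
          have : ψ v w = 2 * ψ v w' := by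
            rw [hw, map_sub, hpol, hAv, map_neg, LinearMap.neg_apply]; ring
          rw [this]
          exact mul_ne_zero two_ne_zero hw'
        -- multiply by the transvection along `v`
        obtain ⟨B, hB⟩ : ∃ B, B = (1 + (1 : K) • r1 ψ v v) * A := ⟨_, rfl⟩
        have hBiso : ∀ u v, ψ (B u) (B v) = ψ u v := by
          intro x y
          rw [hB, Module.End.mul_apply, Module.End.mul_apply, transv_iso skew, hA]
        have hBw : ψ w (B w) ≠ 0 := by
          have : B w = -w - (ψ v w) • v := by
            rw [hB, Module.End.mul_apply, hAw, LinearMap.add_apply, LinearMap.smul_apply, r1_apply,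
              Module.End.one_apply, map_neg]
            module
          rw [this, map_sub, map_neg, alt_of_skew skew, map_smul, skew w v, smul_eq_mul]
          have : -0 - ψ v w * -ψ v w = ψ v w * ψ v w := by ring
          rw [this]
          exact mul_ne_zero hvw hvw
        obtain ⟨d, a, h1, h2⟩ := fix_step skew hBiso hBw
        have hle : ker (A - 1) ≤ ker (B - 1) := by
          intro x hx
          rw [LinearMap.mem_ker, LinearMap.sub_apply, Module.End.one_apply, sub_eq_zero] at hx ⊢
          rw [hB, Module.End.mul_apply, hx, LinearMap.add_apply, LinearMap.smul_apply, r1_apply,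
            Module.End.one_apply]
          have : ψ v x = 0 := by
            have h3 : ψ v x = -ψ v x := by
              conv_lhs => rw [← hx, hpol, hAv, map_neg, LinearMap.neg_apply]
            have h4 : (2 : K) * ψ v x = 0 := by linear_combination h3
            exact (mul_eq_zero.mp h4).resolve_left two_ne_zero
          rw [this, zero_smul, smul_zero, add_zero]
        have hBS : B ∈ S := by
          apply rem B hBiso d a
          refine lt_of_le_of_ne (hle.trans h1) ?_
          intro h3
          rw [← h3] at h2
          exact fixne B w hBw (hle h2)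
        have h3 : A = (1 + (-(1 : K)) • r1 ψ v v) * B := by
          rw [hB, ← mul_assoc, transv_inv skew, one_mul]
        rw [h3]
        exact hmul _ (hS _ _) _ hBS
  exact main (finrank K V) A hA (Nat.le_add_left _ _)

end Pool.Agent.Helper78_MT
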