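import Pool.Agent.Helper78_MT.GroupA
import Pool.Agent.Helper78_MT.StepG
import Pool.Agent.Helper78_MT.Transv

/-! Closed monoids of symplectic similitudes generated by cocharacters of weights zero and one. -/

set_option autoImplicit false
set_option linter.unusedSectionVars false
set_option linter.unusedSimpArgs false

namespace Pool.Agent.Helper78_MT

open MvPolynomial Matrix

variable {n : Type*} [Fintype n] [DecidableEq n] {K : Type*} [Field K]

/-- the bilinear form of a matrix -/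
def bil (E : Matrix n n K) : (n → K) →ₗ[K] (n → K) →ₗ[K] K :=
  LinearMap.mk₂ K (fun u v => u ⬝ᵥ (E *ᵥ v))
    (fun a b c => by rw [add_dotProduct]) (fun c a b => by rw [smul_dotProduct])
    (fun a b c => by rw [mulVec_add, dotProduct_add]) (fun c a b => by rw [mulVec_smul, dotProduct_smul])

theorem bil_apply (E : Matrix n n K) (u v : n → K) : bil E u v = u ⬝ᵥ (E *ᵥ v) := rfl

theorem bil_mul (E A B : Matrix n n K) (u v : n → K) :
    bil E (A *ᵥ u) (B *ᵥ v) = bil (Aᵀ * E * B) u v := by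
  rw [bil_apply, bil_apply, ← mulVec_mulVec, ← mulVec_mulVec, dotProduct_mulVec u Aᵀ, vecMul_transpose]

theorem bil_inj {A B : Matrix n n K} (h : ∀ u v, bil A u v = bil B u v) : A = B := by
  ext i j
  have := h (Pi.single i 1) (Pi.single j 1)
  simpa [bil_apply] using this

/-- matrices as endomorphisms -/
abbrev φm : Matrix n n K ≃ₐ[K] Module.End K (n → K) := Matrix.toLinAlgEquiv'

theorem φm_apply (A : Matrix n n K) (v : n → K) : (φm A) v = A *ᵥ v := rfl

theorem rk_φm (A : Matrix n n K) : rk (φm A) = A.rank := rfl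

section
variable [CharZero K]

/-- a cocharacter of weights zero and one inside the similitude group -/
theorem cochar {E : Matrix n n K} (hE : IsUnit E.det) {P : Matrix n n K} (hP : P * P = P)
    (h : ∀ t : K, t ≠ 0 → ∃ c : K, (P + t • (1 - P))ᵀ * E * (P + t • (1 - P)) = c • E) :
    P = 0 ∨ P = 1 ∨ ((∀ t : K, (P + t • (1 - P))ᵀ * E * (P + t • (1 - P)) = t • E) ∧
      ((1 - P) - (1 / 2 : K) • 1)ᵀ * E + E * ((1 - P) - (1 / 2 : K) • 1) = 0) := by
  obtain ⟨Q, hQ⟩ : ∃ Q, Q = 1 - P := ⟨_, rfl⟩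
  rw [← hQ] at h ⊢
  have hPQ1 : P + Q = 1 := by rw [hQ]; abel
  have PQ : P * Q = 0 := by rw [hQ, mul_sub, mul_one, hP, sub_self]
  have QQ : Q * Q = Q := by
    nth_rewrite 1 [hQ]
    rw [sub_mul, one_mul, PQ, sub_zero]
  obtain ⟨A, hA⟩ : ∃ A, A = Pᵀ * E * P := ⟨_, rfl⟩
  obtain ⟨B, hB⟩ : ∃ B, B = Pᵀ * E * Q + Qᵀ * E * P := ⟨_, rfl⟩
  obtain ⟨C, hC⟩ : ∃ C, C = Qᵀ * E * Q := ⟨_, rfl⟩
  have hexp : ∀ t : K, (P + t • Q)ᵀ * E * (P + t • Q) = A + t • B + (t * t) • C := by
    intro t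
    rw [hA, hB, hC, transpose_add, transpose_smul]
    simp only [add_mul, mul_add, smul_mul_assoc, mul_smul_comm, smul_smul, smul_add]
    abel
  have h1 : A + B + C = E := by
    have := hexp 1
    rw [one_smul, one_smul, mul_one, one_smul, hPQ1, transpose_one, one_mul, mul_one] at this
    exact this.symm
  obtain ⟨a, ha⟩ := h (-1) (by norm_num)
  obtain ⟨b, hb⟩ := h 2 two_ne_zero
  rw [hexp] at ha hb
  have hC' : C = ((b - (1 - a) - (1 + a) / 2) / 3) • E := by
    have e1 : (3 : K) • C = b • E - (1 - a) • E - ((1 + a) / 2) • E := by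
      have e2 : (3 : K) • C = (A + (2 : K) • B + ((2 : K) * 2) • C) - ((A + B + C) -
        (A + (-1 : K) • B + ((-1 : K) * (-1)) • C)) - (1 / 2 : K) • ((A + B + C) +
        (A + (-1 : K) • B + ((-1 : K) * (-1)) • C)) := by module
      rw [e2, ha, hb, h1]; module
    have e3 : C = (1 / 3 : K) • ((3 : K) • C) := by module
    rw [e3, e1]; module
  have hA' : A = ((1 + a) / 2 - (b - (1 - a) - (1 + a) / 2) / 3) • E := by
    have e2 : A = (1 / 2 : K) • ((A + B + C) + (A + (-1 : K) • B + ((-1 : K) * (-1)) • C)) - C := by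
      module
    rw [e2, ha, h1, hC']; module
  have inv_of : ∀ (R : Matrix n n K) (s : K), R * R = R → Rᵀ * E * R = s • E → s ≠ 0 → R = 1 := by
    intro R s hR hRE hs
    have h2 : IsUnit (s • E).det := by
      rw [det_smul]
      exact ((IsUnit.mk0 s hs).pow _).mul hE
    rw [← hRE, det_mul] at h2
    have h3 : IsUnit R.det := isUnit_of_mul_isUnit_right h2
    have h4 : IsUnit R := (isUnit_iff_isUnit_det R).mpr h3
    have : R * R = R * 1 := by rw [hR, mul_one]
    exact h4.mul_left_cancel this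
  obtain ⟨s, hs⟩ : ∃ s : K, s = (b - (1 - a) - (1 + a) / 2) / 3 := ⟨_, rfl⟩
  obtain ⟨s', hs'⟩ : ∃ s' : K, s' = (1 + a) / 2 - (b - (1 - a) - (1 + a) / 2) / 3 := ⟨_, rfl⟩
  rw [← hs] at hC'
  rw [← hs'] at hA'
  by_cases h2 : s = 0
  · by_cases h3 : s' = 0
    · right; right
      rw [h2, zero_smul] at hC'
      rw [h3, zero_smul] at hA'
      have hBE : B = E := by rw [← h1, hA', hC']; abel
      refine ⟨?_, ?_⟩
      · intro t
        rw [hexp, hA', hC', hBE, smul_zero, add_zero, zero_add]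
      · have e1 : Qᵀ * E = Qᵀ * E * P := by
          calc Qᵀ * E = Qᵀ * E * (P + Q) := by rw [hPQ1, mul_one]
            _ = Qᵀ * E * P := by rw [mul_add, ← hC, hC', add_zero]
        have e2 : E * Q = Pᵀ * E * Q := by
          calc E * Q = (P + Q)ᵀ * E * Q := by rw [hPQ1, transpose_one, one_mul]
            _ = Pᵀ * E * Q := by rw [transpose_add, add_mul, add_mul, ← hC, hC', add_zero]
        rw [transpose_sub, sub_mul, mul_sub, transpose_smul, transpose_one, e1, e2, smul_mul_assoc,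
          mul_smul_comm, one_mul, mul_one]
        have : Qᵀ * E * P - (1 / 2 : K) • E + (Pᵀ * E * Q - (1 / 2 : K) • E) = B - E := by
          rw [hB]; module
        rw [this, hBE, sub_self]
    · right; left
      exact inv_of P s' hP (by rw [← hA, hA']) h3
  · left
    have := inv_of Q s QQ (by rw [← hC, hC']) h2
    rw [this] at hPQ1
    exact add_eq_right.mp hPQ1

theorem unip_sp {E : Matrix n n K} (hE : IsUnit E.det) {N : Matrix n n K} (hN : N * N = 0)
    (h : ∀ t : K, ∃ c : K, (1 + t • N)ᵀ * E * (1 + t • N) = c • E) : Nᵀ * E + E * N = 0 := by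
  obtain ⟨B, hB⟩ : ∃ B, B = Nᵀ * E + E * N := ⟨_, rfl⟩
  obtain ⟨C, hC⟩ : ∃ C, C = Nᵀ * E * N := ⟨_, rfl⟩
  have hexp : ∀ t : K, (1 + t • N)ᵀ * E * (1 + t • N) = E + t • B + (t * t) • C := by
    intro t
    rw [hB, hC, transpose_add, transpose_smul, transpose_one]
    simp only [add_mul, mul_add, smul_mul_assoc, mul_smul_comm, smul_smul, smul_add, one_mul, mul_one]
    abel
  obtain ⟨a, ha⟩ := h 1
  obtain ⟨b, hb⟩ := h (-1)
  rw [hexp] at ha hb
  have hB' : B = ((a - b) / 2) • E := by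
    have e : B = (1 / 2 : K) • ((E + (1 : K) • B + ((1 : K) * 1) • C) -
      (E + (-1 : K) • B + ((-1 : K) * (-1)) • C)) := by module
    rw [e, ha, hb]; module
  have hC' : C = ((a + b) / 2 - 1) • E := by
    have e : C = (1 / 2 : K) • ((E + (1 : K) • B + ((1 : K) * 1) • C) +
      (E + (-1 : K) • B + ((-1 : K) * (-1)) • C)) - E := by module
    rw [e, ha, hb]; module
  obtain ⟨β, hβ⟩ : ∃ β : K, β = (a - b) / 2 := ⟨_, rfl⟩
  obtain ⟨γ, hγ⟩ : ∃ γ : K, γ = (a + b) / 2 - 1 := ⟨_, rfl⟩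
  rw [← hβ] at hB'
  rw [← hγ] at hC'
  have e1 : C = β • (E * N) := by
    have : B * N = C := by rw [hB, add_mul, mul_assoc E N N, hN, mul_zero, add_zero, hC]
    rw [← this, hB', smul_mul_assoc]
  have hEN : E * N = 0 → N = 0 := by
    intro h0
    have h1 : IsUnit E := (isUnit_iff_isUnit_det E).mpr hE
    have : E * N = E * 0 := by rw [h0, mul_zero]
    exact h1.mul_left_cancel this
  have hN0 : N = 0 → B = 0 := by
    intro h0; rw [hB, h0]; simp
  rw [← hB]
  have e2 : γ • (E * N) = 0 := by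
    have : C * N = 0 := by rw [e1, smul_mul_assoc, mul_assoc, hN, mul_zero, smul_zero]
    rw [hC', smul_mul_assoc] at this
    exact this
  rcases smul_eq_zero.mp e2 with h0 | h0
  · rw [h0, zero_smul] at hC'
    rw [hC'] at e1
    rcases smul_eq_zero.mp e1.symm with h1 | h1
    · rw [hB', h1, zero_smul]
    · exact hN0 (hEN h1)
  · exact hN0 (hEN h0)

end

end Pool.Agent.Helper78_MT
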