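import Mathlib

/-!
Associative algebra computations with a subspace `g` closed under commutators.
-/

set_option autoImplicit false
set_option linter.unusedSectionVars false

namespace Pool.Agent.Helper78_MT

variable {K A : Type*} [Field K] [CharZero K] [Ring A] [Algebra K A]

/-- A subspace of an associative algebra closed under commutators. -/
def BrClosed (g : Submodule K A) : Prop := ∀ x ∈ g, ∀ y ∈ g, x * y - y * x ∈ g

theorem mem_of_smul {g : Submodule K A} {x : A} {c : K} (hc : c ≠ 0) (h : c • x ∈ g) : x ∈ g := by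
  have := g.smul_mem c⁻¹ h
  rwa [smul_smul, inv_mul_cancel₀ hc, one_smul] at this

theorem sandwich {g : Submodule K A} (hg : BrClosed g) {N X : A} (hN : N ∈ g)
    (hN2 : N * N = 0) (hX : X ∈ g) : N * X * N ∈ g := by
  have h1 := hg N hN _ (hg N hN X hX)
  have h2 : N * (N * X - X * N) - (N * X - X * N) * N = (-2 : K) • (N * X * N) := by
    have e : N * (N * X - X * N) - (N * X - X * N) * N =
        N * N * X - (N * X * N + N * X * N) + X * (N * N) := by noncomm_ring
    rw [e, hN2, zero_mul, mul_zero]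
    module
  rw [h2] at h1
  exact mem_of_smul (by norm_num) h1

/-- polarized form -/
theorem sandwich2 {g : Submodule K A} (hg : BrClosed g) {P Q X : A} (hP : P ∈ g) (hQ : Q ∈ g)
    (hPQ : P * Q = 0) (hQP : Q * P = 0) (hX : X ∈ g) : P * X * Q + Q * X * P ∈ g := by
  have h1 := hg P hP _ (hg Q hQ X hX)
  have h2 : P * (Q * X - X * Q) - (Q * X - X * Q) * P = -(P * X * Q + Q * X * P) := by
    have e : P * (Q * X - X * Q) - (Q * X - X * Q) * P =
        P * Q * X - (P * X * Q + Q * X * P) + X * (Q * P) := by noncomm_ring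
    rw [e, hPQ, hQP, zero_mul, mul_zero]
    module
  rw [h2] at h1
  simpa using g.neg_mem h1

/-! ### Three orthogonal idempotents -/

/-- `p`, `q`, `e` are orthogonal idempotents with sum `1`. -/
structure Orth3 (p q e : A) : Prop where
  pp : p * p = p
  qq : q * q = q
  ee : e * e = e
  pq : p * q = 0
  qp : q * p = 0
  pe : p * e = 0
  ep : e * p = 0
  qe : q * e = 0
  eq : e * q = 0
  one : p + q + e = 1

namespace Orth3
variable {p q e : A} (h : Orth3 p q e)
include h
theorem pp' (z : A) : p * (p * z) = p * z := by rw [← mul_assoc, h.pp]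
theorem qq' (z : A) : q * (q * z) = q * z := by rw [← mul_assoc, h.qq]
theorem ee' (z : A) : e * (e * z) = e * z := by rw [← mul_assoc, h.ee]
theorem pq' (z : A) : p * (q * z) = 0 := by rw [← mul_assoc, h.pq, zero_mul]
theorem qp' (z : A) : q * (p * z) = 0 := by rw [← mul_assoc, h.qp, zero_mul]
theorem pe' (z : A) : p * (e * z) = 0 := by rw [← mul_assoc, h.pe, zero_mul]
theorem ep' (z : A) : e * (p * z) = 0 := by rw [← mul_assoc, h.ep, zero_mul]
theorem qe' (z : A) : q * (e * z) = 0 := by rw [← mul_assoc, h.qe, zero_mul]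
theorem eq' (z : A) : e * (q * z) = 0 := by rw [← mul_assoc, h.eq, zero_mul]

theorem swap : Orth3 q p e := ⟨h.qq, h.pp, h.ee, h.qp, h.pq, h.qe, h.eq, h.pe, h.ep, by
  rw [add_comm q p]; exact h.one⟩

theorem decomp (X : A) : X = p * X * q + (p * X * e + e * X * q) + (p * X * p + q * X * q + e * X * e)
    + (e * X * p + q * X * e) + q * X * p := by
  have : X = (p + q + e) * X * (p + q + e) := by rw [h.one]; simp
  calc X = (p + q + e) * X * (p + q + e) := this
    _ = _ := by noncomm_ring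

theorem comm2 (X : A) : (p - q) * (p * X * q) - (p * X * q) * (p - q) = 2 * (p * X * q) := by
  simp only [sub_mul, mul_sub, mul_assoc, h.pp', h.qp', h.qp, h.qq, mul_zero]; noncomm_ring

theorem comm1 (X : A) : (p - q) * (p * X * e + e * X * q) - (p * X * e + e * X * q) * (p - q)
    = p * X * e + e * X * q := by
  simp only [sub_mul, mul_sub, mul_add, add_mul, mul_assoc, h.pp', h.qp', h.qp, h.qq, h.pe', h.qe', h.ep, h.eq,
    mul_zero]; noncomm_ring

theorem comm0 (X : A) : (p - q) * (p * X * p + q * X * q + e * X * e) -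
    (p * X * p + q * X * q + e * X * e) * (p - q) = 0 := by
  simp only [sub_mul, mul_sub, mul_add, add_mul, mul_assoc, h.pp', h.qp', h.pq', h.qq', h.qp, h.pq, h.qq, h.pp,
    h.pe', h.qe', h.ep, h.eq, mul_zero]; noncomm_ring

theorem commm1 (X : A) : (p - q) * (e * X * p + q * X * e) - (e * X * p + q * X * e) * (p - q)
    = -(e * X * p + q * X * e) := by
  have := h.swap.comm1 X
  have e1 : (p - q) * (e * X * p + q * X * e) - (e * X * p + q * X * e) * (p - q) =
    -((q - p) * (q * X * e + e * X * p) - (q * X * e + e * X * p) * (q - p)) := by noncomm_ring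
  rw [e1, this]; noncomm_ring

theorem commm2 (X : A) : (p - q) * (q * X * p) - (q * X * p) * (p - q) = -(2 * (q * X * p)) := by
  have := h.swap.comm2 X
  have e1 : (p - q) * (q * X * p) - (q * X * p) * (p - q) =
    -((q - p) * (q * X * p) - (q * X * p) * (q - p)) := by noncomm_ring
  rw [e1, this]

variable {g : Submodule K A}

/-- all graded components of an element of `g` are in `g` -/
theorem comps (hg : BrClosed g) (hH : p - q ∈ g) {X : A} (hX : X ∈ g) :
    p * X * q ∈ g ∧ p * X * e + e * X * q ∈ g ∧ p * X * p + q * X * q + e * X * e ∈ g ∧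
    e * X * p + q * X * e ∈ g ∧ q * X * p ∈ g := by
  set H := p - q with hHd
  set X2 := p * X * q with h2
  set X1 := p * X * e + e * X * q with h1
  set X0 := p * X * p + q * X * q + e * X * e with h0
  set Y1 := e * X * p + q * X * e with hy1
  set Y2 := q * X * p with hy2
  have c2 : H * X2 - X2 * H = 2 * X2 := h.comm2 X
  have c1 : H * X1 - X1 * H = X1 := h.comm1 X
  have c0 : H * X0 - X0 * H = 0 := h.comm0 X
  have d1 : H * Y1 - Y1 * H = - Y1 := h.commm1 X
  have d2 : H * Y2 - Y2 * H = - (2 * Y2) := h.commm2 X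
  have hdec : X = X2 + X1 + X0 + Y1 + Y2 := h.decomp X
  have D : ∀ a b c d f : K, H * (a • X2 + b • X1 + c • X0 + d • Y1 + f • Y2) -
      (a • X2 + b • X1 + c • X0 + d • Y1 + f • Y2) * H =
      (2 * a) • X2 + b • X1 + (0 : K) • X0 + (-d) • Y1 + (-(2 * f)) • Y2 := by
    intro a b c d f
    have : H * (a • X2 + b • X1 + c • X0 + d • Y1 + f • Y2) -
      (a • X2 + b • X1 + c • X0 + d • Y1 + f • Y2) * H =
      a • (H * X2 - X2 * H) + b • (H * X1 - X1 * H) + c • (H * X0 - X0 * H) +
      d • (H * Y1 - Y1 * H) + f • (H * Y2 - Y2 * H) := by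
      simp only [mul_add, add_mul, mul_smul_comm, smul_mul_assoc, smul_sub]
      abel
    rw [this, c2, c1, c0, d1, d2, two_mul, two_mul]
    module
  have m0 : (1:K) • X2 + (1:K) • X1 + (1:K) • X0 + (1:K) • Y1 + (1:K) • Y2 ∈ g := by
    have : (1:K) • X2 + (1:K) • X1 + (1:K) • X0 + (1:K) • Y1 + (1:K) • Y2 = X := by
      rw [hdec]; module
    rw [this]; exact hX
  have step : ∀ a b c d f : K, a • X2 + b • X1 + c • X0 + d • Y1 + f • Y2 ∈ g →
      (2 * a) • X2 + b • X1 + (0 : K) • X0 + (-d) • Y1 + (-(2 * f)) • Y2 ∈ g := by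
    intro a b c d f hm
    rw [← D a b c d f]
    exact hg _ hH _ hm
  have m1 := step _ _ _ _ _ m0
  have m2 := step _ _ _ _ _ m1
  have m3 := step _ _ _ _ _ m2
  have m4 := step _ _ _ _ _ m3
  have comb : ∀ a0 a1 a2 a3 a4 : K, ∀ Z : A,
      a0 • ((1:K) • X2 + (1:K) • X1 + (1:K) • X0 + (1:K) • Y1 + (1:K) • Y2) +
      a1 • ((2 * 1 : K) • X2 + (1:K) • X1 + (0 : K) • X0 + (-1:K) • Y1 + (-(2 * 1:K)) • Y2) +
      a2 • ((2 * (2 * 1:K)) • X2 + (1:K) • X1 + (0 : K) • X0 + (- -1:K) • Y1 + (-(2 * -(2 * 1:K))) • Y2) +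
      a3 • ((2 * (2 * (2 * 1:K))) • X2 + (1:K) • X1 + (0 : K) • X0 + (- - -1:K) • Y1 +
        (-(2 * -(2 * -(2 * 1:K)))) • Y2) +
      a4 • ((2 * (2 * (2 * (2 * 1:K)))) • X2 + (1:K) • X1 + (0 : K) • X0 + (- - - -1:K) • Y1 +
        (-(2 * -(2 * -(2 * -(2 * 1:K))))) • Y2) = Z → Z ∈ g := by
    intro a0 a1 a2 a3 a4 Z hZ
    rw [← hZ]
    exact g.add_mem (g.add_mem (g.add_mem (g.add_mem (g.smul_mem _ m0) (g.smul_mem _ m1))
      (g.smul_mem _ m2)) (g.smul_mem _ m3)) (g.smul_mem _ m4)
  refine ⟨comb 0 (-2/24) (-1/24) (2/24) (1/24) _ (by module),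
    comb 0 (4/6) (4/6) (-1/6) (-1/6) _ (by module),
    comb 1 0 (-5/4) 0 (1/4) _ (by module),
    comb 0 (-4/6) (4/6) (1/6) (-1/6) _ (by module),
    comb 0 (2/24) (-1/24) (-2/24) (1/24) _ (by module)⟩

end Orth3

end Pool.Agent.Helper78_MT
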