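import Pool.Agent.Helper78_MT.Defs

/-! Assembly: the monodromy group, the Mumford-Tate group and the group of similitudes agree. -/

set_option autoImplicit false
set_option linter.unusedSectionVars false
set_option linter.unusedSimpArgs false

namespace Pool.Agent.Helper78_MT

open MvPolynomial Matrix Module

variable {n : Type*} [Fintype n] [DecidableEq n]

section closures
variable {F K Γ : Type*} [Field F] [Field K] [Algebra F K] [Group Γ]

/-- the image over `K` of a subgroup -/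
def imK (ρ : Γ →* GL n F) (K : Type*) [Field K] [Algebra F K] (Γ' : Subgroup Γ) : Set (Matrix n n K) :=
  {X | ∃ γ ∈ Γ', X = (ρ γ : Matrix n n F).map (algebraMap F K)}

theorem imK_mul (ρ : Γ →* GL n F) (Γ' : Subgroup Γ) : ∀ a ∈ imK ρ K Γ', ∀ b ∈ imK ρ K Γ',
    a * b ∈ imK ρ K Γ' := by
  rintro _ ⟨γ, hγ, rfl⟩ _ ⟨δ, hδ, rfl⟩
  refine ⟨γ * δ, Γ'.mul_mem hγ hδ, ?_⟩
  rw [map_mul, Units.val_mul, Matrix.map_mul]

theorem imK_one (ρ : Γ →* GL n F) (Γ' : Subgroup Γ) : (1 : Matrix n n K) ∈ imK ρ K Γ' := by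
  refine ⟨1, Γ'.one_mem, ?_⟩
  rw [map_one, Units.val_one, Matrix.map_one _ (map_zero _) (map_one _)]

theorem imK_unit (ρ : Γ →* GL n F) (Γ' : Subgroup Γ) : ∀ a ∈ imK ρ K Γ', IsUnit a.det := by
  rintro _ ⟨γ, _, rfl⟩
  have h1 : IsUnit (ρ γ : Matrix n n F).det := (isUnit_iff_isUnit_det _).mp (ρ γ).isUnit
  have h2 := h1.map (algebraMap F K)
  rwa [RingHom.map_det, RingHom.mapMatrix_apply] at h2

theorem mem_zclosure_iff (ρ : Γ →* GL n F) (Γ' : Subgroup Γ) (M : Matrix n n K) :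
    M ∈ zclosure F K {X : Matrix n n F | ∃ γ ∈ Γ', X = (ρ γ : Matrix n n F)} ↔
      M ∈ zcl (imK ρ K Γ') := by
  constructor
  · rintro ⟨h1, h2⟩
    refine ⟨h1, ?_⟩
    intro q hq
    apply vanish_basechange (F := F) (S := {X : Matrix n n F | ∃ γ ∈ Γ', X = (ρ γ : Matrix n n F)}) h2
    rintro _ ⟨γ, hγ, rfl⟩
    exact hq _ ⟨γ, hγ, rfl⟩
  · rintro ⟨h1, h2⟩
    refine ⟨h1, ?_⟩
    intro p hp
    have h3 := h2 (MvPolynomial.map (algebraMap F K) p) (by
      rintro _ ⟨γ, hγ, rfl⟩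
      rw [pev_map, pev_algebraMap, hp _ ⟨γ, hγ, rfl⟩, map_zero])
    rwa [pev_map] at h3

/-- the identity component is the closure of the image of one subgroup of finite index -/
theorem exists_min (ρ : Γ →* GL n F) : ∃ Γ₁ : Subgroup Γ, Γ₁.FiniteIndex ∧
    monodromy ρ K = zcl (imK ρ K Γ₁) := by
  let I : Subgroup Γ → Ideal (MvPolynomial (n × n) K) := fun Γ' =>
    { carrier := {p | ∀ t ∈ imK ρ K Γ', pev t p = 0}
      add_mem' := by
        intro a b ha hb t ht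
        rw [map_add, ha t ht, hb t ht, add_zero]
      zero_mem' := by intro t _; rw [map_zero]
      smul_mem' := by
        intro c a ha t ht
        rw [smul_eq_mul, map_mul, ha t ht, mul_zero] }
  have hI : ∀ Γ' p, p ∈ I Γ' ↔ ∀ t ∈ imK ρ K Γ', pev t p = 0 := fun _ _ => Iff.rfl
  let A : Set (Ideal (MvPolynomial (n × n) K)) := {J | ∃ Γ' : Subgroup Γ, Γ'.FiniteIndex ∧ J = I Γ'}
  have hA : A.Nonempty := ⟨I ⊤, ⊤, inferInstance, rfl⟩
  obtain ⟨J, ⟨Γ₁, hΓ₁, rfl⟩, hmax⟩ :=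
    (set_has_maximal_iff_noetherian (R := MvPolynomial (n × n) K)
      (M := MvPolynomial (n × n) K)).mpr inferInstance A hA
  have hle : ∀ Γ' : Subgroup Γ, Γ'.FiniteIndex → I Γ' ≤ I Γ₁ := by
    intro Γ' hΓ'
    have h1 : (Γ₁ ⊓ Γ').FiniteIndex := inferInstance
    have h2 : I Γ₁ ≤ I (Γ₁ ⊓ Γ') := by
      intro p hp
      rw [hI] at hp ⊢
      rintro _ ⟨γ, hγ, rfl⟩
      exact hp _ ⟨γ, hγ.1, rfl⟩
    have h3 : I Γ' ≤ I (Γ₁ ⊓ Γ') := by
      intro p hp
      rw [hI] at hp ⊢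
      rintro _ ⟨γ, hγ, rfl⟩
      exact hp _ ⟨γ, hγ.2, rfl⟩
    have h4 : I Γ₁ = I (Γ₁ ⊓ Γ') := by
      by_contra hne
      exact hmax _ ⟨_, h1, rfl⟩ (lt_of_le_of_ne h2 hne)
    rw [h4]; exact h3
  refine ⟨Γ₁, hΓ₁, ?_⟩
  apply Set.eq_of_subset_of_subset
  · intro M hM
    exact (mem_zclosure_iff ρ Γ₁ M).mp (hM Γ₁ hΓ₁)
  · intro M hM Γ' hΓ'
    rw [mem_zclosure_iff]
    exact ⟨hM.1, fun p hp => hM.2 p (hle Γ' hΓ' hp)⟩

end closures

/-- the entries of `Mᵀ E M` as polynomials -/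
noncomputable def quad (E : Matrix n n ℚ) (i j : n) : MvPolynomial (n × n) ℚ :=
  ∑ k, ∑ l, C (E k l) * (X (k, i) * X (l, j))

theorem pev_quad (E : Matrix n n ℚ) {L : Type*} [Field L] [Algebra ℚ L] (M : Matrix n n L) (i j : n) :
    pev M (quad E i j) = (Mᵀ * E.map (algebraMap ℚ L) * M) i j := by
  simp only [quad, map_sum, map_mul, pev_C, pev_X, Matrix.mul_apply, Finset.sum_mul, transpose_apply,
    Matrix.map_apply]
  rw [Finset.sum_comm]
  apply Finset.sum_congr rfl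
  intro l _
  apply Finset.sum_congr rfl
  intro k _
  ring

/-- The matrices `a + b J` are invertible. -/
theorem isUnit_abJ {J : Matrix n n ℝ} (hJ : J * J = -1) (a b : ℝ) (hab : ¬ (a = 0 ∧ b = 0)) :
    IsUnit (a • (1 : Matrix n n ℝ) + b • J).det := by
  have h0 : a * a + b * b ≠ 0 := by
    intro h
    apply hab
    constructor <;> nlinarith [mul_self_nonneg a, mul_self_nonneg b]
  have h1 : (a • (1 : Matrix n n ℝ) + b • J) * ((a * a + b * b)⁻¹ • (a • 1 - b • J)) = 1 := by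
    have h3 : (a • (1 : Matrix n n ℝ) + b • J) * (a • 1 - b • J) =
        (a * a) • (1 : Matrix n n ℝ) - (b * b) • (J * J) := by
      simp only [add_mul, mul_sub, smul_mul_assoc, mul_smul_comm, one_mul, mul_one, smul_smul]
      module
    rw [mul_smul_comm, h3, hJ, smul_neg, sub_neg_eq_add, ← add_smul, smul_smul, inv_mul_cancel₀ h0,
      one_smul]
  have h2 := congrArg det h1
  rw [det_mul, det_one] at h2
  exact IsUnit.of_mul_eq_one _ h2

/-- equations of the group of symplectic similitudes -/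
def simEqs (E : Matrix n n ℚ) : Set (MvPolynomial (n × n) ℚ) :=
  {p | ∃ i j k l, p = quad E i j * C (E k l) - quad E k l * C (E i j)}

theorem zeros_sim {E : Matrix n n ℚ} (hE0 : E ≠ 0) (L : Type*) [Field L] [CharZero L] :
    zeros (simEqs E) L = similitudes E L := by
  ext M
  constructor
  · rintro ⟨hM, hMp⟩
    refine ⟨hM, ?_⟩
    obtain ⟨k, l, hkl⟩ : ∃ k l, E k l ≠ 0 := by
      by_contra hcon
      push Not at hcon
      exact hE0 (by ext i j; exact hcon i j)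
    have hkl' : (E.map (algebraMap ℚ L)) k l ≠ 0 := by
      rw [Matrix.map_apply, Ne, map_eq_zero]; exact hkl
    refine ⟨(Mᵀ * E.map (algebraMap ℚ L) * M) k l / (E.map (algebraMap ℚ L)) k l, ?_⟩
    ext i j
    have h1 := hMp (quad E i j * C (E k l) - quad E k l * C (E i j)) ⟨i, j, k, l, rfl⟩
    rw [map_sub, map_mul, map_mul, pev_quad, pev_quad, pev_C, pev_C, sub_eq_zero] at h1
    rw [Matrix.smul_apply, smul_eq_mul]
    field_simp
    exact h1
  · rintro ⟨hM, c, hc⟩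
    refine ⟨hM, ?_⟩
    rintro _ ⟨i, j, k, l, rfl⟩
    rw [map_sub, map_mul, map_mul, pev_quad, pev_quad, pev_C, pev_C, hc]
    simp only [Matrix.smul_apply, Matrix.map_apply, smul_eq_mul]
    ring

theorem sim_mul {E : Matrix n n ℚ} {L : Type*} [Field L] [CharZero L] {X Y : Matrix n n L}
    (hX : X ∈ similitudes E L) (hY : Y ∈ similitudes E L) : X * Y ∈ similitudes E L := by
  obtain ⟨hX, c, hc⟩ := hX
  obtain ⟨hY, e, he⟩ := hY
  refine ⟨?_, c * e, ?_⟩
  · rw [det_mul]; exact hX.mul hY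
  · have : (X * Y)ᵀ * E.map (algebraMap ℚ L) * (X * Y) =
        Yᵀ * (Xᵀ * E.map (algebraMap ℚ L) * X) * Y := by
      rw [transpose_mul]; simp only [mul_assoc]
    rw [this, hc, mul_smul_comm, smul_mul_assoc, he, smul_smul]

theorem sim_inv {E : Matrix n n ℚ} (hE0 : E ≠ 0) {L : Type*} [Field L] [CharZero L]
    {X : Matrix n n L} (hX : X ∈ similitudes E L) : X⁻¹ ∈ similitudes E L := by
  obtain ⟨hX, c, hc⟩ := hX
  have h1 : X * X⁻¹ = 1 := mul_nonsing_inv X hX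
  have h1t : (X⁻¹)ᵀ * Xᵀ = 1 := by rw [← transpose_mul, h1, transpose_one]
  have h2 : E.map (algebraMap ℚ L) = c • ((X⁻¹)ᵀ * E.map (algebraMap ℚ L) * X⁻¹) := by
    calc E.map (algebraMap ℚ L)
        = ((X⁻¹)ᵀ * Xᵀ) * E.map (algebraMap ℚ L) * (X * X⁻¹) := by rw [h1, h1t, one_mul, mul_one]
      _ = (X⁻¹)ᵀ * (Xᵀ * E.map (algebraMap ℚ L) * X) * X⁻¹ := by simp only [mul_assoc]
      _ = _ := by rw [hc, mul_smul_comm, smul_mul_assoc]
  have hc0 : c ≠ 0 := by
    rintro rfl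
    rw [zero_smul] at h2
    apply hE0
    ext i j
    have h3 := congrFun (congrFun h2 i) j
    rw [Matrix.map_apply, Matrix.zero_apply, map_eq_zero] at h3
    exact h3
  refine ⟨?_, c⁻¹, ?_⟩
  · have h2 := congrArg det h1
    rw [det_mul, det_one, mul_comm] at h2
    exact IsUnit.of_mul_eq_one _ h2
  · conv_rhs => rw [h2]
    rw [smul_smul, inv_mul_cancel₀ hc0, one_smul]

/-- The Mumford-Tate group consists of symplectic similitudes. -/
theorem mt_le {E : Matrix n n ℚ} {J : Matrix n n ℝ} (hJ : J * J = -1)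
    (hJE : Jᵀ * E.map (algebraMap ℚ ℝ) * J = E.map (algebraMap ℚ ℝ)) (K : Type*) [Field K] [CharZero K] :
    mumfordTate J K ⊆ similitudes E K := by
  intro M hM
  by_cases hE0 : E = 0
  · have h1 := hM ∅ ⟨⟨by rw [det_one]; exact isUnit_one, by simp⟩, (by
        rintro X ⟨hX, -⟩ Y ⟨hY, -⟩
        exact ⟨by rw [det_mul]; exact hX.mul hY, by simp⟩), (by
        rintro X ⟨hX, -⟩
        exact ⟨by rw [det_nonsing_inv]; exact hX.ringInverse, by simp⟩)⟩
        (fun a b hab => ⟨isUnit_abJ hJ a b hab, by simp⟩)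
    refine ⟨h1.1, 0, ?_⟩
    rw [hE0]
    have : (0 : Matrix n n ℚ).map (algebraMap ℚ K) = 0 := by ext; simp
    rw [this]; simp
  rw [← zeros_sim hE0]
  apply hM
  · rw [IsAlgSubgroup, zeros_sim hE0]
    refine ⟨⟨by rw [det_one]; exact isUnit_one, 1, by simp⟩, fun X hX Y hY => sim_mul hX hY,
      fun X hX => sim_inv hE0 hX⟩
  · intro a b hab
    rw [zeros_sim hE0]
    refine ⟨isUnit_abJ hJ a b hab, a * a + b * b, ?_⟩
    obtain ⟨E', hE'⟩ : ∃ E', E' = E.map (algebraMap ℚ ℝ) := ⟨_, rfl⟩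
    rw [← hE'] at hJE ⊢
    have hJE2 : Jᵀ * E' + E' * J = 0 := by
      have h1 : Jᵀ * E' * J * J = E' * J := by rw [hJE]
      rw [mul_assoc _ J J, hJ, mul_neg, mul_one] at h1
      rw [← h1]; abel
    rw [transpose_add, transpose_smul, transpose_smul, transpose_one]
    have h3 : (a • (1 : Matrix n n ℝ) + b • Jᵀ) * E' * (a • 1 + b • J) =
        (a * a) • E' + (a * b) • (Jᵀ * E' + E' * J) + (b * b) • (Jᵀ * E' * J) := by
      simp only [add_mul, mul_add, smul_mul_assoc, mul_smul_comm, one_mul, mul_one, smul_smul]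
      module
    rw [h3, hJE2, hJE]; module

/-- The connected monodromy group lies in the Mumford-Tate group if the image of a subgroup of finite
index does. -/
theorem deligne_le {F : Type*} [Field F] [CharZero F] {K : Type*} [Field K] [CharZero K] [Algebra F K]
    {Γ : Type*} [Group Γ] {J : Matrix n n ℝ} {ρ : Γ →* GL n F} {Γ₀ : Subgroup Γ}
    (h0 : ∀ γ ∈ Γ₀, (ρ γ : Matrix n n F) ∈ mumfordTate J F) (hf : Γ₀.FiniteIndex) :
    monodromy ρ K ⊆ mumfordTate J K := by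
  intro M hM I hI hab
  have h1 := hM Γ₀ hf
  refine ⟨h1.1, ?_⟩
  intro p hp
  have h2 := h1.2 (MvPolynomial.map (algebraMap ℚ F) p) (by
    rintro _ ⟨γ, hγ, rfl⟩
    rw [pev_map]
    exact (h0 γ hγ I hI hab).2 p hp)
  rwa [pev_map] at h2

end Pool.Agent.Helper78_MT
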