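import Pool.Agent.Helper78_MT.Defs

/-! Algebras of endomorphisms of orthogonal type: definitions. -/

set_option autoImplicit false
set_option linter.unusedSectionVars false
set_option linter.unusedSimpArgs false

namespace Pool.Agent.Helper78_MT

open Matrix Module

variable {n : Type*} [Fintype n] [DecidableEq n]

/-- the matrices over `K` commuting with the rational matrices in `D` -/
def centralizer (D : Subalgebra ℚ (Matrix n n ℚ)) (K : Type*) [Field K] [CharZero K] :
    Set (Matrix n n K) :=
  {X | ∀ d ∈ D, X * d.map (algebraMap ℚ K) = d.map (algebraMap ℚ K) * X}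

/-- the linear combinations over `K` of the rational matrices in `D` -/
def extension (D : Subalgebra ℚ (Matrix n n ℚ)) (K : Type*) [Field K] [CharZero K] :
    Submodule K (Matrix n n K) :=
  Submodule.span K {X | ∃ d ∈ D, X = d.map (algebraMap ℚ K)}

/-- `E` is a rational symplectic form, `J` a complex structure on the real space preserving it, and
`D` an algebra of rational matrices commuting with `J` (the endomorphisms). -/
structure PolarizedBy (E : Matrix n n ℚ) (J : Matrix n n ℝ) (D : Subalgebra ℚ (Matrix n n ℚ)) :
    Prop where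
  antisymm : Eᵀ = -E
  nondeg : E.det ≠ 0
  sq : J * J = -1
  compat : Jᵀ * E.map (algebraMap ℚ ℝ) * J = E.map (algebraMap ℚ ℝ)
  comm : J ∈ centralizer D ℝ

/-- Over `K` the algebra `D`, with the adjunction for `E`, becomes a product of matrix algebras with
the transposition: all its simple factors are of the first or of the second Albert type. -/
def OrthogonalType (E : Matrix n n ℚ) (D : Subalgebra ℚ (Matrix n n ℚ)) (K : Type*) [Field K]
    [CharZero K] : Prop :=
  ∃ (r : ℕ) (d : Fin r → ℕ) (f : (∀ i, Matrix (Fin (d i + 1)) (Fin (d i + 1)) K) →ₐ[K] Matrix n n K),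
    Function.Injective f ∧ LinearMap.range f.toLinearMap = extension D K ∧
      ∀ x, (f x)ᵀ * E.map (algebraMap ℚ K) = E.map (algebraMap ℚ K) * f (fun i => (x i)ᵀ)

/-- The properties, proved by Deligne, by Faltings, and by Serre, Sen and Pink, of the representation
on the first cohomology of an abelian variety over a number field whose algebra of endomorphisms (over
the algebraic closure) is `D`. -/
structure MotivicLike {R Γ : Type*} [Field R] [CharZero R] [Group Γ] (J : Matrix n n ℝ)
    (D : Subalgebra ℚ (Matrix n n ℚ)) (ρ : Γ →* GL n R) (K : Type*) [Field K] [Algebra R K] :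
    Prop where
  deligne : ∃ Γ₀ : Subgroup Γ, Γ₀.FiniteIndex ∧ ∀ γ ∈ Γ₀, (ρ γ : Matrix n n R) ∈ mumfordTate J R
  faltings : ∀ Γ' : Subgroup Γ, Γ'.FiniteIndex → ∀ X ∈ centralizer D R,
    X ∈ Submodule.span R {X : Matrix n n R | ∃ γ ∈ Γ', X = (ρ γ : Matrix n n R)}
  cochars : CocharGen (monodromy ρ K)

/-- For every primitive idempotent `e` of the algebra spanned by `D` over `K` some element of the image
of `ρ` is of the form `1 + N` with `N² = 0`, and the rank of `N e` is odd or two. -/
def ToricCondition {R Γ : Type*} [Field R] [CharZero R] [Group Γ] (D : Subalgebra ℚ (Matrix n n ℚ))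
    (ρ : Γ →* GL n R) (K : Type*) [Field K] [CharZero K] [Algebra R K] : Prop :=
  ∀ e ∈ extension D K, e ≠ 0 → e * e = e → (∀ X ∈ extension D K, ∃ a : K, e * X * e = a • e) →
    ∃ γ : Γ, ((ρ γ : Matrix n n R) - 1) ^ 2 = 0 ∧
      OddOrTwo (((ρ γ : Matrix n n R) - 1).map (algebraMap R K) * e).rank

end Pool.Agent.Helper78_MT
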