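import Pool.Agent.Helper78_MT.Mor

/-! Isotypic multiplicities: the Lie algebra, and generation of the group. -/

set_option autoImplicit false
set_option linter.unusedSectionVars false
set_option linter.unusedSimpArgs false

namespace Pool.Agent.Helper78_MT

open Module LinearMap

variable {K V ι κ : Type*} [Field K] [CharZero K] [AddCommGroup V] [Module K V]
  [FiniteDimensional K V] [Fintype ι] [DecidableEq ι] [Fintype κ] [DecidableEq κ]

theorem rk_inc {e : End K V} (he : e * e = e) (B : End K (range e)) : rk (Mor.inc e B) = rk B := by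
  unfold rk
  have : range (Mor.inc e B) = (range B).map (range e).subtype := by
    ext u
    constructor
    · rintro ⟨v, rfl⟩
      exact ⟨B ⟨e v, v, rfl⟩, ⟨_, rfl⟩, rfl⟩
    · rintro ⟨_, ⟨w, rfl⟩, rfl⟩
      exact ⟨w, Mor.inc_w he B w⟩
  rw [this]
  exact Submodule.finrank_map_subtype_eq _ _

namespace Mor
variable {ψ : V →ₗ[K] V →ₗ[K] K} {p : κ → ι} {k0 : ι → κ} {x y : κ → End K V}
variable (m : Mor ψ p k0 x y)
include m

theorem all [IsAlgClosed K] {g : Submodule K (End K V)} (br : BrClosed g)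
    (sp : ∀ X ∈ g, ∀ u v, ψ (X u) v = -ψ u (X v)) (nψ : ∀ u, (∀ v, ψ u v = 0) → u = 0)
    (skew : ∀ u v, ψ u v = -ψ v u) (comm : ∀ X ∈ g, Cm x y X) (nz : ∀ i, x (k0 i) ≠ 0)
    (irr : ∀ U : Submodule K V, (∀ h ∈ g, h * h = (1 / 4 : K) • 1 → ∀ u ∈ U, h u ∈ U) →
      ∀ M, Cm x y M → ∀ u ∈ U, M u ∈ U)
    (hN : ∀ i, ∃ N ∈ g, N * N = 0 ∧ (Odd (rk (N * x (k0 i))) ∨ rk (N * x (k0 i)) = 2))
    {C : End K V} (hC : ∀ u v, ψ (C u) v = -ψ u (C v)) (hCc : Cm x y C) : C ∈ g := by
  have b := m.blk br sp nψ skew comm nz irr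
  have hEE := m.EE
  have hfix : ∀ w : range (E x k0), E x k0 w = w := fun w => range_fix hEE w
  have hce : ∀ i, x (k0 i) * E x k0 = E x k0 * x (k0 i) := fun i => by rw [m.eE, m.Ee]
  have h1 : res (E x k0) C ∈ g.map (res (E x k0)) := by
    apply b.all
    · intro i
      obtain ⟨N, hN, hN2, hr⟩ := hN i
      refine ⟨res (E x k0) N, ⟨N, hN, rfl⟩, ?_, ?_⟩
      · rw [← res_mul hEE (m.cmE (comm N hN)), hN2, map_zero]
      · change Odd (rk (res _ N * res _ _)) ∨ rk (res _ N * res _ _) = 2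
        rw [← res_mul hEE (hce i)]
        have h2 : inc (E x k0) (res (E x k0) (N * x (k0 i))) = N * x (k0 i) := by
          apply inc_res
          · rw [← mul_assoc, ← m.cmE (comm N hN), mul_assoc, m.Ee]
          · rw [mul_assoc, m.eE]
        rw [← h2, rk_inc hEE] at hr
        exact hr
    · intro u v
      change ψ (E x k0 (C u)) v = -ψ u (E x k0 (C v))
      rw [m.adjE, hfix, ← m.adjE, hfix]
      exact hC u v
    · intro i
      change res _ _ * res _ _ = res _ _ * res _ _
      rw [← res_mul hEE (hce i), ← res_mul hEE (m.cmE hCc), (hCc (k0 i)).1]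
  obtain ⟨X, hX, hXC⟩ := h1
  have h2 : ∀ Z : End K V, Cm x y Z → Z * E x k0 = inc (E x k0) (res (E x k0) Z) := by
    intro Z hZ
    ext u
    rw [inc_apply, res_apply]
    change Z (E x k0 u) = E x k0 (Z (E x k0 u))
    rw [← Module.End.mul_apply (E x k0) Z, ← m.cmE hZ, Module.End.mul_apply, ← Module.End.mul_apply (E x k0)
      (E x k0), hEE]
  have h3 : X = C := m.eq_of_res (comm X hX) hCc (by rw [h2 X (comm X hX), h2 C hCc, hXC])
  rw [← h3]; exact hX

/-- `ext` of the operators `tv` -/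
theorem ext_tv (v : V) : ext x y (tv ψ v) = ∑ k, tv ψ (x k v) := by
  unfold ext
  apply Finset.sum_congr rfl
  intro k _
  ext u
  simp only [Module.End.mul_apply, tv_apply, map_smul]
  rw [m.adj]

theorem tv_cE {v : V} {i : ι} (hv : x (k0 i) v = v) (j : ι) :
    tv ψ v * x (k0 j) = x (k0 j) * tv ψ v := by
  by_cases hij : i = j
  · rw [← hij]
    ext u
    simp only [Module.End.mul_apply, tv_apply, map_smul, hv]
    rw [← m.adje, hv]
  · ext u
    have h1 : x (k0 j) v = 0 := by
      rw [← hv, ← Module.End.mul_apply, m.orth (Ne.symm hij)]; rfl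
    simp only [Module.End.mul_apply, tv_apply, map_smul, h1, smul_zero]
    rw [← m.adje, h1, map_zero, LinearMap.zero_apply, zero_smul]

theorem tv_E {v : V} {i : ι} (hv : x (k0 i) v = v) : tv ψ v * E x k0 = tv ψ v := by
  ext u
  have h1 : E x k0 v = v := by rw [← hv, ← Module.End.mul_apply, m.Ee]
  simp only [Module.End.mul_apply, tv_apply]
  rw [← m.adjE, h1]

/-- generation of the isometries commuting with the algebra -/
theorem gen (nψ : ∀ u, (∀ v, ψ u v = 0) → u = 0)
    (skew : ∀ u v, ψ u v = -ψ v u) {S : Set (End K V)} (hmul : ∀ a ∈ S, ∀ b ∈ S, a * b ∈ S) (hone : 1 ∈ S)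
    (hS : ∀ (i : ι) (v : V) (a : K), x (k0 i) v = v → 1 + a • ext x y (tv ψ v) ∈ S) {A : End K V}
    (hA : ∀ u v, ψ (A u) (A v) = ψ u v) (hAc : Cm x y A) : A ∈ S := by
  have hEE := m.EE
  have hfix : ∀ w : range (E x k0), E x k0 w = w := fun w => range_fix hEE w
  have hce : ∀ i, x (k0 i) * E x k0 = E x k0 * x (k0 i) := fun i => by rw [m.eE, m.Ee]
  let ψW : range (E x k0) →ₗ[K] range (E x k0) →ₗ[K] K :=
    ψ.domRestrict₁₂ (range (E x k0)) (range (E x k0))
  let S' : Set (End K (range (E x k0))) := {B |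
    (∀ i, B * res (E x k0) (x (k0 i)) = res (E x k0) (x (k0 i)) * B) ∧
      ext x y (inc (E x k0) B) ∈ S}
  have hinc1 : inc (E x k0) 1 = E x k0 := by ext u; rfl
  have h := sp_gen_blk (ψ := ψW) (ε := fun i => res (E x k0) (x (k0 i))) (S := S')
    (A := res (E x k0) A) ?_ ?_ ?_ ?_ ?_ ?_ ?_ ?_ ?_ ?_ ?_
  · have h1 : inc (E x k0) (res (E x k0) A) = A * E x k0 := by
      ext u
      rw [inc_apply, res_apply]
      change E x k0 (A (E x k0 u)) = A (E x k0 u)
      rw [← Module.End.mul_apply (E x k0) A, ← m.cmE hAc, Module.End.mul_apply,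
        ← Module.End.mul_apply (E x k0) (E x k0), hEE]
    have h2 := h.2
    rwa [h1, m.ext_res hAc] at h2
  · intro u hu
    apply Subtype.ext
    apply nψ
    intro v
    rw [← hfix u, m.adjE]
    exact hu ⟨E x k0 v, v, rfl⟩
  · intro u v; exact skew _ _
  · intro i
    change res _ _ * res _ _ = res _ _
    rw [← res_mul hEE (hce i), m.idem]
  · intro i j hij
    change res _ _ * res _ _ = 0
    rw [← res_mul hEE (hce j), m.orth hij, map_zero]
  · rw [← map_sum]
    change res (E x k0) (E x k0) = 1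
    ext w
    rw [res_apply, hfix, hfix]; rfl
  · intro i u v
    change ψ (E x k0 (x (k0 i) u)) v = ψ u (E x k0 (x (k0 i) v))
    rw [← Module.End.mul_apply, ← Module.End.mul_apply, m.Ee, m.adje]
  · rintro B ⟨hB, hB'⟩ C ⟨hC, hC'⟩
    refine ⟨?_, ?_⟩
    · intro i
      rw [mul_assoc, hC, ← mul_assoc, hB, mul_assoc]
    · rw [inc_mul hEE, ← m.ext_mul (m.inc_comm hB)]
      exact hmul _ hB' _ hC'
  · refine ⟨?_, ?_⟩
    · intro i; rw [one_mul, mul_one]
    · rw [hinc1, m.ext_E]; exact hone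
  · intro i v a hv
    have hv' : x (k0 i) (v : V) = v := by
      have := congrArg Subtype.val hv
      change E x k0 (x (k0 i) v) = (v : V) at this
      rwa [← Module.End.mul_apply, m.Ee] at this
    have hinc : inc (E x k0) (1 + a • tv ψW v) = E x k0 + a • tv ψ (v : V) := by
      ext u
      change E x k0 u + a • (ψ (v : V) (E x k0 u) • (v : V)) = E x k0 u + a • (ψ (v : V) u • (v : V))
      rw [← m.adjE, hfix]
    refine ⟨?_, ?_⟩
    · intro j
      have h1 : tv ψW v * res (E x k0) (x (k0 j)) = res (E x k0) (x (k0 j)) * tv ψW v := by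
        have h2 := m.tv_cE hv' j
        ext u
        have h3 := congrArg (fun T : End K V => T u) h2
        change ψ (v : V) (x (k0 j) u) • (v : V) = x (k0 j) (ψ (v : V) u • (v : V)) at h3
        change ψ (v : V) (E x k0 (x (k0 j) u)) • (v : V) = E x k0 (x (k0 j) (ψ (v : V) u • (v : V)))
        rw [← Module.End.mul_apply, m.Ee, h3, ← Module.End.mul_apply (E x k0), m.Ee]
      rw [add_mul, mul_add, one_mul, mul_one, smul_mul_assoc, mul_smul_comm, h1]
    · rw [hinc, ext_add, ext_smul, m.ext_E]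
      exact hS i v a hv'
  · intro u v
    have h7 : ∀ w : range (E x k0), E x k0 (A w) = A w := by
      intro w
      rw [← Module.End.mul_apply, ← m.cmE hAc, Module.End.mul_apply, hfix]
    change ψ (E x k0 (A u)) (E x k0 (A v)) = ψ u v
    rw [h7, h7, hA]
  · intro i
    change res _ _ * res _ _ = res _ _ * res _ _
    rw [← res_mul hEE (hce i), ← res_mul hEE (m.cmE hAc), (hAc (k0 i)).1]

end Mor

end Pool.Agent.Helper78_MT
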