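import Pool.Agent.Helper78_MT.GroupE
import Pool.Agent.Helper78_MT.Mor2

/-! Multiplicities: the main statement on groups. -/

set_option autoImplicit false
set_option linter.unusedSectionVars false
set_option linter.unusedSimpArgs false

namespace Pool.Agent.Helper78_MT

open MvPolynomial Matrix Module

variable {n : Type*} [Fintype n] [DecidableEq n] {K : Type*} [Field K] [CharZero K]
  {ι κ : Type*} [Fintype ι] [DecidableEq ι] [Fintype κ] [DecidableEq κ]

theorem group_mor [IsAlgClosed K] {E : Matrix n n K} (hE : IsUnit E.det) (hskew : Eᵀ = -E)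
    {x y : κ → Matrix n n K} {p : κ → ι} {k0 : ι → κ}
    (m : Mor (bil E) p k0 (fun k => φm (x k)) (fun k => φm (y k)))
    (nz : ∀ i, x (k0 i) ≠ 0) (hne : Nonempty ι)
    {G : Set (Matrix n n K)} (hone : 1 ∈ G) (hmul : ∀ a ∈ G, ∀ b ∈ G, a * b ∈ G)
    (hcl : ∀ M : Matrix n n K, IsUnit M.det →
      (∀ p : MvPolynomial (n × n) K, (∀ g ∈ G, pev g p = 0) → pev M p = 0) → M ∈ G)
    (hGSp : ∀ g ∈ G, ∃ c : K, gᵀ * E * g = c • E)
    (hcomm : ∀ g ∈ G, ∀ k, g * x k = x k * g ∧ g * y k = y k * g)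
    (hgen : CocharGen G)
    (hspan : ∀ X : Matrix n n K, (∀ k, X * x k = x k * X ∧ X * y k = y k * X) →
      X ∈ Submodule.span K G)
    (htoric : ∀ i, ∃ N : Matrix n n K, N * N = 0 ∧ (∀ t : K, 1 + t • N ∈ G) ∧
      (Odd (N * x (k0 i)).rank ∨ (N * x (k0 i)).rank = 2)) {X : Matrix n n K} (hX : IsUnit X.det)
    {c : K} (hXc : Xᵀ * E * X = c • E) (hXe : ∀ k, X * x k = x k * X ∧ X * y k = y k * X) :
    X ∈ G := by
  have hEu : IsUnit E := (isUnit_iff_isUnit_det E).mpr hE
  have nψ : ∀ u, (∀ v, bil E u v = 0) → u = 0 := by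
    intro u hu
    have h1 : u ᵥ* E = 0 := by
      ext j
      have := hu (Pi.single j 1)
      rw [bil_apply, dotProduct_mulVec] at this
      simpa using this
    have h2 : u ᵥ* (E * E⁻¹) = 0 := by rw [← vecMul_vecMul, h1, zero_vecMul]
    rwa [mul_nonsing_inv E hE, vecMul_one] at h2
  have skew : ∀ u v, bil E u v = -bil E v u := by
    intro u v
    rw [bil_apply, bil_apply]
    have h1 : v ⬝ᵥ (E *ᵥ u) = u ⬝ᵥ (Eᵀ *ᵥ v) := by
      rw [dotProduct_mulVec u Eᵀ, vecMul_transpose, dotProduct_comm]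
    rw [h1, hskew, neg_mulVec, dotProduct_neg, neg_neg]
  obtain ⟨x', hx'⟩ : ∃ x' : κ → Module.End K (n → K), x' = fun k => φm (x k) := ⟨_, rfl⟩
  obtain ⟨y', hy'⟩ : ∃ y' : κ → Module.End K (n → K), y' = fun k => φm (y k) := ⟨_, rfl⟩
  rw [← hx', ← hy'] at m
  -- the Lie algebra
  let g : Submodule K (Module.End K (n → K)) :=
    { carrier := {T | (∀ u v, bil E (T u) v = -bil E u (T v)) ∧ Cm x' y' T ∧
        ∃ c : K, φm.symm T + c • 1 ∈ lieOf G}
      add_mem' := by
        rintro S T ⟨h1, h1', c1, h2⟩ ⟨h3, h3', c2, h4⟩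
        refine ⟨?_, ?_, c1 + c2, ?_⟩
        · intro u v
          simp only [LinearMap.add_apply, map_add]
          rw [h1, h3]; ring
        · intro k
          exact ⟨by rw [add_mul, mul_add, (h1' k).1, (h3' k).1],
            by rw [add_mul, mul_add, (h1' k).2, (h3' k).2]⟩
        · have : φm.symm (S + T) + (c1 + c2) • 1 = (φm.symm S + c1 • 1) + (φm.symm T + c2 • 1) := by
            rw [map_add]; module
          rw [this]
          exact (lieOf G).add_mem h2 h4
      zero_mem' := by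
        refine ⟨by simp, fun k => by simp, 0, ?_⟩
        rw [map_zero, zero_smul, add_zero]; exact (lieOf G).zero_mem
      smul_mem' := by
        rintro s T ⟨h1, h1', c1, h2⟩
        refine ⟨?_, ?_, s * c1, ?_⟩
        · intro u v
          simp only [LinearMap.smul_apply, map_smul]
          rw [h1]; simp
        · intro k
          exact ⟨by rw [smul_mul_assoc, mul_smul_comm, (h1' k).1],
            by rw [smul_mul_assoc, mul_smul_comm, (h1' k).2]⟩
        · have : φm.symm (s • T) + (s * c1) • 1 = s • (φm.symm T + c1 • 1) := by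
            rw [map_smul]; module
          rw [this]
          exact (lieOf G).smul_mem _ h2 }
  have hb : ∀ S ∈ g, ∀ T ∈ g, φm.symm (S * T - T * S) ∈ lieOf G := by
    rintro S ⟨-, -, c1, h2⟩ T ⟨-, -, c2, h4⟩
    have h5 := lieOf_br h2 h4
    have : (φm.symm S + c1 • 1) * (φm.symm T + c2 • 1) - (φm.symm T + c2 • 1) * (φm.symm S + c1 • 1) =
        φm.symm (S * T - T * S) := by
      rw [map_sub, map_mul, map_mul]
      simp only [mul_add, add_mul, smul_mul_assoc, mul_smul_comm, one_mul, mul_one, smul_smul]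
      module
    rw [this] at h5
    exact h5
  have hbr : BrClosed g := by
    intro S hS T hT
    refine ⟨?_, ?_, 0, ?_⟩
    · intro u v
      simp only [LinearMap.sub_apply, Module.End.mul_apply, map_sub]
      rw [hS.1, hT.1, hT.1, hS.1]; ring
    · intro k
      exact ⟨comm_sub (hS.2.1 k).1 (hT.2.1 k).1, comm_sub (hS.2.1 k).2 (hT.2.1 k).2⟩
    · rw [zero_smul, add_zero]
      exact hb S hS T hT
  have φcomm : ∀ A : Matrix n n K, (∀ k, A * x k = x k * A ∧ A * y k = y k * A) → Cm x' y' (φm A) := by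
    intro A hA k
    rw [hx', hy']
    refine ⟨?_, ?_⟩
    · change φm A * φm (x k) = φm (x k) * φm A
      rw [← map_mul, (hA k).1, map_mul]
    · change φm A * φm (y k) = φm (y k) * φm A
      rw [← map_mul, (hA k).2, map_mul]
  have φcomm' : ∀ A : Module.End K (n → K), Cm x' y' A →
      ∀ k, φm.symm A * x k = x k * φm.symm A ∧ φm.symm A * y k = y k * φm.symm A := by
    intro A hA k
    have h1 := (hA k).1
    have h2 := (hA k).2
    rw [hx'] at h1
    rw [hy'] at h2
    change A * φm (x k) = φm (x k) * A at h1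
    change A * φm (y k) = φm (y k) * A at h2
    refine ⟨?_, ?_⟩
    · apply φm.injective
      rw [map_mul, map_mul, AlgEquiv.apply_symm_apply, h1]
    · apply φm.injective
      rw [map_mul, map_mul, AlgEquiv.apply_symm_apply, h2]
  -- cocharacters
  have hPc : ∀ P, IsCochar G P → ∀ k, P * x k = x k * P ∧ P * y k = y k * P := by
    intro P hP k
    refine ⟨?_, ?_⟩
    · apply commute_of_curve (Q := 1 - P)
      · exact (hcomm _ (hP.2 2 two_ne_zero) k).1
      · rw [add_sub_cancel]; simp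
    · apply commute_of_curve (Q := 1 - P)
      · exact (hcomm _ (hP.2 2 two_ne_zero) k).2
      · rw [add_sub_cancel]; simp
  have hco : ∀ P, IsCochar G P → P ≠ 0 → P ≠ 1 →
      (∀ t : K, (P + t • (1 - P))ᵀ * E * (P + t • (1 - P)) = t • E) ∧
      φm ((1 - P) - (1 / 2 : K) • 1) ∈ g ∧
      φm ((1 - P) - (1 / 2 : K) • 1) * φm ((1 - P) - (1 / 2 : K) • 1) = (1 / 4 : K) • 1 := by
    intro P hP h0 h1
    rcases cochar hE hP.1 (fun t ht => hGSp _ (hP.2 t ht)) with h2 | h2 | ⟨h2, h3⟩
    · exact absurd h2 h0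
    · exact absurd h2 h1
    refine ⟨h2, ⟨sp_iff h3, ?_, 1 / 2, ?_⟩, ?_⟩
    · apply φcomm
      intro k
      obtain ⟨h4, h5⟩ := hPc P hP k
      refine ⟨?_, ?_⟩
      · simp only [sub_mul, mul_sub, one_mul, mul_one, smul_mul_assoc, mul_smul_comm, h4]
      · simp only [sub_mul, mul_sub, one_mul, mul_one, smul_mul_assoc, mul_smul_comm, h5]
    · rw [AlgEquiv.symm_apply_apply, sub_add_cancel]
      exact lieOf_torus hmul hP.1 hP.2
    · rw [← map_mul]
      have hQQ : (1 - P) * (1 - P) = 1 - P := by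
        rw [sub_mul, one_mul, mul_sub, mul_one, hP.1]; abel
      have : ((1 - P) - (1 / 2 : K) • 1) * ((1 - P) - (1 / 2 : K) • 1) = (1 / 4 : K) • (1 : Matrix n n K) := by
        obtain ⟨Q, hQ⟩ : ∃ Q, Q = 1 - P := ⟨_, rfl⟩
        rw [← hQ] at hQQ ⊢
        rw [sub_mul, mul_sub, mul_sub, hQQ]
        simp only [smul_mul_assoc, mul_smul_comm, one_mul, mul_one]
        module
      rw [this, map_smul, map_one]
  have hNc : ∀ N : Matrix n n K, (∀ t : K, 1 + t • N ∈ G) → ∀ k, N * x k = x k * N ∧ N * y k = y k * N := by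
    intro N hN k
    obtain ⟨h1, h2⟩ := hcomm _ (hN 1) k
    rw [one_smul, add_mul, mul_add, one_mul, mul_one] at h1 h2
    exact ⟨add_left_cancel h1, add_left_cancel h2⟩
  have hNg : ∀ N : Matrix n n K, N * N = 0 → (∀ t : K, 1 + t • N ∈ G) → φm N ∈ g := by
    intro N hN2 hN
    refine ⟨sp_iff (unip_sp hE hN2 (fun t => hGSp _ (hN t))), φcomm N (hNc N hN), 0, ?_⟩
    rw [AlgEquiv.symm_apply_apply, zero_smul, add_zero]
    exact lieOf_unip hmul hN2 hN
  have hlie : ∀ C : Module.End K (n → K), (∀ u v, bil E (C u) v = -bil E u (C v)) →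
      Cm x' y' C → C ∈ g := by
    intro C hC hCe
    apply m.all hbr (fun X hX => hX.1) nψ skew (fun X hX => hX.2.1) ?_ ?_ ?_ hC hCe
    · intro i h0
      apply nz i
      apply φm.injective
      rw [hx'] at h0
      rw [map_zero]; exact h0
    · intro U hU M hM u hu
      have h1 := cochar_stable hgen (U := U) ?_ (φm.symm M) (hspan _ (φcomm' M hM)) u hu
      · have h2 : φm.symm M *ᵥ u = M u := by
          rw [← φm_apply, AlgEquiv.apply_symm_apply]
        rwa [h2] at h1
      · intro P hP h0 h1 u hu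
        obtain ⟨-, h2, h3⟩ := hco P hP h0 h1
        have h4 := hU _ h2 h3 u hu
        rw [φm_apply, sub_mulVec, sub_mulVec, one_mulVec, smul_mulVec, one_mulVec] at h4
        have h5 : P *ᵥ u = (1 / 2 : K) • u - (u - P *ᵥ u - (1 / 2 : K) • u) := by module
        rw [h5]
        exact U.sub_mem (U.smul_mem _ hu) h4
    · intro i
      obtain ⟨N, hN2, hN, hr⟩ := htoric i
      refine ⟨φm N, hNg N hN2 hN, by rw [← map_mul, hN2, map_zero], ?_⟩
      rw [hx']
      change Odd (rk (φm N * φm (x (k0 i)))) ∨ rk (φm N * φm (x (k0 i))) = 2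
      rw [← map_mul, rk_φm]
      exact hr
  -- transvections
  let S : Set (Module.End K (n → K)) := {T | φm.symm T ∈ G}
  have hSt : ∀ (i : ι) (v : n → K) (a : K), (x' (k0 i)) v = v →
      1 + a • Mor.ext x' y' (tv (bil E) v) ∈ S := by
    intro i v a hvi
    change φm.symm (1 + a • Mor.ext x' y' (tv (bil E) v)) ∈ G
    rw [map_add, map_one, map_smul]
    by_cases hv : v = 0
    · have : Mor.ext x' y' (tv (bil E) v) = 0 := by
        have h0 : tv (bil E) v = 0 := by
          rw [hv]; ext; simp [r1]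
        rw [h0]
        unfold Mor.ext
        exact Finset.sum_eq_zero (fun k _ => by rw [mul_zero, zero_mul])
      rw [this, map_zero, smul_zero, add_zero]
      exact hone
    obtain ⟨w₁, hw₁⟩ : ∃ w, bil E v w ≠ 0 := by
      by_contra hcon
      push Not at hcon
      exact hv (nψ v hcon)
    have hee : x' (k0 i) (x' (k0 i) w₁) = x' (k0 i) w₁ := by
      rw [← Module.End.mul_apply, m.idem]
    have hvw₁ : bil E v (x' (k0 i) w₁) ≠ 0 := by
      rw [← m.adje, hvi]; exact hw₁
    obtain ⟨w, hwi, hw⟩ : ∃ w, (x' (k0 i)) w = w ∧ bil E v w = 1 :=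
      ⟨(bil E v (x' (k0 i) w₁))⁻¹ • (x' (k0 i) w₁), by rw [map_smul, hee],
        by rw [map_smul, smul_eq_mul, inv_mul_cancel₀ hvw₁]⟩
    obtain ⟨T, hT⟩ : ∃ T, T = Mor.ext x' y' (tv (bil E) v) := ⟨_, rfl⟩
    obtain ⟨H₀, hH₀⟩ : ∃ H₀, H₀ = -(tv (bil E) (v + w) - tv (bil E) v - tv (bil E) w) := ⟨_, rfl⟩
    obtain ⟨H, hH⟩ : ∃ H, H = Mor.ext x' y' H₀ := ⟨_, rfl⟩
    have hskewext : ∀ u : n → K, ∀ a b, bil E (Mor.ext x' y' (tv (bil E) u) a) b =
        -bil E a (Mor.ext x' y' (tv (bil E) u) b) := by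
      intro u a b
      rw [m.ext_tv, LinearMap.sum_apply, LinearMap.sum_apply, map_sum, map_sum, LinearMap.sum_apply,
        ← Finset.sum_neg_distrib]
      exact Finset.sum_congr rfl (fun k _ => tv_sp skew _ a b)
    have hTsp : ∀ a b, bil E (T a) b = -bil E a (T b) := by
      rw [hT]; exact hskewext v
    have hHex : H = -(Mor.ext x' y' (tv (bil E) (v + w)) - Mor.ext x' y' (tv (bil E) v) -
        Mor.ext x' y' (tv (bil E) w)) := by
      have hneg : ∀ B : Module.End K (n → K), Mor.ext x' y' (-B) = -Mor.ext x' y' B := by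
        intro B
        apply LinearMap.ext
        intro u
        simp only [Mor.ext, LinearMap.sum_apply, Module.End.mul_apply, LinearMap.neg_apply, map_neg,
          Finset.sum_neg_distrib]
      rw [hH, hH₀, hneg, Mor.ext_sub, Mor.ext_sub]
    have hHsp : ∀ a b, bil E (H a) b = -bil E a (H b) := by
      intro a b
      rw [hHex]
      simp only [LinearMap.neg_apply, LinearMap.sub_apply, map_neg, map_sub]
      rw [hskewext, hskewext, hskewext]; ring
    have hH₀c : ∀ j, H₀ * x' (k0 j) = x' (k0 j) * H₀ := by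
      intro j
      rw [hH₀]
      have h1 : tv (bil E) (v + w) * x' (k0 j) = x' (k0 j) * tv (bil E) (v + w) :=
        m.tv_cE (i := i) (v := v + w) (by rw [map_add, hvi, hwi]) j
      have h2 : tv (bil E) v * x' (k0 j) = x' (k0 j) * tv (bil E) v := m.tv_cE hvi j
      have h3 : tv (bil E) w * x' (k0 j) = x' (k0 j) * tv (bil E) w := m.tv_cE hwi j
      apply LinearMap.ext
      intro x
      have h1x := congrArg (fun T : Module.End K (n → K) => T x) h1
      have h2x := congrArg (fun T : Module.End K (n → K) => T x) h2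
      have h3x := congrArg (fun T : Module.End K (n → K) => T x) h3
      simp only [Module.End.mul_apply] at h1x h2x h3x
      simp only [Module.End.mul_apply, LinearMap.neg_apply, LinearMap.sub_apply, map_neg, map_sub]
      rw [h1x, h2x, h3x]
    have htc : ∀ j, tv (bil E) v * x' (k0 j) = x' (k0 j) * tv (bil E) v := m.tv_cE hvi
    have hTc : Cm x' y' T := by rw [hT]; exact m.cm_ext htc
    have hHc : Cm x' y' H := by rw [hH]; exact m.cm_ext hH₀c
    have hbr0 : H₀ * tv (bil E) v - tv (bil E) v * H₀ = (2 : K) • tv (bil E) v := by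
      apply LinearMap.ext
      intro x
      simp only [hH₀, LinearMap.sub_apply, Module.End.mul_apply, LinearMap.neg_apply,
        LinearMap.add_apply, LinearMap.smul_apply, tv_apply, map_smul, map_neg, map_add, map_sub,
        alt_of_skew skew v, hw, skew w v]
      module
    have hbr2 : H * T - T * H = (2 : K) • T := by
      rw [hH, hT, m.ext_mul hH₀c, m.ext_mul htc, ← Mor.ext_sub, hbr0, Mor.ext_smul]
    have hTl : φm.symm T ∈ lieOf G := by
      have h1 := hb H (hlie H hHsp hHc) T (hlie T hTsp hTc)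
      rw [hbr2, map_smul] at h1
      have h2 := (lieOf G).smul_mem (1 / 2 : K) h1
      rw [smul_smul] at h2
      norm_num at h2
      exact h2
    have hTT : φm.symm T * φm.symm T = 0 := by
      rw [← map_mul, hT, m.ext_mul htc, tv_sq skew]
      have : Mor.ext x' y' 0 = 0 := by
        unfold Mor.ext
        exact Finset.sum_eq_zero (fun k _ => by rw [mul_zero, zero_mul])
      rw [this, map_zero]
    rw [← hT]
    apply hcl
    · have h1 : (1 + a • φm.symm T) * (1 - a • φm.symm T) = 1 := by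
        rw [mul_sub, mul_one, add_mul, one_mul, smul_mul_smul_comm, hTT, smul_zero, add_zero,
          add_sub_cancel_right]
      have h2 := congrArg det h1
      rw [det_mul, det_one] at h2
      exact IsUnit.of_mul_eq_one _ h2
    · intro p hp
      exact exp_mem hone hTT hTl a p hp
  have hSm : ∀ a ∈ S, ∀ b ∈ S, a * b ∈ S := by
    intro a ha b hb
    change φm.symm (a * b) ∈ G
    rw [map_mul]
    exact hmul _ ha _ hb
  have hS1 : (1 : Module.End K (n → K)) ∈ S := by
    change φm.symm 1 ∈ G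
    rw [map_one]; exact hone
  have hSp : ∀ Y : Matrix n n K, Yᵀ * E * Y = E → (∀ k, Y * x k = x k * Y ∧ Y * y k = y k * Y) →
      Y ∈ G := by
    intro Y hY hYe
    have h1 : φm Y ∈ S := by
      apply m.gen nψ skew hSm hS1 hSt
      · intro u v
        rw [φm_apply, φm_apply, bil_mul, hY]
      · exact φcomm Y hYe
    change φm.symm (φm Y) ∈ G at h1
    rwa [AlgEquiv.symm_apply_apply] at h1
  -- a nontrivial cocharacter
  obtain ⟨i₀⟩ := hne
  have hmv : ∀ A : Matrix n n K, (∀ v, A *ᵥ v = 0) → A = 0 := by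
    intro A hA
    ext i j
    have := congrFun (hA (Pi.single j 1)) i
    simpa using this
  obtain ⟨P, hP, hP0, hP1⟩ : ∃ P, IsCochar G P ∧ P ≠ 0 ∧ P ≠ 1 := by
    by_contra hcon
    push Not at hcon
    obtain ⟨N, hN2, hN, hr0⟩ := htoric i₀
    have hN0 : N * x (k0 i₀) ≠ 0 := by
      intro h0
      rw [h0, rank_zero] at hr0
      rcases hr0 with h | h
      · exact absurd h (by decide)
      · exact absurd h (by decide)
    -- every operator commuting with the algebra preserves every subspace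
    have hall : ∀ (U : Submodule K (n → K)) (M : Matrix n n K),
        (∀ k, M * x k = x k * M ∧ M * y k = y k * M) → ∀ u ∈ U, M *ᵥ u ∈ U := fun U M hM =>
      cochar_stable hgen (U := U) (fun P hP h0 h1 => absurd (hcon P hP h0) h1) M (hspan M hM)
    apply hN0
    apply hmv
    intro v
    rw [← mulVec_mulVec]
    obtain ⟨w, hw⟩ : ∃ w, w = x (k0 i₀) *ᵥ v := ⟨_, rfl⟩
    rw [← hw]
    have h1 : N *ᵥ w ∈ Submodule.span K {w} := hall _ N (hNc N hN) w (Submodule.mem_span_singleton_self w)
    obtain ⟨a, ha⟩ := Submodule.mem_span_singleton.mp h1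
    by_cases ha0 : a = 0
    · rw [← ha, ha0, zero_smul]
    have h2 : N *ᵥ (N *ᵥ w) = 0 := by rw [mulVec_mulVec, hN2, zero_mulVec]
    rw [← ha, mulVec_smul, ← ha, smul_smul] at h2
    rcases smul_eq_zero.mp h2 with h3 | h3
    · exact absurd (mul_self_eq_zero.mp h3) ha0
    · rw [h3, mulVec_zero]
  obtain ⟨hmulti, -, -⟩ := hco P hP hP0 hP1
  have hc : c ≠ 0 := by
    intro h0
    rw [h0, zero_smul] at hXc
    have h1 : IsUnit (Xᵀ * E * X).det := by
      rw [det_mul, det_mul, det_transpose]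
      exact (hX.mul hE).mul hX
    rw [hXc] at h1
    have h2 : (0 : Matrix n n K) = 1 := by
      have h3 : IsUnit (0 : Matrix n n K) := (isUnit_iff_isUnit_det _).mpr h1
      obtain ⟨w, hw⟩ := h3
      have := w.mul_inv
      rw [hw, zero_mul] at this
      exact this
    exact hP0 (by rw [← mul_one P, ← h2, mul_zero])
  -- `X = (X μ(c)⁻¹) μ(c)`
  have hμ : (P + c • (1 - P)) ∈ G := hP.2 c hc
  have hμi : (P + c⁻¹ • (1 - P)) ∈ G := hP.2 _ (inv_ne_zero hc)
  have hQQ : (1 - P) * (1 - P) = 1 - P := by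
    rw [sub_mul, one_mul, mul_sub, mul_one, hP.1]; abel
  have hPQ : P * (1 - P) = 0 := by rw [mul_sub, mul_one, hP.1, sub_self]
  have hQP : (1 - P) * P = 0 := by rw [sub_mul, one_mul, hP.1, sub_self]
  have hinv : (P + c⁻¹ • (1 - P)) * (P + c • (1 - P)) = 1 := by
    rw [add_mul, mul_add, mul_add, hP.1, mul_smul_comm, hPQ, smul_mul_assoc, hQP, smul_mul_smul_comm,
      hQQ, inv_mul_cancel₀ hc, smul_zero, smul_zero, one_smul]
    abel
  have hY : X * (P + c⁻¹ • (1 - P)) ∈ G := by
    apply hSp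
    · rw [transpose_mul]
      calc (P + c⁻¹ • (1 - P))ᵀ * Xᵀ * E * (X * (P + c⁻¹ • (1 - P)))
          = (P + c⁻¹ • (1 - P))ᵀ * (Xᵀ * E * X) * (P + c⁻¹ • (1 - P)) := by
            simp only [mul_assoc]
        _ = E := by
          rw [hXc, mul_smul_comm, smul_mul_assoc, hmulti, smul_smul, mul_inv_cancel₀ hc, one_smul]
    · intro k
      obtain ⟨h1, h2⟩ := hcomm _ hμi k
      exact ⟨by rw [mul_assoc, h1, ← mul_assoc, (hXe k).1, mul_assoc],
        by rw [mul_assoc, h2, ← mul_assoc, (hXe k).2, mul_assoc]⟩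
  have : X = X * (P + c⁻¹ • (1 - P)) * (P + c • (1 - P)) := by
    rw [mul_assoc, hinv, mul_one]
  rw [this]
  exact hmul _ hY _ hμ

end Pool.Agent.Helper78_MT
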