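import Pool.Agent.Helper78_MT.Assembly
import Pool.Agent.Helper78_MT.Defs3
import Pool.Agent.Helper78_MT.GroupM

/-! Assembly in the presence of endomorphisms. -/

set_option autoImplicit false
set_option linter.unusedSectionVars false
set_option linter.unusedSimpArgs false

namespace Pool.Agent.Helper78_MT

open MvPolynomial Matrix Module

variable {n : Type*} [Fintype n] [DecidableEq n]

/-- Matrices over `K` commuting with rational matrices are combinations of such matrices over the
subfield. -/
theorem comm_basechange {R K : Type*} [Field R] [CharZero R] [Field K] [CharZero K] [Algebra R K]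
    {C : Set (Matrix n n ℚ)} {X : Matrix n n K}
    (hX : ∀ c ∈ C, X * c.map (algebraMap ℚ K) = c.map (algebraMap ℚ K) * X) :
    X ∈ Submodule.span K {Z : Matrix n n K | ∃ Y : Matrix n n R,
      (∀ c ∈ C, Y * c.map (algebraMap ℚ R) = c.map (algebraMap ℚ R) * Y) ∧
        Z = Y.map (algebraMap R K)} := by
  classical
  let B := Module.Basis.ofVectorSpace R K
  let co : Module.Basis.ofVectorSpaceIndex R K → Matrix n n R := fun k i j => B.repr (X i j) k
  let s : Finset (Module.Basis.ofVectorSpaceIndex R K) :=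
    Finset.univ.biUnion (fun i : n => Finset.univ.biUnion (fun j : n => (B.repr (X i j)).support))
  have hXs : X = ∑ k ∈ s, B k • (co k).map (algebraMap R K) := by
    ext i j
    rw [Matrix.sum_apply]
    have h1 := B.linearCombination_repr (X i j)
    conv_lhs => rw [← h1]
    rw [Finsupp.linearCombination_apply,
      Finsupp.sum_of_support_subset (s := s) _ (by
        intro k hk
        exact Finset.mem_biUnion.mpr ⟨i, Finset.mem_univ _,
          Finset.mem_biUnion.mpr ⟨j, Finset.mem_univ _, hk⟩⟩) _ (by simp)]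
    apply Finset.sum_congr rfl
    intro k _
    rw [Matrix.smul_apply, Matrix.map_apply, smul_eq_mul, Algebra.smul_def, mul_comm]
  have hrat : ∀ q : ℚ, algebraMap ℚ K q = algebraMap R K (algebraMap ℚ R q) := by
    intro q
    rw [← IsScalarTower.algebraMap_apply]
  have hlin : ∀ (q : ℚ) (x : K) k, B.repr (algebraMap ℚ K q * x) k = algebraMap ℚ R q * B.repr x k := by
    intro q x k
    rw [hrat, ← Algebra.smul_def, map_smul]
    simp
  have hlin' : ∀ (q : ℚ) (x : K) k, B.repr (x * algebraMap ℚ K q) k = B.repr x k * algebraMap ℚ R q := by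
    intro q x k
    rw [mul_comm, hlin, mul_comm]
  rw [hXs]
  apply Submodule.sum_mem
  intro k _
  apply Submodule.smul_mem
  apply Submodule.subset_span
  refine ⟨co k, ?_, rfl⟩
  intro c hc
  ext i j
  have h1 := congrFun (congrFun (hX c hc) i) j
  rw [Matrix.mul_apply, Matrix.mul_apply] at h1
  have h2 := congrArg (fun x => B.repr x k) h1
  simp only [map_sum, Finsupp.finsetSum_apply, Matrix.map_apply, hlin, hlin'] at h2
  rw [Matrix.mul_apply, Matrix.mul_apply]
  exact h2

/-- equations of the commutant -/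
def commEqs (D : Subalgebra ℚ (Matrix n n ℚ)) : Set (MvPolynomial (n × n) ℚ) :=
  {p | ∃ A ∈ D, ∃ i j, p = ∑ k, (X (i, k) * C (A k j) - C (A i k) * X (k, j))}

theorem zeros_comm (D : Subalgebra ℚ (Matrix n n ℚ)) (L : Type*) [Field L] [CharZero L] :
    zeros (commEqs D) L = {M | IsUnit M.det} ∩ centralizer D L := by
  have hq : ∀ (M A : Matrix n n L) (B : Matrix n n ℚ) (i j : n), A = B.map (algebraMap ℚ L) →
      pev M (∑ k, (X (i, k) * C (B k j) - C (B i k) * X (k, j)) : MvPolynomial (n × n) ℚ) =
      (M * A - A * M) i j := by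
    rintro M _ B i j rfl
    simp only [map_sum, map_sub, map_mul, pev_C, pev_X, Matrix.sub_apply, Matrix.mul_apply,
      Matrix.map_apply, Finset.sum_sub_distrib]
  ext M
  constructor
  · rintro ⟨hM, hMp⟩
    refine ⟨hM, ?_⟩
    intro A hA
    rw [← sub_eq_zero]
    ext i j
    rw [← hq M _ A i j rfl]
    exact hMp _ ⟨A, hA, i, j, rfl⟩
  · rintro ⟨hM, hMc⟩
    refine ⟨hM, ?_⟩
    rintro _ ⟨A, hA, i, j, rfl⟩
    rw [hq M _ A i j rfl, hMc A hA, sub_self]
    rfl

/-- The Mumford-Tate group commutes with the endomorphisms. -/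
theorem mt_comm {D : Subalgebra ℚ (Matrix n n ℚ)} {J : Matrix n n ℝ} (hJ2 : J * J = -1)
    (hJ : J ∈ centralizer D ℝ) (K : Type*) [Field K] [CharZero K] :
    mumfordTate J K ⊆ centralizer D K := by
  intro M hM
  have h1 : M ∈ zeros (commEqs D) K := by
    apply hM
    · rw [IsAlgSubgroup, zeros_comm]
      refine ⟨⟨?_, ?_⟩, ?_, ?_⟩
      · rw [Set.mem_ofPred_eq, det_one]; exact isUnit_one
      · intro A hA; rw [one_mul, mul_one]
      · rintro Z ⟨hZ, hZc⟩ Y ⟨hY, hYc⟩
        refine ⟨?_, ?_⟩
        · rw [Set.mem_ofPred_eq, det_mul]; exact IsUnit.mul hZ hY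
        · intro A hA
          rw [mul_assoc, hYc A hA, ← mul_assoc, hZc A hA, mul_assoc]
      · rintro Z ⟨hZ, hZc⟩
        have e1 : Z * Z⁻¹ = 1 := mul_nonsing_inv Z hZ
        have e2 : Z⁻¹ * Z = 1 := nonsing_inv_mul Z hZ
        refine ⟨?_, ?_⟩
        · rw [Set.mem_ofPred_eq, det_nonsing_inv]; exact IsUnit.ringInverse hZ
        · intro A hA
          calc Z⁻¹ * A.map (algebraMap ℚ ℂ)
              = Z⁻¹ * (A.map (algebraMap ℚ ℂ) * Z) * Z⁻¹ := by
                rw [mul_assoc, mul_assoc, e1, mul_one]
            _ = Z⁻¹ * (Z * A.map (algebraMap ℚ ℂ)) * Z⁻¹ := by rw [hZc A hA]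
            _ = A.map (algebraMap ℚ ℂ) * Z⁻¹ := by rw [← mul_assoc Z⁻¹, e2, one_mul]
    · intro a b hab
      rw [zeros_comm]
      refine ⟨isUnit_abJ hJ2 a b hab, ?_⟩
      intro A hA
      have h1 : J * A.map (algebraMap ℚ ℝ) = A.map (algebraMap ℚ ℝ) * J := hJ A hA
      simp only [add_mul, mul_add, smul_mul_assoc, mul_smul_comm, one_mul, mul_one, h1]
  rw [zeros_comm] at h1
  exact h1.2

section split
variable {K : Type*} [Field K] {r : ℕ} {d : Fin r → ℕ}

/-- matrix units in a product of matrix algebras -/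
def mu (d : Fin r → ℕ) (K : Type*) [Field K] (i : Fin r) (a b : Fin (d i + 1)) :
    ∀ i, Matrix (Fin (d i + 1)) (Fin (d i + 1)) K :=
  Pi.single i (Matrix.single a b 1)

theorem mu_mul (i : Fin r) (a b c e : Fin (d i + 1)) :
    mu d K i a b * mu d K i c e = if b = c then mu d K i a e else 0 := by
  unfold mu
  rw [← Pi.single_mul]
  by_cases h : b = c
  · rw [h, if_pos rfl, Matrix.single_mul_single_same, mul_one]
  · rw [if_neg h, Matrix.single_mul_single_of_ne _ _ _ _ h, Pi.single_zero]

theorem mu_mul_ne {i j : Fin r} (hij : i ≠ j) (a b : Fin (d i + 1)) (c e : Fin (d j + 1)) :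
    mu d K i a b * mu d K j c e = 0 := by
  unfold mu
  ext k : 1
  rw [Pi.mul_apply]
  by_cases h : k = i
  · subst h
    rw [Pi.single_eq_of_ne hij, mul_zero]; rfl
  · rw [Pi.single_eq_of_ne h, zero_mul]; rfl

theorem mu_sum : ∑ k : (Σ i : Fin r, Fin (d i + 1)), mu d K k.1 k.2 k.2 = 1 := by
  rw [Fintype.sum_sigma]
  ext i : 1
  rw [Finset.sum_apply, Finset.sum_eq_single i]
  · rw [Finset.sum_apply]
    ext a b
    rw [Matrix.sum_apply]
    simp only [mu, Pi.single_eq_same, Matrix.single_apply, Pi.one_apply, Matrix.one_apply]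
    by_cases hab : a = b
    · subst hab
      rw [Finset.sum_eq_single a]
      · simp
      · intro c _ hc; rw [if_neg (fun h => hc h.1)]
      · intro h; exact absurd (Finset.mem_univ a) h
    · rw [if_neg hab]
      apply Finset.sum_eq_zero
      intro c _
      rw [if_neg (fun h => hab (h.1.symm.trans h.2))]
  · intro j _ hj
    rw [Finset.sum_apply]
    apply Finset.sum_eq_zero
    intro c _
    unfold mu
    exact Pi.single_eq_of_ne (Ne.symm hj) _
  · intro h; exact absurd (Finset.mem_univ i) h

theorem mu_transpose (i : Fin r) (a b : Fin (d i + 1)) :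
    (fun j => (mu d K i a b j)ᵀ) = mu d K i b a := by
  ext j : 1
  unfold mu
  by_cases h : j = i
  · subst h
    rw [Pi.single_eq_same, Pi.single_eq_same, Matrix.transpose_single]
  · rw [Pi.single_eq_of_ne h, Pi.single_eq_of_ne h, Matrix.transpose_zero]

theorem mu_span (z : ∀ i, Matrix (Fin (d i + 1)) (Fin (d i + 1)) K) :
    z = ∑ i, ∑ a, ∑ b, z i a b • mu d K i a b := by
  ext i : 1
  rw [Finset.sum_apply, Finset.sum_eq_single i]
  · rw [Finset.sum_apply]
    simp only [Finset.sum_apply, Pi.smul_apply, mu, Pi.single_eq_same]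
    conv_lhs => rw [Matrix.matrix_eq_sum_single (z i)]
    simp only [Matrix.smul_single, smul_eq_mul, mul_one]
  · intro j _ hj
    rw [Finset.sum_apply]
    apply Finset.sum_eq_zero
    intro a _
    rw [Finset.sum_apply]
    apply Finset.sum_eq_zero
    intro b _
    rw [Pi.smul_apply]
    unfold mu
    rw [Pi.single_eq_of_ne (Ne.symm hj), smul_zero]
  · intro h; exact absurd (Finset.mem_univ i) h

theorem mu_corner (z : ∀ i, Matrix (Fin (d i + 1)) (Fin (d i + 1)) K) (i : Fin r) :
    mu d K i 0 0 * z * mu d K i 0 0 = z i 0 0 • mu d K i 0 0 := by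
  ext j : 1
  unfold mu
  rw [Pi.mul_apply, Pi.mul_apply, Pi.smul_apply]
  by_cases h : j = i
  · subst h
    rw [Pi.single_eq_same]
    ext a b
    rw [Matrix.smul_apply, Matrix.mul_apply]
    simp only [Matrix.single_apply, Matrix.mul_apply]
    by_cases ha : (0 : Fin (d j + 1)) = a
    · by_cases hb : (0 : Fin (d j + 1)) = b
      · subst ha; subst hb
        simp
      · simp [hb]
    · simp [ha]
  · rw [Pi.single_eq_of_ne h, mul_zero, smul_zero]

theorem mu_ne_zero (i : Fin r) : mu d K i 0 0 ≠ 0 := by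
  intro h
  have h1 := congrFun (congrFun (congrFun h i) 0) 0
  unfold mu at h1
  rw [Pi.single_eq_same, Matrix.single_apply_same] at h1
  exact one_ne_zero h1

end split

theorem main3 {Γ R K : Type*} [Group Γ] [Field R] [CharZero R] [Field K] [CharZero K] [IsAlgClosed K]
    [Algebra R K] {E : Matrix n n ℚ} {J : Matrix n n ℝ} {D : Subalgebra ℚ (Matrix n n ℚ)}
    (hA : PolarizedBy E J D) (hD : OrthogonalType E D K) (ρ : Γ →* GL n R)
    (hρ : MotivicLike J D ρ K) (toric : ToricCondition D ρ K) :
    monodromy ρ K = mumfordTate J K ∧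
      mumfordTate J K = similitudes E K ∩ centralizer D K := by
  classical
  obtain ⟨hE, hdet, hJ, hJE, hJφ⟩ := hA
  obtain ⟨⟨Γ₀, hΓ₀, hdel⟩, faltings, cochars⟩ := hρ
  obtain ⟨r, d, f, hfi, hfr, hfadj⟩ := hD
  have h1 : monodromy ρ K ⊆ mumfordTate J K := deligne_le hdel hΓ₀
  have h2 : mumfordTate J K ⊆ similitudes E K := mt_le hJ hJE K
  have h2' : mumfordTate J K ⊆ centralizer D K := mt_comm hJ hJφ K
  have h3 : similitudes E K ∩ centralizer D K ⊆ monodromy ρ K := by
    rintro Y ⟨⟨hY, c, hYc⟩, hYφ⟩
    obtain ⟨Γ₁, hΓ₁, hG⟩ := exists_min (K := K) ρ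
    obtain ⟨E', hE'⟩ : ∃ E', E' = E.map (algebraMap ℚ K) := ⟨_, rfl⟩
    rw [← hE'] at hYc
    have hsub : imK ρ K Γ₁ ⊆ monodromy ρ K := by
      rw [hG]; exact subset_zcl (imK_unit ρ Γ₁)
    -- unipotents
    have hunip : ∀ γ : Γ, ((ρ γ : Matrix n n R) - 1) ^ 2 = 0 →
        ((ρ γ : Matrix n n R) - 1).map (algebraMap R K) * ((ρ γ : Matrix n n R) - 1).map (algebraMap R K) = 0 ∧
        ∀ t : K, 1 + t • ((ρ γ : Matrix n n R) - 1).map (algebraMap R K) ∈ monodromy ρ K := by
      intro γ hN2
      obtain ⟨N₀, hN₀⟩ : ∃ N₀, N₀ = (ρ γ : Matrix n n R) - 1 := ⟨_, rfl⟩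
      rw [← hN₀] at hN2 ⊢
      obtain ⟨N, hN⟩ : ∃ N, N = N₀.map (algebraMap R K) := ⟨_, rfl⟩
      rw [← hN]
      have hNN : N * N = 0 := by
        rw [hN, ← Matrix.map_mul, ← pow_two, hN2]; ext; simp
      have hpow : ∀ k : ℕ, ((ρ (γ ^ k) : GL n R) : Matrix n n R).map (algebraMap R K) =
          1 + (k : K) • N := by
        intro k
        have e1 : (ρ γ : Matrix n n R).map (algebraMap R K) = 1 + N := by
          have : (ρ γ : Matrix n n R) = 1 + N₀ := by rw [hN₀]; abel
          rw [this, Matrix.map_add _ (map_add _), Matrix.map_one _ (map_zero _) (map_one _), hN]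
        induction k with
        | zero =>
          rw [pow_zero, map_one, Units.val_one, Matrix.map_one _ (map_zero _) (map_one _)]; simp
        | succ k ih =>
          rw [pow_succ, map_mul, Units.val_mul, Matrix.map_mul, ih, e1, mul_add, mul_one, add_mul, one_mul,
            smul_mul_assoc, hNN]
          push_cast
          module
      refine ⟨hNN, ?_⟩
      intro t
      rw [hG]
      refine ⟨?_, ?_⟩
      · have h1 : (1 + t • N) * (1 - t • N) = 1 := by
          rw [mul_sub, mul_one, add_mul, one_mul, smul_mul_smul_comm, hNN, smul_zero, add_zero,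
            add_sub_cancel_right]
        have h2 := congrArg det h1
        rw [det_mul, det_one] at h2
        exact IsUnit.of_mul_eq_one _ h2
      · intro p hp
        obtain ⟨m, hm, -, hmΓ⟩ := Subgroup.exists_pow_mem_of_index_ne_zero hΓ₁.index_ne_zero γ
        have h4 : cev (lin 1 N) p = 0 := by
          apply Polynomial.eq_zero_of_infinite_isRoot
          apply Set.infinite_of_injective_forall_mem (f := fun k : ℕ => ((m * k : ℕ) : K))
          · intro a b hab
            have := Nat.cast_injective hab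
            exact Nat.eq_of_mul_eq_mul_left hm this
          · intro k
            change Polynomial.eval _ _ = 0
            rw [cev_eval, lin_eval, ← hpow]
            apply hp
            refine ⟨γ ^ (m * k), ?_, rfl⟩
            rw [pow_mul]
            exact Γ₁.pow_mem hmΓ k
        rw [← lin_eval, ← cev_eval, h4, Polynomial.eval_zero]
    have hspan : ∀ X : Matrix n n K, X ∈ centralizer D K → X ∈ Submodule.span K (monodromy ρ K) := by
      intro X hX
      have e1 : ∀ B : Matrix n n R, B ∈ centralizer D R →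
          B.map (algebraMap R K) ∈ Submodule.span K (monodromy ρ K) := by
        intro B hB
        have hB' : B ∈ Submodule.span R {X : Matrix n n R | ∃ γ ∈ Γ₁, X = (ρ γ : Matrix n n R)} :=
          faltings Γ₁ hΓ₁ B hB
        clear hB
        induction hB' using Submodule.span_induction with
        | mem x hx =>
          obtain ⟨δ, hδ, rfl⟩ := hx
          exact Submodule.subset_span (hsub ⟨δ, hδ, rfl⟩)
        | zero =>
          have : (0 : Matrix n n R).map (algebraMap R K) = 0 := by ext; simp
          rw [this]; exact Submodule.zero_mem _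
        | add x y _ _ hx hy =>
          rw [Matrix.map_add _ (map_add _)]; exact Submodule.add_mem _ hx hy
        | smul a x _ hx =>
          have : (a • x).map (algebraMap R K) = algebraMap R K a • x.map (algebraMap R K) := by
            ext i j; simp
          rw [this]; exact Submodule.smul_mem _ _ hx
      have e2 := comm_basechange (R := R) (C := (D : Set (Matrix n n ℚ))) (X := X) hX
      refine Submodule.span_le.mpr ?_ e2
      rintro _ ⟨Y, hY, rfl⟩
      exact e1 Y hY
    have hEdet : IsUnit E'.det := by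
      have h4 : IsUnit E.det := IsUnit.mk0 _ hdet
      have h5 := h4.map (algebraMap ℚ K)
      rw [RingHom.map_det, RingHom.mapMatrix_apply] at h5
      rw [hE']; exact h5
    have hEskew : E'ᵀ = -E' := by
      rw [hE', ← transpose_map, hE]
      ext; simp
    have hone : (1 : Matrix n n K) ∈ monodromy ρ K := hsub (imK_one ρ Γ₁)
    by_cases hr : r = 0
    · -- no blocks
      have h4 : (1 : ∀ i, Matrix (Fin (d i + 1)) (Fin (d i + 1)) K) = 0 := by
        ext i
        exact absurd (lt_of_lt_of_le i.2 (le_of_eq hr)) (Nat.not_lt_zero _)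
      have h5 : (1 : Matrix n n K) = 0 := by
        rw [← map_one f, h4, map_zero]
      have : Y = 1 := by rw [← mul_one Y, h5, mul_zero]
      rw [this]; exact hone
    have hne : Nonempty (Fin r) := ⟨⟨0, Nat.pos_of_ne_zero hr⟩⟩
    -- matrix units
    have hmem : ∀ z, f z ∈ extension D K := by
      intro z
      rw [← hfr]
      exact ⟨z, rfl⟩
    have hcx : ∀ Z : Matrix n n K, Z ∈ centralizer D K → ∀ X ∈ extension D K, Z * X = X * Z := by
      intro Z hZ X hX
      unfold extension at hX
      induction hX using Submodule.span_induction with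
      | mem x hx =>
        obtain ⟨δ, hδ, rfl⟩ := hx
        exact hZ δ hδ
      | zero => rw [mul_zero, zero_mul]
      | add x y _ _ hx hy => rw [mul_add, add_mul, hx, hy]
      | smul a x _ hx => rw [mul_smul_comm, smul_mul_assoc, hx]
    let x : (Σ i : Fin r, Fin (d i + 1)) → Matrix n n K := fun k => f (mu d K k.1 k.2 0)
    let y : (Σ i : Fin r, Fin (d i + 1)) → Matrix n n K := fun k => f (mu d K k.1 0 k.2)
    let k0 : Fin r → (Σ i : Fin r, Fin (d i + 1)) := fun i => ⟨i, 0⟩
    have hxy : ∀ (i : Fin r) (a b : Fin (d i + 1)), f (mu d K i a b) = x ⟨i, a⟩ * y ⟨i, b⟩ := by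
      intro i a b
      change _ = f _ * f _
      rw [← map_mul, mu_mul, if_pos rfl]
    have hce : ∀ Z : Matrix n n K, Z ∈ centralizer D K → ∀ k, Z * x k = x k * Z ∧ Z * y k = y k * Z :=
      fun Z hZ k => ⟨hcx Z hZ _ (hmem _), hcx Z hZ _ (hmem _)⟩
    have hec : ∀ Z : Matrix n n K, (∀ k, Z * x k = x k * Z ∧ Z * y k = y k * Z) →
        Z ∈ centralizer D K := by
      intro Z hZ δ hδ
      have h4 : δ.map (algebraMap ℚ K) ∈ LinearMap.range f.toLinearMap := by
        rw [hfr]
        exact Submodule.subset_span ⟨δ, hδ, rfl⟩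
      obtain ⟨z, hz⟩ := h4
      rw [← hz]
      change Z * f z = f z * Z
      rw [mu_span z, map_sum, Finset.mul_sum, Finset.sum_mul]
      apply Finset.sum_congr rfl
      intro i _
      rw [map_sum, Finset.mul_sum, Finset.sum_mul]
      apply Finset.sum_congr rfl
      intro a _
      rw [map_sum, Finset.mul_sum, Finset.sum_mul]
      apply Finset.sum_congr rfl
      intro b _
      rw [map_smul, mul_smul_comm, smul_mul_assoc, hxy, ← mul_assoc, (hZ ⟨i, a⟩).1, mul_assoc,
        (hZ ⟨i, b⟩).2, mul_assoc]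
    have m : Mor (bil E') Sigma.fst k0 (fun k => φm (x k)) (fun k => φm (y k)) := by
      refine ⟨fun i => rfl, fun i => rfl, ?_, ?_, ?_⟩
      · rintro ⟨i, a⟩ ⟨j, b⟩
        change φm (y ⟨i, a⟩) * φm (x ⟨j, b⟩) = _
        rw [← map_mul]
        change φm (f (mu d K i 0 a) * f (mu d K j b 0)) = _
        rw [← map_mul]
        by_cases hij : i = j
        · subst hij
          rw [mu_mul]
          by_cases hab : a = b
          · subst hab
            rw [if_pos rfl, if_pos rfl]
          · rw [if_neg hab, if_neg (fun h => hab (by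
              have := Sigma.mk.inj_iff.mp h
              exact eq_of_heq this.2)), map_zero, map_zero]
        · rw [mu_mul_ne hij, if_neg (fun h => hij (Sigma.mk.inj_iff.mp h).1), map_zero, map_zero]
      · have h4 : ∀ k : (Σ i : Fin r, Fin (d i + 1)), φm (x k) * φm (y k) = φm (f (mu d K k.1 k.2 k.2)) := by
          intro k
          rw [← map_mul, hxy]
        rw [Finset.sum_congr rfl (fun k _ => h4 k), ← map_sum, ← map_sum, mu_sum, map_one, map_one]
      · intro k u v
        change bil E' (φm (x k) u) v = bil E' u (φm (y k) v)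
        rw [φm_apply, φm_apply]
        have h4 := bil_mul E' (x k) 1 u v
        have h5 := bil_mul E' 1 (y k) u v
        rw [one_mulVec, mul_one] at h4
        rw [one_mulVec, transpose_one, one_mul] at h5
        rw [h4, h5]
        change bil ((f (mu d K k.1 k.2 0))ᵀ * E') u v = bil (E' * f (mu d K k.1 0 k.2)) u v
        rw [hE', hfadj, mu_transpose]
    have htor : ∀ i, ∃ N : Matrix n n K, N * N = 0 ∧ (∀ t : K, 1 + t • N ∈ monodromy ρ K) ∧
        (Odd (N * x (k0 i)).rank ∨ (N * x (k0 i)).rank = 2) := by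
      intro i
      obtain ⟨γ, hγ, hr⟩ := toric (x (k0 i)) (hmem _) (by
        intro h0
        exact mu_ne_zero (K := K) i (hfi (by rw [map_zero]; exact h0))) (by
        change f _ * f _ = f _
        rw [← map_mul, mu_mul, if_pos rfl]) (by
        intro X hX
        rw [← hfr] at hX
        obtain ⟨z, rfl⟩ := hX
        refine ⟨z i 0 0, ?_⟩
        change f _ * f z * f _ = _ • f _
        rw [← map_mul, ← map_mul, mu_corner, map_smul])
      obtain ⟨h4, h5⟩ := hunip γ hγ
      exact ⟨_, h4, h5, hr⟩
    have hnz : ∀ i, x (k0 i) ≠ 0 := by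
      intro i h0
      exact mu_ne_zero (K := K) i (hfi (by rw [map_zero]; exact h0))
    apply group_mor hEdet hEskew m hnz hne (G := monodromy ρ K) hone ?_ ?_ ?_
      (fun g hg => hce g (h2' (h1 hg))) cochars
      (fun X hX => hspan X (hec X hX)) htor hY hYc (hce Y hYφ)
    · rw [hG]
      intro a ha b hb
      exact zcl_mul (imK_mul ρ Γ₁) ha hb
    · intro M hM hMp
      rw [hG]
      refine ⟨hM, ?_⟩
      intro p hp
      apply hMp
      intro g hg
      rw [hG] at hg
      exact hg.2 p hp
    · intro g hg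
      have := (h2 (h1 hg)).2
      rw [← hE'] at this
      exact this
  have h4 : mumfordTate J K ⊆ similitudes E K ∩ centralizer D K := fun x hx => ⟨h2 hx, h2' hx⟩
  exact ⟨Set.eq_of_subset_of_subset h1 (h4.trans h3), Set.eq_of_subset_of_subset h4 (h3.trans h1)⟩

end Pool.Agent.Helper78_MT
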