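import Pool.Agent.Helper78_MT.StepG
import Pool.Agent.Helper78_MT.Transv

/-! Several blocks: reduction to each block, the operators `u ↦ ψ(v,u) v`. -/

set_option autoImplicit false
set_option linter.unusedSectionVars false
set_option linter.unusedSimpArgs false

namespace Pool.Agent.Helper78_MT

open Module LinearMap

variable {K V ι : Type*} [Field K] [CharZero K] [AddCommGroup V] [Module K V]
  [FiniteDimensional K V] [Fintype ι] [DecidableEq ι]

/-- An orthogonal decomposition of a symplectic space, given by idempotents, and a Lie algebra of skew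
endomorphisms preserving it, whose elements `h` with `h² = 1/4` act irreducibly on the blocks and have
no isomorphisms between different blocks. -/
structure Blk (ψ : V →ₗ[K] V →ₗ[K] K) (ε : ι → End K V) (g : Submodule K (End K V)) : Prop where
  br : BrClosed g
  sp : ∀ X ∈ g, ∀ u v, ψ (X u) v = -ψ u (X v)
  nψ : ∀ u, (∀ v, ψ u v = 0) → u = 0
  skew : ∀ u v, ψ u v = -ψ v u
  idem : ∀ i, ε i * ε i = ε i
  orth : ∀ i j, i ≠ j → ε i * ε j = 0
  one : ∑ i, ε i = 1
  adj : ∀ i u v, ψ (ε i u) v = ψ u (ε i v)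
  comm : ∀ i, ∀ X ∈ g, X * ε i = ε i * X
  nz : ∀ i, ε i ≠ 0
  irr : ∀ U : Submodule K V, (∀ h ∈ g, h * h = (1 / 4 : K) • 1 → ∀ u ∈ U, h u ∈ U) →
    ∀ i, (∀ v, ε i v ∈ U) ∨ (∀ u ∈ U, ε i u = 0)

/-- restriction and corestriction to the range of an idempotent -/
noncomputable def res (e : End K V) : End K V →ₗ[K] End K (range e) where
  toFun X := e.rangeRestrict ∘ₗ X ∘ₗ (range e).subtype
  map_add' X Y := by rw [LinearMap.add_comp, LinearMap.comp_add]
  map_smul' a X := by rw [LinearMap.smul_comp, LinearMap.comp_smul]; rfl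

theorem res_apply (e : End K V) (X : End K V) (w : range e) : (res e X w : V) = e (X w) := rfl

theorem range_fix {e : End K V} (he : e * e = e) (w : range e) : e w = w := by
  obtain ⟨w, v, rfl⟩ := w
  change e (e v) = e v
  rw [← Module.End.mul_apply, he]

theorem res_mul {e : End K V} (he : e * e = e) {X Y : End K V} (hY : Y * e = e * Y) :
    res e (X * Y) = res e X * res e Y := by
  ext w
  rw [Module.End.mul_apply, res_apply, res_apply, res_apply]
  have h1 : e (Y w) = Y w := by
    rw [← Module.End.mul_apply, ← hY, Module.End.mul_apply, range_fix he]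
  rw [h1]; rfl

theorem res_one {e : End K V} (he : e * e = e) : res e (1 : End K V) = 1 := by
  ext w
  rw [res_apply]
  change e w = w
  exact range_fix he w

namespace Blk
variable {ψ : V →ₗ[K] V →ₗ[K] K} {ε : ι → End K V} {g : Submodule K (End K V)}

theorem orthψ (b : Blk ψ ε g) {i j : ι} (hij : i ≠ j) {u v : V} (hu : ε i u = u) (hv : ε j v = v) :
    ψ u v = 0 := by
  rw [← hu, b.adj, ← hv, ← Module.End.mul_apply, b.orth i j hij]; simp

/-- the block Lie algebra is everything -/
theorem surj [IsAlgClosed K] (b : Blk ψ ε g) {N : End K V} (hN : N ∈ g) (hN2 : N * N = 0) {i : ι}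
    (hr : Odd (rk (N * ε i)) ∨ rk (N * ε i) = 2) {C : End K V}
    (hC : ∀ u v, ψ (C u) v = -ψ u (C v)) (hCε : C * ε i = ε i * C) :
    ∃ X ∈ g, X * ε i = C * ε i := by
  have he := b.idem i
  let ψW : range (ε i) →ₗ[K] range (ε i) →ₗ[K] K := ψ.domRestrict₁₂ (range (ε i)) (range (ε i))
  have hψW : ∀ u v : range (ε i), ψW u v = ψ (u : V) (v : V) := fun u v => rfl
  let gW : Submodule K (End K (range (ε i))) := g.map (res (ε i))
  have hskew : ∀ X : End K V, (∀ u v, ψ (X u) v = -ψ u (X v)) → ∀ u v, ψW (res (ε i) X u) v =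
      -ψW u (res (ε i) X v) := by
    intro X hX u v
    rw [hψW, hψW, res_apply, res_apply, b.adj, range_fix he, hX, ← b.adj, range_fix he]
  have h1 : BrClosed gW := by
    rintro _ ⟨X, hX, rfl⟩ _ ⟨Y, hY, rfl⟩
    refine ⟨X * Y - Y * X, b.br X hX Y hY, ?_⟩
    rw [map_sub, res_mul he (b.comm i Y hY), res_mul he (b.comm i X hX)]
  have h2 : ∀ X ∈ gW, ∀ u v, ψW (X u) v = -ψW u (X v) := by
    rintro _ ⟨X, hX, rfl⟩ u v
    exact hskew X (b.sp X hX) u v
  have h3 : ∀ u, (∀ v, ψW u v = 0) → u = 0 := by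
    intro u hu
    apply Subtype.ext
    apply b.nψ
    intro v
    rw [← range_fix he u, b.adj]
    exact hu ⟨ε i v, v, rfl⟩
  have h4 : ∀ u v, ψW u v = -ψW v u := fun u v => b.skew _ _
  have h5 : ∀ U : Submodule K (range (ε i)), (∀ h ∈ gW, h * h = (1 / 4 : K) • 1 →
      ∀ u ∈ U, h u ∈ U) → U = ⊥ ∨ U = ⊤ := by
    intro U hU
    rcases b.irr (U.map (range (ε i)).subtype) (by
      rintro h hh hh2 _ ⟨u, hu, rfl⟩
      refine ⟨res (ε i) h u, hU _ ⟨h, hh, rfl⟩ ?_ u hu, ?_⟩
      · rw [← res_mul he (b.comm i h hh), hh2, map_smul, res_one he]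
      · change (res (ε i) h u : V) = h u
        rw [res_apply, ← Module.End.mul_apply, ← b.comm i h hh, Module.End.mul_apply, range_fix he])
      i with h | h
    · right
      rw [eq_top_iff]
      intro w _
      obtain ⟨u, hu, hu2⟩ := h w
      have : u = w := by
        apply Subtype.ext
        rw [← range_fix he w]; exact hu2
      rw [← this]; exact hu
    · left
      rw [eq_bot_iff]
      intro u hu
      rw [Submodule.mem_bot]
      apply Subtype.ext
      have := h u ⟨u, hu, rfl⟩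
      rw [range_fix he] at this
      exact this
  have h6 : rk (res (ε i) N) = rk (N * ε i) := by
    unfold rk
    have e1 : range (N * ε i) = (range (res (ε i) N)).map (range (ε i)).subtype := by
      ext x
      constructor
      · rintro ⟨v, rfl⟩
        refine ⟨res (ε i) N ⟨ε i v, v, rfl⟩, ⟨_, rfl⟩, ?_⟩
        change (res (ε i) N ⟨ε i v, v, rfl⟩ : V) = _
        rw [res_apply, ← Module.End.mul_apply, ← b.comm i N hN, Module.End.mul_apply]
        change N (ε i (ε i v)) = _
        rw [← Module.End.mul_apply (ε i), he]; rfl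
      · rintro ⟨_, ⟨w, rfl⟩, rfl⟩
        refine ⟨w, ?_⟩
        change _ = (res (ε i) N w : V)
        rw [res_apply, ← Module.End.mul_apply (ε i), ← b.comm i N hN]
    rw [e1]
    exact (Submodule.finrank_map_subtype_eq _ _).symm
  have h7 := lie_main h1 h2 h3 h4 h5 (N := res (ε i) N) ⟨N, hN, rfl⟩
    (by rw [← res_mul he (b.comm i N hN), hN2, map_zero]) (by rw [h6]; exact hr)
    (C := res (ε i) C) (hskew C hC)
  obtain ⟨X, hX, hXC⟩ := h7
  refine ⟨X, hX, ?_⟩
  ext v
  have h8 := congrArg (fun T : End K (range (ε i)) => (T ⟨ε i v, v, rfl⟩ : V)) hXC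
  change ε i (X (ε i v)) = ε i (C (ε i v)) at h8
  rw [Module.End.mul_apply, Module.End.mul_apply]
  have h9 : ∀ T : End K V, T * ε i = ε i * T → ε i (T (ε i v)) = T (ε i v) := by
    intro T hT
    rw [← Module.End.mul_apply, ← Module.End.mul_apply, ← hT, mul_assoc, he, Module.End.mul_apply]
  rw [h9 X (b.comm i X hX), h9 C hCε] at h8
  exact h8

end Blk

/-- the operator `u ↦ ψ(v,u) v` -/
noncomputable abbrev tv (ψ : V →ₗ[K] V →ₗ[K] K) (v : V) : End K V := r1 ψ v v

theorem tv_apply (ψ : V →ₗ[K] V →ₗ[K] K) (v u : V) : tv ψ v u = ψ v u • v := rfl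

theorem tv_sp {ψ : V →ₗ[K] V →ₗ[K] K} (skew : ∀ u v, ψ u v = -ψ v u) (v x y : V) :
    ψ (tv ψ v x) y = -ψ x (tv ψ v y) := by
  simp only [tv_apply, map_smul, LinearMap.smul_apply, smul_eq_mul]
  rw [skew x v]; ring

namespace Blk
variable {ψ : V →ₗ[K] V →ₗ[K] K} {ε : ι → End K V} {g : Submodule K (End K V)}

theorem tv_mul (b : Blk ψ ε g) {i : ι} {v : V} (hv : ε i v = v) : tv ψ v * ε i = tv ψ v := by
  ext u
  rw [Module.End.mul_apply, tv_apply, tv_apply, ← b.adj, hv]

theorem mul_tv (_ : Blk ψ ε g) {i : ι} {v : V} (hv : ε i v = v) : ε i * tv ψ v = tv ψ v := by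
  ext u
  rw [Module.End.mul_apply, tv_apply, map_smul, hv]

theorem tv_mul0 (b : Blk ψ ε g) {i j : ι} (hij : i ≠ j) {v : V} (hv : ε i v = v) :
    tv ψ v * ε j = 0 := by
  rw [← b.tv_mul hv, mul_assoc, b.orth i j hij, mul_zero]

theorem tv_comm (b : Blk ψ ε g) {i : ι} {v : V} (hv : ε i v = v) (j : ι) :
    tv ψ v * ε j = ε j * tv ψ v := by
  by_cases hij : i = j
  · rw [← hij, b.tv_mul hv, b.mul_tv hv]
  · rw [b.tv_mul0 hij hv, ← b.mul_tv hv, ← mul_assoc, b.orth j i (Ne.symm hij), zero_mul]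

end Blk

/-- skew operators are combinations of the operators `tv`: the block version -/
theorem span_tv {ψ : V →ₗ[K] V →ₗ[K] K} (nψ : ∀ u, (∀ v, ψ u v = 0) → u = 0)
    (skew : ∀ u v, ψ u v = -ψ v u) {e : End K V} (he : e * e = e) (adj : ∀ u v, ψ (e u) v = ψ u (e v))
    {a : Submodule K (End K V)} (ha : ∀ v, e v = v → tv ψ v ∈ a) {C : End K V}
    (hC : ∀ u v, ψ (C u) v = -ψ u (C v)) (hCe : C * e = e * C) : C * e ∈ a := by
  let B : LinearMap.BilinForm K V := ψ
  have hB : B.Nondegenerate := by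
    refine ⟨nψ, ?_⟩
    intro y hy
    apply nψ
    intro v
    rw [skew, hy v, neg_zero]
  let bs := Module.finBasis K V
  let f := B.dualBasis hB bs
  have hf : ∀ u, u = ∑ k, ψ (f k) u • bs k := by
    intro u
    have h1 := bs.sum_repr u
    conv_lhs => rw [← h1]
    apply Finset.sum_congr rfl
    intro k _
    congr 1
    have h2 : ψ (f k) u = ψ (f k) (∑ l, bs.repr u l • bs l) := by rw [h1]
    rw [h2, map_sum]
    simp only [map_smul, smul_eq_mul]
    have h3 : ∀ l, ψ (f k) (bs l) = if l = k then 1 else 0 := fun l => B.apply_dualBasis_left hB bs k l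
    simp only [h3]
    simp
  have hsk : ∀ u v, ψ ((C * e) u) v = -ψ u ((C * e) v) := by
    intro u v
    rw [Module.End.mul_apply, hC, adj, ← Module.End.mul_apply e C, ← hCe]
  have h1 : C * e = ∑ k, r1 ψ (e (f k)) (C (e (bs k))) := by
    ext u
    rw [LinearMap.sum_apply]
    simp only [r1_apply]
    have h2 : (C * e) u = (C * e) (e u) := by
      rw [← Module.End.mul_apply, mul_assoc, he]
    rw [h2]
    conv_lhs => rw [hf (e u)]
    rw [map_sum]
    apply Finset.sum_congr rfl
    intro k _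
    rw [map_smul, ← adj]; rfl
  have h1' : ∀ u, (C * e) u = ∑ k, ψ (e (f k)) u • C (e (bs k)) := by
    intro u
    rw [h1, LinearMap.sum_apply]
    simp only [r1_apply]
  have h2 : ∀ u, (C * e) u = ∑ k, ψ (C (e (bs k))) u • e (f k) := by
    intro u
    apply eq_of_sub_eq_zero
    apply nψ
    intro v
    rw [map_sub, LinearMap.sub_apply, hsk, h1' v, map_sum, map_sum, LinearMap.sum_apply,
      ← Finset.sum_neg_distrib, ← Finset.sum_sub_distrib]
    apply Finset.sum_eq_zero
    intro k _
    simp only [map_smul, LinearMap.smul_apply, smul_eq_mul]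
    rw [skew u]
    ring
  have h3 : C * e = (1 / 2 : K) • ∑ k, (tv ψ (e (f k) + C (e (bs k))) - tv ψ (e (f k)) -
      tv ψ (C (e (bs k)))) := by
    ext u
    have e1 : (C * e) u = (1 / 2 : K) • ((C * e) u + (C * e) u) := by module
    rw [e1]
    nth_rewrite 1 [h1' u]
    rw [h2 u, ← Finset.sum_add_distrib, LinearMap.smul_apply, LinearMap.sum_apply]
    congr 1
    apply Finset.sum_congr rfl
    intro k _
    simp only [LinearMap.sub_apply, tv_apply, map_add, LinearMap.add_apply]
    module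
  rw [h3]
  apply a.smul_mem
  apply a.sum_mem
  intro k _
  have h4 : e (e (f k)) = e (f k) := by rw [← Module.End.mul_apply, he]
  have h5 : e (C (e (bs k))) = C (e (bs k)) := by
    rw [← Module.End.mul_apply, ← Module.End.mul_apply, ← hCe, mul_assoc, he, Module.End.mul_apply]
  exact a.sub_mem (a.sub_mem (ha _ (by rw [map_add, h4, h5])) (ha _ h4)) (ha _ h5)

end Pool.Agent.Helper78_MT
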