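import Pool.Agent.Helper78_MT.Blk1

/-! Several blocks: separation of two blocks, and the main statement. -/

set_option autoImplicit false
set_option linter.unusedSectionVars false
set_option linter.unusedSimpArgs false

namespace Pool.Agent.Helper78_MT

open Module LinearMap

section alg
variable {K A : Type*} [Field K] [CharZero K] [Ring A] [Algebra K A]

/-- double bracket -/
def DB (X Y : A) : A := X * (X * Y - Y * X) - (X * Y - Y * X) * X

theorem DB_eq {X Y : A} (h : X * X = 0) : DB X Y = -(2 * (X * Y * X)) := by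
  unfold DB
  have : X * (X * Y - Y * X) - (X * Y - Y * X) * X = X * X * Y - 2 * (X * Y * X) + Y * (X * X) := by
    noncomm_ring
  rw [this, h]; simp

theorem mul_e {X Y e : A} (he : e * e = e) (hY : Y * e = e * Y) :
    X * Y * e = (X * e) * (Y * e) := by
  symm
  calc X * e * (Y * e) = X * (e * Y) * e := by simp only [mul_assoc]
    _ = X * (Y * e) * e := by rw [hY]
    _ = X * Y * (e * e) := by simp only [mul_assoc]
    _ = X * Y * e := by rw [he]

theorem sub_e {X Y e : A} (he : e * e = e) (hX : X * e = e * X) (hY : Y * e = e * Y) :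
    (X * Y - Y * X) * e = (X * e) * (Y * e) - (Y * e) * (X * e) := by
  rw [sub_mul, mul_e he hY, mul_e he hX]

theorem comm_sub {X Y e : A} (hX : X * e = e * X) (hY : Y * e = e * Y) :
    (X * Y - Y * X) * e = e * (X * Y - Y * X) := by
  rw [sub_mul, mul_sub, mul_assoc, hY, ← mul_assoc, hX, mul_assoc, mul_assoc Y X e, hX, ← mul_assoc Y e X, hY,
    mul_assoc]

theorem DB_e {X Y e : A} (he : e * e = e) (hX : X * e = e * X) (hY : Y * e = e * Y) :
    DB X Y * e = DB (X * e) (Y * e) := by
  unfold DB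
  rw [sub_e he hX (comm_sub hX hY), sub_e he hX hY]

theorem sq0 {h x : A} (hh : h * h = (1 / 4 : K) • 1) (hx : h * x - x * h = x) : x * x = 0 := by
  have e1 : h * (h * x - x * h) = (1 / 4 : K) • x - h * x * h := by
    rw [mul_sub, ← mul_assoc, hh, smul_mul_assoc, one_mul, mul_assoc]
  have e2 : (h * x - x * h) * h = h * x * h - (1 / 4 : K) • x := by
    rw [sub_mul, mul_assoc x h h, hh, mul_smul_comm, mul_one]
  rw [hx] at e1 e2
  have e3 : h * x + x * h = 0 := by rw [e1, e2]; abel
  have e4 : x * (h * x + x * h) = 0 := by rw [e3, mul_zero]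
  have e5 : x * (h * x - x * h) = x * x := by rw [hx]
  have e6 : (h * x - x * h) * x = x * x := by rw [hx]
  have e7 : (h * x + x * h) * x = 0 := by rw [e3, zero_mul]
  have e8 : x * x + x * x = 0 := by
    calc x * x + x * x = x * (h * x - x * h) + (h * x - x * h) * x := by rw [e5, e6]
      _ = (h * x + x * h) * x - x * (h * x + x * h) + (x * (h * x + x * h) - (h * x + x * h) * x)
          + (h * x * x - x * x * h) := by noncomm_ring
      _ = h * x * x - x * x * h := by rw [e4, e7]; simp
      _ = (h * x + x * h) * x - x * (h * x + x * h) := by noncomm_ring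
      _ = 0 := by rw [e4, e7]; simp
  have e9 : (2 : K) • (x * x) = 0 := by rw [two_smul]; exact e8
  exact (smul_eq_zero.mp e9).resolve_left two_ne_zero

end alg

variable {K V ι : Type*} [Field K] [CharZero K] [AddCommGroup V] [Module K V]
  [FiniteDimensional K V] [Fintype ι] [DecidableEq ι]
variable {ψ : V →ₗ[K] V →ₗ[K] K} {ε : ι → End K V} {g : Submodule K (End K V)}

/-- every skew operator is induced on the block `i` by an element of `g` -/
def Onto (ψ : V →ₗ[K] V →ₗ[K] K) (ε : ι → End K V) (g : Submodule K (End K V)) : Prop :=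
  ∀ i, ∀ C : End K V, (∀ u v, ψ (C u) v = -ψ u (C v)) → C * ε i = ε i * C → ∃ X ∈ g, X * ε i = C * ε i

theorem tv_sq (skew : ∀ u v, ψ u v = -ψ v u) (v : V) : tv ψ v * tv ψ v = 0 := r1_sq skew v

theorem tv_sandwich (v : V) (Z : End K V) : tv ψ v * Z * tv ψ v = (ψ v (Z v)) • tv ψ v := by
  ext u
  simp only [Module.End.mul_apply, tv_apply, map_smul, LinearMap.smul_apply]
  rw [smul_comm]

theorem tv_ne (nψ : ∀ u, (∀ v, ψ u v = 0) → u = 0) {v : V} (hv : v ≠ 0) : tv ψ v ≠ 0 := by
  intro h
  obtain ⟨u, hu⟩ : ∃ u, ψ v u ≠ 0 := by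
    by_contra hcon
    push Not at hcon
    exact hv (nψ v hcon)
  have := congrArg (fun T : End K V => T u) h
  change ψ v u • v = 0 at this
  rcases smul_eq_zero.mp this with h1 | h1
  · exact hu h1
  · exact hv h1

namespace Blk

theorem ideal_all (b : Blk ψ ε g) (S : Onto ψ ε g) {i j : ι} {X : End K V} (hX : X ∈ g)
    (hXj : X * ε j = 0) (hXi : X * ε i ≠ 0) (w : V) (hw : ε i w = w) :
    ∃ Y ∈ g, Y * ε j = 0 ∧ Y * ε i = tv ψ w := by
  have hi := b.idem i
  have hj := b.idem j
  let a : Submodule K (End K V) :=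
    { carrier := {Z | ∃ Y ∈ g, Y * ε j = 0 ∧ Y * ε i = Z}
      add_mem' := by
        rintro _ _ ⟨Y, hY, h1, rfl⟩ ⟨Z, hZ, h2, rfl⟩
        exact ⟨Y + Z, g.add_mem hY hZ, by rw [add_mul, h1, h2, add_zero], by rw [add_mul]⟩
      zero_mem' := ⟨0, g.zero_mem, by rw [zero_mul], by rw [zero_mul]⟩
      smul_mem' := by
        rintro s _ ⟨Y, hY, h1, rfl⟩
        exact ⟨s • Y, g.smul_mem _ hY, by rw [smul_mul_assoc, h1, smul_zero], by rw [smul_mul_assoc]⟩ }
  have hbr : ∀ v, ε i v = v → ∀ Z ∈ a, tv ψ v * Z - Z * tv ψ v ∈ a := by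
    rintro v hv _ ⟨Y, hY, h1, rfl⟩
    obtain ⟨T, hT, hTi⟩ := S i (tv ψ v) (tv_sp b.skew v) (b.tv_comm hv i)
    rw [b.tv_mul hv] at hTi
    refine ⟨T * Y - Y * T, b.br T hT Y hY, ?_, ?_⟩
    · rw [sub_e hj (b.comm j T hT) (b.comm j Y hY), h1, mul_zero, zero_mul, sub_zero]
    · rw [sub_e hi (b.comm i T hT) (b.comm i Y hY), hTi]
  obtain ⟨Z, hZ⟩ : ∃ Z, Z = X * ε i := ⟨_, rfl⟩
  have hZa : Z ∈ a := ⟨X, hX, hXj, hZ.symm⟩
  have hq : ∀ v, ε i v = v → ψ v (Z v) ≠ 0 → tv ψ v ∈ a := by
    intro v hv hvq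
    have h1 := hbr v hv _ (hbr v hv _ hZa)
    have h2 : tv ψ v * (tv ψ v * Z - Z * tv ψ v) - (tv ψ v * Z - Z * tv ψ v) * tv ψ v =
        (-2 * ψ v (Z v)) • tv ψ v := by
      have h3 := DB_eq (X := tv ψ v) (Y := Z) (tv_sq b.skew v)
      unfold DB at h3
      rw [h3, tv_sandwich, two_mul]; module
    rw [h2] at h1
    exact mem_of_smul (mul_ne_zero (by norm_num) hvq) h1
  have hZsk : ∀ u v, ψ (Z u) v = -ψ u (Z v) := by
    intro u v
    rw [hZ, Module.End.mul_apply, b.sp X hX, b.adj, ← Module.End.mul_apply (ε i) X, ← b.comm i X hX]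
  have hsym : ∀ u v, ψ v (Z u) = ψ u (Z v) := by
    intro u v
    have := hZsk v u
    rw [b.skew (Z v) u] at this
    linear_combination this
  obtain ⟨v, hv, hvq⟩ : ∃ v, ε i v = v ∧ ψ v (Z v) ≠ 0 := by
    by_contra hcon
    push Not at hcon
    apply hXi
    rw [← hZ]
    have hfix : ∀ u, ε i (ε i u) = ε i u := fun u => by rw [← Module.End.mul_apply, hi]
    have h1 : ∀ u v, ψ (ε i u) (Z (ε i v)) = 0 := by
      intro u v
      have h2 := hcon (ε i u + ε i v) (by rw [map_add, hfix, hfix])
      rw [map_add, map_add, map_add, LinearMap.add_apply, LinearMap.add_apply, hcon _ (hfix u),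
        hcon _ (hfix v), hsym (ε i u) (ε i v)] at h2
      have h3 : (2 : K) * ψ (ε i u) (Z (ε i v)) = 0 := by linear_combination h2
      exact (mul_eq_zero.mp h3).resolve_left two_ne_zero
    ext v
    apply b.nψ
    intro u
    have h4 : Z v = ε i (Z (ε i v)) := by
      rw [hZ]
      change X (ε i v) = ε i (X (ε i (ε i v)))
      rw [hfix, ← Module.End.mul_apply (ε i) X, ← b.comm i X hX, Module.End.mul_apply, hfix]
    rw [h4, b.skew, ← b.adj, h1, neg_zero]
  suffices h : tv ψ w ∈ a by
    obtain ⟨Y, hY, h1, h2⟩ := h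
    exact ⟨Y, hY, h1, h2⟩
  by_cases hwq : ψ w (Z w) = 0
  · -- choose a multiple of `v`
    have key : ∀ c : K, c ≠ 0 → c * ψ v (Z v) + 2 * ψ w (Z v) ≠ 0 → c * ψ v (Z v) - 2 * ψ w (Z v) ≠ 0 →
        tv ψ w ∈ a := by
      intro c hc h1 h2
      have e1 : tv ψ (w + c • v) ∈ a := by
        apply hq
        · rw [map_add, map_smul, hw, hv]
        · simp only [map_add, map_smul, LinearMap.add_apply, LinearMap.smul_apply, smul_eq_mul]
          rw [hwq, hsym w v]
          have : 0 + c * ψ w (Z v) + (c * ψ w (Z v) + c * (c * ψ v (Z v))) =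
            c * (c * ψ v (Z v) + 2 * ψ w (Z v)) := by ring
          intro h3
          apply mul_ne_zero hc h1
          linear_combination h3
      have e2 : tv ψ (w - c • v) ∈ a := by
        apply hq
        · rw [map_sub, map_smul, hw, hv]
        · simp only [map_sub, map_smul, LinearMap.sub_apply, LinearMap.smul_apply, smul_eq_mul]
          rw [hwq, hsym w v]
          intro h3
          apply mul_ne_zero hc h2
          linear_combination h3
      have e3 : tv ψ w = (1 / 2 : K) • (tv ψ (w + c • v) + tv ψ (w - c • v)) - (c * c) • tv ψ v := by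
        ext u
        simp only [LinearMap.sub_apply, LinearMap.smul_apply, LinearMap.add_apply, tv_apply, map_add,
          map_sub, map_smul, smul_eq_mul]
        module
      rw [e3]
      exact a.sub_mem (a.smul_mem _ (a.add_mem e1 e2)) (a.smul_mem _ (hq v hv hvq))
    by_cases h1 : 1 * ψ v (Z v) + 2 * ψ w (Z v) = 0
    · apply key 2 two_ne_zero
      · intro h2; apply hvq; linear_combination h2 - h1
      · intro h2
        apply hvq
        linear_combination (1 / 3 : K) * h2 + (1 / 3 : K) * h1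
    · by_cases h2 : 1 * ψ v (Z v) - 2 * ψ w (Z v) = 0
      · apply key 2 two_ne_zero
        · intro h3
          apply hvq
          linear_combination (1 / 3 : K) * h3 + (1 / 3 : K) * h2
        · intro h3; apply hvq; linear_combination h3 - h2
      · exact key 1 one_ne_zero h1 h2
  · exact hq w hw hwq

end Blk

end Pool.Agent.Helper78_MT
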