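import Pool.Agent.Helper78_MT.Blk2

/-! Separation of two blocks. -/

set_option autoImplicit false
set_option linter.unusedSectionVars false
set_option linter.unusedSimpArgs false

namespace Pool.Agent.Helper78_MT

open Module LinearMap

variable {K V ι : Type*} [Field K] [CharZero K] [AddCommGroup V] [Module K V]
  [FiniteDimensional K V] [Fintype ι] [DecidableEq ι]
variable {ψ : V →ₗ[K] V →ₗ[K] K} {ε : ι → End K V} {g : Submodule K (End K V)}

namespace Blk

theorem nzv (b : Blk ψ ε g) (i : ι) : ∃ v, ε i v = v ∧ v ≠ 0 := by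
  by_contra hcon
  push Not at hcon
  apply b.nz i
  ext u
  exact hcon (ε i u) (by rw [← Module.End.mul_apply, b.idem])

theorem nondeg_i (b : Blk ψ ε g) {i : ι} {v : V} (hv : ε i v = v) (hv0 : v ≠ 0) :
    ∃ w, ε i w = w ∧ ψ v w ≠ 0 := by
  by_contra hcon
  push Not at hcon
  apply hv0
  apply b.nψ
  intro w
  rw [← hv, b.adj]
  exact hcon _ (by rw [← Module.End.mul_apply, b.idem])

/-- eigenvectors of `h` in a block, dual to each other -/
theorem eigen (b : Blk ψ ε g) {h : End K V} (hh : h ∈ g) (hh2 : h * h = (1 / 4 : K) • 1) (i : ι) :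
    ∃ v v', ε i v = v ∧ ε i v' = v' ∧ h v = (1 / 2 : K) • v ∧ h v' = (-(1 / 2) : K) • v' ∧ ψ v v' = 1 := by
  have hfix : ∀ u, ε i (ε i u) = ε i u := fun u => by rw [← Module.End.mul_apply, b.idem]
  have hhh : ∀ u, h (h u) = (1 / 4 : K) • u := by
    intro u
    rw [← Module.End.mul_apply, hh2]; rfl
  have hcomm : ∀ u, ε i (h u) = h (ε i u) := by
    intro u
    rw [← Module.End.mul_apply, ← b.comm i h hh, Module.End.mul_apply]
  obtain ⟨v, hv, hv1, hv0⟩ : ∃ v, ε i v = v ∧ h v = (1 / 2 : K) • v ∧ v ≠ 0 := by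
    by_contra hcon
    push Not at hcon
    obtain ⟨u, hu, hu0⟩ := b.nzv i
    obtain ⟨w, hw, huw⟩ := b.nondeg_i hu hu0
    have h1 : ∀ x, ε i x = x → h x = (-(1 / 2) : K) • x := by
      intro x hx
      have h2 := hcon ((1 / 2 : K) • x + h x) (by rw [map_add, map_smul, hcomm, hx]) (by
        rw [map_add, map_smul, hhh]; module)
      have h3 : h x = ((1 / 2 : K) • x + h x) - (1 / 2 : K) • x := by abel
      rw [h3, h2]; module
    have h2 := b.sp h hh u w
    rw [h1 u hu, h1 w hw] at h2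
    simp only [map_smul, LinearMap.smul_apply, smul_eq_mul] at h2
    apply huw
    linear_combination -h2
  obtain ⟨z, hz, hvz⟩ := b.nondeg_i hv hv0
  obtain ⟨x, hx⟩ : ∃ x, x = (1 / 2 : K) • z - h z := ⟨_, rfl⟩
  have hx1 : ε i x = x := by rw [hx, map_sub, map_smul, hcomm, hz]
  have hx2 : h x = (-(1 / 2) : K) • x := by rw [hx, map_sub, map_smul, hhh]; module
  have hx3 : ψ v x = ψ v z := by
    have h4 := b.sp h hh v z
    rw [hv1, map_smul, LinearMap.smul_apply, smul_eq_mul] at h4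
    rw [hx, map_sub, map_smul, smul_eq_mul]
    linear_combination -h4
  refine ⟨v, (ψ v z)⁻¹ • x, hv, ?_, hv1, ?_, ?_⟩
  · rw [map_smul, hx1]
  · rw [map_smul, hx2, smul_comm]
  · rw [map_smul, hx3, smul_eq_mul, inv_mul_cancel₀ hvz]

theorem pair [IsAlgClosed K] (b : Blk ψ ε g) (S : Onto ψ ε g)
    {h : End K V} (hh : h ∈ g) (hh2 : h * h = (1 / 4 : K) • 1) {i j : ι} (hij : i ≠ j)
    (w₀ : V) (hw₀ : ε i w₀ = w₀) : ∃ Y ∈ g, Y * ε j = 0 ∧ Y * ε i = tv ψ w₀ := by
  by_contra Hcon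
  have hi := b.idem i
  have hj := b.idem j
  have H1 : ∀ X ∈ g, X * ε j = 0 → X * ε i = 0 := by
    intro X hX hXj
    by_contra hXi
    exact Hcon (b.ideal_all S hX hXj hXi w₀ hw₀)
  have H2 : ∀ X ∈ g, X * ε i = 0 → X * ε j = 0 := by
    intro X hX hXi
    by_contra hXj
    have h1 := b.ideal_all S hX hXi hXj
    obtain ⟨v, hv, hv0⟩ := b.nzv i
    obtain ⟨T, hT, hTi⟩ := S i (tv ψ v) (tv_sp b.skew v) (b.tv_comm hv i)
    rw [b.tv_mul hv] at hTi
    let a : Submodule K (End K V) :=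
      { carrier := {Z | ∃ Y ∈ g, Y * ε i = 0 ∧ Y * ε j = Z}
        add_mem' := by
          rintro _ _ ⟨Y, hY, h1, rfl⟩ ⟨Z, hZ, h2, rfl⟩
          exact ⟨Y + Z, g.add_mem hY hZ, by rw [add_mul, h1, h2, add_zero], by rw [add_mul]⟩
        zero_mem' := ⟨0, g.zero_mem, by rw [zero_mul], by rw [zero_mul]⟩
        smul_mem' := by
          rintro s _ ⟨Y, hY, h1, rfl⟩
          exact ⟨s • Y, g.smul_mem _ hY, by rw [smul_mul_assoc, h1, smul_zero], by rw [smul_mul_assoc]⟩ }
    obtain ⟨Y, hY, hYi, hYj⟩ : T * ε j ∈ a :=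
      span_tv b.nψ b.skew hj (b.adj j) (fun w hw => h1 w hw) (b.sp T hT) (b.comm j T hT)
    have h2 := H1 (T - Y) (g.sub_mem hT hY) (by rw [sub_mul, hYj, sub_self])
    rw [sub_mul, hYi, sub_zero, hTi] at h2
    exact tv_ne b.nψ hv0 h2
  -- the elements `X` and `F`
  obtain ⟨v, v', hv, hv', hhv, hhv', hvv'⟩ := b.eigen hh hh2 i
  have hv0 : v ≠ 0 := by
    intro h0
    rw [h0, map_zero, LinearMap.zero_apply] at hvv'
    exact zero_ne_one hvv'
  have hv'v : ψ v' v = -1 := by rw [b.skew, hvv']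
  obtain ⟨X, hX, hXi⟩ := S i (tv ψ v) (tv_sp b.skew v) (b.tv_comm hv i)
  rw [b.tv_mul hv] at hXi
  obtain ⟨F, hF, hFi⟩ : ∃ F ∈ g, F * ε i = -tv ψ v' := by
    obtain ⟨F, hF, hFi⟩ := S i (tv ψ v') (tv_sp b.skew v') (b.tv_comm hv' i)
    rw [b.tv_mul hv'] at hFi
    exact ⟨-F, g.neg_mem hF, by rw [neg_mul, hFi]⟩
  have hXci := b.comm i X hX
  have hXcj := b.comm j X hX
  have hFci := b.comm i F hF
  have hFcj := b.comm j F hF
  have hhci := b.comm i h hh
  have hhcj := b.comm j h hh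
  obtain ⟨Xj, hXj⟩ : ∃ Xj, Xj = X * ε j := ⟨_, rfl⟩
  obtain ⟨Fj, hFj⟩ : ∃ Fj, Fj = F * ε j := ⟨_, rfl⟩
  have hXj0 : Xj ≠ 0 := by
    intro h0
    have := H1 X hX (by rw [← hXj, h0])
    rw [hXi] at this
    exact tv_ne b.nψ hv0 this
  have hXj2 : Xj * Xj = 0 := by
    apply sq0 hh2
    have h1 : (h * X - X * h - X) * ε i = 0 := by
      rw [sub_mul, sub_mul, mul_assoc h, mul_assoc X h, hhci, ← mul_assoc X, hXi]
      ext u
      simp only [LinearMap.sub_apply, Module.End.mul_apply, tv_apply, map_smul, hhv]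
      have : ψ v (h u) = -((1 / 2 : K) * ψ v u) := by
        have := b.sp h hh v u
        rw [hhv, map_smul, LinearMap.smul_apply, smul_eq_mul] at this
        rw [this]; ring
      rw [this]
      simp only [LinearMap.zero_apply]
      module
    have h2 := H2 _ (g.sub_mem (b.br h hh X hX) hX) h1
    rw [sub_mul, sub_mul, mul_assoc h, mul_assoc X h, hhcj, ← mul_assoc X, ← hXj, sub_eq_zero] at h2
    exact h2
  have hFj2 : Fj * Fj = 0 := by
    apply sq0 (half_neg hh2)
    have h1 : (h * F - F * h + F) * ε i = 0 := by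
      rw [add_mul, sub_mul, mul_assoc h, mul_assoc F h, hhci, ← mul_assoc F, hFi]
      ext u
      simp only [LinearMap.sub_apply, LinearMap.add_apply, LinearMap.neg_apply, Module.End.mul_apply,
        tv_apply, map_smul, map_neg, hhv']
      have : ψ v' (h u) = (1 / 2 : K) * ψ v' u := by
        have := b.sp h hh v' u
        rw [hhv', map_smul, LinearMap.smul_apply, smul_eq_mul] at this
        linear_combination this
      rw [this]
      simp only [LinearMap.zero_apply]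
      module
    have h2 := H2 _ (g.add_mem (b.br h hh F hF) hF) h1
    rw [add_mul, sub_mul, mul_assoc h, mul_assoc F h, hhcj, ← mul_assoc F, ← hFj] at h2
    have : (-h) * Fj - Fj * (-h) = -(h * Fj - Fj * h + Fj) + Fj := by noncomm_ring
    rw [this, h2, neg_zero, zero_add]
  have hXjj : Xj * ε j = Xj := by rw [hXj, mul_assoc, hj]
  have hjXj : ε j * Xj = Xj := by rw [hXj, ← mul_assoc, ← hXcj, mul_assoc, hj]
  -- `Xj` has rank one
  obtain ⟨w, hw, hw0, hXw⟩ : ∃ w, ε j w = w ∧ w ≠ 0 ∧ Xj = tv ψ w := by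
    obtain ⟨w1, hw1, hXw1⟩ : ∃ w1, ε j w1 = w1 ∧ Xj w1 ≠ 0 := by
      by_contra hcon
      push Not at hcon
      apply hXj0
      ext u
      have h1 := hcon (ε j u) (by rw [← Module.End.mul_apply, hj])
      rw [← Module.End.mul_apply, hXjj] at h1
      exact h1
    obtain ⟨Y, hY, hYj⟩ := S j (tv ψ w1) (tv_sp b.skew w1) (b.tv_comm hw1 j)
    rw [b.tv_mul hw1] at hYj
    obtain ⟨c, hc⟩ : ∃ c, c = ψ v (Y v) := ⟨_, rfl⟩
    have h1 : (DB X Y + (2 * c) • X) * ε i = 0 := by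
      have e1 : tv ψ v * (Y * ε i) * tv ψ v = c • tv ψ v := by
        rw [tv_sandwich, Module.End.mul_apply, hv, ← hc]
      rw [add_mul, DB_e hi hXci (b.comm i Y hY), smul_mul_assoc, hXi, DB_eq (tv_sq b.skew v), e1, two_mul]
      module
    have hmem : DB X Y + (2 * c) • X ∈ g :=
      g.add_mem (b.br _ hX _ (b.br _ hX _ hY)) (g.smul_mem _ hX)
    have h2 := H2 _ hmem h1
    rw [add_mul, DB_e hj hXcj (b.comm j Y hY), smul_mul_assoc, ← hXj, DB_eq hXj2, hYj] at h2
    have hXjsp : ∀ x y, ψ (Xj x) y = -ψ x (Xj y) := by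
      intro x y
      rw [hXj, Module.End.mul_apply, b.sp X hX, b.adj, ← Module.End.mul_apply (ε j) X, ← hXcj]
    obtain ⟨x, hx⟩ : ∃ x, x = Xj w1 := ⟨_, rfl⟩
    rw [← hx] at hXw1
    have h3 : Xj * tv ψ w1 * Xj = -tv ψ x := by
      ext u
      simp only [Module.End.mul_apply, LinearMap.neg_apply, tv_apply, map_smul]
      rw [← hx]
      have : ψ x u = -ψ w1 (Xj u) := by rw [hx, hXjsp]
      rw [this]; module
    have h4 : tv ψ x = (-c) • Xj := by
      rw [h3] at h2
      have : tv ψ x = (1 / 2 : K) • (-(2 * -tv ψ x) + (2 * c) • Xj) - c • Xj := by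
        rw [two_mul]; module
      rw [this, h2]; module
    have hc0 : c ≠ 0 := by
      intro h0
      rw [h0, neg_zero, zero_smul] at h4
      exact tv_ne b.nψ hXw1 h4
    obtain ⟨s, hs⟩ := IsAlgClosed.exists_pow_nat_eq (-c⁻¹) (n := 2) (by norm_num)
    have hs0 : s ≠ 0 := by
      intro h0
      rw [h0] at hs
      apply hc0
      have : c⁻¹ = 0 := by
        have : (0 : K) ^ 2 = 0 := by norm_num
        rw [this] at hs
        exact neg_eq_zero.mp hs.symm
      exact inv_eq_zero.mp this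
    refine ⟨s • x, ?_, smul_ne_zero hs0 hXw1, ?_⟩
    · rw [map_smul, hx, ← Module.End.mul_apply, hjXj]
    · have e1 : tv ψ (s • x) = (s ^ 2) • tv ψ x := by
        ext u
        simp only [tv_apply, map_smul, LinearMap.smul_apply, smul_eq_mul]
        module
      rw [e1, hs, h4, smul_smul]
      have : -c⁻¹ * -c = 1 := by field_simp
      rw [this, one_smul]
  -- triple relations
  have t1 : Xj * Fj * Xj = Xj := by
    have h1 : (DB X F + (2 : K) • X) * ε i = 0 := by
      have e1 : tv ψ v * (-tv ψ v') * tv ψ v = tv ψ v := by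
        rw [tv_sandwich, LinearMap.neg_apply, tv_apply, hv'v, map_neg, map_smul, hvv', smul_eq_mul]
        module
      rw [add_mul, DB_e hi hXci hFci, smul_mul_assoc, hXi, hFi, DB_eq (tv_sq b.skew v), e1, two_mul]
      module
    have hmem : DB X F + (2 : K) • X ∈ g :=
      g.add_mem (b.br _ hX _ (b.br _ hX _ hF)) (g.smul_mem _ hX)
    have h2 := H2 _ hmem h1
    rw [add_mul, DB_e hj hXcj hFcj, smul_mul_assoc, ← hXj, ← hFj, DB_eq hXj2] at h2
    have : Xj * Fj * Xj = Xj - (1 / 2 : K) • (-(2 * (Xj * Fj * Xj)) + (2 : K) • Xj) := by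
      rw [two_mul]; module
    rw [this, h2, smul_zero, sub_zero]
  have t2 : Fj * Xj * Fj = Fj := by
    have h1 : (DB F X + (2 : K) • F) * ε i = 0 := by
      have e0 : (-tv ψ v') * (-tv ψ v') = 0 := by rw [neg_mul_neg, tv_sq b.skew]
      have e1 : (-tv ψ v') * tv ψ v * (-tv ψ v') = -tv ψ v' := by
        have : (-tv ψ v') * tv ψ v * (-tv ψ v') = tv ψ v' * tv ψ v * tv ψ v' := by noncomm_ring
        rw [this, tv_sandwich, tv_apply, hvv', one_smul, hv'v]
        module
      rw [add_mul, DB_e hi hFci hXci, smul_mul_assoc, hXi, hFi, DB_eq e0, e1, two_mul]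
      module
    have hmem : DB F X + (2 : K) • F ∈ g :=
      g.add_mem (b.br _ hF _ (b.br _ hF _ hX)) (g.smul_mem _ hF)
    have h2 := H2 _ hmem h1
    rw [add_mul, DB_e hj hFcj hXcj, smul_mul_assoc, ← hXj, ← hFj, DB_eq hFj2] at h2
    have : Fj * Xj * Fj = Fj - (1 / 2 : K) • (-(2 * (Fj * Xj * Fj)) + (2 : K) • Fj) := by
      rw [two_mul]; module
    rw [this, h2, smul_zero, sub_zero]
  -- the two blocks together
  obtain ⟨δ, hδ⟩ : ∃ δ, δ = ε i + ε j := ⟨_, rfl⟩
  have hijo := b.orth i j hij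
  have hjio := b.orth j i (Ne.symm hij)
  have hδδ : δ * δ = δ := by
    rw [hδ, add_mul, mul_add, mul_add, hi, hj, hijo, hjio, add_zero, zero_add]
  have hδi : δ * ε i = ε i := by rw [hδ, add_mul, hi, hjio, add_zero]
  have hδj : δ * ε j = ε j := by rw [hδ, add_mul, hj, hijo, zero_add]
  have hcδ : ∀ Y ∈ g, Y * δ = δ * Y := by
    intro Y hY
    rw [hδ, mul_add, add_mul, b.comm i Y hY, b.comm j Y hY]
  have hFi2 : (F * ε i) * (F * ε i) = 0 := by rw [hFi, neg_mul_neg, tv_sq b.skew]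
  have two : ∀ Z : End K V, Z * δ = Z * ε i + Z * ε j := by intro Z; rw [hδ, mul_add]
  -- products on the two blocks
  have prod : ∀ A ∈ g, ∀ B ∈ g, (A * δ) * (B * δ) = (A * ε i) * (B * ε i) + (A * ε j) * (B * ε j) := by
    intro A hA B hB
    rw [← mul_e hδδ (hcδ B hB), two, mul_e hi (b.comm i B hB), mul_e hj (b.comm j B hB)]
  obtain ⟨N', hN'⟩ : ∃ N', N' = X * δ := ⟨_, rfl⟩
  obtain ⟨F', hF'⟩ : ∃ F', F' = F * δ := ⟨_, rfl⟩
  have tri3 : ∀ A ∈ g, ∀ B ∈ g, ∀ C ∈ g, (A * δ) * (B * δ) * (C * δ) =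
      (A * ε i) * (B * ε i) * (C * ε i) + (A * ε j) * (B * ε j) * (C * ε j) := by
    intro A hA B hB C hC
    have e1 : ∀ e : End K V, e * e = e → B * e = e * B → C * e = e * C →
        A * e * (B * e) * (C * e) = A * B * C * e := by
      intro e he hB' hC'
      rw [← mul_e he hB', ← mul_e he hC']
    rw [e1 δ hδδ (hcδ B hB) (hcδ C hC), e1 _ hi (b.comm i B hB) (b.comm i C hC),
      e1 _ hj (b.comm j B hB) (b.comm j C hC), two]
  have hTri : Tri N' F' := by
    refine ⟨?_, ?_, ?_, ?_⟩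
    · rw [hN', prod X hX X hX, hXi, ← hXj, tv_sq b.skew, hXj2, add_zero]
    · rw [hF', prod F hF F hF, hFi2, ← hFj, hFj2, add_zero]
    · rw [hN', hF', tri3 X hX F hF X hX, hXi, hFi, ← hXj, ← hFj, t1, two, hXi, ← hXj]
      congr 1
      rw [tv_sandwich, LinearMap.neg_apply, tv_apply, hv'v, map_neg, map_smul, hvv', smul_eq_mul]
      module
    · rw [hN', hF', tri3 F hF X hX F hF, hXi, hFi, ← hXj, ← hFj, t2, two, hFi, ← hFj]
      congr 1
      have : (-tv ψ v') * tv ψ v * (-tv ψ v') = tv ψ v' * tv ψ v * tv ψ v' := by noncomm_ring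
      rw [this, tv_sandwich, tv_apply, hvv', one_smul, hv'v]
      module
  have ho := hTri.orth
  let g' : Submodule K (End K V) :=
    { carrier := {Z | ∃ Y ∈ g, Z = Y * δ}
      add_mem' := by
        rintro _ _ ⟨Y, hY, rfl⟩ ⟨Z, hZ, rfl⟩
        exact ⟨Y + Z, g.add_mem hY hZ, by rw [add_mul]⟩
      zero_mem' := ⟨0, g.zero_mem, by rw [zero_mul]⟩
      smul_mem' := by
        rintro s _ ⟨Y, hY, rfl⟩
        exact ⟨s • Y, g.smul_mem _ hY, by rw [smul_mul_assoc]⟩ }
  have hg'b : BrClosed g' := by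
    rintro _ ⟨Y, hY, rfl⟩ _ ⟨Z, hZ, rfl⟩
    exact ⟨Y * Z - Z * Y, b.br Y hY Z hZ, (sub_e hδδ (hcδ Y hY) (hcδ Z hZ)).symm⟩
  have hHg' : N' * F' - F' * N' ∈ g' :=
    ⟨X * F - F * X, b.br X hX F hF, by rw [hN', hF', ← sub_e hδδ (hcδ X hX) (hcδ F hF)]⟩
  -- the line
  obtain ⟨z, hz, hwz0⟩ := b.nondeg_i hw hw0
  have hδv : ∀ u, ε i u = u → δ u = u := by
    intro u hu
    rw [← hu, ← Module.End.mul_apply, hδi]
  have hδw : ∀ u, ε j u = u → δ u = u := by
    intro u hu
    rw [← hu, ← Module.End.mul_apply, hδj]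
  have Xv : ∀ u, ε i u = u → X u = ψ v u • v := by
    intro u hu
    have := congrArg (fun T : End K V => T u) hXi
    change X (ε i u) = ψ v u • v at this
    rwa [hu] at this
  have Xw : ∀ u, ε j u = u → X u = ψ w u • w := by
    intro u hu
    have := congrArg (fun T : End K V => T u) (hXj.symm.trans hXw)
    change X (ε j u) = ψ w u • w at this
    rwa [hu] at this
  have gi : ∀ Y ∈ g, ∀ u, ε i u = u → ε i (Y u) = Y u := by
    intro Y hY u hu
    rw [← Module.End.mul_apply, ← b.comm i Y hY, Module.End.mul_apply, hu]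
  have gj : ∀ Y ∈ g, ∀ u, ε j u = u → ε j (Y u) = Y u := by
    intro Y hY u hu
    rw [← Module.End.mul_apply, ← b.comm j Y hY, Module.End.mul_apply, hu]
  have N'v : N' v' = v := by
    rw [hN', Module.End.mul_apply, hδv v' hv', Xv v' hv', hvv', one_smul]
  have N'w : N' ((ψ w z)⁻¹ • z) = w := by
    rw [map_smul, hN', Module.End.mul_apply, hδw z hz, Xw z hz, smul_smul, inv_mul_cancel₀ hwz0, one_smul]
  have pfix : ∀ u, (N' * F') (N' u) = N' u := by
    intro u
    rw [← Module.End.mul_apply, hTri.NFN]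
  have pv : (N' * F') v = v := by
    have := pfix v'
    rwa [N'v] at this
  have pw : (N' * F') w = w := by
    have := pfix ((ψ w z)⁻¹ • z)
    rwa [N'w] at this
  -- the characters agree
  have char : ∀ Y ∈ g, ψ v (F (Y v)) = ψ w (F (Y w)) := by
    intro Y hY
    obtain ⟨D, hD⟩ : ∃ D, D = F * Y - Y * F := ⟨_, rfl⟩
    have hDg : D ∈ g := by rw [hD]; exact b.br F hF Y hY
    have cs : ∀ x : V, ψ x (D x) = 2 * ψ x (F (Y x)) := by
      intro x
      rw [hD, LinearMap.sub_apply, Module.End.mul_apply, Module.End.mul_apply, map_sub]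
      have : ψ x (Y (F x)) = -ψ x (F (Y x)) := by
        have h1 := b.sp Y hY x (F x)
        have h2 := b.sp F hF (Y x) x
        have h3 := b.skew (F (Y x)) x
        linear_combination h1 - h2 + h3
      rw [this]; ring
    have h1 : (DB X D + (4 * ψ v (F (Y v))) • X) * ε i = 0 := by
      rw [add_mul, DB_e hi hXci (b.comm i D hDg), smul_mul_assoc, hXi, DB_eq (tv_sq b.skew v),
        tv_sandwich, Module.End.mul_apply, hv, cs v, two_mul]
      module
    have hmem : DB X D + (4 * ψ v (F (Y v))) • X ∈ g :=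
      g.add_mem (b.br _ hX _ (b.br _ hX _ hDg)) (g.smul_mem _ hX)
    have h2 := H2 _ hmem h1
    rw [add_mul, DB_e hj hXcj (b.comm j D hDg), smul_mul_assoc, ← hXj, hXw, DB_eq (tv_sq b.skew w),
      tv_sandwich, Module.End.mul_apply, hw, cs w, two_mul] at h2
    have h3 : (4 * ψ v (F (Y v)) - 4 * ψ w (F (Y w))) • tv ψ w = 0 := by
      rw [← h2]; module
    have h4 := (smul_eq_zero.mp h3).resolve_right (tv_ne b.nψ hw0)
    linear_combination (1 / 4 : K) * h4
  obtain ⟨M, hM, hlM, hpM⟩ := top_sub hg'b ho hHg' (l := K ∙ (v + w)) (by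
    intro x hx
    obtain ⟨s, rfl⟩ := Submodule.mem_span_singleton.mp hx
    rw [map_smul, map_add, pv, pw]) (by
    rintro _ ⟨Y, hY, rfl⟩ x hx
    obtain ⟨s, rfl⟩ := Submodule.mem_span_singleton.mp hx
    rw [map_smul, map_smul]
    apply Submodule.smul_mem
    rw [Submodule.mem_span_singleton]
    refine ⟨ψ v (F (Y v)), ?_⟩
    rw [Module.End.mul_apply Y δ, map_add δ, hδv v hv, hδw w hw, map_add Y, map_add, smul_add]
    congr 1
    · rw [Module.End.mul_apply, hF', Module.End.mul_apply, hδv _ (gi Y hY v hv), hN', Module.End.mul_apply,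
        hδv _ (gi F hF _ (gi Y hY v hv)), Xv _ (gi F hF _ (gi Y hY v hv))]
    · rw [char Y hY, Module.End.mul_apply, hF', Module.End.mul_apply, hδw _ (gj Y hY w hw), hN',
        Module.End.mul_apply, hδw _ (gj F hF _ (gj Y hY w hw)), Xw _ (gj F hF _ (gj Y hY w hw))])
  let M' : Submodule K V := M ⊓ ker (δ - 1)
  have hM' : ∀ u, u ∈ M' ↔ u ∈ M ∧ δ u = u := by
    intro u
    change u ∈ M ∧ (δ - 1) u = 0 ↔ _
    rw [LinearMap.sub_apply, Module.End.one_apply, sub_eq_zero]
  have hst : ∀ Y ∈ g, ∀ u ∈ M', Y u ∈ M' := by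
    intro Y hY u hu
    rw [hM'] at hu ⊢
    refine ⟨?_, ?_⟩
    · have := hM _ ⟨Y, hY, rfl⟩ u hu.1
      rwa [Module.End.mul_apply, hu.2] at this
    · rw [← Module.End.mul_apply, ← hcδ Y hY, Module.End.mul_apply, hu.2]
  have hvwM : v + w ∈ M' := by
    rw [hM']
    exact ⟨hlM (Submodule.mem_span_singleton_self _), by rw [map_add, hδv v hv, hδw w hw]⟩
  have hiw : ε i w = 0 := by rw [← hw, ← Module.End.mul_apply, hijo]; rfl
  have hjv : ε j v = 0 := by rw [← hv, ← Module.End.mul_apply, hjio]; rfl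
  rcases b.irr M' (fun h hh _ => hst h hh) i with h1 | h1
  · have h2 := h1 v
    rw [hv, hM'] at h2
    have h3 := hpM v h2.1
    rw [pv] at h3
    obtain ⟨s, hs⟩ := Submodule.mem_span_singleton.mp h3
    have h4 := congrArg (ε j) hs
    rw [map_smul, map_add, hjv, hw, zero_add] at h4
    rcases smul_eq_zero.mp h4 with h5 | h5
    · rw [h5, zero_smul] at hs
      exact hv0 hs.symm
    · exact hw0 h5
  · have h2 := h1 _ hvwM
    rw [map_add, hv, hiw, add_zero] at h2
    exact hv0 h2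

end Blk

end Pool.Agent.Helper78_MT
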