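import Pool.Agent.Helper78_MT.Blk3

/-! Several blocks: the main statement. -/

set_option autoImplicit false
set_option linter.unusedSectionVars false
set_option linter.unusedSimpArgs false

namespace Pool.Agent.Helper78_MT

open Module LinearMap

variable {K V ι : Type*} [Field K] [CharZero K] [AddCommGroup V] [Module K V]
  [FiniteDimensional K V] [Fintype ι] [DecidableEq ι]
variable {ψ : V →ₗ[K] V →ₗ[K] K} {ε : ι → End K V} {g : Submodule K (End K V)}

namespace Blk

theorem several [IsAlgClosed K] (b : Blk ψ ε g) (S : Onto ψ ε g)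
    {h : End K V} (hh : h ∈ g) (hh2 : h * h = (1 / 4 : K) • 1) (i : ι) (s : Finset ι) (his : i ∉ s) :
    ∀ v, ε i v = v → ∃ X ∈ g, X * ε i = tv ψ v ∧ ∀ k ∈ s, X * ε k = 0 := by
  induction s using Finset.induction_on with
  | empty =>
    intro v hv
    obtain ⟨X, hX, hXi⟩ := S i (tv ψ v) (tv_sp b.skew v) (b.tv_comm hv i)
    rw [b.tv_mul hv] at hXi
    exact ⟨X, hX, hXi, by simp⟩
  | insert j s hj ih =>
    intro v hv
    have his' : i ∉ s := fun h => his (Finset.mem_insert_of_mem h)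
    have hij : i ≠ j := fun h => his (h ▸ Finset.mem_insert_self _ _)
    by_cases hv0 : v = 0
    · refine ⟨0, g.zero_mem, ?_, fun k _ => by rw [zero_mul]⟩
      rw [zero_mul, hv0]; ext u; simp [tv_apply]
    obtain ⟨w₁, hw₁, hvw₁⟩ := b.nondeg_i hv hv0
    obtain ⟨w, hw, hvw⟩ : ∃ w, ε i w = w ∧ ψ v w = 1 :=
      ⟨(ψ v w₁)⁻¹ • w₁, by rw [map_smul, hw₁], by rw [map_smul, smul_eq_mul, inv_mul_cancel₀ hvw₁]⟩
    obtain ⟨X, hX, hXi, hXs⟩ := ih his' v hv
    obtain ⟨Y1, hY1, hY1j, hY1i⟩ := b.pair S hh hh2 hij (v + w) (by rw [map_add, hv, hw])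
    obtain ⟨Y2, hY2, hY2j, hY2i⟩ := b.pair S hh hh2 hij v hv
    obtain ⟨Y3, hY3, hY3j, hY3i⟩ := b.pair S hh hh2 hij w hw
    obtain ⟨H, hH⟩ : ∃ H, H = -(Y1 - Y2 - Y3) := ⟨_, rfl⟩
    have hHg : H ∈ g := by rw [hH]; exact g.neg_mem (g.sub_mem (g.sub_mem hY1 hY2) hY3)
    have hHj : H * ε j = 0 := by
      rw [hH, neg_mul, sub_mul, sub_mul, hY1j, hY2j, hY3j]; simp
    have hHi : H * ε i = -(tv ψ (v + w) - tv ψ v - tv ψ w) := by
      rw [hH, neg_mul, sub_mul, sub_mul, hY1i, hY2i, hY3i]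
    have hvv := alt_of_skew b.skew v
    refine ⟨(1 / 2 : K) • (H * X - X * H), g.smul_mem _ (b.br H hHg X hX), ?_, ?_⟩
    · rw [smul_mul_assoc, sub_e (b.idem i) (b.comm i H hHg) (b.comm i X hX), hHi, hXi]
      ext u
      simp only [LinearMap.smul_apply, LinearMap.sub_apply, Module.End.mul_apply, LinearMap.neg_apply,
        tv_apply, map_smul, map_neg, map_sub, map_add, LinearMap.add_apply, hvv, hvw, b.skew w v]
      module
    · intro k hk
      rw [smul_mul_assoc, sub_e (b.idem k) (b.comm k H hHg) (b.comm k X hX)]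
      rcases Finset.mem_insert.mp hk with rfl | hk
      · rw [hHj, mul_zero, zero_mul, sub_zero, smul_zero]
      · rw [hXs k hk, mul_zero, zero_mul, sub_zero, smul_zero]

/-- **Several blocks.**  If for each block some element of square zero has on this block a rank which
is odd or two, then `g` consists of all skew operators which preserve the blocks. -/
theorem all [IsAlgClosed K] (b : Blk ψ ε g)
    (hN : ∀ i, ∃ N ∈ g, N * N = 0 ∧ (Odd (rk (N * ε i)) ∨ rk (N * ε i) = 2)) {C : End K V}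
    (hC : ∀ u v, ψ (C u) v = -ψ u (C v)) (hCε : ∀ i, C * ε i = ε i * C) : C ∈ g := by
  have S : Onto ψ ε g := by
    intro i C hC hCi
    obtain ⟨N, hN, hN2, hr⟩ := hN i
    exact b.surj hN hN2 hr hC hCi
  by_cases hV : IsEmpty ι
  · have h0 : (1 : End K V) = 0 := by
      rw [← b.one]
      exact Finset.sum_eq_zero (fun i _ => (hV.false i).elim)
    have : C = 0 := by rw [← mul_one C, h0, mul_zero]
    rw [this]; exact g.zero_mem
  rw [not_isEmpty_iff] at hV
  obtain ⟨i₀⟩ := hV
  have hrk0 : rk (0 : End K V) = 0 := by unfold rk; rw [LinearMap.range_zero, finrank_bot]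
  obtain ⟨N, hN, hN2, hr⟩ := hN i₀
  have hN0 : N * ε i₀ ≠ 0 := by
    intro h0
    rw [h0, hrk0] at hr
    rcases hr with h | h
    · exact absurd h (by decide)
    · exact absurd h (by decide)
  obtain ⟨h, hh, hh2⟩ : ∃ h ∈ g, h * h = (1 / 4 : K) • 1 := by
    by_contra hcon
    push Not at hcon
    rcases b.irr (range N) (fun h hh hh2 => absurd hh2 (hcon h hh)) i₀ with h1 | h1
    · apply hN0
      ext v
      obtain ⟨x, hx⟩ := h1 v
      rw [Module.End.mul_apply, ← hx, ← Module.End.mul_apply, hN2]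
      simp
    · apply hN0
      rw [b.comm i₀ N hN]
      ext v
      exact h1 _ ⟨v, rfl⟩
  have htv : ∀ i v, ε i v = v → tv ψ v ∈ g := by
    intro i v hv
    obtain ⟨X, hX, hXi, hXs⟩ := b.several S hh hh2 i (Finset.univ.erase i) (by simp) v hv
    have : X = tv ψ v := by
      rw [← mul_one X, ← b.one, Finset.mul_sum, ← Finset.add_sum_erase _ _ (Finset.mem_univ i), hXi]
      rw [Finset.sum_eq_zero (fun k hk => hXs k hk), add_zero]
    rw [← this]; exact hX
  rw [← mul_one C, ← b.one, Finset.mul_sum]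
  apply g.sum_mem
  intro i _
  exact span_tv b.nψ b.skew (b.idem i) (b.adj i) (htv i) hC (hCε i)

end Blk

end Pool.Agent.Helper78_MT
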