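import Pool.Agent.Helper78_MT.Prim

/-! Irreducible Lie algebras in the symplectic Lie algebra: primitive square-zero elements. -/

set_option autoImplicit false
set_option linter.unusedSectionVars false
set_option linter.unusedSimpArgs false

namespace Pool.Agent.Helper78_MT

open Module LinearMap

variable {K V : Type*} [Field K] [CharZero K] [AddCommGroup V] [Module K V] [FiniteDimensional K V]

/-- The standing assumptions on a Lie algebra `g` of skew endomorphisms. -/
structure Ctx (ψ : V →ₗ[K] V →ₗ[K] K) (g : Submodule K (End K V)) : Prop where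
  br : BrClosed g
  sp : ∀ X ∈ g, ∀ u v, ψ (X u) v = -ψ u (X v)
  nd : ∀ X ∈ g, (∀ Y ∈ g, trace K V (X * Y) = 0) → X = 0
  irr : ∀ U : Submodule K V, (∀ X ∈ g, ∀ u ∈ U, X u ∈ U) → U = ⊥ ∨ U = ⊤
  nψ : ∀ u, (∀ v, ψ u v = 0) → u = 0
  skew : ∀ u v, ψ u v = -ψ v u

variable {ψ : V →ₗ[K] V →ₗ[K] K} {g : Submodule K (End K V)}

/-- functionals on `g` are given by the trace form -/
theorem Ctx.repr (c : Ctx ψ g) (φ : g →ₗ[K] K) :
    ∃ y ∈ g, ∀ z : g, φ z = trace K V (y * z) := by
  let B : g →ₗ[K] Dual K g :=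
    { toFun := fun y =>
        { toFun := fun z => trace K V ((y : End K V) * (z : End K V))
          map_add' := fun a b => by simp [mul_add]
          map_smul' := fun a b => by simp }
      map_add' := fun a b => by ext z; simp [add_mul]
      map_smul' := fun a b => by ext z; simp }
  have hinj : Function.Injective B := by
    rw [injective_iff_map_eq_zero]
    intro y hy
    apply Subtype.ext
    apply c.nd y y.2
    intro Y hY
    have := congrArg (fun f => f ⟨Y, hY⟩) hy
    exact this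
  have hsurj : Function.Surjective B :=
    (LinearMap.injective_iff_surjective_of_finrank_eq_finrank (Subspace.dual_finrank_eq).symm).mp hinj
  obtain ⟨y, hy⟩ := hsurj φ
  exact ⟨y, y.2, fun z => by rw [← hy]; rfl⟩

theorem Ctx.jm (c : Ctx ψ g) {x : End K V} (hx : x ∈ g) (hx2 : x * x = 0) :
    ∃ z ∈ g, x * z * x = x := by
  let L : g →ₗ[K] g :=
    { toFun := fun z => ⟨x * z * x, sandwich c.br hx hx2 z.2⟩
      map_add' := fun a b => by apply Subtype.ext; simp [mul_add, add_mul]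
      map_smul' := fun a b => by apply Subtype.ext; simp }
  by_cases h : (⟨x, hx⟩ : g) ∈ range L
  · obtain ⟨z, hz⟩ := h
    exact ⟨z, z.2, congrArg Subtype.val hz⟩
  · exfalso
    obtain ⟨φ, hφ1, hφ2⟩ := Submodule.exists_le_ker_of_notMem h
    obtain ⟨y, hy, hyφ⟩ := c.repr φ
    have h1 : ∀ z ∈ g, trace K V (x * y * x * z) = 0 := by
      intro z hz
      have : φ (L ⟨z, hz⟩) = 0 := hφ2 ⟨_, rfl⟩
      rw [hyφ] at this
      change trace K V (y * (x * z * x)) = 0 at this
      rw [show y * (x * z * x) = (y * x * z) * x by noncomm_ring, trace_mul_comm,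
        show x * (y * x * z) = x * y * x * z by noncomm_ring] at this
      exact this
    have h2 : x * y * x = 0 := c.nd _ (sandwich c.br hx hx2 hy) h1
    have h3 : trace K V (y * x) = 0 := by
      apply trace_nilp
      refine ⟨2, ?_⟩
      rw [pow_two, show y * x * (y * x) = y * (x * y * x) by noncomm_ring, h2, mul_zero]
    apply hφ1
    rw [hyφ]
    exact h3

section prim
variable [IsAlgClosed K]

theorem Ctx.prim (c : Ctx ψ g) {N F : End K V} (hN : N ∈ g) (hF : F ∈ g) (t : Tri N F)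
    (hmin : ∀ X ∈ g, X * X = 0 → rk X < rk N → ¬ Odd (rk X)) (hr : Odd (rk N) ∨ rk N = 2)
    {X : End K V} (hX : X ∈ g) (hX2 : N * F * X * (F * N) = X) : ∃ a : K, X = a • N := by
  let W := range (F * N)
  let π : V →ₗ[K] W := (F * N).rangeRestrict
  let ι : W →ₗ[K] V := W.subtype
  have hιπ : ι ∘ₗ π = F * N := rfl
  have hπι : π ∘ₗ ι = LinearMap.id := by
    ext ⟨w, v, rfl⟩
    change (F * N) ((F * N) v) = (F * N) v
    rw [← Module.End.mul_apply, t.orth.qq]
  let Φ : End K W → End K V := fun T => ι ∘ₗ T ∘ₗ π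
  have hΦmul : ∀ S T, Φ S * Φ T = Φ (S * T) := by
    intro S T
    change (ι ∘ₗ S ∘ₗ π) ∘ₗ (ι ∘ₗ T ∘ₗ π) = ι ∘ₗ (S ∘ₗ T) ∘ₗ π
    calc (ι ∘ₗ S ∘ₗ π) ∘ₗ (ι ∘ₗ T ∘ₗ π) = ι ∘ₗ S ∘ₗ (π ∘ₗ ι) ∘ₗ T ∘ₗ π := rfl
      _ = ι ∘ₗ (S ∘ₗ T) ∘ₗ π := by rw [hπι]; rfl
  have hΦ1 : Φ 1 = F * N := hιπ
  have hΦadd : ∀ S T, Φ (S + T) = Φ S + Φ T := by
    intro S T; simp only [Φ, LinearMap.add_comp, LinearMap.comp_add]
  have hΦsmul : ∀ (a : K) T, Φ (a • T) = a • Φ T := by
    intro a T; simp only [Φ, LinearMap.smul_comp, LinearMap.comp_smul]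
  have hqΦ : ∀ T, F * N * Φ T = Φ T := by
    intro T; rw [← hΦ1, hΦmul, one_mul]
  have hΦtr : ∀ T, trace K V (Φ T) = trace K W T := by
    intro T
    change trace K V (ι ∘ₗ (T ∘ₗ π)) = _
    rw [LinearMap.trace_comp_comm']
    congr 1
    rw [LinearMap.comp_assoc, hπι, LinearMap.comp_id]
  have hrkΦ : ∀ T, rk (Φ T) = rk T := by
    intro T
    unfold rk
    have h1 : range (Φ T) = (range T).map ι := by
      change range (ι ∘ₗ (T ∘ₗ π)) = _
      rw [LinearMap.range_comp, LinearMap.range_comp_of_range_eq_top]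
      exact LinearMap.range_rangeRestrict _
    rw [h1]
    exact Submodule.finrank_map_subtype_eq W (range T)
  have hΦq : ∀ T, Φ T * (F * N) = Φ T := by
    intro T; rw [← hΦ1, hΦmul, mul_one]
  have hΦN : ∀ T, Φ T * N = 0 := by
    intro T
    rw [← hΦq T, mul_assoc, t.qN, mul_zero]
  let J : Submodule K (End K W) :=
    { carrier := {T | N * Φ T ∈ g}
      add_mem' := by
        intro S T hS hT
        change N * Φ (S + T) ∈ g
        rw [hΦadd, mul_add]
        exact g.add_mem hS hT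
      zero_mem' := by
        change N * Φ 0 ∈ g
        have : Φ 0 = 0 := by
          have := hΦsmul 0 0
          simpa using this
        rw [this, mul_zero]; exact g.zero_mem
      smul_mem' := by
        intro a T hT
        change N * Φ (a • T) ∈ g
        rw [hΦsmul, mul_smul_comm]
        exact g.smul_mem _ hT }
  have hJ : ∀ T, T ∈ J ↔ N * Φ T ∈ g := fun T => Iff.rfl
  have hJ1 : (1 : End K W) ∈ J := by rw [hJ, hΦ1, t.Nq]; exact hN
  have hJpow : ∀ T ∈ J, ∀ k : ℕ, T ^ k ∈ J := by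
    intro T hT k
    induction k with
    | zero => rw [pow_zero]; exact hJ1
    | succ k ih =>
      rw [hJ] at hT ih ⊢
      have z1 : N * Φ (T ^ k) * (N * Φ T) = 0 := by
        rw [show N * Φ (T ^ k) * (N * Φ T) = N * (Φ (T ^ k) * N) * Φ T by noncomm_ring, hΦN]; simp
      have z2 : N * Φ T * (N * Φ (T ^ k)) = 0 := by
        rw [show N * Φ T * (N * Φ (T ^ k)) = N * (Φ T * N) * Φ (T ^ k) by noncomm_ring, hΦN]; simp
      have h2 := sandwich2 c.br ih hT z1 z2 hF
      have e1 : N * Φ (T ^ k) * F * (N * Φ T) = N * Φ (T ^ (k + 1)) := by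
        rw [show N * Φ (T ^ k) * F * (N * Φ T) = N * (Φ (T ^ k) * ((F * N) * Φ T)) by noncomm_ring,
          hqΦ, hΦmul, pow_succ]
      have e2 : N * Φ T * F * (N * Φ (T ^ k)) = N * Φ (T ^ (k + 1)) := by
        rw [show N * Φ T * F * (N * Φ (T ^ k)) = N * (Φ T * ((F * N) * Φ (T ^ k))) by noncomm_ring,
          hqΦ, hΦmul, pow_succ']
      rw [e1, e2, ← two_smul K] at h2
      exact mem_of_smul two_ne_zero h2
  have hrkN : ∀ T, rk (N * Φ T) = rk T := by
    intro T
    rw [← hrkΦ]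
    apply le_antisymm (rk_mul_le_right _ _)
    conv_lhs => rw [← hqΦ T, mul_assoc]
    exact rk_mul_le_right _ _
  have hfr : finrank K W = rk N := by
    change rk (F * N) = rk N
    exact t.rk_FN
  have hJrk : ∀ T ∈ J, rk T < finrank K W → ¬ Odd (rk T) := by
    intro T hT hlt
    rw [← hrkN T]
    apply hmin _ hT
    · rw [show N * Φ T * (N * Φ T) = N * (Φ T * N) * Φ T by noncomm_ring, hΦN]; simp
    · rw [hrkN, ← hfr]; exact hlt
  -- the element of `J` given by `X`
  let T : End K W := π ∘ₗ (F * X) ∘ₗ ι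
  have hΦT : Φ T = F * N * (F * X) * (F * N) := rfl
  have hNT : N * Φ T = X := by
    rw [hΦT, show N * (F * N * (F * X) * (F * N)) = N * (F * N * F) * X * (F * N) by noncomm_ring,
      t.FNF]
    exact hX2
  have hTJ : T ∈ J := by rw [hJ, hNT]; exact hX
  have hfpos : (finrank K W : K) ≠ 0 := by
    rw [Nat.cast_ne_zero, hfr]
    rcases hr with h | h
    · exact h.pos.ne'
    · omega
  set a : K := trace K W T / finrank K W with ha
  set T0 : End K W := T - a • (1 : End K W) with hT0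
  have hT0J : T0 ∈ J := J.sub_mem hTJ (J.smul_mem _ hJ1)
  have hT0t : trace K W T0 = 0 := by
    rw [hT0, map_sub, map_smul, trace_one, smul_eq_mul, ha, div_mul_cancel₀ _ hfpos, sub_self]
  have hX0 : N * Φ T0 = X - a • N := by
    have h1 : Φ T = Φ T0 + a • (F * N) := by
      rw [← hΦ1, ← hΦsmul, ← hΦadd, hT0, sub_add_cancel]
    have h2 : N * Φ T0 + a • N = X := by
      rw [← hNT, h1, mul_add, mul_smul_comm, t.Nq]
    rw [← h2]; abel
  refine ⟨a, ?_⟩
  have hzero : X - a • N = 0 := by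
    apply c.nd _ (by rw [← hX0]; exact hT0J)
    intro Y hY
    let T' : End K W := π ∘ₗ (Y * N) ∘ₗ ι
    have hΦT' : Φ T' = F * N * (Y * N) * (F * N) := rfl
    have hT'J : T' ∈ J := by
      rw [hJ, hΦT', show N * (F * N * (Y * N) * (F * N)) = N * (F * N) * Y * (N * (F * N)) by noncomm_ring,
        t.Nq]
      exact sandwich c.br hN t.N2 hY
    have h3 := trace_orth hJ1 hJpow hJrk (by rw [hfr]; exact hr) hT0J hT0t hT'J
    rw [← hX0, ← h3, ← hΦtr, ← hΦmul, hΦT', trace_mul_comm]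
    rw [show Φ T0 * (F * N * (Y * N) * (F * N)) = (Φ T0 * (F * N)) * Y * (N * (F * N)) by noncomm_ring,
      hΦq, t.Nq, show Y * (N * Φ T0) = (Y * N) * Φ T0 by noncomm_ring, trace_mul_comm]
    congr 1
  exact sub_eq_zero.mp hzero

end prim

end Pool.Agent.Helper78_MT
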