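import Pool.Agent.Helper78_MT.Ctx

/-! Extremal identity, parity, gradings by elements with square `1/4`. -/

set_option autoImplicit false
set_option linter.unusedSectionVars false
set_option linter.unusedSimpArgs false

namespace Pool.Agent.Helper78_MT

open Module LinearMap

variable {K V : Type*} [Field K] [CharZero K] [AddCommGroup V] [Module K V] [FiniteDimensional K V]
variable {ψ : V →ₗ[K] V →ₗ[K] K} {g : Submodule K (End K V)}

/-- no square-zero element of odd rank smaller than `r`; `r` odd or `r = 2` -/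
structure Good (g : Submodule K (End K V)) (r : ℕ) : Prop where
  min : ∀ X ∈ g, X * X = 0 → rk X < r → ¬ Odd (rk X)
  odd : Odd r ∨ r = 2

theorem Good.pos {r : ℕ} (h : Good g r) : 0 < r := by
  rcases h.odd with h | h
  · exact h.pos
  · omega

theorem Ctx.tri (c : Ctx ψ g) {N : End K V} (hN : N ∈ g) (hN2 : N * N = 0) :
    ∃ F ∈ g, Tri N F := by
  obtain ⟨z, hz, h⟩ := c.jm hN hN2
  obtain ⟨F, hF, t, -⟩ := exists_tri c.br hN hz hN2 h
  exact ⟨F, hF, t⟩

section
variable [IsAlgClosed K]

theorem Ctx.ext (c : Ctx ψ g) {r : ℕ} (hg : Good g r) {N : End K V} (hN : N ∈ g)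
    (hN2 : N * N = 0) (hr : rk N = r) {X : End K V} (hX : X ∈ g) :
    N * X * N = (trace K V (N * X) / r) • N := by
  obtain ⟨F, hF, t⟩ := c.tri hN hN2
  obtain ⟨a, ha⟩ := c.prim hN hF t (by rw [hr]; exact hg.min) (by rw [hr]; exact hg.odd)
    (sandwich c.br hN hN2 hX) (by
      rw [show N * F * (N * X * N) * (F * N) = N * F * N * X * (N * F * N) by noncomm_ring, t.NFN])
  have h1 : trace K V (N * X) = a * r := by
    have h2 : trace K V (F * (N * X * N)) = a * trace K V (F * N) := by
      rw [ha, mul_smul_comm, map_smul, smul_eq_mul]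
    rw [t.trace_FN, hr] at h2
    have h3 : trace K V (F * (N * X * N)) = trace K V (N * X) := by
      rw [show F * (N * X * N) = (F * N * X) * N by noncomm_ring, trace_mul_comm K (F * N * X) N,
        show N * (F * N * X) = N * F * N * X by noncomm_ring, t.NFN]
    rw [← h2, h3]
  have hr0 : (r : K) ≠ 0 := Nat.cast_ne_zero.mpr hg.pos.ne'
  rw [h1, mul_div_cancel_right₀ _ hr0]
  exact ha

theorem Ctx.rk_of_ext (c : Ctx ψ g) {r : ℕ} (hr : 0 < r) {N : End K V} (hN : N ∈ g) (hN0 : N ≠ 0)
    (h : ∀ X ∈ g, N * X * N = (trace K V (N * X) / r) • N) : rk N = r := by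
  have hr0 : (r : K) ≠ 0 := Nat.cast_ne_zero.mpr hr.ne'
  by_contra hne
  apply hN0
  apply c.nd N hN
  intro Y hY
  by_contra ht
  set s := trace K V (N * Y) with hs
  set Y' := ((r : K) / s) • Y with hY'
  have hY'g : Y' ∈ g := g.smul_mem _ hY
  have ht' : trace K V (N * Y') = r := by
    rw [hY', mul_smul_comm, map_smul, smul_eq_mul, ← hs, div_mul_cancel₀ _ ht]
  have h1 : N * Y' * N = N := by
    rw [h Y' hY'g, ht', div_self hr0, one_smul]
  have h2 : (N * Y') * (N * Y') = N * Y' := by
    rw [show (N * Y') * (N * Y') = (N * Y' * N) * Y' by noncomm_ring, h1]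
  have h3 : rk (N * Y') = rk N := by
    apply le_antisymm (rk_mul_le_left _ _)
    conv_lhs => rw [← h1]
    exact rk_mul_le_left _ _
  have h4 := trace_idem h2
  rw [ht', h3] at h4
  exact hne (Nat.cast_injective h4).symm

end

/-- the two spectral projections of `h` with `h² = 1/4` -/
theorem half_idem {h : End K V} (hh : h * h = (1 / 4 : K) • 1) :
    ((1 / 2 : K) • (1 : End K V) + h) * ((1 / 2 : K) • 1 + h) = (1 / 2 : K) • 1 + h := by
  simp only [mul_add, add_mul, smul_mul_assoc, mul_smul_comm, one_mul, mul_one, hh]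
  module

theorem half_neg {h : End K V} (hh : h * h = (1 / 4 : K) • 1) : (-h) * (-h) = (1 / 4 : K) • 1 := by
  rw [neg_mul_neg, hh]

theorem half_orth {h : End K V} (hh : h * h = (1 / 4 : K) • 1) :
    ((1 / 2 : K) • (1 : End K V) + h) * ((1 / 2 : K) • 1 - h) = 0 := by
  simp only [mul_add, add_mul, mul_sub, sub_mul, smul_mul_assoc, mul_smul_comm, one_mul, mul_one, hh]
  module

theorem half_orth' {h : End K V} (hh : h * h = (1 / 4 : K) • 1) :
    ((1 / 2 : K) • (1 : End K V) - h) * ((1 / 2 : K) • 1 + h) = 0 := by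
  simp only [mul_add, add_mul, mul_sub, sub_mul, smul_mul_assoc, mul_smul_comm, one_mul, mul_one, hh]
  module

theorem half_mem (hb : BrClosed g) {h X : End K V} (hh : h * h = (1 / 4 : K) • 1) (hg : h ∈ g)
    (hX : X ∈ g) : ((1 / 2 : K) • (1 : End K V) + h) * X * ((1 / 2 : K) • 1 - h) ∈ g := by
  have h1 := hb h hg X hX
  have h2 := hb h hg _ h1
  have e : ((1 / 2 : K) • (1 : End K V) + h) * X * ((1 / 2 : K) • 1 - h) =
      (1 / 2 : K) • (h * (h * X - X * h) - (h * X - X * h) * h) + (1 / 2 : K) • (h * X - X * h) := by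
    have e1 : h * (h * X - X * h) - (h * X - X * h) * h = (h * h) * X - 2 * (h * X * h) + X * (h * h) := by
      noncomm_ring
    rw [e1, hh, two_mul]
    simp only [mul_add, add_mul, mul_sub, sub_mul, smul_mul_assoc, mul_smul_comm, one_mul, mul_one]
    module
  rw [e]
  exact g.add_mem (g.smul_mem _ h2) (g.smul_mem _ h1)

theorem half_mem' (hb : BrClosed g) {h X : End K V} (hh : h * h = (1 / 4 : K) • 1) (hg : h ∈ g)
    (hX : X ∈ g) : ((1 / 2 : K) • (1 : End K V) - h) * X * ((1 / 2 : K) • 1 + h) ∈ g := by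
  have := half_mem hb (half_neg hh) (g.neg_mem hg) hX
  rwa [sub_neg_eq_add, ← sub_eq_add_neg] at this

/-- Parity: a square-zero element commuting with an element of square `1/4` has even rank. -/
theorem Ctx.parity (c : Ctx ψ g) {h N : End K V} (hh : h * h = (1 / 4 : K) • 1) (hg : h ∈ g)
    (hN : N ∈ g) (hN2 : N * N = 0) (hc : h * N = N * h) : Even (rk N) := by
  obtain ⟨F, hF, t⟩ := c.tri hN hN2
  have h0 : trace K V (h * N * F) = 0 := by
    have h1 : trace K V (h * N * F) = trace K V (-(F * N * h)) := by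
      apply trace_adj c.nψ
      intro u v
      change ψ (h (N (F u))) v = ψ u (-(F (N (h v))))
      rw [c.sp h hg, c.sp N hN, c.sp F hF, map_neg]
      simp
    have h2 : trace K V (F * N * h) = trace K V (h * N * F) := by
      rw [mul_assoc F N h, trace_mul_comm, ← hc]
    rw [map_neg, h2] at h1
    have : (2 : K) * trace K V (h * N * F) = 0 := by linear_combination h1
    exact (mul_eq_zero.mp this).resolve_left two_ne_zero
  set P := (1 / 2 : K) • (1 : End K V) + h with hP
  have hPN : P * N = N * P := by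
    rw [hP, add_mul, mul_add, hc]; simp
  have hPP : P * P = P := half_idem hh
  have hidem : (P * N * F) * (P * N * F) = P * N * F := by
    calc (P * N * F) * (P * N * F) = P * N * F * (P * N) * F := by noncomm_ring
      _ = P * N * F * (N * P) * F := by rw [← hPN]
      _ = P * (N * F * N) * P * F := by noncomm_ring
      _ = P * (N * P) * F := by rw [t.NFN]; noncomm_ring
      _ = P * N * F := by rw [← hPN, ← mul_assoc, hPP]
  have h1 := trace_idem hidem
  have h2 : trace K V (P * N * F) = (1 / 2 : K) * rk N := by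
    rw [hP, add_mul, add_mul, map_add, h0, add_zero, smul_mul_assoc, one_mul, smul_mul_assoc, map_smul,
      t.trace_NF, smul_eq_mul]
  rw [h2] at h1
  have h3 : (rk N : K) = ((2 * rk (P * N * F) : ℕ) : K) := by
    push_cast
    rw [← h1]; ring
  have h4 := Nat.cast_injective h3
  rw [h4]
  exact even_two_mul _

end Pool.Agent.Helper78_MT
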