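import Pool.Agent.Helper78_MT.Ext

/-! Graded arguments: vectors killed by all nonzero degrees; irreducibility of the top degree. -/

set_option autoImplicit false
set_option linter.unusedSectionVars false
set_option linter.unusedSimpArgs false

namespace Pool.Agent.Helper78_MT

open Module LinearMap

section ids
variable {A : Type*} [Ring A] {p q e : A} (h : Orth3 p q e) (X Z : A)
include h

theorem Orth3.I1 : p * X * e * Z * p =
    p * ((p * X * e + e * X * q) * (e * Z * p + q * Z * e) -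
      (e * Z * p + q * Z * e) * (p * X * e + e * X * q)) * p := by
  simp only [mul_add, add_mul, mul_sub, sub_mul, mul_assoc, h.pp', h.qq', h.ee', h.pq', h.qp', h.pe', h.ep',
    h.qe', h.eq', h.pp, h.qq, h.ee, h.pq, h.qp, h.pe, h.ep, h.qe, h.eq, mul_zero, zero_mul]
  abel

theorem Orth3.I2 : p * X * e * Z * e =
    p * ((p * X * e + e * X * q) * (p * Z * p + q * Z * q + e * Z * e) -
      (p * Z * p + q * Z * q + e * Z * e) * (p * X * e + e * X * q)) * e + p * Z * (p * X * e) := by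
  simp only [mul_add, add_mul, mul_sub, sub_mul, mul_assoc, h.pp', h.qq', h.ee', h.pq', h.qp', h.pe', h.ep',
    h.qe', h.eq', h.pp, h.qq, h.ee, h.pq, h.qp, h.pe, h.ep, h.qe, h.eq, mul_zero, zero_mul]
  abel

theorem Orth3.I3 : e * X * q * Z * p =
    e * ((p * X * e + e * X * q) * (q * Z * p) - (q * Z * p) * (p * X * e + e * X * q)) * p := by
  simp only [mul_add, add_mul, mul_sub, sub_mul, mul_assoc, h.pp', h.qq', h.ee', h.pq', h.qp', h.pe', h.ep',
    h.qe', h.eq', h.pp, h.qq, h.ee, h.pq, h.qp, h.pe, h.ep, h.qe, h.eq, mul_zero, zero_mul]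
  abel

theorem Orth3.I4 : e * X * q * Z * e =
    e * ((p * X * e + e * X * q) * (e * Z * p + q * Z * e) -
      (e * Z * p + q * Z * e) * (p * X * e + e * X * q)) * e + e * Z * p * (p * X * e) := by
  simp only [mul_add, add_mul, mul_sub, sub_mul, mul_assoc, h.pp', h.qq', h.ee', h.pq', h.qp', h.pe', h.ep',
    h.qe', h.eq', h.pp, h.qq, h.ee, h.pq, h.qp, h.pe, h.ep, h.qe, h.eq, mul_zero, zero_mul]
  abel

theorem Orth3.I5 : e * X * q * Z * q =
    e * ((p * X * e + e * X * q) * (p * Z * p + q * Z * q + e * Z * e) -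
      (p * Z * p + q * Z * q + e * Z * e) * (p * X * e + e * X * q)) * q + e * Z * e * (e * X * q) := by
  simp only [mul_add, add_mul, mul_sub, sub_mul, mul_assoc, h.pp', h.qq', h.ee', h.pq', h.qp', h.pe', h.ep',
    h.qe', h.eq', h.pp, h.qq, h.ee, h.pq, h.qp, h.pe, h.ep, h.qe, h.eq, mul_zero, zero_mul]
  abel

theorem Orth3.I7 : p * X * q * Z * p =
    p * ((p * X * q) * (q * Z * p) - (q * Z * p) * (p * X * q)) * p := by
  simp only [mul_add, add_mul, mul_sub, sub_mul, mul_assoc, h.pp', h.qq', h.ee', h.pq', h.qp', h.pe', h.ep',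
    h.qe', h.eq', h.pp, h.qq, h.ee, h.pq, h.qp, h.pe, h.ep, h.qe, h.eq, mul_zero, zero_mul]
  abel

theorem Orth3.I8 : p * X * q * Z * e =
    p * ((p * X * q) * (e * Z * p + q * Z * e) - (e * Z * p + q * Z * e) * (p * X * q)) * e := by
  simp only [mul_add, add_mul, mul_sub, sub_mul, mul_assoc, h.pp', h.qq', h.ee', h.pq', h.qp', h.pe', h.ep',
    h.qe', h.eq', h.pp, h.qq, h.ee, h.pq, h.qp, h.pe, h.ep, h.qe, h.eq, mul_zero, zero_mul]
  abel

theorem Orth3.I9 : p * X * q * Z * q =
    p * ((p * X * q) * (p * Z * p + q * Z * q + e * Z * e) -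
      (p * Z * p + q * Z * q + e * Z * e) * (p * X * q)) * q + p * Z * (p * X * q) := by
  simp only [mul_add, add_mul, mul_sub, sub_mul, mul_assoc, h.pp', h.qq', h.ee', h.pq', h.qp', h.pe', h.ep',
    h.qe', h.eq', h.pp, h.qq, h.ee, h.pq, h.qp, h.pe, h.ep, h.qe, h.eq, mul_zero, zero_mul]
  abel

end ids

variable {K V : Type*} [Field K] [CharZero K] [AddCommGroup V] [Module K V] [FiniteDimensional K V]

/-- irreducibility of a set of operators -/
def Irr (k : Submodule K (End K V)) : Prop :=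
  ∀ U : Submodule K V, (∀ X ∈ k, ∀ u ∈ U, X u ∈ U) → U = ⊥ ∨ U = ⊤

theorem killed {k : Submodule K (End K V)} (hb : BrClosed k) (hi : Irr k) {p q e : End K V}
    (h : Orth3 p q e) (hH : p - q ∈ k) (hp : p ≠ 0) {v : V} (h1 : p v = 0) (h2 : q v = 0)
    (h3 : ∀ X ∈ k, p (X v) = 0) (h4 : ∀ X ∈ k, q (X v) = 0) : v = 0 := by
  let R : Submodule K V :=
    { carrier := {v | p v = 0 ∧ q v = 0 ∧ (∀ X ∈ k, p (X v) = 0) ∧ (∀ X ∈ k, q (X v) = 0)}
      add_mem' := by
        rintro a b ⟨a1, a2, a3, a4⟩ ⟨b1, b2, b3, b4⟩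
        refine ⟨by rw [map_add, a1, b1, add_zero], by rw [map_add, a2, b2, add_zero], ?_, ?_⟩
        · intro X hX; rw [map_add, map_add, a3 X hX, b3 X hX, add_zero]
        · intro X hX; rw [map_add, map_add, a4 X hX, b4 X hX, add_zero]
      zero_mem' := by simp
      smul_mem' := by
        rintro s a ⟨a1, a2, a3, a4⟩
        refine ⟨by rw [map_smul, a1, smul_zero], by rw [map_smul, a2, smul_zero], ?_, ?_⟩
        · intro X hX; rw [map_smul, map_smul, a3 X hX, smul_zero]
        · intro X hX; rw [map_smul, map_smul, a4 X hX, smul_zero] }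
  have hR : ∀ v, v ∈ R ↔ p v = 0 ∧ q v = 0 ∧ (∀ X ∈ k, p (X v) = 0) ∧ (∀ X ∈ k, q (X v) = 0) :=
    fun v => Iff.rfl
  have hev : ∀ v, p v = 0 → q v = 0 → e v = v := by
    intro v h1 h2
    have := congrArg (fun f : End K V => f v) h.one
    simpa [h1, h2] using this
  have hst : ∀ Y ∈ k, ∀ u ∈ R, Y u ∈ R := by
    intro Y hY u hu
    rw [hR] at hu
    obtain ⟨u1, u2, u3, u4⟩ := hu
    have eu := hev u u1 u2
    have eYu := hev _ (u3 Y hY) (u4 Y hY)
    rw [hR]
    refine ⟨u3 Y hY, u4 Y hY, ?_, ?_⟩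
    · intro X hX
      have c1 := (h.comps hb hH hX).2.1
      have c2 := (h.comps hb hH hY).2.2.1
      have e1 := congrArg (fun f : End K V => f u) (h.I2 X Y)
      have e2 := u3 _ (hb _ c1 _ c2)
      simp only [Module.End.mul_apply, LinearMap.add_apply, eu] at e1
      rw [eYu] at e1
      rw [e1, e2, u3 X hX, map_zero, map_zero, add_zero]
    · intro X hX
      have c1 := (h.comps hb hH hX).2.2.2.1
      have c2 := (h.comps hb hH hY).2.2.1
      have e1 := congrArg (fun f : End K V => f u) (h.swap.I2 X Y)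
      simp only [Module.End.mul_apply, LinearMap.add_apply, eu] at e1
      rw [eYu] at e1
      have c1' : q * X * e + e * X * p ∈ k := by rw [add_comm]; exact c1
      have c2' : q * Y * q + p * Y * p + e * Y * e ∈ k := by
        rw [add_comm (q * Y * q)]; exact c2
      have e2 := u4 _ (hb _ c1' _ c2')
      rw [e1, e2, u4 X hX, map_zero, map_zero, add_zero]
  rcases hi R hst with h0 | h0
  · have : v ∈ R := by rw [hR]; exact ⟨h1, h2, h3, h4⟩
    rw [h0] at this
    exact (Submodule.mem_bot K).mp this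
  · exfalso
    apply hp
    ext v
    have : v ∈ R := by rw [h0]; trivial
    exact this.1

/-- A stable subspace of the top degree piece comes from a submodule. -/
theorem top_sub {k : Submodule K (End K V)} (hb : BrClosed k) {p q e : End K V}
    (h : Orth3 p q e) (hH : p - q ∈ k) {l : Submodule K V} (hlp : ∀ v ∈ l, p v = v)
    (hl : ∀ X ∈ k, ∀ v ∈ l, p (X v) ∈ l) : ∃ M : Submodule K V, (∀ X ∈ k, ∀ u ∈ M, X u ∈ M) ∧ l ≤ M ∧
      ∀ u ∈ M, p u ∈ l := by
  have hc := fun {X : End K V} (hX : X ∈ k) => h.comps hb hH hX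
  have hl' : ∀ X ∈ k, ∀ w ∈ l, (p * X * p) w ∈ l := by
    intro X hX w hw
    rw [Module.End.mul_apply, hlp w hw]
    exact hl X hX w hw
  have B1 : ∀ X ∈ k, ∀ Z ∈ k, ∀ w ∈ l, (p * X * e * Z * p) w ∈ l := by
    intro X hX Z hZ w hw
    rw [h.I1]
    exact hl' _ (hb _ (hc hX).2.1 _ (hc hZ).2.2.2.1) w hw
  let M : Submodule K V :=
    { carrier := {v | p v ∈ l ∧ (∀ X ∈ k, (p * X * e) v ∈ l) ∧
        (∀ X ∈ k, ∀ Y ∈ k, (p * Y * (e * X * q)) v ∈ l) ∧ (∀ X ∈ k, (p * X * q) v ∈ l)}
      add_mem' := by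
        rintro a b ⟨a1, a2, a3, a4⟩ ⟨b1, b2, b3, b4⟩
        refine ⟨by rw [map_add]; exact l.add_mem a1 b1, ?_, ?_, ?_⟩
        · intro X hX; rw [map_add]; exact l.add_mem (a2 X hX) (b2 X hX)
        · intro X hX Y hY; rw [map_add]; exact l.add_mem (a3 X hX Y hY) (b3 X hX Y hY)
        · intro X hX; rw [map_add]; exact l.add_mem (a4 X hX) (b4 X hX)
      zero_mem' := by
        refine ⟨?_, ?_, ?_, ?_⟩
        · rw [map_zero]; exact l.zero_mem
        · intro X hX; rw [map_zero]; exact l.zero_mem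
        · intro X hX Y hY; rw [map_zero]; exact l.zero_mem
        · intro X hX; rw [map_zero]; exact l.zero_mem
      smul_mem' := by
        rintro s a ⟨a1, a2, a3, a4⟩
        refine ⟨by rw [map_smul]; exact l.smul_mem _ a1, ?_, ?_, ?_⟩
        · intro X hX; rw [map_smul]; exact l.smul_mem _ (a2 X hX)
        · intro X hX Y hY; rw [map_smul]; exact l.smul_mem _ (a3 X hX Y hY)
        · intro X hX; rw [map_smul]; exact l.smul_mem _ (a4 X hX) }
  have hM : ∀ v, v ∈ M ↔ p v ∈ l ∧ (∀ X ∈ k, (p * X * e) v ∈ l) ∧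
        (∀ X ∈ k, ∀ Y ∈ k, (p * Y * (e * X * q)) v ∈ l) ∧ (∀ X ∈ k, (p * X * q) v ∈ l) :=
    fun v => Iff.rfl
  have hst : ∀ Z ∈ k, ∀ v ∈ M, Z v ∈ M := by
    intro Z hZ v hv
    rw [hM] at hv
    obtain ⟨a, b, cc, d⟩ := hv
    -- general decomposition
    have dec : ∀ T : End K V, (T * Z) v = (T * Z * p) (p v) + (T * Z * e) v + (T * Z * q) v := by
      intro T
      have e1 : T * Z = T * Z * p * p + T * Z * e + T * Z * q := by
        rw [mul_assoc (T * Z) p p, h.pp, ← mul_add, ← mul_add,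
          show p + e + q = p + q + e by abel, h.one, mul_one]
      nth_rewrite 1 [e1]
      rfl
    have B2 : ∀ X ∈ k, ∀ Z ∈ k, (p * X * e * Z * e) v ∈ l := by
      intro X hX Z hZ
      rw [h.I2, LinearMap.add_apply]
      refine l.add_mem (b _ (hb _ (hc hX).2.1 _ (hc hZ).2.2.1)) ?_
      have := hl Z hZ _ (b X hX)
      exact this
    rw [hM]
    refine ⟨?_, ?_, ?_, ?_⟩
    · have := dec p
      change (p * Z) v ∈ l
      rw [this]
      exact l.add_mem (l.add_mem (hl' Z hZ _ a) (b Z hZ)) (d Z hZ)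
    · intro X hX
      change (p * X * e * Z) v ∈ l
      rw [dec (p * X * e)]
      refine l.add_mem (l.add_mem (B1 X hX Z hZ _ a) (B2 X hX Z hZ)) ?_
      have := cc Z hZ X hX
      rwa [show p * X * (e * Z * q) = p * X * e * Z * q by noncomm_ring] at this
    · intro X hX Y hY
      change (p * Y * (e * X * q) * Z) v ∈ l
      rw [dec (p * Y * (e * X * q))]
      refine l.add_mem (l.add_mem ?_ ?_) ?_
      · rw [show p * Y * (e * X * q) * Z * p = p * Y * (e * X * q * Z * p) by noncomm_ring, h.I3,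
          show ∀ C : End K V, p * Y * (e * C * p) = p * Y * e * C * p by intro C; noncomm_ring]
        exact B1 Y hY _ (hb _ (hc hX).2.1 _ (hc hZ).2.2.2.2) _ a
      · rw [show p * Y * (e * X * q) * Z * e = p * Y * (e * X * q * Z * e) by noncomm_ring, h.I4,
          show ∀ C D : End K V, p * Y * (e * C * e + e * Z * p * D) =
            p * Y * e * C * e + p * Y * e * Z * p * D by intro C D; noncomm_ring, LinearMap.add_apply]
        exact l.add_mem (B2 Y hY _ (hb _ (hc hX).2.1 _ (hc hZ).2.2.2.1)) (B1 Y hY Z hZ _ (b X hX))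
      · rw [show p * Y * (e * X * q) * Z * q = p * Y * (e * X * q * Z * q) by noncomm_ring, h.I5,
          show ∀ C D : End K V, p * Y * (e * C * q + e * Z * e * D) =
            p * Y * (e * C * q) + p * Y * e * Z * e * D by intro C D; noncomm_ring, LinearMap.add_apply]
        refine l.add_mem (cc _ (hb _ (hc hX).2.1 _ (hc hZ).2.2.1) Y hY) ?_
        rw [h.I2 Y Z, show ∀ C D : End K V, (p * C * e + p * Z * (p * Y * e)) * (e * X * q) =
            p * C * (e * e * X * q) + p * Z * (p * Y * (e * e * X * q)) by intro C D; noncomm_ring]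
        · rw [h.ee, LinearMap.add_apply]
          exact l.add_mem (cc X hX _ (hb _ (hc hY).2.1 _ (hc hZ).2.2.1)) (hl Z hZ _ (cc X hX Y hY))
        · exact 0
    · intro X hX
      change (p * X * q * Z) v ∈ l
      rw [dec (p * X * q)]
      refine l.add_mem (l.add_mem ?_ ?_) ?_
      · rw [h.I7]
        exact hl' _ (hb _ (hc hX).1 _ (hc hZ).2.2.2.2) _ a
      · rw [h.I8]
        exact b _ (hb _ (hc hX).1 _ (hc hZ).2.2.2.1)
      · rw [h.I9, LinearMap.add_apply]
        exact l.add_mem (d _ (hb _ (hc hX).1 _ (hc hZ).2.2.1)) (hl Z hZ _ (d X hX))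
  have hlM : l ≤ M := by
    intro w hw
    have hpw := hlp w hw
    have hew : e w = 0 := by rw [← hpw, ← Module.End.mul_apply, h.ep]; rfl
    have hqw : q w = 0 := by rw [← hpw, ← Module.End.mul_apply, h.qp]; rfl
    rw [hM]
    refine ⟨by rw [hpw]; exact hw, ?_, ?_, ?_⟩
    · intro X hX; simp only [Module.End.mul_apply, hew, map_zero]; exact l.zero_mem
    · intro X hX Y hY; simp only [Module.End.mul_apply, hqw, map_zero]; exact l.zero_mem
    · intro X hX; simp only [Module.End.mul_apply, hqw, map_zero]; exact l.zero_mem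
  exact ⟨M, hst, hlM, fun u hu => hu.1⟩

/-- The top degree piece of an irreducible graded module is irreducible. -/
theorem top_irr {k : Submodule K (End K V)} (hb : BrClosed k) (hi : Irr k) {p q e : End K V}
    (h : Orth3 p q e) (hH : p - q ∈ k) {l : Submodule K V} (hl0 : l ≠ ⊥) (hlp : ∀ v ∈ l, p v = v)
    (hl : ∀ X ∈ k, ∀ v ∈ l, p (X v) ∈ l) (v : V) : p v ∈ l := by
  obtain ⟨M, hst, hlM, hp⟩ := top_sub hb h hH hlp hl
  rcases hi M hst with h0 | h0
  · exfalso
    apply hl0
    rw [h0] at hlM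
    exact le_bot_iff.mp hlM
  · have : v ∈ M := by rw [h0]; trivial
    exact hp v this

end Pool.Agent.Helper78_MT
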