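import Pool.Agent.Helper78_MT.Poly

/-! The Lie algebra of a Zariski closed monoid of matrices. -/

set_option autoImplicit false
set_option linter.unusedSectionVars false
set_option linter.unusedSimpArgs false

namespace Pool.Agent.Helper78_MT

open MvPolynomial

variable {n : Type*} [Fintype n] [DecidableEq n] {K : Type*} [Field K]

/-- the Lie algebra of a set of matrices -/
def lieOf (G : Set (Matrix n n K)) : Submodule K (Matrix n n K) where
  carrier := {A | ∀ p : MvPolynomial (n × n) K, (∀ g ∈ G, pev g p = 0) → ∀ g ∈ G, pev g (dr A p) = 0}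
  add_mem' := by
    intro A B hA hB p hp g hg
    rw [dr_add, map_add, hA p hp g hg, hB p hp g hg, add_zero]
  zero_mem' := by
    intro p _ g _
    rw [dr_zero, map_zero]
  smul_mem' := by
    intro c A hA p hp g hg
    rw [dr_smul, map_smul, hA p hp g hg, smul_zero]

theorem mem_lieOf {G : Set (Matrix n n K)} {A : Matrix n n K} : A ∈ lieOf G ↔
    ∀ p : MvPolynomial (n × n) K, (∀ g ∈ G, pev g p = 0) → ∀ g ∈ G, pev g (dr A p) = 0 := Iff.rfl

theorem lieOf_br {G : Set (Matrix n n K)} {A B : Matrix n n K} (hA : A ∈ lieOf G) (hB : B ∈ lieOf G) :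
    A * B - B * A ∈ lieOf G := by
  rw [mem_lieOf] at *
  intro p hp g hg
  rw [dr_br, map_sub, hA _ (hB p hp) g hg, hB _ (hA p hp) g hg, sub_zero]

/-- linear curve of matrices -/
noncomputable def lin (A B : Matrix n n K) : Matrix n n (Polynomial K) :=
  fun i j => Polynomial.C (A i j) + Polynomial.X * Polynomial.C (B i j)

theorem lin_eval (A B : Matrix n n K) (t : K) : (lin A B).map (Polynomial.eval t) = A + t • B := by
  ext i j
  simp [lin]
  ring

theorem lin_deriv (A B : Matrix n n K) (i j : n) :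
    Polynomial.derivative (lin A B i j) = Polynomial.C (B i j) := by
  simp [lin]

theorem lin_sum (A B M : Matrix n n K) (i j : n) :
    ∑ k, M k j • lin A B i k = lin (A * M) (B * M) i j := by
  simp only [lin, Matrix.mul_apply, map_sum, Finset.mul_sum]
  rw [← Finset.sum_add_distrib]
  apply Finset.sum_congr rfl
  intro k _
  rw [Polynomial.smul_eq_C_mul, map_mul, map_mul]
  ring

variable [CharZero K]

theorem lieOf_unip {G : Set (Matrix n n K)} (hmul : ∀ a ∈ G, ∀ b ∈ G, a * b ∈ G) {N : Matrix n n K}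
    (hN2 : N * N = 0) (hN : ∀ t : K, 1 + t • N ∈ G) : N ∈ lieOf G := by
  rw [mem_lieOf]
  intro p hp g hg
  have h1 : ∀ i j, (1 : Polynomial K) * Polynomial.derivative (lin g (g * N) i j) =
      ∑ k, N k j • lin g (g * N) i k := by
    intro i j
    rw [one_mul, lin_deriv, lin_sum, mul_assoc, hN2, mul_zero]
    simp [lin]
  have h2 : cev (lin g (g * N)) p = 0 := by
    apply poly_zero_of_eval
    intro t _
    rw [cev_eval, lin_eval]
    have : g + t • (g * N) = g * (1 + t • N) := by rw [mul_add, mul_one, mul_smul_comm]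
    rw [this]
    exact hp _ (hmul _ hg _ (hN t))
  have h3 := cev_deriv h1 p
  rw [h2, Polynomial.derivative_zero, mul_zero] at h3
  have h4 := cev_eval (lin g (g * N)) 0 (dr N p)
  rw [← h3, lin_eval, zero_smul, add_zero, Polynomial.eval_zero] at h4
  exact h4.symm

theorem lieOf_torus {G : Set (Matrix n n K)} (hmul : ∀ a ∈ G, ∀ b ∈ G, a * b ∈ G) {P : Matrix n n K}
    (hP : P * P = P) (hG : ∀ t : K, t ≠ 0 → P + t • (1 - P) ∈ G) : 1 - P ∈ lieOf G := by
  rw [mem_lieOf]
  intro p hp g hg
  have hPQ : P * (1 - P) = 0 := by rw [mul_sub, mul_one, hP, sub_self]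
  have hQQ : (1 - P) * (1 - P) = 1 - P := by rw [sub_mul, one_mul, hPQ, sub_zero]
  have h1 : ∀ i j, (Polynomial.X : Polynomial K) *
      Polynomial.derivative (lin (g * P) (g * (1 - P)) i j) =
      ∑ k, (1 - P) k j • lin (g * P) (g * (1 - P)) i k := by
    intro i j
    rw [lin_deriv, lin_sum, mul_assoc, mul_assoc, hPQ, hQQ, mul_zero]
    simp [lin]
  have h2 : cev (lin (g * P) (g * (1 - P))) p = 0 := by
    apply poly_zero_of_eval
    intro t ht
    rw [cev_eval, lin_eval]
    have : g * P + t • (g * (1 - P)) = g * (P + t • (1 - P)) := by rw [mul_add, mul_smul_comm]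
    rw [this]
    exact hp _ (hmul _ hg _ (hG t ht))
  have h3 := cev_deriv h1 p
  rw [h2, Polynomial.derivative_zero, mul_zero] at h3
  have h4 := cev_eval (lin (g * P) (g * (1 - P))) 1 (dr (1 - P) p)
  rw [← h3, lin_eval, one_smul, ← mul_add, add_sub_cancel, mul_one, Polynomial.eval_zero] at h4
  exact h4.symm

theorem exp_mem {G : Set (Matrix n n K)} (hone : 1 ∈ G) {N : Matrix n n K}
    (hN2 : N * N = 0) (hN : N ∈ lieOf G) (t : K) (p : MvPolynomial (n × n) K)
    (hp : ∀ g ∈ G, pev g p = 0) : pev (1 + t • N) p = 0 := by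
  have h1 : ∀ i j, (1 : Polynomial K) * Polynomial.derivative (lin 1 N i j) =
      ∑ k, N k j • lin 1 N i k := by
    intro i j
    rw [one_mul, lin_deriv, lin_sum, one_mul, hN2]
    simp [lin]
  have h2 : ∀ k : ℕ, ∃ q : MvPolynomial (n × n) K, (∀ g ∈ G, pev g q = 0) ∧
      Polynomial.derivative^[k] (cev (lin 1 N) p) = cev (lin 1 N) q := by
    intro k
    induction k with
    | zero => exact ⟨p, hp, rfl⟩
    | succ k ih =>
      obtain ⟨q, hq, h⟩ := ih
      refine ⟨dr N q, hN q hq, ?_⟩
      rw [Function.iterate_succ_apply', h, ← cev_deriv h1, one_mul]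
  have h3 : cev (lin 1 N) p = 0 := by
    apply poly_zero_of_deriv
    intro k
    obtain ⟨q, hq, h⟩ := h2 k
    rw [h, cev_eval, lin_eval, zero_smul, add_zero]
    exact hq _ hone
  rw [← lin_eval, ← cev_eval, h3, Polynomial.eval_zero]

end Pool.Agent.Helper78_MT
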