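import Pool.Agent.Helper78_MT.GroupB

/-! Closed monoids of symplectic similitudes: the main statement on groups. -/

set_option autoImplicit false
set_option linter.unusedSectionVars false
set_option linter.unusedSimpArgs false

namespace Pool.Agent.Helper78_MT

open MvPolynomial Matrix Module

variable {n : Type*} [Fintype n] [DecidableEq n] {K : Type*} [Field K]

/-- `t ↦ P + t (1 - P)` is a cocharacter with values in `G` -/
def IsCochar (G : Set (Matrix n n K)) (P : Matrix n n K) : Prop :=
  P * P = P ∧ ∀ t : K, t ≠ 0 → P + t • (1 - P) ∈ G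

/-- the elements of the cocharacters of weights zero and one of `G` -/
def cocharSet (G : Set (Matrix n n K)) : Set (Matrix n n K) :=
  {X | ∃ (P : Matrix n n K) (t : K), IsCochar G P ∧ t ≠ 0 ∧ X = P + t • (1 - P)}

/-- `G` is generated, as a Zariski closed monoid, by its cocharacters of weights zero and one -/
def CocharGen (G : Set (Matrix n n K)) : Prop :=
  ∀ p : MvPolynomial (n × n) K, (∀ s ∈ Submonoid.closure (cocharSet G), pev s p = 0) →
    ∀ g ∈ G, pev g p = 0

/-- a subspace stable under all nontrivial cocharacters is stable under everything -/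
theorem cochar_stable {G : Set (Matrix n n K)} (hgen : CocharGen G)
    {U : Submodule K (n → K)}
    (hU : ∀ P, IsCochar G P → P ≠ 0 → P ≠ 1 → ∀ u ∈ U, P *ᵥ u ∈ U) :
    ∀ M ∈ Submodule.span K G, ∀ u ∈ U, M *ᵥ u ∈ U := by
  have h1 : ∀ s ∈ Submonoid.closure (cocharSet G), ∀ u ∈ U, s *ᵥ u ∈ U := by
    intro s hs
    induction hs using Submonoid.closure_induction with
    | mem x hx =>
      obtain ⟨P, t, hP, ht, rfl⟩ := hx
      intro u hu
      have hPu : P *ᵥ u ∈ U := by
        by_cases h0 : P = 0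
        · rw [h0, zero_mulVec]; exact U.zero_mem
        by_cases h1 : P = 1
        · rw [h1, one_mulVec]; exact hu
        exact hU P hP h0 h1 u hu
      rw [add_mulVec, smul_mulVec, sub_mulVec, one_mulVec]
      exact U.add_mem hPu (U.smul_mem _ (U.sub_mem hu hPu))
    | one => intro u hu; rwa [one_mulVec]
    | mul x y _ _ hx hy =>
      intro u hu
      rw [← mulVec_mulVec]
      exact hx _ (hy _ hu)
  have h2 : ∀ g ∈ G, ∀ u ∈ U, g *ᵥ u ∈ U := by
    intro g hg u hu
    by_contra hcon
    obtain ⟨f, hf1, hf2⟩ := Submodule.exists_le_ker_of_notMem hcon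
    apply hf1
    -- the polynomial `f (X u)`
    let p : MvPolynomial (n × n) K := ∑ i, ∑ j, C (f (Pi.single i 1) * u j) * X (i, j)
    have hp : ∀ M : Matrix n n K, pev M p = f (M *ᵥ u) := by
      intro M
      have e1 : M *ᵥ u = ∑ i, (M *ᵥ u) i • (Pi.single i (1 : K) : n → K) := by
        ext k
        simp [Finset.sum_apply, Pi.single_apply]
      rw [e1, map_sum]
      simp only [p, map_sum, map_mul, pev_C, pev_X, map_smul, smul_eq_mul]
      apply Finset.sum_congr rfl
      intro i _
      rw [mulVec, dotProduct, Finset.sum_mul]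
      apply Finset.sum_congr rfl
      intro j _
      simp only [Algebra.algebraMap_self, RingHom.id_apply]
      ring
    rw [← hp]
    apply hgen _ _ g hg
    intro s hs
    rw [hp]
    exact hf2 (h1 s hs u hu)
  intro M hM
  induction hM using Submodule.span_induction with
  | mem x hx => exact h2 x hx
  | zero => intro u _; rw [zero_mulVec]; exact U.zero_mem
  | add x y _ _ hx hy =>
    intro u hu; rw [add_mulVec]; exact U.add_mem (hx u hu) (hy u hu)
  | smul a x _ hx =>
    intro u hu; rw [smul_mulVec]; exact U.smul_mem _ (hx u hu)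

theorem exists_matrix {u : n → K} (hu : u ≠ 0) (v : n → K) : ∃ M : Matrix n n K, M *ᵥ u = v := by
  obtain ⟨i, hi⟩ : ∃ i, u i ≠ 0 := by
    by_contra hcon
    push Not at hcon
    exact hu (funext hcon)
  refine ⟨fun k j => if j = i then v k / u i else 0, ?_⟩
  ext k
  simp [mulVec, dotProduct, hi]

theorem cochar_irr {G : Set (Matrix n n K)} (hgen : CocharGen G) (hspan : Submodule.span K G = ⊤)
    {U : Submodule K (n → K)}
    (hU : ∀ P, IsCochar G P → P ≠ 0 → P ≠ 1 → ∀ u ∈ U, P *ᵥ u ∈ U) : U = ⊥ ∨ U = ⊤ := by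
  have h3 : ∀ M : Matrix n n K, ∀ u ∈ U, M *ᵥ u ∈ U :=
    fun M => cochar_stable hgen hU M (by rw [hspan]; trivial)
  by_cases hb : U = ⊥
  · exact Or.inl hb
  right
  obtain ⟨u, hu, hu0⟩ := Submodule.exists_mem_ne_zero_of_ne_bot hb
  rw [eq_top_iff]
  intro v _
  obtain ⟨M, hM⟩ := exists_matrix hu0 v
  rw [← hM]
  exact h3 M u hu

/-- the version with blocks -/
theorem cochar_irr_blk {ι : Type*} {e : ι → Matrix n n K} (he : ∀ i, e i * e i = e i)
    (ho : ∀ i j, i ≠ j → e i * e j = 0)
    {G : Set (Matrix n n K)} (hgen : CocharGen G)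
    (hspan : ∀ X : Matrix n n K, (∀ i, X * e i = e i * X) → X ∈ Submodule.span K G)
    {U : Submodule K (n → K)}
    (hU : ∀ P, IsCochar G P → P ≠ 0 → P ≠ 1 → ∀ u ∈ U, P *ᵥ u ∈ U) (i : ι) :
    (∀ v, e i *ᵥ v ∈ U) ∨ (∀ u ∈ U, e i *ᵥ u = 0) := by
  by_cases hz : ∀ u ∈ U, e i *ᵥ u = 0
  · exact Or.inr hz
  left
  push Not at hz
  obtain ⟨u, hu, hu0⟩ := hz
  intro v
  obtain ⟨M, hM⟩ := exists_matrix hu0 v
  have h1 := cochar_stable hgen hU (e i * M * e i) (hspan _ (by
    intro j
    by_cases hij : i = j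
    · rw [← hij]
      calc e i * M * e i * e i = e i * M * (e i * e i) := by rw [mul_assoc]
        _ = (e i * e i) * M * e i := by rw [he]
        _ = e i * (e i * M * e i) := by simp only [mul_assoc]
    · calc e i * M * e i * e j = e i * M * (e i * e j) := by rw [mul_assoc]
        _ = (e j * e i) * M * e i := by rw [ho i j hij, ho j i (Ne.symm hij)]; simp
        _ = e j * (e i * M * e i) := by simp only [mul_assoc])) u hu
  rw [← mulVec_mulVec, ← mulVec_mulVec, hM] at h1
  exact h1

end Pool.Agent.Helper78_MT
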