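import Pool.Agent.Helper78_MT.GroupC

/-! A closed monoid generated by cocharacters which contains a small unipotent is the whole
group of symplectic similitudes. -/

set_option autoImplicit false
set_option linter.unusedSectionVars false
set_option linter.unusedSimpArgs false

namespace Pool.Agent.Helper78_MT

open MvPolynomial Matrix Module

variable {n : Type*} [Fintype n] [DecidableEq n] {K : Type*} [Field K] [CharZero K]

theorem sp_iff {E A : Matrix n n K} (h : Aᵀ * E + E * A = 0) (u v : n → K) :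
    bil E ((φm A) u) v = -bil E u ((φm A) v) := by
  rw [φm_apply, φm_apply]
  have h1 := bil_mul E A 1 u v
  have h2 := bil_mul E 1 A u v
  rw [one_mulVec, mul_one] at h1
  rw [one_mulVec, transpose_one, one_mul] at h2
  rw [h1, h2]
  have : Aᵀ * E = -(E * A) := eq_neg_of_add_eq_zero_left h
  rw [this, bil_apply, bil_apply, neg_mulVec, dotProduct_neg]

theorem group_main [IsAlgClosed K] {E : Matrix n n K} (hE : IsUnit E.det) (hskew : Eᵀ = -E)
    {G : Set (Matrix n n K)} (hone : 1 ∈ G) (hmul : ∀ a ∈ G, ∀ b ∈ G, a * b ∈ G)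
    (hcl : ∀ M : Matrix n n K, IsUnit M.det →
      (∀ p : MvPolynomial (n × n) K, (∀ g ∈ G, pev g p = 0) → pev M p = 0) → M ∈ G)
    (hGSp : ∀ g ∈ G, ∃ c : K, gᵀ * E * g = c • E)
    (hgen : CocharGen G) (hspan : Submodule.span K G = ⊤)
    {N : Matrix n n K} (hN2 : N * N = 0) (hN : ∀ t : K, 1 + t • N ∈ G)
    (hr : Odd N.rank ∨ N.rank = 2) {X : Matrix n n K} (hX : IsUnit X.det) {c : K}
    (hXc : Xᵀ * E * X = c • E) : X ∈ G := by
  have hEu : IsUnit E := (isUnit_iff_isUnit_det E).mpr hE
  have nψ : ∀ u, (∀ v, bil E u v = 0) → u = 0 := by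
    intro u hu
    have h1 : u ᵥ* E = 0 := by
      ext j
      have := hu (Pi.single j 1)
      rw [bil_apply, dotProduct_mulVec] at this
      simpa using this
    have h2 : u ᵥ* (E * E⁻¹) = 0 := by rw [← vecMul_vecMul, h1, zero_vecMul]
    rwa [mul_nonsing_inv E hE, vecMul_one] at h2
  have skew : ∀ u v, bil E u v = -bil E v u := by
    intro u v
    rw [bil_apply, bil_apply]
    have h1 : v ⬝ᵥ (E *ᵥ u) = u ⬝ᵥ (Eᵀ *ᵥ v) := by
      rw [dotProduct_mulVec u Eᵀ, vecMul_transpose, dotProduct_comm]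
    rw [h1, hskew, neg_mulVec, dotProduct_neg, neg_neg]
  -- the Lie algebra
  let g : Submodule K (Module.End K (n → K)) :=
    { carrier := {T | (∀ u v, bil E (T u) v = -bil E u (T v)) ∧ ∃ c : K, φm.symm T + c • 1 ∈ lieOf G}
      add_mem' := by
        rintro S T ⟨h1, c1, h2⟩ ⟨h3, c2, h4⟩
        refine ⟨?_, c1 + c2, ?_⟩
        · intro u v
          simp only [LinearMap.add_apply, map_add]
          rw [h1, h3]; ring
        · have : φm.symm (S + T) + (c1 + c2) • 1 = (φm.symm S + c1 • 1) + (φm.symm T + c2 • 1) := by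
            rw [map_add]; module
          rw [this]
          exact (lieOf G).add_mem h2 h4
      zero_mem' := by
        refine ⟨by simp, 0, ?_⟩
        rw [map_zero, zero_smul, add_zero]; exact (lieOf G).zero_mem
      smul_mem' := by
        rintro s T ⟨h1, c1, h2⟩
        refine ⟨?_, s * c1, ?_⟩
        · intro u v
          simp only [LinearMap.smul_apply, map_smul]
          rw [h1]; simp
        · have : φm.symm (s • T) + (s * c1) • 1 = s • (φm.symm T + c1 • 1) := by
            rw [map_smul]; module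
          rw [this]
          exact (lieOf G).smul_mem _ h2 }
  have hg : ∀ T, T ∈ g ↔ (∀ u v, bil E (T u) v = -bil E u (T v)) ∧
      ∃ c : K, φm.symm T + c • 1 ∈ lieOf G := fun T => Iff.rfl
  have hb : ∀ S ∈ g, ∀ T ∈ g, φm.symm (S * T - T * S) ∈ lieOf G := by
    rintro S ⟨-, c1, h2⟩ T ⟨-, c2, h4⟩
    have h5 := lieOf_br h2 h4
    have : (φm.symm S + c1 • 1) * (φm.symm T + c2 • 1) - (φm.symm T + c2 • 1) * (φm.symm S + c1 • 1) =
        φm.symm (S * T - T * S) := by
      rw [map_sub, map_mul, map_mul]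
      simp only [mul_add, add_mul, smul_mul_assoc, mul_smul_comm, one_mul, mul_one, smul_smul]
      module
    rw [this] at h5
    exact h5
  have hbr : BrClosed g := by
    intro S hS T hT
    refine ⟨?_, 0, ?_⟩
    · intro u v
      simp only [LinearMap.sub_apply, Module.End.mul_apply, map_sub]
      rw [hS.1, hT.1, hT.1, hS.1]; ring
    · rw [zero_smul, add_zero]
      exact hb S hS T hT
  -- cocharacters
  have hco : ∀ P, IsCochar G P → P ≠ 0 → P ≠ 1 →
      (∀ t : K, (P + t • (1 - P))ᵀ * E * (P + t • (1 - P)) = t • E) ∧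
      φm ((1 - P) - (1 / 2 : K) • 1) ∈ g ∧
      φm ((1 - P) - (1 / 2 : K) • 1) * φm ((1 - P) - (1 / 2 : K) • 1) = (1 / 4 : K) • 1 := by
    intro P hP h0 h1
    rcases cochar hE hP.1 (fun t ht => hGSp _ (hP.2 t ht)) with h2 | h2 | ⟨h2, h3⟩
    · exact absurd h2 h0
    · exact absurd h2 h1
    refine ⟨h2, ⟨sp_iff h3, 1 / 2, ?_⟩, ?_⟩
    · rw [AlgEquiv.symm_apply_apply, sub_add_cancel]
      exact lieOf_torus hmul hP.1 hP.2
    · rw [← map_mul]
      have hQQ : (1 - P) * (1 - P) = 1 - P := by
        rw [sub_mul, one_mul, mul_sub, mul_one, hP.1]; abel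
      have : ((1 - P) - (1 / 2 : K) • 1) * ((1 - P) - (1 / 2 : K) • 1) = (1 / 4 : K) • (1 : Matrix n n K) := by
        obtain ⟨Q, hQ⟩ : ∃ Q, Q = 1 - P := ⟨_, rfl⟩
        rw [← hQ] at hQQ ⊢
        rw [sub_mul, mul_sub, mul_sub, hQQ]
        simp only [smul_mul_assoc, mul_smul_comm, one_mul, mul_one]
        module
      rw [this, map_smul, map_one]
  have hirr : ∀ U : Submodule K (n → K), (∀ h ∈ g, h * h = (1 / 4 : K) • 1 → ∀ u ∈ U, h u ∈ U) →
      U = ⊥ ∨ U = ⊤ := by
    intro U hU
    apply cochar_irr hgen hspan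
    intro P hP h0 h1 u hu
    obtain ⟨-, h2, h3⟩ := hco P hP h0 h1
    have h4 := hU _ h2 h3 u hu
    rw [φm_apply, sub_mulVec, sub_mulVec, one_mulVec, smul_mulVec, one_mulVec] at h4
    have h5 : P *ᵥ u = (1 / 2 : K) • u - (u - P *ᵥ u - (1 / 2 : K) • u) := by module
    rw [h5]
    exact U.sub_mem (U.smul_mem _ hu) h4
  have hNg : φm N ∈ g := by
    refine ⟨sp_iff (unip_sp hE hN2 (fun t => hGSp _ (hN t))), 0, ?_⟩
    rw [AlgEquiv.symm_apply_apply, zero_smul, add_zero]
    exact lieOf_unip hmul hN2 hN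
  have hNN : φm N * φm N = 0 := by rw [← map_mul, hN2, map_zero]
  have hlie : ∀ C : Module.End K (n → K), (∀ u v, bil E (C u) v = -bil E u (C v)) → C ∈ g := by
    intro C hC
    exact lie_main hbr (fun X hX => hX.1) nψ skew hirr hNg hNN hr hC
  -- transvections
  let S : Set (Module.End K (n → K)) := {T | φm.symm T ∈ G}
  have hSt : ∀ (v : n → K) (a : K), 1 + a • r1 (bil E) v v ∈ S := by
    intro v a
    change φm.symm (1 + a • r1 (bil E) v v) ∈ G
    rw [map_add, map_one, map_smul]
    by_cases hv : v = 0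
    · have : r1 (bil E) v v = 0 := by
        rw [hv]; ext; simp [r1]
      rw [this, map_zero, smul_zero, add_zero]
      exact hone
    obtain ⟨w, hw⟩ : ∃ w, bil E v w = 1 := by
      obtain ⟨w, hw⟩ : ∃ w, bil E v w ≠ 0 := by
        by_contra hcon
        push Not at hcon
        exact hv (nψ v hcon)
      exact ⟨(bil E v w)⁻¹ • w, by rw [map_smul, smul_eq_mul, inv_mul_cancel₀ hw]⟩
    obtain ⟨T, hT⟩ : ∃ T, T = r1 (bil E) v v := ⟨_, rfl⟩
    obtain ⟨H, hH⟩ : ∃ H, H = -(r1 (bil E) w v + r1 (bil E) v w) := ⟨_, rfl⟩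
    have hTsp : ∀ x y, bil E (T x) y = -bil E x (T y) := by
      intro x y
      simp only [hT, r1_apply, map_smul, LinearMap.smul_apply, smul_eq_mul]
      rw [skew x v]
      ring
    have hHsp : ∀ x y, bil E (H x) y = -bil E x (H y) := by
      intro x y
      simp only [hH, LinearMap.neg_apply, LinearMap.add_apply, r1_apply, map_neg, map_add, map_smul,
        LinearMap.smul_apply, smul_eq_mul]
      rw [skew x v, skew x w]
      ring
    have hbr2 : H * T - T * H = (2 : K) • T := by
      apply LinearMap.ext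
      intro x
      simp only [hH, hT, LinearMap.sub_apply, Module.End.mul_apply, LinearMap.neg_apply,
        LinearMap.add_apply, LinearMap.smul_apply, r1_apply, map_smul, map_neg, map_add,
        alt_of_skew skew v, hw, skew w v]
      module
    have hTl : φm.symm T ∈ lieOf G := by
      have h1 := hb H (hlie H hHsp) T (hlie T hTsp)
      rw [hbr2, map_smul] at h1
      have h2 := (lieOf G).smul_mem (1 / 2 : K) h1
      rw [smul_smul] at h2
      norm_num at h2
      exact h2
    have hTT : φm.symm T * φm.symm T = 0 := by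
      rw [← map_mul, hT, r1_sq skew, map_zero]
    rw [← hT]
    apply hcl
    · have h1 : (1 + a • φm.symm T) * (1 - a • φm.symm T) = 1 := by
        rw [mul_sub, mul_one, add_mul, one_mul, smul_mul_smul_comm, hTT, smul_zero, add_zero,
          add_sub_cancel_right]
      have h2 := congrArg det h1
      rw [det_mul, det_one] at h2
      exact IsUnit.of_mul_eq_one _ h2
    · intro p hp
      exact exp_mem hone hTT hTl a p hp
  have hSm : ∀ a ∈ S, ∀ b ∈ S, a * b ∈ S := by
    intro a ha b hb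
    change φm.symm (a * b) ∈ G
    rw [map_mul]
    exact hmul _ ha _ hb
  have hS1 : (1 : Module.End K (n → K)) ∈ S := by
    change φm.symm 1 ∈ G
    rw [map_one]; exact hone
  have hSp : ∀ Y : Matrix n n K, Yᵀ * E * Y = E → Y ∈ G := by
    intro Y hY
    have h1 : φm Y ∈ S := by
      apply sp_gen nψ skew hSm hS1 hSt
      intro u v
      rw [φm_apply, φm_apply, bil_mul, hY]
    change φm.symm (φm Y) ∈ G at h1
    rwa [AlgEquiv.symm_apply_apply] at h1
  -- a nontrivial cocharacter
  obtain ⟨P, hP, hP0, hP1⟩ : ∃ P, IsCochar G P ∧ P ≠ 0 ∧ P ≠ 1 := by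
    by_contra hcon
    push Not at hcon
    have hN0 : N ≠ 0 := by
      intro h0
      rw [h0, rank_zero] at hr
      rcases hr with h | h
      · exact absurd h (by decide)
      · exact absurd h (by decide)
    obtain ⟨v, hv⟩ : ∃ v, N *ᵥ v ≠ 0 := by
      by_contra hc
      push Not at hc
      apply hN0
      ext i j
      have := congrFun (hc (Pi.single j 1)) i
      simpa using this
    have hNNv : ∀ w, N *ᵥ (N *ᵥ w) = 0 := by
      intro w; rw [mulVec_mulVec, hN2, zero_mulVec]
    rcases cochar_irr hgen hspan (U := LinearMap.range (φm N))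
      (fun P hP h0 h1 => absurd (hcon P hP h0) h1) with h1 | h1
    · have : (φm N) v ∈ LinearMap.range (φm N) := ⟨v, rfl⟩
      rw [h1, Submodule.mem_bot] at this
      exact hv this
    · have : v ∈ LinearMap.range (φm N) := by rw [h1]; trivial
      obtain ⟨w, hw⟩ := this
      apply hv
      rw [← hw]
      exact hNNv w
  obtain ⟨hmulti, -, -⟩ := hco P hP hP0 hP1
  have hc : c ≠ 0 := by
    intro h0
    rw [h0, zero_smul] at hXc
    have h1 : IsUnit (Xᵀ * E * X).det := by
      rw [det_mul, det_mul, det_transpose]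
      exact (hX.mul hE).mul hX
    rw [hXc] at h1
    have h2 : (0 : Matrix n n K) = 1 := by
      have h3 : IsUnit (0 : Matrix n n K) := (isUnit_iff_isUnit_det _).mpr h1
      obtain ⟨w, hw⟩ := h3
      have := w.mul_inv
      rw [hw, zero_mul] at this
      exact this
    exact hP0 (by rw [← mul_one P, ← h2, mul_zero])
  -- `X = (X μ(c)⁻¹) μ(c)`
  have hμ : (P + c • (1 - P)) ∈ G := hP.2 c hc
  have hμi : (P + c⁻¹ • (1 - P)) ∈ G := hP.2 _ (inv_ne_zero hc)
  have hQQ : (1 - P) * (1 - P) = 1 - P := by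
    rw [sub_mul, one_mul, mul_sub, mul_one, hP.1]; abel
  have hPQ : P * (1 - P) = 0 := by rw [mul_sub, mul_one, hP.1, sub_self]
  have hQP : (1 - P) * P = 0 := by rw [sub_mul, one_mul, hP.1, sub_self]
  have hinv : (P + c⁻¹ • (1 - P)) * (P + c • (1 - P)) = 1 := by
    rw [add_mul, mul_add, mul_add, hP.1, mul_smul_comm, hPQ, smul_mul_assoc, hQP, smul_mul_smul_comm,
      hQQ, inv_mul_cancel₀ hc, smul_zero, smul_zero, one_smul]
    abel
  have hY : X * (P + c⁻¹ • (1 - P)) ∈ G := by
    apply hSp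
    rw [transpose_mul]
    calc (P + c⁻¹ • (1 - P))ᵀ * Xᵀ * E * (X * (P + c⁻¹ • (1 - P)))
        = (P + c⁻¹ • (1 - P))ᵀ * (Xᵀ * E * X) * (P + c⁻¹ • (1 - P)) := by
          simp only [mul_assoc]
      _ = E := by
        rw [hXc, mul_smul_comm, smul_mul_assoc, hmulti, smul_smul, mul_inv_cancel₀ hc, one_smul]
  have : X = X * (P + c⁻¹ • (1 - P)) * (P + c • (1 - P)) := by
    rw [mul_assoc, hinv, mul_one]
  rw [this]
  exact hmul _ hY _ hμ

end Pool.Agent.Helper78_MT
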