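import Pool.Agent.Helper78_MT.Blk4

/-! Generation of the block-preserving symplectic group by transvections in the blocks. -/

set_option autoImplicit false
set_option linter.unusedSectionVars false
set_option linter.unusedSimpArgs false

namespace Pool.Agent.Helper78_MT

open Module LinearMap

variable {K V ι : Type*} [Field K] [CharZero K] [AddCommGroup V] [Module K V]
  [FiniteDimensional K V] [Fintype ι] [DecidableEq ι]
variable {ψ : V →ₗ[K] V →ₗ[K] K} {ε : ι → End K V}

theorem sp_gen_one (nψ : ∀ u, (∀ v, ψ u v = 0) → u = 0) (skew : ∀ u v, ψ u v = -ψ v u)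
    {e : End K V} (he : e * e = e) (adj : ∀ u v, ψ (e u) v = ψ u (e v))
    {S : Set (End K V)} (hmul : ∀ a ∈ S, ∀ b ∈ S, a * b ∈ S) (hone : 1 ∈ S)
    (hS : ∀ (v : V) (a : K), e v = v → 1 + a • tv ψ v ∈ S) {A : End K V}
    (hA : ∀ u v, ψ (A u) (A v) = ψ u v) (hAe : A * e = e * A) : A * e + (1 - e) ∈ S := by
  let ψW : range e →ₗ[K] range e →ₗ[K] K := ψ.domRestrict₁₂ (range e) (range e)
  have hψW : ∀ u v : range e, ψW u v = ψ (u : V) (v : V) := fun u v => rfl
  let Φ : End K (range e) → End K V := fun B => (range e).subtype ∘ₗ B ∘ₗ e.rangeRestrict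
  have hΦ : ∀ B u, Φ B u = (B ⟨e u, u, rfl⟩ : V) := fun B u => rfl
  have hΦmul : ∀ B C, Φ (B * C) = Φ B * Φ C := by
    intro B C
    ext u
    rw [Module.End.mul_apply, hΦ, hΦ, Module.End.mul_apply]
    congr 2
    apply Subtype.ext
    change ((C ⟨e u, u, rfl⟩ : range e) : V) = e ((C ⟨e u, u, rfl⟩ : range e) : V)
    rw [range_fix he]
  have hΦe : ∀ B, Φ B * e = Φ B := by
    intro B
    ext u
    rw [Module.End.mul_apply, hΦ, hΦ]
    congr 2
    apply Subtype.ext
    change e (e u) = e u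
    rw [← Module.End.mul_apply, he]
  have heΦ : ∀ B, e * Φ B = Φ B := by
    intro B
    ext u
    rw [Module.End.mul_apply, hΦ, range_fix he]
  have hΦ1 : Φ 1 = e := by
    ext u
    rw [hΦ]; rfl
  have h1 : ∀ u, (∀ v, ψW u v = 0) → u = 0 := by
    intro u hu
    apply Subtype.ext
    apply nψ
    intro v
    rw [← range_fix he u, adj]
    exact hu ⟨e v, v, rfl⟩
  have h2 : ∀ u v, ψW u v = -ψW v u := fun u v => skew _ _
  let SW : Set (End K (range e)) := {B | Φ B + (1 - e) ∈ S}
  have h3 : ∀ a ∈ SW, ∀ b ∈ SW, a * b ∈ SW := by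
    intro B hB C hC
    change Φ (B * C) + (1 - e) ∈ S
    have h4 := hmul _ hB _ hC
    have h5 : (Φ B + (1 - e)) * (Φ C + (1 - e)) = Φ (B * C) + (1 - e) := by
      have e1 : Φ B * (1 - e) = 0 := by rw [mul_sub, mul_one, hΦe, sub_self]
      have e2 : (1 - e) * Φ C = 0 := by rw [sub_mul, one_mul, heΦ, sub_self]
      have e3 : (1 - e) * (1 - e) = 1 - e := by
        rw [sub_mul, one_mul, mul_sub, mul_one, he]; abel
      rw [add_mul, mul_add, mul_add, ← hΦmul, e1, e2, e3]; abel
    rwa [h5] at h4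
  have h4 : (1 : End K (range e)) ∈ SW := by
    change Φ 1 + (1 - e) ∈ S
    rw [hΦ1, add_sub_cancel]; exact hone
  have h5 : ∀ (v : range e) (a : K), 1 + a • r1 ψW v v ∈ SW := by
    intro v a
    change Φ (1 + a • r1 ψW v v) + (1 - e) ∈ S
    have : Φ (1 + a • r1 ψW v v) + (1 - e) = 1 + a • tv ψ v := by
      ext u
      rw [LinearMap.add_apply, hΦ]
      change e u + a • (ψ v (e u) • (v : V)) + (u - e u) = u + a • (ψ v u • (v : V))
      rw [← adj, range_fix he]; abel
    rw [this]
    exact hS v a (range_fix he v)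
  have h6 := sp_gen h1 h2 h3 h4 h5 (A := res e A) (by
    intro u v
    have h7 : ∀ w : range e, e (A w) = A w := by
      intro w
      rw [← Module.End.mul_apply, ← hAe, Module.End.mul_apply, range_fix he]
    rw [hψW, hψW, res_apply, res_apply, h7, h7, hA])
  have h8 : Φ (res e A) = A * e := by
    ext u
    rw [hΦ, res_apply]
    change e (A (e u)) = A (e u)
    rw [← Module.End.mul_apply, ← Module.End.mul_apply, ← hAe, mul_assoc, he, Module.End.mul_apply]
  rw [← h8]
  exact h6

theorem sp_gen_blk (nψ : ∀ u, (∀ v, ψ u v = 0) → u = 0) (skew : ∀ u v, ψ u v = -ψ v u)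
    (idem : ∀ i, ε i * ε i = ε i) (orth : ∀ i j, i ≠ j → ε i * ε j = 0) (one : ∑ i, ε i = 1)
    (adj : ∀ i u v, ψ (ε i u) v = ψ u (ε i v))
    {S : Set (End K V)} (hmul : ∀ a ∈ S, ∀ b ∈ S, a * b ∈ S) (hone : 1 ∈ S)
    (hS : ∀ (i : ι) (v : V) (a : K), ε i v = v → 1 + a • tv ψ v ∈ S) {A : End K V}
    (hA : ∀ u v, ψ (A u) (A v) = ψ u v) (hAε : ∀ i, A * ε i = ε i * A) : A ∈ S := by
  have main : ∀ s : Finset ι, A * (∑ i ∈ s, ε i) + (1 - ∑ i ∈ s, ε i) ∈ S := by
    intro s
    induction s using Finset.induction_on with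
    | empty => simpa using hone
    | insert j s hj ih =>
      have h1 := sp_gen_one nψ skew (idem j) (adj j) hmul hone (hS j) hA (hAε j)
      have h2 := hmul _ ih _ h1
      obtain ⟨T, hT⟩ : ∃ T, T = ∑ i ∈ s, ε i := ⟨_, rfl⟩
      have hTj : T * ε j = 0 := by
        rw [hT, Finset.sum_mul]
        exact Finset.sum_eq_zero (fun i hi => orth i j (fun h => hj (h ▸ hi)))
      have hTA : A * T = T * A := by
        rw [hT, Finset.mul_sum, Finset.sum_mul]
        exact Finset.sum_congr rfl (fun i _ => hAε i)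
      rw [Finset.sum_insert hj, ← hT]
      rw [← hT] at h2
      have h3 : (A * T + (1 - T)) * (A * ε j + (1 - ε j)) = A * (ε j + T) + (1 - (ε j + T)) := by
        have e1 : A * T * (A * ε j) = 0 := by
          have : A * T * (A * ε j) = A * (T * A) * ε j := by noncomm_ring
          rw [this, ← hTA]
          have : A * (A * T) * ε j = A * A * (T * ε j) := by noncomm_ring
          rw [this, hTj, mul_zero]
        have e2 : T * (A * ε j) = 0 := by
          rw [← mul_assoc, ← hTA, mul_assoc, hTj, mul_zero]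
        have e3 : A * T * (1 - ε j) = A * T := by
          rw [mul_sub, mul_one, mul_assoc, hTj, mul_zero, sub_zero]
        have e4 : (1 - T) * (A * ε j) = A * ε j := by rw [sub_mul, one_mul, e2, sub_zero]
        have e5 : (1 - T) * (1 - ε j) = 1 - ε j - T := by
          rw [sub_mul, one_mul, mul_sub, mul_one, hTj, sub_zero]
        rw [add_mul, mul_add, mul_add, e1, e3, e4, e5]
        noncomm_ring
      rwa [h3] at h2
  have h1 := main Finset.univ
  rw [one, mul_one, sub_self, add_zero] at h1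
  exact h1

end Pool.Agent.Helper78_MT
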