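import Pool.Agent.Helper78_MT.GroupD
import Pool.Agent.Helper78_MT.Transv2

/-! Several blocks: the main statement on groups. -/

set_option autoImplicit false
set_option linter.unusedSectionVars false
set_option linter.unusedSimpArgs false

namespace Pool.Agent.Helper78_MT

open MvPolynomial Matrix Module

variable {n : Type*} [Fintype n] [DecidableEq n] {K : Type*} [Field K] [CharZero K]
  {ι : Type*} [Fintype ι] [DecidableEq ι]

theorem commute_of_curve {P Q e : Matrix n n K} (h : (P + (2 : K) • Q) * e = e * (P + (2 : K) • Q))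
    (h' : (P + Q) * e = e * (P + Q)) : P * e = e * P := by
  have e1 : P * e = (2 : K) • ((P + Q) * e) - (P + (2 : K) • Q) * e := by
    simp only [add_mul, smul_mul_assoc]; module
  have e2 : e * P = (2 : K) • (e * (P + Q)) - e * (P + (2 : K) • Q) := by
    simp only [mul_add, mul_smul_comm]; module
  rw [e1, e2, h, h']

theorem group_blk [IsAlgClosed K] {E : Matrix n n K} (hE : IsUnit E.det) (hskew : Eᵀ = -E)
    {e : ι → Matrix n n K} (idem : ∀ i, e i * e i = e i) (orth : ∀ i j, i ≠ j → e i * e j = 0)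
    (hsum : ∑ i, e i = 1) (adj : ∀ i, (e i)ᵀ * E = E * e i) (nz : ∀ i, e i ≠ 0) (hne : Nonempty ι)
    {G : Set (Matrix n n K)} (hone : 1 ∈ G) (hmul : ∀ a ∈ G, ∀ b ∈ G, a * b ∈ G)
    (hcl : ∀ M : Matrix n n K, IsUnit M.det →
      (∀ p : MvPolynomial (n × n) K, (∀ g ∈ G, pev g p = 0) → pev M p = 0) → M ∈ G)
    (hGSp : ∀ g ∈ G, ∃ c : K, gᵀ * E * g = c • E)
    (hcomm : ∀ g ∈ G, ∀ i, g * e i = e i * g)
    (hgen : CocharGen G)
    (hspan : ∀ X : Matrix n n K, (∀ i, X * e i = e i * X) → X ∈ Submodule.span K G)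
    (htoric : ∀ i, ∃ N : Matrix n n K, N * N = 0 ∧ (∀ t : K, 1 + t • N ∈ G) ∧
      (Odd (N * e i).rank ∨ (N * e i).rank = 2)) {X : Matrix n n K} (hX : IsUnit X.det) {c : K}
    (hXc : Xᵀ * E * X = c • E) (hXe : ∀ i, X * e i = e i * X) : X ∈ G := by
  have hEu : IsUnit E := (isUnit_iff_isUnit_det E).mpr hE
  have nψ : ∀ u, (∀ v, bil E u v = 0) → u = 0 := by
    intro u hu
    have h1 : u ᵥ* E = 0 := by
      ext j
      have := hu (Pi.single j 1)
      rw [bil_apply, dotProduct_mulVec] at this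
      simpa using this
    have h2 : u ᵥ* (E * E⁻¹) = 0 := by rw [← vecMul_vecMul, h1, zero_vecMul]
    rwa [mul_nonsing_inv E hE, vecMul_one] at h2
  have skew : ∀ u v, bil E u v = -bil E v u := by
    intro u v
    rw [bil_apply, bil_apply]
    have h1 : v ⬝ᵥ (E *ᵥ u) = u ⬝ᵥ (Eᵀ *ᵥ v) := by
      rw [dotProduct_mulVec u Eᵀ, vecMul_transpose, dotProduct_comm]
    rw [h1, hskew, neg_mulVec, dotProduct_neg, neg_neg]
  have adjψ : ∀ i u v, bil E ((φm (e i)) u) v = bil E u ((φm (e i)) v) := by
    intro i u v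
    rw [φm_apply, φm_apply]
    have h1 := bil_mul E (e i) 1 u v
    have h2 := bil_mul E 1 (e i) u v
    rw [one_mulVec, mul_one] at h1
    rw [one_mulVec, transpose_one, one_mul] at h2
    rw [h1, h2, adj]
  -- the Lie algebra
  let g : Submodule K (Module.End K (n → K)) :=
    { carrier := {T | (∀ u v, bil E (T u) v = -bil E u (T v)) ∧ (∀ i, T * φm (e i) = φm (e i) * T) ∧
        ∃ c : K, φm.symm T + c • 1 ∈ lieOf G}
      add_mem' := by
        rintro S T ⟨h1, h1', c1, h2⟩ ⟨h3, h3', c2, h4⟩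
        refine ⟨?_, ?_, c1 + c2, ?_⟩
        · intro u v
          simp only [LinearMap.add_apply, map_add]
          rw [h1, h3]; ring
        · intro i; rw [add_mul, mul_add, h1', h3']
        · have : φm.symm (S + T) + (c1 + c2) • 1 = (φm.symm S + c1 • 1) + (φm.symm T + c2 • 1) := by
            rw [map_add]; module
          rw [this]
          exact (lieOf G).add_mem h2 h4
      zero_mem' := by
        refine ⟨by simp, by simp, 0, ?_⟩
        rw [map_zero, zero_smul, add_zero]; exact (lieOf G).zero_mem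
      smul_mem' := by
        rintro s T ⟨h1, h1', c1, h2⟩
        refine ⟨?_, ?_, s * c1, ?_⟩
        · intro u v
          simp only [LinearMap.smul_apply, map_smul]
          rw [h1]; simp
        · intro i; rw [smul_mul_assoc, mul_smul_comm, h1']
        · have : φm.symm (s • T) + (s * c1) • 1 = s • (φm.symm T + c1 • 1) := by
            rw [map_smul]; module
          rw [this]
          exact (lieOf G).smul_mem _ h2 }
  have hb : ∀ S ∈ g, ∀ T ∈ g, φm.symm (S * T - T * S) ∈ lieOf G := by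
    rintro S ⟨-, -, c1, h2⟩ T ⟨-, -, c2, h4⟩
    have h5 := lieOf_br h2 h4
    have : (φm.symm S + c1 • 1) * (φm.symm T + c2 • 1) - (φm.symm T + c2 • 1) * (φm.symm S + c1 • 1) =
        φm.symm (S * T - T * S) := by
      rw [map_sub, map_mul, map_mul]
      simp only [mul_add, add_mul, smul_mul_assoc, mul_smul_comm, one_mul, mul_one, smul_smul]
      module
    rw [this] at h5
    exact h5
  have hbr : BrClosed g := by
    intro S hS T hT
    refine ⟨?_, ?_, 0, ?_⟩
    · intro u v
      simp only [LinearMap.sub_apply, Module.End.mul_apply, map_sub]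
      rw [hS.1, hT.1, hT.1, hS.1]; ring
    · intro i; exact comm_sub (hS.2.1 i) (hT.2.1 i)
    · rw [zero_smul, add_zero]
      exact hb S hS T hT
  have φcomm : ∀ A : Matrix n n K, (∀ i, A * e i = e i * A) → ∀ i, φm A * φm (e i) = φm (e i) * φm A := by
    intro A hA i
    rw [← map_mul, hA, map_mul]
  -- cocharacters
  have hPc : ∀ P, IsCochar G P → ∀ i, P * e i = e i * P := by
    intro P hP i
    apply commute_of_curve (Q := 1 - P)
    · exact hcomm _ (hP.2 2 two_ne_zero) i
    · rw [add_sub_cancel]; simp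
  have hco : ∀ P, IsCochar G P → P ≠ 0 → P ≠ 1 →
      (∀ t : K, (P + t • (1 - P))ᵀ * E * (P + t • (1 - P)) = t • E) ∧
      φm ((1 - P) - (1 / 2 : K) • 1) ∈ g ∧
      φm ((1 - P) - (1 / 2 : K) • 1) * φm ((1 - P) - (1 / 2 : K) • 1) = (1 / 4 : K) • 1 := by
    intro P hP h0 h1
    rcases cochar hE hP.1 (fun t ht => hGSp _ (hP.2 t ht)) with h2 | h2 | ⟨h2, h3⟩
    · exact absurd h2 h0
    · exact absurd h2 h1
    refine ⟨h2, ⟨sp_iff h3, ?_, 1 / 2, ?_⟩, ?_⟩
    · apply φcomm
      intro i
      have := hPc P hP i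
      simp only [sub_mul, mul_sub, one_mul, mul_one, smul_mul_assoc, mul_smul_comm, this]
    · rw [AlgEquiv.symm_apply_apply, sub_add_cancel]
      exact lieOf_torus hmul hP.1 hP.2
    · rw [← map_mul]
      have hQQ : (1 - P) * (1 - P) = 1 - P := by
        rw [sub_mul, one_mul, mul_sub, mul_one, hP.1]; abel
      have : ((1 - P) - (1 / 2 : K) • 1) * ((1 - P) - (1 / 2 : K) • 1) = (1 / 4 : K) • (1 : Matrix n n K) := by
        obtain ⟨Q, hQ⟩ : ∃ Q, Q = 1 - P := ⟨_, rfl⟩
        rw [← hQ] at hQQ ⊢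
        rw [sub_mul, mul_sub, mul_sub, hQQ]
        simp only [smul_mul_assoc, mul_smul_comm, one_mul, mul_one]
        module
      rw [this, map_smul, map_one]
  have hNc : ∀ N : Matrix n n K, (∀ t : K, 1 + t • N ∈ G) → ∀ i, N * e i = e i * N := by
    intro N hN i
    have h1 := hcomm _ (hN 1) i
    rw [one_smul, add_mul, mul_add, one_mul, mul_one] at h1
    exact add_left_cancel h1
  have hNg : ∀ N : Matrix n n K, N * N = 0 → (∀ t : K, 1 + t • N ∈ G) → φm N ∈ g := by
    intro N hN2 hN
    refine ⟨sp_iff (unip_sp hE hN2 (fun t => hGSp _ (hN t))), φcomm N (hNc N hN), 0, ?_⟩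
    rw [AlgEquiv.symm_apply_apply, zero_smul, add_zero]
    exact lieOf_unip hmul hN2 hN
  have blk : Blk (bil E) (fun i => φm (e i)) g := by
    refine ⟨hbr, fun X hX => hX.1, nψ, skew, ?_, ?_, ?_, adjψ, ?_, ?_, ?_⟩
    · intro i; rw [← map_mul, idem]
    · intro i j hij; rw [← map_mul, orth i j hij, map_zero]
    · rw [← map_sum, hsum, map_one]
    · intro i X hX; exact hX.2.1 i
    · intro i h0
      apply nz i
      apply φm.injective
      rw [h0, map_zero]
    · intro U hU i
      apply cochar_irr_blk idem orth hgen hspan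
      intro P hP h0 h1 u hu
      obtain ⟨-, h2, h3⟩ := hco P hP h0 h1
      have h4 := hU _ h2 h3 u hu
      rw [φm_apply, sub_mulVec, sub_mulVec, one_mulVec, smul_mulVec, one_mulVec] at h4
      have h5 : P *ᵥ u = (1 / 2 : K) • u - (u - P *ᵥ u - (1 / 2 : K) • u) := by module
      rw [h5]
      exact U.sub_mem (U.smul_mem _ hu) h4
  have hlie : ∀ C : Module.End K (n → K), (∀ u v, bil E (C u) v = -bil E u (C v)) →
      (∀ i, C * φm (e i) = φm (e i) * C) → C ∈ g := by
    intro C hC hCe
    apply blk.all _ hC hCe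
    intro i
    obtain ⟨N, hN2, hN, hr⟩ := htoric i
    refine ⟨φm N, hNg N hN2 hN, by rw [← map_mul, hN2, map_zero], ?_⟩
    rw [← map_mul, rk_φm]
    exact hr
  -- transvections
  let S : Set (Module.End K (n → K)) := {T | φm.symm T ∈ G}
  have hSt : ∀ (i : ι) (v : n → K) (a : K), (φm (e i)) v = v → 1 + a • tv (bil E) v ∈ S := by
    intro i v a hvi
    change φm.symm (1 + a • tv (bil E) v) ∈ G
    rw [map_add, map_one, map_smul]
    by_cases hv : v = 0
    · have : tv (bil E) v = 0 := by
        rw [hv]; ext; simp [r1]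
      rw [this, map_zero, smul_zero, add_zero]
      exact hone
    obtain ⟨w₁, hw₁, hvw₁⟩ := blk.nondeg_i hvi hv
    obtain ⟨w, hwi, hw⟩ : ∃ w, (φm (e i)) w = w ∧ bil E v w = 1 :=
      ⟨(bil E v w₁)⁻¹ • w₁, by rw [map_smul, hw₁], by rw [map_smul, smul_eq_mul, inv_mul_cancel₀ hvw₁]⟩
    obtain ⟨T, hT⟩ : ∃ T, T = tv (bil E) v := ⟨_, rfl⟩
    obtain ⟨H, hH⟩ : ∃ H, H = -(tv (bil E) (v + w) - tv (bil E) v - tv (bil E) w) := ⟨_, rfl⟩
    have hTsp : ∀ x y, bil E (T x) y = -bil E x (T y) := by
      rw [hT]; exact tv_sp skew v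
    have hHsp : ∀ x y, bil E (H x) y = -bil E x (H y) := by
      intro x y
      rw [hH]
      simp only [LinearMap.neg_apply, LinearMap.sub_apply, map_neg, map_sub]
      rw [tv_sp skew, tv_sp skew, tv_sp skew]; ring
    have hTc : ∀ j, T * φm (e j) = φm (e j) * T := by
      intro j; rw [hT]; exact blk.tv_comm hvi j
    have hHc : ∀ j, H * φm (e j) = φm (e j) * H := by
      intro j
      rw [hH]
      have h1 : tv (bil E) (v + w) * φm (e j) = φm (e j) * tv (bil E) (v + w) :=
        blk.tv_comm (i := i) (v := v + w) (by rw [map_add, hvi, hwi]) j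
      have h2 : tv (bil E) v * φm (e j) = φm (e j) * tv (bil E) v := blk.tv_comm hvi j
      have h3 : tv (bil E) w * φm (e j) = φm (e j) * tv (bil E) w := blk.tv_comm hwi j
      apply LinearMap.ext
      intro x
      have h1x := congrArg (fun T : Module.End K (n → K) => T x) h1
      have h2x := congrArg (fun T : Module.End K (n → K) => T x) h2
      have h3x := congrArg (fun T : Module.End K (n → K) => T x) h3
      simp only [Module.End.mul_apply] at h1x h2x h3x
      simp only [Module.End.mul_apply, LinearMap.neg_apply, LinearMap.sub_apply, map_neg, map_sub]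
      rw [h1x, h2x, h3x]
    have hbr2 : H * T - T * H = (2 : K) • T := by
      apply LinearMap.ext
      intro x
      simp only [hH, hT, LinearMap.sub_apply, Module.End.mul_apply, LinearMap.neg_apply,
        LinearMap.add_apply, LinearMap.smul_apply, tv_apply, map_smul, map_neg, map_add, map_sub,
        alt_of_skew skew v, hw, skew w v]
      module
    have hTl : φm.symm T ∈ lieOf G := by
      have h1 := hb H (hlie H hHsp hHc) T (hlie T hTsp hTc)
      rw [hbr2, map_smul] at h1
      have h2 := (lieOf G).smul_mem (1 / 2 : K) h1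
      rw [smul_smul] at h2
      norm_num at h2
      exact h2
    have hTT : φm.symm T * φm.symm T = 0 := by
      rw [← map_mul, hT, tv_sq skew, map_zero]
    rw [← hT]
    apply hcl
    · have h1 : (1 + a • φm.symm T) * (1 - a • φm.symm T) = 1 := by
        rw [mul_sub, mul_one, add_mul, one_mul, smul_mul_smul_comm, hTT, smul_zero, add_zero,
          add_sub_cancel_right]
      have h2 := congrArg det h1
      rw [det_mul, det_one] at h2
      exact IsUnit.of_mul_eq_one _ h2
    · intro p hp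
      exact exp_mem hone hTT hTl a p hp
  have hSm : ∀ a ∈ S, ∀ b ∈ S, a * b ∈ S := by
    intro a ha b hb
    change φm.symm (a * b) ∈ G
    rw [map_mul]
    exact hmul _ ha _ hb
  have hS1 : (1 : Module.End K (n → K)) ∈ S := by
    change φm.symm 1 ∈ G
    rw [map_one]; exact hone
  have hSp : ∀ Y : Matrix n n K, Yᵀ * E * Y = E → (∀ i, Y * e i = e i * Y) → Y ∈ G := by
    intro Y hY hYe
    have h1 : φm Y ∈ S := by
      apply sp_gen_blk nψ skew blk.idem blk.orth blk.one adjψ hSm hS1 hSt
      · intro u v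
        rw [φm_apply, φm_apply, bil_mul, hY]
      · exact φcomm Y hYe
    change φm.symm (φm Y) ∈ G at h1
    rwa [AlgEquiv.symm_apply_apply] at h1
  -- a nontrivial cocharacter
  obtain ⟨i₀⟩ := hne
  obtain ⟨P, hP, hP0, hP1⟩ : ∃ P, IsCochar G P ∧ P ≠ 0 ∧ P ≠ 1 := by
    by_contra hcon
    push Not at hcon
    obtain ⟨N, hN2, hN, hr0⟩ := htoric i₀
    have hN0 : N * e i₀ ≠ 0 := by
      intro h0
      rw [h0, rank_zero] at hr0
      rcases hr0 with h | h
      · exact absurd h (by decide)
      · exact absurd h (by decide)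
    apply hN0
    have hmv : ∀ A : Matrix n n K, (∀ v, A *ᵥ v = 0) → A = 0 := by
      intro A hA
      ext i j
      have := congrFun (hA (Pi.single j 1)) i
      simpa using this
    apply hmv
    intro v
    rcases cochar_irr_blk idem orth hgen hspan (U := LinearMap.range (φm N))
      (fun P hP h0 h1 => absurd (hcon P hP h0) h1) i₀ with h1 | h1
    · obtain ⟨x, hx⟩ := h1 v
      rw [← mulVec_mulVec, ← hx]
      change N *ᵥ (N *ᵥ x) = 0
      rw [mulVec_mulVec, hN2, zero_mulVec]
    · rw [hNc N hN, ← mulVec_mulVec]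
      exact h1 _ ⟨v, rfl⟩
  obtain ⟨hmulti, -, -⟩ := hco P hP hP0 hP1
  have hc : c ≠ 0 := by
    intro h0
    rw [h0, zero_smul] at hXc
    have h1 : IsUnit (Xᵀ * E * X).det := by
      rw [det_mul, det_mul, det_transpose]
      exact (hX.mul hE).mul hX
    rw [hXc] at h1
    have h2 : (0 : Matrix n n K) = 1 := by
      have h3 : IsUnit (0 : Matrix n n K) := (isUnit_iff_isUnit_det _).mpr h1
      obtain ⟨w, hw⟩ := h3
      have := w.mul_inv
      rw [hw, zero_mul] at this
      exact this
    exact hP0 (by rw [← mul_one P, ← h2, mul_zero])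
  -- `X = (X μ(c)⁻¹) μ(c)`
  have hμ : (P + c • (1 - P)) ∈ G := hP.2 c hc
  have hμi : (P + c⁻¹ • (1 - P)) ∈ G := hP.2 _ (inv_ne_zero hc)
  have hQQ : (1 - P) * (1 - P) = 1 - P := by
    rw [sub_mul, one_mul, mul_sub, mul_one, hP.1]; abel
  have hPQ : P * (1 - P) = 0 := by rw [mul_sub, mul_one, hP.1, sub_self]
  have hQP : (1 - P) * P = 0 := by rw [sub_mul, one_mul, hP.1, sub_self]
  have hinv : (P + c⁻¹ • (1 - P)) * (P + c • (1 - P)) = 1 := by
    rw [add_mul, mul_add, mul_add, hP.1, mul_smul_comm, hPQ, smul_mul_assoc, hQP, smul_mul_smul_comm,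
      hQQ, inv_mul_cancel₀ hc, smul_zero, smul_zero, one_smul]
    abel
  have hY : X * (P + c⁻¹ • (1 - P)) ∈ G := by
    apply hSp
    · rw [transpose_mul]
      calc (P + c⁻¹ • (1 - P))ᵀ * Xᵀ * E * (X * (P + c⁻¹ • (1 - P)))
          = (P + c⁻¹ • (1 - P))ᵀ * (Xᵀ * E * X) * (P + c⁻¹ • (1 - P)) := by
            simp only [mul_assoc]
        _ = E := by
          rw [hXc, mul_smul_comm, smul_mul_assoc, hmulti, smul_smul, mul_inv_cancel₀ hc, one_smul]
    · intro i
      rw [mul_assoc, hcomm _ hμi, ← mul_assoc, hXe, mul_assoc]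
  have : X = X * (P + c⁻¹ • (1 - P)) * (P + c • (1 - P)) := by
    rw [mul_assoc, hinv, mul_one]
  rw [this]
  exact hmul _ hY _ hμ

end Pool.Agent.Helper78_MT
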