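import Pool.Agent.Helper78_MT.Assembly3

/-! The theorem on Lie algebras in the presence of an algebra of endomorphisms. -/

set_option autoImplicit false
set_option linter.unusedSectionVars false
set_option linter.unusedSimpArgs false

namespace Pool.Agent.Helper78_MT

open Matrix Module

variable {K V : Type*} [Field K] [CharZero K] [AddCommGroup V] [Module K V] [FiniteDimensional K V]

/-- `ψ` is a symplectic form on `V`, `A` an algebra of endomorphisms, `g` a Lie algebra of skew
endomorphisms commuting with `A`, and every subspace stable under all the elements `h` of `g` with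
`h² = 1/4` is stable under all endomorphisms commuting with `A`. -/
structure MinusculeLie (ψ : V →ₗ[K] V →ₗ[K] K) (A : Subalgebra K (Module.End K V))
    (g : Submodule K (Module.End K V)) : Prop where
  nondeg : ∀ u, (∀ v, ψ u v = 0) → u = 0
  antisymm : ∀ u v, ψ u v = -ψ v u
  bracket : ∀ X ∈ g, ∀ Y ∈ g, X * Y - Y * X ∈ g
  skew : ∀ X ∈ g, IsSkew ψ X
  comm : ∀ X ∈ g, ∀ a ∈ A, X * a = a * X
  minuscule : ∀ U : Submodule K V, (∀ h ∈ g, h * h = (1 / 4 : K) • 1 → ∀ u ∈ U, h u ∈ U) →
    ∀ M, (∀ a ∈ A, M * a = a * M) → ∀ u ∈ U, M u ∈ U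

/-- `A` is a product of matrix algebras, on which the adjunction for `ψ` is the transposition. -/
def SplitOrthogonal (ψ : V →ₗ[K] V →ₗ[K] K) (A : Subalgebra K (Module.End K V)) : Prop :=
  ∃ (r : ℕ) (d : Fin r → ℕ)
    (f : (∀ i, Matrix (Fin (d i + 1)) (Fin (d i + 1)) K) →ₐ[K] Module.End K V),
    Function.Injective f ∧ f.range = A ∧ ∀ x u v, ψ (f x u) v = ψ u (f (fun i => (x i)ᵀ) v)

/-- For every primitive idempotent `e` of `A` some `N` in `g` with `N² = 0` is such that the rank
of `N e` is odd or two. -/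
def SmallRank (A : Subalgebra K (Module.End K V)) (g : Submodule K (Module.End K V)) : Prop :=
  ∀ e ∈ A, e ≠ 0 → e * e = e → (∀ a ∈ A, ∃ c : K, e * a * e = c • e) →
    ∃ N ∈ g, N * N = 0 ∧ OddOrTwo (finrank K (LinearMap.range (N * e)))

theorem lie_thm [IsAlgClosed K] {ψ : V →ₗ[K] V →ₗ[K] K} {A : Subalgebra K (Module.End K V)}
    {g : Submodule K (Module.End K V)} (hg : MinusculeLie ψ A g) (hA : SplitOrthogonal ψ A)
    (hN : SmallRank A g) (C : Module.End K V) (hC : IsSkew ψ C) (hCA : ∀ a ∈ A, C * a = a * C) :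
    C ∈ g := by
  classical
  obtain ⟨r, d, f, hfi, hfr, hfadj⟩ := hA
  have hmem : ∀ z, f z ∈ A := by
    intro z
    rw [← hfr]
    exact ⟨z, rfl⟩
  let x : (Σ i : Fin r, Fin (d i + 1)) → Module.End K V := fun k => f (mu d K k.1 k.2 0)
  let y : (Σ i : Fin r, Fin (d i + 1)) → Module.End K V := fun k => f (mu d K k.1 0 k.2)
  let k0 : Fin r → (Σ i : Fin r, Fin (d i + 1)) := fun i => ⟨i, 0⟩
  have hxy : ∀ (i : Fin r) (a b : Fin (d i + 1)), f (mu d K i a b) = x ⟨i, a⟩ * y ⟨i, b⟩ := by
    intro i a b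
    change _ = f _ * f _
    rw [← map_mul, mu_mul, if_pos rfl]
  have hce : ∀ Z : Module.End K V, (∀ a ∈ A, Z * a = a * Z) → Cm x y Z :=
    fun Z hZ k => ⟨hZ _ (hmem _), hZ _ (hmem _)⟩
  have hec : ∀ Z : Module.End K V, Cm x y Z → ∀ a ∈ A, Z * a = a * Z := by
    intro Z hZ a ha
    rw [← hfr] at ha
    obtain ⟨z, rfl⟩ := ha
    change Z * f z = f z * Z
    rw [mu_span z, map_sum, Finset.mul_sum, Finset.sum_mul]
    apply Finset.sum_congr rfl
    intro i _
    rw [map_sum, Finset.mul_sum, Finset.sum_mul]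
    apply Finset.sum_congr rfl
    intro a _
    rw [map_sum, Finset.mul_sum, Finset.sum_mul]
    apply Finset.sum_congr rfl
    intro b _
    rw [map_smul, mul_smul_comm, smul_mul_assoc, hxy, ← mul_assoc, (hZ ⟨i, a⟩).1, mul_assoc,
      (hZ ⟨i, b⟩).2, mul_assoc]
  have m : Mor ψ Sigma.fst k0 x y := by
    refine ⟨fun i => rfl, fun i => rfl, ?_, ?_, ?_⟩
    · rintro ⟨i, a⟩ ⟨j, b⟩
      change f (mu d K i 0 a) * f (mu d K j b 0) = _
      rw [← map_mul]
      by_cases hij : i = j
      · subst hij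
        rw [mu_mul]
        by_cases hab : a = b
        · subst hab
          rw [if_pos rfl, if_pos rfl]
        · rw [if_neg hab, if_neg (fun h => hab (by
            have := Sigma.mk.inj_iff.mp h
            exact eq_of_heq this.2)), map_zero]
      · rw [mu_mul_ne hij, if_neg (fun h => hij (Sigma.mk.inj_iff.mp h).1), map_zero]
    · have h4 : ∀ k : (Σ i : Fin r, Fin (d i + 1)), x k * y k = f (mu d K k.1 k.2 k.2) := by
        intro k
        rw [hxy]
      rw [Finset.sum_congr rfl (fun k _ => h4 k), ← map_sum, mu_sum, map_one]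
    · intro k u v
      change ψ (f (mu d K k.1 k.2 0) u) v = ψ u (f (mu d K k.1 0 k.2) v)
      rw [hfadj, mu_transpose]
  have hnz : ∀ i, x (k0 i) ≠ 0 := by
    intro i h0
    exact mu_ne_zero (K := K) i (hfi (by rw [map_zero]; exact h0))
  apply m.all hg.bracket hg.skew hg.nondeg hg.antisymm (fun X hX => hce X (hg.comm X hX)) hnz
    (fun U hU M hM => hg.minuscule U hU M (hec M hM)) ?_ hC (hce C hCA)
  intro i
  obtain ⟨N, hNg, hN2, hr⟩ := hN (x (k0 i)) (hmem _) (hnz i) (by
    change f _ * f _ = f _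
    rw [← map_mul, mu_mul, if_pos rfl]) (by
    intro X hX
    rw [← hfr] at hX
    obtain ⟨z, rfl⟩ := hX
    refine ⟨z i 0 0, ?_⟩
    change f _ * f z * f _ = _ • f _
    rw [← map_mul, ← map_mul, mu_corner, map_smul])
  exact ⟨N, hNg, hN2, hr⟩

end Pool.Agent.Helper78_MT
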