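import Pool.Agent.Helper78_MT.Tri

/-! Ranks and traces of endomorphisms. -/

set_option autoImplicit false
set_option linter.unusedSectionVars false
set_option linter.unusedSimpArgs false

namespace Pool.Agent.Helper78_MT

open Module LinearMap

variable {K V : Type*} [Field K] [CharZero K] [AddCommGroup V] [Module K V] [FiniteDimensional K V]

/-- the rank of an endomorphism -/
noncomputable def rk (f : End K V) : ℕ := finrank K (range f)

theorem trace_idem {p : End K V} (hp : p * p = p) : trace K V p = (rk p : K) := by
  have h : IsProj (range p) p := IsIdempotentElem.isProj_range _ hp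
  exact h.trace

theorem range_mul_le (a b : End K V) : range (a * b) ≤ range a := by
  rintro _ ⟨v, rfl⟩
  exact ⟨b v, rfl⟩

theorem rk_mul_le_left (a b : End K V) : rk (a * b) ≤ rk a :=
  Submodule.finrank_mono (range_mul_le a b)

theorem rk_mul_le_right (a b : End K V) : rk (a * b) ≤ rk b := by
  unfold rk
  have : range (a * b) = (range b).map a := by
    rw [← LinearMap.range_comp]; rfl
  rw [this]
  exact Submodule.finrank_map_le _ _

theorem rk_eq_zero {a : End K V} (h : rk a = 0) : a = 0 := by
  unfold rk at h
  rw [Submodule.finrank_eq_zero] at h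
  exact LinearMap.range_eq_bot.mp h

theorem Tri.rk_NF {N F : End K V} (t : Tri N F) : rk (N * F) = rk N := by
  apply le_antisymm (rk_mul_le_left _ _)
  conv_lhs => rw [← t.NFN]
  exact rk_mul_le_left _ _

theorem Tri.rk_FN {N F : End K V} (t : Tri N F) : rk (F * N) = rk N := by
  apply le_antisymm (rk_mul_le_right _ _)
  conv_lhs => rw [← t.NFN, mul_assoc]
  exact rk_mul_le_right _ _

theorem Tri.rk_F {N F : End K V} (t : Tri N F) : rk F = rk N := by
  rw [← t.symm.rk_NF, t.rk_FN]

theorem Tri.trace_NF {N F : End K V} (t : Tri N F) : trace K V (N * F) = (rk N : K) := by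
  rw [trace_idem t.orth.pp, t.rk_NF]

theorem Tri.trace_FN {N F : End K V} (t : Tri N F) : trace K V (F * N) = (rk N : K) := by
  rw [trace_mul_comm, t.trace_NF]

theorem trace_adj {ψ : V →ₗ[K] V →ₗ[K] K} (hψ : ∀ u, (∀ v, ψ u v = 0) → u = 0) {A B : End K V}
    (h : ∀ u v, ψ (A u) v = ψ u (B v)) : trace K V A = trace K V B := by
  have hinj : Function.Injective ψ := by
    rw [injective_iff_map_eq_zero]
    intro u hu
    exact hψ u (fun v => by rw [hu]; rfl)
  let D : V ≃ₗ[K] Dual K V := LinearMap.linearEquivOfInjective ψ hinj (Subspace.dual_finrank_eq).symm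
  have hD : ∀ u, D u = ψ u := fun u => rfl
  have hconj : D.conj A = Module.Dual.transpose (R := K) B := by
    ext φ v
    obtain ⟨u, rfl⟩ := D.surjective φ
    rw [LinearEquiv.conj_apply_apply, LinearEquiv.symm_apply_apply, hD, h]
    rfl
  rw [← trace_conj' A D, hconj, trace_transpose']

theorem trace_nilp {f : End K V} (hf : IsNilpotent f) : trace K V f = 0 :=
  (isNilpotent_trace_of_isNilpotent hf).eq_zero

end Pool.Agent.Helper78_MT
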