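import Pool.Agent.Helper78_MT.Transv2

/-! Isotypic multiplicities: an algebra of operators which is a product of matrix algebras, the adjoint
being the transposition.  Reduction to the case without multiplicities. -/

set_option autoImplicit false
set_option linter.unusedSectionVars false
set_option linter.unusedSimpArgs false

namespace Pool.Agent.Helper78_MT

open Module LinearMap

variable {K V ι κ : Type*} [Field K] [CharZero K] [AddCommGroup V] [Module K V]
  [FiniteDimensional K V] [Fintype ι] [DecidableEq ι] [Fintype κ] [DecidableEq κ]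

/-- Rows and columns of matrix units: `x k` is the unit `E_{a0}` and `y k` the unit `E_{0a}` in the
factor `i`, for `k = (i,a)`, `p k = i`, `k0 i = (i,0)`; the adjoint of `x k` is `y k`. -/
structure Mor (ψ : V →ₗ[K] V →ₗ[K] K) (p : κ → ι) (k0 : ι → κ) (x y : κ → End K V) : Prop where
  p0 : ∀ i, p (k0 i) = i
  x0 : ∀ i, y (k0 i) = x (k0 i)
  yx : ∀ k l, y k * x l = if k = l then x (k0 (p k)) else 0
  sum : ∑ k, x k * y k = 1
  adj : ∀ k u v, ψ (x k u) v = ψ u (y k v)

/-- commuting with all the operators `x k`, `y k` -/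
def Cm (x y : κ → End K V) (X : End K V) : Prop := ∀ k, X * x k = x k * X ∧ X * y k = y k * X

namespace Mor
variable {ψ : V →ₗ[K] V →ₗ[K] K} {p : κ → ι} {k0 : ι → κ} {x y : κ → End K V}

/-- the idempotent of the block `i` -/
abbrev e (x : κ → End K V) (k0 : ι → κ) (i : ι) : End K V := x (k0 i)

/-- the sum of these idempotents -/
def E (x : κ → End K V) (k0 : ι → κ) : End K V := ∑ i, x (k0 i)

variable (m : Mor ψ p k0 x y)
include m

theorem idem (i : ι) : x (k0 i) * x (k0 i) = x (k0 i) := by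
  have := m.yx (k0 i) (k0 i)
  rwa [if_pos rfl, m.p0, m.x0] at this

theorem k0inj {i j : ι} (h : k0 i = k0 j) : i = j := by
  rw [← m.p0 i, h, m.p0]

theorem orth {i j : ι} (hij : i ≠ j) : x (k0 i) * x (k0 j) = 0 := by
  have := m.yx (k0 i) (k0 j)
  rwa [if_neg (fun h => hij (m.k0inj h)), m.x0] at this

theorem xe (k : κ) : x k * x (k0 (p k)) = x k := by
  have h1 : x k = (∑ l, x l * y l) * x k := by rw [m.sum, one_mul]
  have h2 : (∑ l, x l * y l) * x k = x k * x (k0 (p k)) := by
    rw [Finset.sum_mul, Finset.sum_eq_single k]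
    · rw [mul_assoc, m.yx, if_pos rfl]
    · intro l _ hl
      rw [mul_assoc, m.yx, if_neg hl, mul_zero]
    · intro h; exact absurd (Finset.mem_univ k) h
  rw [← h2, ← h1]

theorem ey (k : κ) : x (k0 (p k)) * y k = y k := by
  have h1 : y k = y k * (∑ l, x l * y l) := by rw [m.sum, mul_one]
  have h2 : y k * (∑ l, x l * y l) = x (k0 (p k)) * y k := by
    rw [Finset.mul_sum, Finset.sum_eq_single k]
    · rw [← mul_assoc, m.yx, if_pos rfl]
    · intro l _ hl
      rw [← mul_assoc, m.yx, if_neg (Ne.symm hl), zero_mul]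
    · intro h; exact absurd (Finset.mem_univ k) h
  rw [← h2, ← h1]

theorem ex (j : ι) (k : κ) : x (k0 j) * x k = if k0 j = k then x (k0 j) else 0 := by
  have := m.yx (k0 j) k
  rw [m.x0, m.p0] at this
  exact this

theorem ye (k : κ) (j : ι) : y k * x (k0 j) = if k = k0 j then x (k0 (p k)) else 0 := m.yx k (k0 j)

theorem adje (i : ι) (u v : V) : ψ (x (k0 i) u) v = ψ u (x (k0 i) v) := by
  rw [m.adj, m.x0]

theorem EE : E x k0 * E x k0 = E x k0 := by
  unfold E
  rw [Finset.sum_mul]
  apply Finset.sum_congr rfl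
  intro i _
  rw [Finset.mul_sum, Finset.sum_eq_single i]
  · exact m.idem i
  · intro j _ hj; exact m.orth (Ne.symm hj)
  · intro h; exact absurd (Finset.mem_univ i) h

theorem Ee (i : ι) : E x k0 * x (k0 i) = x (k0 i) := by
  unfold E
  rw [Finset.sum_mul, Finset.sum_eq_single i]
  · exact m.idem i
  · intro j _ hj; exact m.orth hj
  · intro h; exact absurd (Finset.mem_univ i) h

theorem eE (i : ι) : x (k0 i) * E x k0 = x (k0 i) := by
  unfold E
  rw [Finset.mul_sum, Finset.sum_eq_single i]
  · exact m.idem i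
  · intro j _ hj; exact m.orth (Ne.symm hj)
  · intro h; exact absurd (Finset.mem_univ i) h

theorem Ey (k : κ) : E x k0 * y k = y k := by
  rw [← m.ey k, ← mul_assoc, m.Ee]

theorem xE (k : κ) : x k * E x k0 = x k := by
  have h := m.xe k
  rw [← h, mul_assoc, m.eE]

theorem adjE (u v : V) : ψ (E x k0 u) v = ψ u (E x k0 v) := by
  unfold E
  rw [LinearMap.sum_apply, LinearMap.sum_apply, map_sum, map_sum, LinearMap.sum_apply]
  exact Finset.sum_congr rfl (fun i _ => m.adje i u v)

theorem cmE {X : End K V} (hX : Cm x y X) : X * E x k0 = E x k0 * X := by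
  unfold E
  rw [Finset.mul_sum, Finset.sum_mul]
  exact Finset.sum_congr rfl (fun i _ => (hX (k0 i)).1)

/-- operators commuting with the algebra are determined by their restriction -/
theorem eq_of_res {X Y : End K V} (hX : Cm x y X) (hY : Cm x y Y) (h : X * E x k0 = Y * E x k0) :
    X = Y := by
  have h1 : ∀ Z : End K V, Cm x y Z → Z = ∑ k, x k * (Z * E x k0) * y k := by
    intro Z hZ
    conv_lhs => rw [← mul_one Z, ← m.sum, Finset.mul_sum]
    apply Finset.sum_congr rfl
    intro k _
    rw [← mul_assoc, (hZ k).1, mul_assoc (x k) (Z * E x k0), mul_assoc Z, m.Ey, mul_assoc]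
  rw [h1 X hX, h1 Y hY, h]

/-- extension of an operator on the range of `E` -/
def ext (x y : κ → End K V) (B : End K V) : End K V := ∑ k, x k * B * y k

omit m in
theorem ext_add (B C : End K V) : ext x y (B + C) = ext x y B + ext x y C := by
  unfold ext
  rw [← Finset.sum_add_distrib]
  exact Finset.sum_congr rfl (fun k _ => by rw [mul_add, add_mul])

omit m in
theorem ext_sub (B C : End K V) : ext x y (B - C) = ext x y B - ext x y C := by
  unfold ext
  rw [← Finset.sum_sub_distrib]
  exact Finset.sum_congr rfl (fun k _ => by rw [mul_sub, sub_mul])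

omit m in
theorem ext_smul (a : K) (B : End K V) : ext x y (a • B) = a • ext x y B := by
  unfold ext
  rw [Finset.smul_sum]
  exact Finset.sum_congr rfl (fun k _ => by rw [mul_smul_comm, smul_mul_assoc])

theorem ext_E : ext x y (E x k0) = 1 := by
  unfold ext
  rw [← m.sum]
  exact Finset.sum_congr rfl (fun k _ => by rw [m.xE])

theorem ext_x {B : End K V} (hB : ∀ i, B * x (k0 i) = x (k0 i) * B) (l : κ) :
    ext x y B * x l = x l * B := by
  unfold ext
  rw [Finset.sum_mul, Finset.sum_eq_single l]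
  · rw [mul_assoc, m.yx, if_pos rfl, mul_assoc, hB, ← mul_assoc, m.xe]
  · intro k _ hk
    rw [mul_assoc, m.yx, if_neg hk, mul_zero]
  · intro h; exact absurd (Finset.mem_univ l) h

theorem x_ext {B : End K V} (hB : ∀ i, B * x (k0 i) = x (k0 i) * B) (l : κ) :
    x l * ext x y B = x l * B := by
  unfold ext
  rw [Finset.mul_sum, Finset.sum_eq_single (k0 (p l))]
  · rw [m.x0, mul_assoc (x (k0 (p l))), hB, ← mul_assoc (x (k0 (p l))), m.idem, ← mul_assoc, m.xe]
  · intro k _ hk
    rw [← m.xe l]
    have : x l * x (k0 (p l)) * (x k * B * y k) = x l * (x (k0 (p l)) * x k) * B * y k := by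
      simp only [mul_assoc]
    rw [this, m.ex, if_neg (Ne.symm hk)]; simp
  · intro h; exact absurd (Finset.mem_univ _) h

theorem ext_y {B : End K V} (hB : ∀ i, B * x (k0 i) = x (k0 i) * B) (l : κ) :
    ext x y B * y l = B * y l := by
  unfold ext
  rw [Finset.sum_mul, Finset.sum_eq_single (k0 (p l))]
  · rw [m.x0, mul_assoc, m.ey, ← hB, mul_assoc, m.ey]
  · intro k _ hk
    rw [← m.ey l]
    have : x k * B * y k * (x (k0 (p l)) * y l) = x k * B * (y k * x (k0 (p l))) * y l := by
      simp only [mul_assoc]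
    rw [this, m.ye, if_neg hk]; simp
  · intro h; exact absurd (Finset.mem_univ _) h

theorem y_ext {B : End K V} (hB : ∀ i, B * x (k0 i) = x (k0 i) * B) (l : κ) :
    y l * ext x y B = B * y l := by
  unfold ext
  rw [Finset.mul_sum, Finset.sum_eq_single l]
  · rw [← mul_assoc, ← mul_assoc, m.yx, if_pos rfl, ← hB, mul_assoc, m.ey]
  · intro k _ hk
    rw [← mul_assoc, ← mul_assoc, m.yx, if_neg (Ne.symm hk)]; simp
  · intro h; exact absurd (Finset.mem_univ l) h

theorem cm_ext {B : End K V} (hB : ∀ i, B * x (k0 i) = x (k0 i) * B) : Cm x y (ext x y B) :=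
  fun k => ⟨by rw [m.ext_x hB, m.x_ext hB], by rw [m.ext_y hB, m.y_ext hB]⟩

theorem ext_mulE {B : End K V} (hB : ∀ i, B * x (k0 i) = x (k0 i) * B) (hBE : B * E x k0 = B) :
    ext x y B * E x k0 = B := by
  conv_rhs => rw [← hBE]
  unfold E
  rw [Finset.mul_sum, Finset.mul_sum]
  exact Finset.sum_congr rfl (fun i _ => by rw [m.ext_x hB, hB])

theorem ext_mul {B : End K V} (hB : ∀ i, B * x (k0 i) = x (k0 i) * B) (C : End K V) :
    ext x y B * ext x y C = ext x y (B * C) := by
  rw [ext, ext, Finset.mul_sum]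
  apply Finset.sum_congr rfl
  intro k _
  rw [mul_assoc (x k) C, ← mul_assoc, show (∑ k, x k * B * y k) = ext x y B from rfl, m.ext_x hB]
  simp only [mul_assoc]

theorem ext_res {X : End K V} (hX : Cm x y X) : ext x y (X * E x k0) = X := by
  conv_rhs => rw [← mul_one X, ← m.sum, Finset.mul_sum]
  unfold ext
  apply Finset.sum_congr rfl
  intro k _
  rw [mul_assoc (x k), mul_assoc X, m.Ey, ← mul_assoc, ← (hX k).1, mul_assoc]

/-- operators on the range of `E` as operators on the whole space -/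
noncomputable def inc (e : End K V) (B : End K (range e)) : End K V :=
  (range e).subtype ∘ₗ B ∘ₗ e.rangeRestrict

omit m in
theorem inc_apply (e : End K V) (B : End K (range e)) (u : V) : inc e B u = (B ⟨e u, u, rfl⟩ : V) := rfl

omit m in
theorem inc_mul {e : End K V} (he : e * e = e) (B C : End K (range e)) :
    inc e (B * C) = inc e B * inc e C := by
  ext u
  rw [Module.End.mul_apply, inc_apply, inc_apply, Module.End.mul_apply]
  congr 2
  apply Subtype.ext
  change ((C ⟨e u, u, rfl⟩ : range e) : V) = e ((C ⟨e u, u, rfl⟩ : range e) : V)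
  rw [range_fix he]

omit m in
theorem inc_e {e : End K V} (he : e * e = e) (B : End K (range e)) : inc e B * e = inc e B := by
  ext u
  rw [Module.End.mul_apply, inc_apply, inc_apply]
  congr 2
  apply Subtype.ext
  change e (e u) = e u
  rw [← Module.End.mul_apply, he]

omit m in
theorem inc_res {e X : End K V} (hX : e * X = X) (hX' : X * e = X) : inc e (res e X) = X := by
  ext u
  rw [inc_apply, res_apply]
  change e (X (e u)) = X u
  rw [← Module.End.mul_apply, ← Module.End.mul_apply, hX, hX']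

omit m in
theorem inc_w {e : End K V} (he : e * e = e) (B : End K (range e)) (w : range e) :
    inc e B w = (B w : V) := by
  rw [inc_apply]
  congr 2
  apply Subtype.ext
  exact range_fix he w

theorem inc_comm {B : End K (range (E x k0))}
    (hB : ∀ i, B * res (E x k0) (x (k0 i)) = res (E x k0) (x (k0 i)) * B) (i : ι) :
    inc (E x k0) B * x (k0 i) = x (k0 i) * inc (E x k0) B := by
  have h1 : inc (E x k0) (res (E x k0) (x (k0 i))) = x (k0 i) := inc_res (m.Ee i) (m.eE i)
  nth_rewrite 1 [← h1]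
  rw [← inc_mul m.EE, hB, inc_mul m.EE, h1]

/-- The reduction to the case without multiplicities. -/
theorem blk {g : Submodule K (End K V)} (br : BrClosed g)
    (sp : ∀ X ∈ g, ∀ u v, ψ (X u) v = -ψ u (X v)) (nψ : ∀ u, (∀ v, ψ u v = 0) → u = 0)
    (skew : ∀ u v, ψ u v = -ψ v u) (comm : ∀ X ∈ g, Cm x y X) (nz : ∀ i, x (k0 i) ≠ 0)
    (irr : ∀ U : Submodule K V, (∀ h ∈ g, h * h = (1 / 4 : K) • 1 → ∀ u ∈ U, h u ∈ U) →
      ∀ M, Cm x y M → ∀ u ∈ U, M u ∈ U) :
    Blk (ψ.domRestrict₁₂ (range (E x k0)) (range (E x k0))) (fun i => res (E x k0) (x (k0 i)))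
      (g.map (res (E x k0))) := by
  have hEE := m.EE
  have hfix : ∀ w : range (E x k0), E x k0 w = w := fun w => range_fix hEE w
  have hce : ∀ i, x (k0 i) * E x k0 = E x k0 * x (k0 i) := fun i => by rw [m.eE, m.Ee]
  refine ⟨?_, ?_, ?_, ?_, ?_, ?_, ?_, ?_, ?_, ?_, ?_⟩
  · rintro _ ⟨X, hX, rfl⟩ _ ⟨Y, hY, rfl⟩
    refine ⟨X * Y - Y * X, br X hX Y hY, ?_⟩
    rw [map_sub, res_mul hEE (m.cmE (comm Y hY)), res_mul hEE (m.cmE (comm X hX))]
  · rintro _ ⟨X, hX, rfl⟩ u v
    change ψ (E x k0 (X u)) v = -ψ u (E x k0 (X v))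
    rw [m.adjE, hfix, ← m.adjE, hfix]
    exact sp X hX u v
  · intro u hu
    apply Subtype.ext
    apply nψ
    intro v
    rw [← hfix u, m.adjE]
    exact hu ⟨E x k0 v, v, rfl⟩
  · intro u v; exact skew _ _
  · intro i
    change res _ _ * res _ _ = res _ _
    rw [← res_mul hEE (hce i), m.idem]
  · intro i j hij
    change res _ _ * res _ _ = 0
    rw [← res_mul hEE (hce j), m.orth hij, map_zero]
  · rw [← map_sum]
    change res (E x k0) (E x k0) = 1
    ext w
    rw [res_apply, hfix, hfix]; rfl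
  · intro i u v
    change ψ (E x k0 (x (k0 i) u)) v = ψ u (E x k0 (x (k0 i) v))
    rw [← Module.End.mul_apply, ← Module.End.mul_apply, m.Ee, m.adje]
  · rintro i _ ⟨X, hX, rfl⟩
    change res _ _ * res _ _ = res _ _ * res _ _
    rw [← res_mul hEE (hce i), ← res_mul hEE (m.cmE (comm X hX)), (comm X hX (k0 i)).1]
  · intro i h0
    apply nz i
    have h1 : inc (E x k0) (res (E x k0) (x (k0 i))) = x (k0 i) := inc_res (m.Ee i) (m.eE i)
    have h2 : res (E x k0) (x (k0 i)) = 0 := h0
    rw [← h1, h2]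
    ext u; rfl
  · intro U hU i
    change (∀ v, res (E x k0) (x (k0 i)) v ∈ U) ∨ (∀ u ∈ U, res (E x k0) (x (k0 i)) u = 0)
    by_cases hz : ∀ u ∈ U, res (E x k0) (x (k0 i)) u = 0
    · exact Or.inr hz
    left
    push Not at hz
    obtain ⟨u, hu, hu0⟩ := hz
    intro v
    have hst := irr (U.map (range (E x k0)).subtype) (by
      rintro h hh hh2 _ ⟨w, hw, rfl⟩
      refine ⟨res (E x k0) h w, hU _ ⟨h, hh, rfl⟩ ?_ w hw, ?_⟩
      · rw [← res_mul hEE (m.cmE (comm h hh)), hh2, map_smul, res_one hEE]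
      · change E x k0 (h w) = h w
        rw [← Module.End.mul_apply, ← m.cmE (comm h hh), Module.End.mul_apply, hfix])
    -- an operator in the block taking `u` to `v`
    obtain ⟨ε, hε⟩ : ∃ ε, ε = res (E x k0) (x (k0 i)) := ⟨_, rfl⟩
    rw [← hε] at hu0 ⊢
    have hεε : ε * ε = ε := by rw [hε, ← res_mul hEE (hce i), m.idem]
    obtain ⟨f, hf⟩ : ∃ f : End K (range (E x k0)), f (ε u) = v := by
      obtain ⟨φ, hφ⟩ : ∃ φ : range (E x k0) →ₗ[K] K, φ (ε u) ≠ 0 := by
        by_contra hcon
        push Not at hcon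
        exact hu0 ((Module.forall_dual_apply_eq_zero_iff K (ε u)).mp hcon)
      exact ⟨φ.smulRight ((φ (ε u))⁻¹ • v), by
        rw [LinearMap.smulRight_apply, smul_smul, mul_inv_cancel₀ hφ, one_smul]⟩
    obtain ⟨B, hB⟩ : ∃ B, B = ε * f * ε := ⟨_, rfl⟩
    have hBc : ∀ j, B * res (E x k0) (x (k0 j)) = res (E x k0) (x (k0 j)) * B := by
      intro j
      by_cases hij : i = j
      · rw [← hij, ← hε, hB]
        calc ε * f * ε * ε = ε * f * (ε * ε) := by simp only [mul_assoc]
          _ = (ε * ε) * f * ε := by rw [hεε]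
          _ = ε * (ε * f * ε) := by simp only [mul_assoc]
      · have e1 : ε * res (E x k0) (x (k0 j)) = 0 := by
          rw [hε, ← res_mul hEE (hce j), m.orth hij, map_zero]
        have e2 : res (E x k0) (x (k0 j)) * ε = 0 := by
          rw [hε, ← res_mul hEE (hce i), m.orth (Ne.symm hij), map_zero]
        rw [hB, mul_assoc, e1, mul_zero, ← mul_assoc, ← mul_assoc, e2, zero_mul, zero_mul]
    have h1 := hst (ext x y (inc (E x k0) B)) (m.cm_ext (m.inc_comm hBc)) u ⟨u, hu, rfl⟩
    have h2 : ext x y (inc (E x k0) B) (u : V) = (B u : V) := by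
      have h3 := congrArg (fun T : End K V => T u) (m.ext_mulE (m.inc_comm hBc) (inc_e hEE B))
      change ext x y (inc (E x k0) B) (E x k0 u) = _ at h3
      rw [hfix] at h3
      rw [h3, inc_w hEE]
    rw [h2] at h1
    obtain ⟨w, hw, hw2⟩ := h1
    have h4 : w = B u := Subtype.ext hw2
    rw [h4, hB] at hw
    change ε (f (ε u)) ∈ U at hw
    rwa [hf] at hw

end Mor

end Pool.Agent.Helper78_MT
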