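import Pool.Agent.Helper78_MT.LieThm

/-!
The Lie-theoretic heart of the Mumford-Tate conjecture for abelian varieties all of whose simple
factors are of the first or second Albert type, with semistable places of small toric rank.
-/

set_option autoImplicit false

namespace Pool.Agent.Results.MP_c1bb77_ag.MinusculeSmallRank

open Pool.Agent.Helper78_MT

universe u v

/-- Let `V` be a finite-dimensional symplectic space over an algebraically closed field of
characteristic zero, `A` a product of matrix algebras acting on `V`, the adjunction being the
transposition, and `g` a Lie algebra of skew endomorphisms commuting with `A`, such that every subspace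
stable under all elements `h` of `g` with `h² = 1/4` is stable under all endomorphisms commuting with
`A`.  If for every primitive idempotent `e` of `A` some `N` in `g` with `N² = 0` is such that the rank
of `N e` is odd or two, then `g` consists of all skew endomorphisms commuting with `A`. -/
theorem result (K : Type u) [Field K] [CharZero K] [IsAlgClosed K] (V : Type v) [AddCommGroup V]
    [Module K V] [FiniteDimensional K V] (ψ : V →ₗ[K] V →ₗ[K] K)
    (A : Subalgebra K (Module.End K V)) (g : Submodule K (Module.End K V))
    (hg : MinusculeLie ψ A g) (hA : SplitOrthogonal ψ A) (hN : SmallRank A g)
    (C : Module.End K V) : C ∈ g ↔ IsSkew ψ C ∧ ∀ a ∈ A, C * a = a * C :=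
  ⟨fun h => ⟨hg.skew C h, hg.comm C h⟩, fun h => lie_thm hg hA hN C h.1 h.2⟩

end Pool.Agent.Results.MP_c1bb77_ag.MinusculeSmallRank
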