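import Pool.Agent.Helper78_MT.Lin

/-! Spaces of endomorphisms closed under powers, without elements of small odd rank. -/

set_option autoImplicit false
set_option linter.unusedSectionVars false
set_option linter.unusedSimpArgs false

namespace Pool.Agent.Helper78_MT

open Module LinearMap Polynomial

variable {K W : Type*} [Field K] [CharZero K] [IsAlgClosed K] [AddCommGroup W] [Module K W]
  [FiniteDimensional K W]

theorem poly_ranks [Nontrivial W] (T : End K W) :
    (∃ c : K, IsNilpotent (T - c • (1 : End K W))) ∨
      ∃ q1 q2 : K[X], aeval T q1 ≠ 0 ∧ aeval T q2 ≠ 0 ∧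
        rk (aeval T q1) + rk (aeval T q2) = finrank K W := by
  have hint : IsIntegral K T := Algebra.IsIntegral.isIntegral T
  have hmon : (minpoly K T).Monic := minpoly.monic hint
  have hdeg : 0 < (minpoly K T).degree := minpoly.degree_pos hint
  obtain ⟨c, hc⟩ := IsAlgClosed.exists_root (minpoly K T) hdeg.ne'
  obtain ⟨g, hg, hgc⟩ := Polynomial.exists_eq_pow_rootMultiplicity_mul_and_not_dvd (minpoly K T)
    hmon.ne_zero c
  set m := rootMultiplicity c (minpoly K T) with hm
  have hm1 : 0 < m := (rootMultiplicity_pos hmon.ne_zero).mpr hc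
  have hg0 : g ≠ 0 := by
    rintro rfl
    rw [mul_zero] at hg
    exact hmon.ne_zero hg
  have hcop : IsCoprime ((X - C c) ^ m) g := by
    apply IsCoprime.pow_left
    rw [(irreducible_X_sub_C c).coprime_iff_not_dvd]
    exact hgc
  have hXc : ((X - C c) ^ m : K[X]) ≠ 0 := pow_ne_zero _ (X_sub_C_ne_zero c)
  have hdegp : (minpoly K T).natDegree = m + g.natDegree := by
    conv_lhs => rw [hg]
    rw [natDegree_mul hXc hg0, natDegree_pow, natDegree_X_sub_C, mul_one]
  by_cases hgd : g.natDegree = 0
  · left
    refine ⟨c, m, ?_⟩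
    have h0 := minpoly.aeval K T
    rw [hg, map_mul, map_pow, map_sub, aeval_X, aeval_C, eq_C_of_natDegree_eq_zero hgd, aeval_C] at h0
    have hc0 : g.coeff 0 ≠ 0 := by
      intro h
      apply hg0
      rw [eq_C_of_natDegree_eq_zero hgd, h, C_0]
    rw [Algebra.algebraMap_eq_smul_one, Algebra.algebraMap_eq_smul_one, mul_smul_comm, mul_one] at h0
    exact (smul_eq_zero.mp h0).resolve_left hc0
  · right
    refine ⟨(X - C c) ^ m, g, ?_, ?_, ?_⟩
    · intro h
      have h1 := natDegree_le_natDegree (minpoly.degree_le_of_ne_zero K T hXc h)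
      rw [hdegp, natDegree_pow, natDegree_X_sub_C, mul_one] at h1
      omega
    · intro h
      have h1 := natDegree_le_natDegree (minpoly.degree_le_of_ne_zero K T hg0 h)
      rw [hdegp] at h1
      omega
    · have h1 := Polynomial.sup_ker_aeval_eq_ker_aeval_mul_of_coprime T hcop
      have h2 := Polynomial.disjoint_ker_aeval_of_isCoprime T hcop
      rw [← hg, minpoly.aeval, LinearMap.ker_zero] at h1
      have h3 := Submodule.finrank_sup_add_finrank_inf_eq (LinearMap.ker (aeval T ((X - C c) ^ m)))
        (LinearMap.ker (aeval T g))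
      rw [h1, h2.eq_bot, finrank_top, finrank_bot] at h3
      have h4 := LinearMap.finrank_range_add_finrank_ker (aeval T ((X - C c) ^ m))
      have h5 := LinearMap.finrank_range_add_finrank_ker (aeval T g)
      unfold rk
      omega

theorem nilp_of_trace_zero {T : End K W} {c : K} (h : IsNilpotent (T - c • (1 : End K W)))
    (ht : trace K W T = 0) (hW : 0 < finrank K W) : IsNilpotent T := by
  have h1 := trace_nilp h
  rw [map_sub, map_smul, ht, trace_one, smul_eq_mul, zero_sub, neg_eq_zero] at h1
  have h2 : c = 0 := by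
    rcases mul_eq_zero.mp h1 with h2 | h2
    · exact h2
    · exact absurd (Nat.cast_eq_zero.mp h2) hW.ne'
  rwa [h2, zero_smul, sub_zero] at h

/-- In a space of endomorphisms, containing `1`, closed under powers and without elements of
small odd rank, the trace zero elements are trace-orthogonal to everything. -/
theorem trace_orth {J : Submodule K (End K W)} (h1 : (1 : End K W) ∈ J)
    (hpow : ∀ T ∈ J, ∀ k : ℕ, T ^ k ∈ J)
    (hrank : ∀ T ∈ J, rk T < finrank K W → ¬ Odd (rk T))
    (hW : Odd (finrank K W) ∨ finrank K W = 2) {T : End K W} (hT : T ∈ J)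
    (ht : trace K W T = 0) {T' : End K W} (hT' : T' ∈ J) : trace K W (T * T') = 0 := by
  have hpos : 0 < finrank K W := by
    rcases hW with h | h
    · exact h.pos
    · omega
  haveI : Nontrivial W := Module.nontrivial_of_finrank_pos hpos
  have haev : ∀ T ∈ J, ∀ q : K[X], aeval T q ∈ J := by
    intro T hT q
    rw [aeval_eq_sum_range]
    exact Submodule.sum_mem _ (fun i _ => J.smul_mem _ (hpow T hT i))
  have key : ∀ T ∈ J, ∃ c : K, IsNilpotent (T - c • (1 : End K W)) := by
    intro T hT
    rcases poly_ranks T with h | ⟨q1, q2, hq1, hq2, hr⟩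
    · exact h
    · exfalso
      have a1 : 0 < rk (aeval T q1) := Nat.pos_of_ne_zero (fun h => hq1 (rk_eq_zero h))
      have a2 : 0 < rk (aeval T q2) := Nat.pos_of_ne_zero (fun h => hq2 (rk_eq_zero h))
      have b1 := hrank _ (haev T hT q1) (by omega)
      have b2 := hrank _ (haev T hT q2) (by omega)
      rw [Nat.not_odd_iff_even] at b1 b2
      rcases hW with h | h
      · rw [← hr] at h
        exact (Nat.not_odd_iff_even.mpr (b1.add b2)) h
      · obtain ⟨x, hx⟩ := b1
        obtain ⟨y, hy⟩ := b2
        omega
  have nil : ∀ T ∈ J, trace K W T = 0 → IsNilpotent T := by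
    intro T hT ht
    obtain ⟨c, hc⟩ := key T hT
    exact nilp_of_trace_zero hc ht hpos
  have sq : ∀ T ∈ J, trace K W T = 0 → trace K W (T * T) = 0 := by
    intro T hT ht
    have := (nil T hT ht).pow_of_pos (n := 2) (by norm_num)
    rw [pow_two] at this
    exact trace_nilp this
  -- reduce to `T'` of trace zero
  obtain ⟨c, hc⟩ := key T' hT'
  set S := T' - c • (1 : End K W) with hS
  have hSJ : S ∈ J := J.sub_mem hT' (J.smul_mem _ h1)
  have hSt : trace K W S = 0 := trace_nilp hc
  have e1 : trace K W (T * T') = trace K W (T * S) := by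
    have : T' = S + c • (1 : End K W) := by rw [hS]; abel
    rw [this, mul_add, map_add, mul_smul_comm, mul_one, map_smul, ht, smul_zero, add_zero]
  rw [e1]
  have h3 := sq _ (J.add_mem hT hSJ) (by rw [map_add, ht, hSt, add_zero])
  have h4 := sq _ hT ht
  have h5 := sq _ hSJ hSt
  rw [add_mul, mul_add, mul_add, map_add, map_add, map_add, h4, h5, trace_mul_comm K S T] at h3
  have h6 : (2 : K) * trace K W (T * S) = 0 := by rw [two_mul]; simpa using h3
  exact (mul_eq_zero.mp h6).resolve_left two_ne_zero

end Pool.Agent.Helper78_MT
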