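import Pool.Agent.Helper78_MT.Grad

/-! The case of odd rank. -/

set_option autoImplicit false
set_option linter.unusedSectionVars false
set_option linter.unusedSimpArgs false

namespace Pool.Agent.Helper78_MT

open Module LinearMap

section deg
variable {K A : Type*} [Field K] [CharZero K] [Ring A] [Algebra K A] {p q e : A} (h : Orth3 p q e)
include h

theorem Orth3.of1 (K : Type*) [Field K] [CharZero K] [Algebra K A] {X : A}
    (hX : (p - q) * X - X * (p - q) = X) : X = p * X * e + e * X * q := by
  have z : ∀ (n : K) (Y : A), n ≠ 0 → n • Y = 0 → Y = 0 := fun n Y hn hY =>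
    (smul_eq_zero.mp hY).resolve_left hn
  have a1 : p * X * q = 0 := by
    apply z 1 _ one_ne_zero
    have e1 : p * ((p - q) * X - X * (p - q)) * q = p * X * q + p * X * q := by
      simp only [mul_sub, sub_mul, mul_assoc, h.pp', h.pq', h.pq, h.qq, mul_zero, zero_mul]; abel
    rw [hX] at e1
    have : p * X * q = 0 := by
      have e2 : p * X * q + 0 = p * X * q + p * X * q := by rw [add_zero]; exact e1
      exact (add_left_cancel e2).symm
    rw [this, smul_zero]
  have a2 : p * X * p = 0 := by
    have e1 : p * ((p - q) * X - X * (p - q)) * p = 0 := by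
      simp only [mul_sub, sub_mul, mul_assoc, h.pp', h.pq', h.qp, h.pp, mul_zero, zero_mul]; abel
    rwa [hX] at e1
  have a3 : q * X * q = 0 := by
    have e1 : q * ((p - q) * X - X * (p - q)) * q = 0 := by
      simp only [mul_sub, sub_mul, mul_assoc, h.qp', h.qq', h.pq, h.qq, mul_zero, zero_mul]; abel
    rwa [hX] at e1
  have a4 : e * X * e = 0 := by
    have e1 : e * ((p - q) * X - X * (p - q)) * e = 0 := by
      simp only [mul_sub, sub_mul, mul_assoc, h.ep', h.eq', h.pe, h.qe, mul_zero, zero_mul]; abel
    rwa [hX] at e1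
  have a5 : e * X * p = 0 := by
    have e1 : e * ((p - q) * X - X * (p - q)) * p = -(e * X * p) := by
      simp only [mul_sub, sub_mul, mul_assoc, h.ep', h.eq', h.pp, h.qp, mul_zero, zero_mul]; abel
    rw [hX] at e1
    apply z 2 _ two_ne_zero
    rw [two_smul]; nth_rewrite 1 [e1]; abel
  have a6 : q * X * e = 0 := by
    have e1 : q * ((p - q) * X - X * (p - q)) * e = -(q * X * e) := by
      simp only [mul_sub, sub_mul, mul_assoc, h.qp', h.qq', h.pe, h.qe, mul_zero, zero_mul]; abel
    rw [hX] at e1
    apply z 2 _ two_ne_zero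
    rw [two_smul]; nth_rewrite 1 [e1]; abel
  have a7 : q * X * p = 0 := by
    have e1 : q * ((p - q) * X - X * (p - q)) * p = -(q * X * p + q * X * p) := by
      simp only [mul_sub, sub_mul, mul_assoc, h.qp', h.qq', h.pp, h.qp, mul_zero, zero_mul]; abel
    rw [hX] at e1
    apply z 3 _ three_ne_zero
    rw [show (3 : K) = 1 + 1 + 1 by norm_num, add_smul, add_smul, one_smul]
    nth_rewrite 1 [e1]; abel
  have := h.decomp X
  rw [a1, a2, a3, a4, a5, a6, a7] at this
  simpa using this

theorem Orth3.ofm1 (K : Type*) [Field K] [CharZero K] [Algebra K A] {X : A}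
    (hX : (p - q) * X - X * (p - q) = -X) : X = e * X * p + q * X * e := by
  have := h.swap.of1 K (X := X) (by
    have : (q - p) * X - X * (q - p) = -((p - q) * X - X * (p - q)) := by noncomm_ring
    rw [this, hX, neg_neg])
  rw [add_comm]
  exact this

end deg

variable {K V : Type*} [Field K] [CharZero K] [IsAlgClosed K] [AddCommGroup V] [Module K V]
  [FiniteDimensional K V]
variable {ψ : V →ₗ[K] V →ₗ[K] K} {g : Submodule K (End K V)}

/-- commutator -/
def cm (A B : End K V) : End K V := A * B - B * A

theorem Ctx.step4 (c : Ctx ψ g) {r : ℕ} (hg : Good g r) (hodd : Odd r) {N F : End K V} (hN : N ∈ g)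
    (hF : F ∈ g) (t : Tri N F) (hr : rk N = r) {x : End K V} (hx : x ∈ g)
    (hx1 : (N * F - F * N) * x - x * (N * F - F * N) = x) (hx2 : x * x = 0) (hx0 : x ≠ 0) :
    ∃ f ∈ g, (N * F - F * N) * f - f * (N * F - F * N) = -f ∧ x * f * N = N := by
  have ho := t.orth
  have hHg : N * F - F * N ∈ g := c.br _ hN _ hF
  set p := N * F with hp
  set q := F * N with hq
  set e := 1 - p - q with he
  have hxb := ho.of1 K hx1
  obtain ⟨z, hz, hxz⟩ := c.jm hx hx2
  have hzm := (ho.comps c.br hHg hz).2.2.2.1
  set zm := e * z * p + q * z * e with hzmd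
  have hxzm : x * zm * x = x := by
    have e1 : (p * x * e + e * x * q) * zm * (p * x * e + e * x * q) =
        p * ((p * x * e + e * x * q) * z * (p * x * e + e * x * q)) * e +
        e * ((p * x * e + e * x * q) * z * (p * x * e + e * x * q)) * q := by
      rw [hzmd]
      simp only [mul_add, add_mul, mul_sub, sub_mul, mul_assoc, ho.pp', ho.qq', ho.ee', ho.pq', ho.qp',
        ho.pe', ho.ep', ho.qe', ho.eq', ho.pp, ho.qq, ho.ee, ho.pq, ho.qp, ho.pe, ho.ep, ho.qe, ho.eq,
        mul_zero, zero_mul]
    rw [← hxb, hxz, ← hxb] at e1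
    exact e1
  obtain ⟨f, hf, tx, hfd⟩ := exists_tri c.br hx hzm hx2 hxzm
  have hfm : (p - q) * f - f * (p - q) = -f := by
    have := hfd (p - q) 1 (by rw [one_smul]; exact hx1) (by
      rw [neg_smul, one_smul]; exact ho.commm1 z)
    rwa [neg_smul, one_smul] at this
  refine ⟨f, hf, hfm, ?_⟩
  have hfb := ho.ofm1 K hfm
  have hN0 : N ≠ 0 := by
    rintro rfl
    have : rk (0 : End K V) = 0 := by simp [rk]
    rw [this] at hr
    exact hg.pos.ne hr
  -- basic block identities
  have xe : x * e = p * x * e := by
    nth_rewrite 1 [hxb]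
    simp only [add_mul, mul_assoc, ho.ee, ho.qe, mul_zero, add_zero]
  have ex : e * x = e * x * q := by
    nth_rewrite 1 [hxb]
    simp only [mul_add, ho.ep', ho.ee', ← mul_assoc, ho.ep, ho.ee, zero_mul, zero_add]
  have fp : f * p = e * f * p := by
    nth_rewrite 1 [hfb]
    simp only [add_mul, mul_assoc, ho.pp, ho.ep, mul_zero, add_zero]
  have qf : q * f = q * f * e := by
    nth_rewrite 1 [hfb]
    simp only [mul_add, ← mul_assoc, ho.qe, ho.qq, zero_mul, zero_add]
  have pN : p * N = N := t.pN
  have Nq : N * q = N := t.Nq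
  have xN : x * N = 0 := by
    rw [← pN, hxb]
    simp only [add_mul, mul_assoc, ho.ep', ho.qp', mul_zero, add_zero]
  have Nx : N * x = 0 := by
    rw [← Nq, hxb, mul_assoc]
    simp only [mul_add, ← mul_assoc, ho.qp, ho.qe, zero_mul, mul_zero, add_zero]
  have xfp : p * (x * f * p) = x * f * p := by
    calc p * (x * f * p) = p * (x * (f * p)) := by rw [mul_assoc x f p]
      _ = p * (x * (e * f * p)) := by rw [← fp]
      _ = p * (x * e) * f * p := by noncomm_ring
      _ = (p * p) * x * e * f * p := by rw [xe]; noncomm_ring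
      _ = (p * x * e) * f * p := by rw [ho.pp]
      _ = x * (e * f * p) := by rw [← xe]; noncomm_ring
      _ = x * f * p := by rw [← fp]; noncomm_ring
  set a := x * f * N with ha
  set a' := N * f * x with ha'
  have pa : p * a = a := by
    rw [ha, ← pN, ← mul_assoc (x * f) p N, ← mul_assoc, xfp]
  have aq : a * q = a := by rw [ha, mul_assoc, Nq]
  have pa' : p * a' = a' := by rw [ha', ← mul_assoc, ← mul_assoc, pN]
  have a'q : a' * q = a' := by
    calc a' * q = N * f * x * q := by rw [ha']
      _ = (N * q) * f * x * q := by rw [Nq]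
      _ = N * (q * f) * x * q := by noncomm_ring
      _ = N * (q * f * e) * x * q := by rw [← qf]
      _ = N * (q * f) * (e * x * q) := by noncomm_ring
      _ = N * (q * f) * (e * x) := by rw [← ex]
      _ = N * (q * f * e) * x := by noncomm_ring
      _ = (N * q) * f * x := by rw [← qf]; noncomm_ring
      _ = a' := by rw [Nq]
  have hcomm : (x * f - f * x) * N - N * (x * f - f * x) = a + a' := by
    have : (x * f - f * x) * N - N * (x * f - f * x) = x * f * N - f * (x * N) - (N * x) * f + N * f * x := by
      noncomm_ring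
    rw [this, xN, Nx]; simp [ha, ha']
  have hag : a + a' ∈ g := by
    rw [← hcomm]
    exact c.br _ (c.br _ hx _ hf) _ hN
  obtain ⟨c0, hc0⟩ := c.prim hN hF t (by rw [hr]; exact hg.min) (by rw [hr]; exact hg.odd) hag (by
    rw [← hp, ← hq, mul_add, add_mul, pa, pa', aq, a'q])
  have xfa : x * f * a = a := by
    rw [ha, show x * f * (x * f * N) = (x * f * x) * f * N by noncomm_ring, tx.NFN]
  have a'fx : a' * (f * x) = a' := by
    rw [ha', show N * f * x * (f * x) = N * (f * x * f) * x by noncomm_ring, tx.FNF]
  have e1 : c0 • a = a + x * f * a' := by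
    have : x * f * (a + a') = x * f * (c0 • N) := by rw [hc0]
    rw [mul_add, xfa, mul_smul_comm, ← ha] at this
    exact this.symm
  have e2 : c0 • a' = a * (f * x) + a' := by
    have : (a + a') * (f * x) = (c0 • N) * (f * x) := by rw [hc0]
    rw [add_mul, a'fx, smul_mul_assoc, ← mul_assoc N f x, ← ha'] at this
    exact this.symm
  have e3 : x * f * a' = a * (f * x) := by rw [ha, ha']; noncomm_ring
  have e4 : (c0 - 1) • (a - a') = 0 := by
    have : c0 • a - a = c0 • a' - a' := by rw [e1, e2, e3]; abel
    have h5 : (c0 - 1) • (a - a') = (c0 • a - a) - (c0 • a' - a') := by module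
    rw [h5, this, sub_self]
  have hr0 : (r : K) ≠ 0 := Nat.cast_ne_zero.mpr hg.pos.ne'
  -- traces
  have t1 : c0 * r = rk x := by
    have s1 : trace K V ((x * f - f * x) * (p - q)) = rk x := by
      have : trace K V ((x * f - f * x) * (p - q)) = trace K V (f * ((p - q) * x - x * (p - q))) := by
        rw [sub_mul, map_sub, mul_sub f, map_sub, mul_assoc x f, trace_mul_comm K x]
        congr 1
      rw [this, hx1, tx.trace_FN]
    have s2 : trace K V ((x * f - f * x) * (p - q)) = c0 * r := by
      have : trace K V ((x * f - f * x) * (p - q)) =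
          trace K V (((x * f - f * x) * N - N * (x * f - f * x)) * F) := by
        rw [mul_sub (x * f - f * x), map_sub, sub_mul (( x * f - f * x) * N), map_sub, hp, hq,
          ← mul_assoc (x * f - f * x) N F, ← mul_assoc (x * f - f * x) F N, trace_mul_comm K _ N,
          ← mul_assoc]
      rw [this, hcomm, hc0, smul_mul_assoc, map_smul, t.trace_NF, hr, smul_eq_mul]
    rw [← s2, s1]
  have hc00 : c0 ≠ 0 := by
    rintro rfl
    rw [zero_mul] at t1
    exact hx0 (rk_eq_zero (Nat.cast_injective (t1.symm.trans Nat.cast_zero.symm)))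
  by_cases h1 : c0 = 1
  · exfalso
    have s1 : trace K V (x * f * N * F) = trace K V (N * f * x * F) := by
      have : trace K V (x * f * N * F) = trace K V (F * N * f * x) := by
        apply trace_adj c.nψ
        intro u v
        change ψ (x (f (N (F u)))) v = ψ u (F (N (f (x v))))
        rw [c.sp x hx, c.sp f hf, c.sp N hN, c.sp F hF]
        simp
      rw [this, show F * N * f * x = F * (N * f * x) by noncomm_ring, trace_mul_comm]
    have s2 : trace K V (x * f * N * F) + trace K V (N * f * x * F) = r := by
      rw [← map_add, ← add_mul, ← ha, ← ha', hc0, h1, one_smul, t.trace_NF, hr]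
    have hid : (x * f * N * F) * (x * f * N * F) = x * f * N * F := by
      have : x * f * N * F = x * f * p := by rw [hp]; noncomm_ring
      rw [this]
      calc x * f * p * (x * f * p) = x * f * (p * (x * f * p)) := by noncomm_ring
        _ = (x * f * x) * f * p := by rw [xfp]; noncomm_ring
        _ = x * f * p := by rw [tx.NFN]
    have s3 := trace_idem hid
    rw [← s1] at s2
    have s4 : ((2 * rk (x * f * N * F) : ℕ) : K) = r := by
      push_cast
      rw [← s3, ← s2]; ring
    have s5 := Nat.cast_injective s4
    rw [← s5] at hodd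
    exact (Nat.not_odd_iff_even.mpr (even_two_mul _)) hodd
  · have e5 : a = a' := by
      have := (smul_eq_zero.mp e4).resolve_left (sub_ne_zero.mpr h1)
      exact sub_eq_zero.mp this
    rw [← e5, ← two_smul K] at hc0
    have ha0 : a ≠ 0 := by
      intro h0
      rw [h0, smul_zero] at hc0
      rcases smul_eq_zero.mp hc0.symm with h | h
      · exact hc00 h
      · exact hN0 h
    have e6 : (2 : K) • a = c0 • a := by
      have := congrArg (fun y => x * f * y) hc0
      simp only [mul_smul_comm, xfa] at this
      rw [this]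
    have e7 : c0 = 2 := by
      have : (2 - c0) • a = 0 := by rw [sub_smul, e6, sub_self]
      have := (smul_eq_zero.mp this).resolve_right ha0
      exact (sub_eq_zero.mp this).symm
    rw [e7] at hc0
    have := congrArg (fun y => ((2 : K)⁻¹) • y) hc0
    simpa [smul_smul] using this

theorem mul_comm_deg {h x f : End K V} {a b : K} (hx : h * x - x * h = a • x)
    (hf : h * f - f * h = b • f) : h * (x * f) - (x * f) * h = (a + b) • (x * f) := by
  have : h * (x * f) - (x * f) * h = (h * x - x * h) * f + x * (h * f - f * h) := by noncomm_ring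
  rw [this, hx, hf, smul_mul_assoc, mul_smul_comm, add_smul]

theorem Ctx.step5 (c : Ctx ψ g) {r : ℕ} (hg : Good g r) (hodd : Odd r) {N F : End K V} (hN : N ∈ g)
    (hF : F ∈ g) (t : Tri N F) (hr : rk N = r) {h : End K V} {ε : K}
    (hε : ∀ x ∈ g, (N * F - F * N) * x - x * (N * F - F * N) = x → h * x - x * h = ε • x → x * x = 0)
    {x : End K V} (hx : x ∈ g) (hx1 : (N * F - F * N) * x - x * (N * F - F * N) = x)
    (hxh : h * x - x * h = ε • x) {f : End K V} (hf : f ∈ g)
    (hf1 : (N * F - F * N) * f - f * (N * F - F * N) = -f) (hfh : h * f - f * h = (-ε) • f) :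
    ∃ a : K, x * f * N = a • N := by
  by_cases hx0 : x = 0
  · exact ⟨0, by rw [hx0]; simp⟩
  have hx2 := hε x hx hx1 hxh
  have ho := t.orth
  have hN0 : N ≠ 0 := by
    rintro rfl
    have : rk (0 : End K V) = 0 := by simp [rk]
    rw [this] at hr
    exact hg.pos.ne hr
  have hx1' : (N * F - F * N) * x - x * (N * F - F * N) = (1 : K) • x := by rw [one_smul]; exact hx1
  have hf1' : (N * F - F * N) * f - f * (N * F - F * N) = (-1 : K) • f := by
    rw [neg_smul, one_smul]; exact hf1
  -- degree zero operators preserve the range of `N`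
  have hpres : ∀ f' : End K V, (N * F - F * N) * f' - f' * (N * F - F * N) = (-1 : K) • f' →
      N * F * (x * f' * N) = x * f' * N := by
    intro f' hf'
    have h0 := mul_comm_deg hx1' hf'
    rw [add_neg_cancel, zero_smul] at h0
    have h1 : (N * F - F * N) * (x * f') = (x * f') * (N * F - F * N) := sub_eq_zero.mp h0
    have h2 : (N * F - F * N) * N = N := by rw [sub_mul, t.pN, t.qN, sub_zero]
    have h3 : (N * F - F * N) * (x * f' * N) = x * f' * N := by
      rw [← mul_assoc, h1, mul_assoc, h2]
    have h4 : F * N * (x * f' * N) = 0 := by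
      have e1 := congrArg (fun y => F * N * y) h3
      simp only [sub_mul, mul_sub] at e1
      rw [show F * N * (N * F * (x * f' * N)) = (F * N * (N * F)) * (x * f' * N) by noncomm_ring,
        ho.qp, zero_mul, show F * N * (F * N * (x * f' * N)) = (F * N * (F * N)) * (x * f' * N) by
        noncomm_ring, ho.qq, zero_sub] at e1
      have e2 : (2 : K) • (F * N * (x * f' * N)) = 0 := by
        rw [two_smul]; nth_rewrite 1 [← e1]; abel
      exact (smul_eq_zero.mp e2).resolve_left two_ne_zero
    rw [sub_mul, h4, sub_zero] at h3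
    exact h3
  -- eigenvalue of `x f` on the range of `N`
  have hmaps : ∀ w ∈ range N, (x * f) w ∈ range N := by
    rintro _ ⟨u, rfl⟩
    refine ⟨F ((x * f * N) u), ?_⟩
    have := congrArg (fun T : End K V => T u) (hpres f hf1')
    exact this
  have hnt : Nontrivial (range N) := by
    rw [Submodule.nontrivial_iff_ne_bot]
    intro h0
    exact hN0 (LinearMap.range_eq_bot.mp h0)
  obtain ⟨lam, hlam⟩ := Module.End.exists_eigenvalue ((x * f).restrict hmaps)
  obtain ⟨w, hw⟩ := hlam.exists_hasEigenvector
  have hw1 : (x * f) (w : V) = lam • (w : V) := by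
    have := hw.apply_eq_smul
    exact congrArg Subtype.val this
  have hw0 : (w : V) ≠ 0 := fun h0 => hw.2 (Subtype.ext h0)
  -- the element `x f x - λ x`
  have hzero : x * f * x = lam • x := by
    by_contra hne
    set y := x * f * x - lam • x with hy
    have hy0 : y ≠ 0 := sub_ne_zero.mpr hne
    have hyg : y ∈ g := g.sub_mem (sandwich c.br hx hx2 hf) (g.smul_mem _ hx)
    have d1 : ∀ (T : End K V) (a b : K), T * x - x * T = a • x → T * f - f * T = b • f → a + b = 0 →
        T * y - y * T = a • y := by
      intro T a b h1 h2 h3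
      have e1 := mul_comm_deg h1 h2
      rw [h3] at e1
      have e2 := mul_comm_deg e1 h1
      have e3 : T * y - y * T = (T * (x * f * x) - (x * f * x) * T) - lam • (T * x - x * T) := by
        rw [hy]
        simp only [mul_sub, sub_mul, mul_smul_comm, smul_mul_assoc, smul_sub]
        abel
      rw [e3, e2, h1, hy, zero_add]
      module
    have hy1 : (N * F - F * N) * y - y * (N * F - F * N) = y := by
      have := d1 _ _ _ hx1' hf1' (by ring)
      rwa [one_smul] at this
    have hyh := d1 _ _ _ hxh hfh (by ring)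
    have hy2 := hε y hyg hy1 hyh
    obtain ⟨f', hf', hf'1, hf'N⟩ := c.step4 hg hodd hN hF t hr hyg hy1 hy2 hy0
    have hf'1' : (N * F - F * N) * f' - f' * (N * F - F * N) = (-1 : K) • f' := by
      rw [neg_smul, one_smul]; exact hf'1
    have hp' := hpres f' hf'1'
    let A : range N →ₗ[K] range N := (x * f).restrict hmaps - lam • LinearMap.id
    have hsurj : Function.Surjective A := by
      rintro ⟨_, u, rfl⟩
      refine ⟨⟨(x * f' * N) u, ⟨F ((x * f' * N) u), congrArg (fun T : End K V => T u) hp'⟩⟩, ?_⟩
      apply Subtype.ext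
      change (x * f) ((x * f' * N) u) - lam • ((x * f' * N) u) = N u
      have e1 : y * f' * N = x * f * (x * f' * N) - lam • (x * f' * N) := by
        rw [hy]; simp only [sub_mul, smul_mul_assoc]; noncomm_ring
      rw [hf'N] at e1
      exact (congrArg (fun T : End K V => T u) e1).symm
    have hinj : Function.Injective A := LinearMap.injective_iff_surjective.mpr hsurj
    apply hw0
    have : A w = 0 := by
      apply Subtype.ext
      change (x * f) (w : V) - lam • (w : V) = 0
      rw [hw1, sub_self]
    have := hinj (this.trans (map_zero A).symm)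
    rw [this]; rfl
  obtain ⟨f1, hf1g, -, hf1N⟩ := c.step4 hg hodd hN hF t hr hx hx1 hx2 hx0
  refine ⟨lam, ?_⟩
  calc x * f * N = x * f * (x * f1 * N) := by rw [hf1N]
    _ = (x * f * x) * f1 * N := by noncomm_ring
    _ = lam • (x * f1 * N) := by rw [hzero]; simp only [smul_mul_assoc]
    _ = lam • N := by rw [hf1N]

end Pool.Agent.Helper78_MT
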