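import Pool.Agent.Helper78_MT.StepB

/-! Products of degree `1` and `-1`, the ideal acting by scalars on the top degree. -/

set_option autoImplicit false
set_option linter.unusedSectionVars false
set_option linter.unusedSimpArgs false

namespace Pool.Agent.Helper78_MT

open Module LinearMap

variable {K V : Type*} [Field K] [CharZero K] [IsAlgClosed K] [AddCommGroup V] [Module K V]
  [FiniteDimensional K V]
variable {ψ : V →ₗ[K] V →ₗ[K] K} {g : Submodule K (End K V)}

/-- A homogeneous triple: `N` raises `h`, `F` lowers `h`. -/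
structure Hom (N F h : End K V) : Prop where
  tri : Tri N F
  hh : h * h = (1 / 4 : K) • 1
  hN : h * N = (1 / 2 : K) • N
  Nh : N * h = (-(1 / 2) : K) • N
  hF : h * F = (-(1 / 2) : K) • F
  Fh : F * h = (1 / 2 : K) • F

namespace Hom
variable {N F h : End K V} (H : Hom N F h)
include H

theorem hp : h * (N * F) = (1 / 2 : K) • (N * F) := by rw [← mul_assoc, H.hN, smul_mul_assoc]
theorem ph : N * F * h = (1 / 2 : K) • (N * F) := by rw [mul_assoc, H.Fh, mul_smul_comm]
theorem hq : h * (F * N) = (-(1 / 2) : K) • (F * N) := by rw [← mul_assoc, H.hF, smul_mul_assoc]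
theorem qh : F * N * h = (-(1 / 2) : K) • (F * N) := by rw [mul_assoc, H.Nh, mul_smul_comm]
theorem hHc : h * (N * F - F * N) = (N * F - F * N) * h := by
  rw [mul_sub, sub_mul, H.hp, H.ph, H.hq, H.qh]

end Hom

theorem Ctx.step6 (c : Ctx ψ g) {r : ℕ} (hg : Good g r) (hodd : Odd r) {N F h : End K V} (hN : N ∈ g)
    (hF : F ∈ g) (hr : rk N = r) (hh : h ∈ g) (H : Hom N F h)
    {X Y : End K V} (hX : X ∈ g) (hX1 : (N * F - F * N) * X - X * (N * F - F * N) = X)
    (hY : Y ∈ g) (hY1 : (N * F - F * N) * Y - Y * (N * F - F * N) = -Y) :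
    ∃ a : K, X * Y * N = a • N := by
  have t := H.tri
  have ho := t.orth
  obtain ⟨P, hP⟩ : ∃ P, P = (1 / 2 : K) • (1 : End K V) + h := ⟨_, rfl⟩
  obtain ⟨Q, hQ⟩ : ∃ Q, Q = (1 / 2 : K) • (1 : End K V) - h := ⟨_, rfl⟩
  have hPQ1 : P + Q = 1 := by rw [hP, hQ]; module
  have PP : P * P = P := by rw [hP]; exact half_idem H.hh
  have PQ : P * Q = 0 := by rw [hP, hQ]; exact half_orth H.hh
  have QP : Q * P = 0 := by rw [hP, hQ]; exact half_orth' H.hh
  have QQ : Q * Q = Q := by
    have : Q * (P + Q) = Q := by rw [hPQ1, mul_one]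
    rwa [mul_add, QP, zero_add] at this
  have PN : P * N = N := by rw [hP, add_mul, H.hN, smul_mul_assoc, one_mul]; module
  have QN : Q * N = 0 := by rw [hQ, sub_mul, H.hN, smul_mul_assoc, one_mul]; module
  have hcH : h * (N * F - F * N) = (N * F - F * N) * h := H.hHc
  have PH : P * (N * F - F * N) = (N * F - F * N) * P := by
    rw [hP, add_mul, mul_add, hcH, smul_mul_assoc, mul_smul_comm, one_mul, mul_one]
  have QH : Q * (N * F - F * N) = (N * F - F * N) * Q := by
    have h1 : Q = 1 - P := by rw [← hPQ1]; abel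
    calc Q * (N * F - F * N) = (N * F - F * N) - P * (N * F - F * N) := by
          rw [h1]; noncomm_ring
      _ = (N * F - F * N) - (N * F - F * N) * P := by rw [PH]
      _ = (N * F - F * N) * Q := by rw [h1]; noncomm_ring
  obtain ⟨HH, hHH⟩ : ∃ HH, HH = N * F - F * N := ⟨_, rfl⟩
  -- components
  have hX1g : P * X * Q ∈ g := by rw [hP, hQ]; exact half_mem c.br H.hh hh hX
  have hXm : Q * X * P ∈ g := by rw [hP, hQ]; exact half_mem' c.br H.hh hh hX
  have hX0g : P * X * P + Q * X * Q ∈ g := by
    have : P * X * P + Q * X * Q = X - P * X * Q - Q * X * P := by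
      have : X = (P + Q) * X * (P + Q) := by rw [hPQ1]; simp
      nth_rewrite 3 [this]
      noncomm_ring
    rw [this]
    exact g.sub_mem (g.sub_mem hX hX1g) hXm
  have hYm : Q * Y * P ∈ g := by rw [hP, hQ]; exact half_mem' c.br H.hh hh hY
  have hY1g : P * Y * Q ∈ g := by rw [hP, hQ]; exact half_mem c.br H.hh hh hY
  have hY0g : P * Y * P + Q * Y * Q ∈ g := by
    have : P * Y * P + Q * Y * Q = Y - P * Y * Q - Q * Y * P := by
      have : Y = (P + Q) * Y * (P + Q) := by rw [hPQ1]; simp
      nth_rewrite 3 [this]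
      noncomm_ring
    rw [this]
    exact g.sub_mem (g.sub_mem hY hY1g) hYm
  rw [← hHH] at PH QH hX1 hY1
  -- `H`-degrees of components
  have deg : ∀ (A B Z : End K V), A * HH = HH * A → B * HH = HH * B →
      HH * (A * Z * B) - (A * Z * B) * HH = A * (HH * Z - Z * HH) * B := by
    intro A B Z hA hB
    calc HH * (A * Z * B) - (A * Z * B) * HH = (HH * A) * Z * B - A * Z * (B * HH) := by noncomm_ring
      _ = A * (HH * Z - Z * HH) * B := by rw [← hA, hB]; noncomm_ring
  have dX0 : HH * (P * X * P + Q * X * Q) - (P * X * P + Q * X * Q) * HH = P * X * P + Q * X * Q := by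
    have e1 := deg P P X PH PH
    have e2 := deg Q Q X QH QH
    rw [hX1] at e1 e2
    rw [mul_add, add_mul]
    calc _ = (HH * (P * X * P) - P * X * P * HH) + (HH * (Q * X * Q) - Q * X * Q * HH) := by abel
      _ = _ := by rw [e1, e2]
  have dX1 : HH * (P * X * Q) - (P * X * Q) * HH = P * X * Q := by
    have e1 := deg P Q X PH QH
    rwa [hX1] at e1
  have dY0 : HH * (P * Y * P + Q * Y * Q) - (P * Y * P + Q * Y * Q) * HH =
      -(P * Y * P + Q * Y * Q) := by
    have e1 := deg P P Y PH PH
    have e2 := deg Q Q Y QH QH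
    rw [hY1] at e1 e2
    rw [mul_add, add_mul]
    calc _ = (HH * (P * Y * P) - P * Y * P * HH) + (HH * (Q * Y * Q) - Q * Y * Q * HH) := by abel
      _ = _ := by rw [e1, e2]; noncomm_ring
  have dYm : HH * (Q * Y * P) - (Q * Y * P) * HH = -(Q * Y * P) := by
    have e1 := deg Q P Y QH PH
    rw [hY1] at e1
    rw [e1]; noncomm_ring
  -- `h`-degrees
  have hPQ : h = (1 / 2 : K) • (P - Q) := by rw [hP, hQ]; module
  have hhP : h * P = (1 / 2 : K) • P := by rw [hPQ, smul_mul_assoc, sub_mul, PP, QP, sub_zero]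
  have hPh : P * h = (1 / 2 : K) • P := by rw [hPQ, mul_smul_comm, mul_sub, PP, PQ, sub_zero]
  have hhQ : h * Q = (-(1 / 2) : K) • Q := by
    rw [hPQ, smul_mul_assoc, sub_mul, PQ, QQ]; module
  have hQh : Q * h = (-(1 / 2) : K) • Q := by
    rw [hPQ, mul_smul_comm, mul_sub, QP, QQ]; module
  have degh : ∀ (A B Z : End K V) (a b : K), h * A = a • A → B * h = b • B →
      h * (A * Z * B) - (A * Z * B) * h = (a - b) • (A * Z * B) := by
    intro A B Z a b hA hB
    calc h * (A * Z * B) - (A * Z * B) * h = (h * A) * Z * B - A * Z * (B * h) := by noncomm_ring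
      _ = (a - b) • (A * Z * B) := by
        rw [hA, hB]; simp only [smul_mul_assoc, mul_smul_comm]; module
  have hX0h : h * (P * X * P + Q * X * Q) - (P * X * P + Q * X * Q) * h = (0 : K) •
      (P * X * P + Q * X * Q) := by
    have e1 := degh P P X _ _ hhP hPh
    have e2 := degh Q Q X _ _ hhQ hQh
    rw [mul_add, add_mul]
    calc _ = (h * (P * X * P) - P * X * P * h) + (h * (Q * X * Q) - Q * X * Q * h) := by abel
      _ = _ := by rw [e1, e2]; module
  have hY0h : h * (P * Y * P + Q * Y * Q) - (P * Y * P + Q * Y * Q) * h = (-0 : K) •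
      (P * Y * P + Q * Y * Q) := by
    have e1 := degh P P Y _ _ hhP hPh
    have e2 := degh Q Q Y _ _ hhQ hQh
    rw [mul_add, add_mul]
    calc _ = (h * (P * Y * P) - P * Y * P * h) + (h * (Q * Y * Q) - Q * Y * Q * h) := by abel
      _ = _ := by rw [e1, e2]; module
  have hX1h : h * (P * X * Q) - (P * X * Q) * h = (1 : K) • (P * X * Q) := by
    have e1 := degh P Q X _ _ hhP hQh
    rw [e1]; congr 1; norm_num
  have hYmh : h * (Q * Y * P) - (Q * Y * P) * h = (-1 : K) • (Q * Y * P) := by
    have e1 := degh Q P Y _ _ hhQ hPh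
    rw [e1]; congr 1; norm_num
  -- squares vanish
  have hP_of : ∀ x : End K V, h * x - x * h = (0 : K) • x → P * x = x * P := by
    intro x hx
    rw [zero_smul, sub_eq_zero] at hx
    rw [hP, add_mul, mul_add, hx, smul_mul_assoc, mul_smul_comm, one_mul, mul_one]
  have hε0 : ∀ x ∈ g, (N * F - F * N) * x - x * (N * F - F * N) = x →
      h * x - x * h = (0 : K) • x → x * x = 0 := by
    intro x _ h1 h2
    have hb := ho.of1 K h1
    have hPx := hP_of x h2
    have e0 : (N * F) * P = N * F := by
      rw [hP, mul_add, H.ph, mul_smul_comm, mul_one]; module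
    have e1 : P * (F * N) = 0 := by
      rw [hP, add_mul, H.hq, smul_mul_assoc, one_mul]; module
    have hPe : P * (1 - N * F - F * N) = (1 - N * F - F * N) * P := by
      rw [hP]
      simp only [add_mul, mul_add, mul_sub, sub_mul, H.hp, H.ph, H.hq, H.qh, smul_mul_assoc,
        mul_smul_comm, one_mul, mul_one]
      module
    have e2 : x * x = (N * F) * x * (1 - N * F - F * N) * x * (F * N) := by
      clear e1 e0 hPe hPx h1 h2
      clear hP_of
      obtain ⟨p, hp⟩ : ∃ p, p = N * F := ⟨_, rfl⟩
      obtain ⟨q, hq⟩ : ∃ q, q = F * N := ⟨_, rfl⟩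
      rw [← hp, ← hq] at hb ho
      rw [← hp, ← hq]
      obtain ⟨e, he⟩ : ∃ e, e = 1 - p - q := ⟨_, rfl⟩
      rw [← he] at hb ho
      rw [← he]
      have e3 : x * x = (p * x * e + e * x * q) * (p * x * e + e * x * q) := by rw [← hb]
      rw [e3]
      simp only [mul_add, add_mul, mul_assoc, ho.pp', ho.qq', ho.ee', ho.pq', ho.qp',
        ho.pe', ho.ep', ho.qe', ho.eq', ho.pp, ho.qq, ho.ee, ho.pq, ho.qp, ho.pe, ho.ep, ho.qe, ho.eq,
        mul_zero, zero_mul, zero_add, add_zero]
    rw [e2]
    calc (N * F) * x * (1 - N * F - F * N) * x * (F * N)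
        = ((N * F) * P) * x * (1 - N * F - F * N) * x * (F * N) := by rw [e0]
      _ = (N * F) * (P * x) * (1 - N * F - F * N) * x * (F * N) := by noncomm_ring
      _ = (N * F) * x * (P * (1 - N * F - F * N)) * x * (F * N) := by rw [hPx]; noncomm_ring
      _ = (N * F) * x * (1 - N * F - F * N) * (P * x) * (F * N) := by rw [hPe]; noncomm_ring
      _ = (N * F) * x * (1 - N * F - F * N) * x * (P * (F * N)) := by rw [hPx]; noncomm_ring
      _ = 0 := by rw [e1, mul_zero]
  have hε1 : ∀ x ∈ g, (N * F - F * N) * x - x * (N * F - F * N) = x →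
      h * x - x * h = (1 : K) • x → x * x = 0 := by
    intro x _ _ h2
    rw [one_smul] at h2
    -- `Q x = 0`
    have e1 : Q * x = 0 := by
      have e2 : Q * (h * x - x * h) * 1 = Q * x := by rw [h2, mul_one]
      have e3 : Q * (h * x - x * h) = (-(1 / 2) : K) • (Q * x) - Q * x * h := by
        rw [mul_sub, ← mul_assoc, hQh, smul_mul_assoc, mul_assoc]
      rw [mul_one, e3] at e2
      -- multiply on the right by `P` and by `Q`
      have e4 : Q * x * P = 0 := by
        have := congrArg (fun y => y * P) e2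
        simp only [sub_mul, smul_mul_assoc] at this
        rw [mul_assoc (Q * x) h P, hhP, mul_smul_comm] at this
        have e5 : (2 : K) • (Q * x * P) = 0 := by
          have : (2 : K) • (Q * x * P) = Q * x * P - ((-(1 / 2) : K) • (Q * x * P) -
            (1 / 2 : K) • (Q * x * P)) := by module
          rw [this, ‹(-(1 / 2) : K) • (Q * x * P) - (1 / 2 : K) • (Q * x * P) = Q * x * P›, sub_self]
        exact (smul_eq_zero.mp e5).resolve_left two_ne_zero
      have e6 : Q * x * Q = 0 := by
        have h7 := congrArg (fun y => y * Q) e2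
        simp only [sub_mul, smul_mul_assoc] at h7
        rw [mul_assoc (Q * x) h Q, hhQ, mul_smul_comm] at h7
        rw [← h7]; module
      have : Q * x * (P + Q) = 0 := by rw [mul_add, e4, e6, add_zero]
      rwa [hPQ1, mul_one] at this
    have e7 : x * P = 0 := by
      have e3 : (h * x - x * h) * P = h * (x * P) - (1 / 2 : K) • (x * P) := by
        rw [sub_mul, mul_assoc x h P, hhP, mul_smul_comm, mul_assoc]
      rw [h2] at e3
      have e8 : P * (x * P) = x * P := by
        have : (P + Q) * (x * P) = x * P := by rw [hPQ1, one_mul]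
        rwa [add_mul, ← mul_assoc Q x P, e1, zero_mul, add_zero] at this
      have e9 : h * (x * P) = (1 / 2 : K) • (x * P) := by
        rw [← e8, ← mul_assoc, hhP, smul_mul_assoc]
      rw [e9, sub_self] at e3
      exact e3
    have e10 : x = x * Q := by
      have : x * (P + Q) = x := by rw [hPQ1, mul_one]
      rw [mul_add, e7, zero_add] at this
      exact this.symm
    rw [e10, mul_assoc, ← mul_assoc Q x Q, e1, zero_mul, mul_zero]
  obtain ⟨a, ha⟩ := c.step5 hg hodd hN hF t hr hε0 hX0g (by rw [← hHH]; exact dX0) hX0h hY0g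
    (by rw [← hHH]; exact dY0) hY0h
  obtain ⟨b, hb⟩ := c.step5 hg hodd hN hF t hr hε1 hX1g (by rw [← hHH]; exact dX1) hX1h hYm
    (by rw [← hHH]; exact dYm) hYmh
  refine ⟨a + b, ?_⟩
  -- `X Y N` lies in the range of `P`
  have hXYN : P * (X * Y * N) = X * Y * N := by
    have h1 : HH * (X * Y) = (X * Y) * HH := by
      have := mul_comm_deg (K := K) (a := 1) (b := -1) (h := HH) (x := X) (f := Y)
        (by rw [one_smul]; exact hX1) (by rw [neg_smul, one_smul]; exact hY1)
      rw [add_neg_cancel, zero_smul] at this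
      exact sub_eq_zero.mp this
    have h2 : HH * N = N := by rw [hHH, sub_mul, t.pN, t.qN, sub_zero]
    have h3 : HH * (X * Y * N) = X * Y * N := by rw [← mul_assoc, h1, mul_assoc, h2]
    have hHHp : P * (HH * HH * HH + HH * HH) = HH * HH * HH + HH * HH := by
      have e1 : HH * HH * HH + HH * HH = (2 : K) • (N * F) := by
        rw [hHH]
        simp only [mul_add, add_mul, mul_sub, sub_mul, ho.pp, ho.qq, ho.pq, ho.qp,
          sub_zero, zero_sub, mul_neg, neg_mul]
        rw [two_smul]; abel
      rw [e1, mul_smul_comm, hP, add_mul, H.hp, smul_mul_assoc, one_mul]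
      module
    have h4 : (HH * HH * HH + HH * HH) * (X * Y * N) = (2 : K) • (X * Y * N) := by
      rw [add_mul, mul_assoc (HH * HH) HH, h3, mul_assoc HH HH (X * Y * N), h3, h3, two_smul]
    have h5 : P * ((2 : K) • (X * Y * N)) = (2 : K) • (X * Y * N) := by
      rw [← h4, ← mul_assoc, hHHp]
    rw [mul_smul_comm] at h5
    have : (2 : K) • (P * (X * Y * N) - X * Y * N) = 0 := by rw [smul_sub, h5, sub_self]
    exact sub_eq_zero.mp ((smul_eq_zero.mp this).resolve_left two_ne_zero)
  calc X * Y * N = P * (X * Y * N) := hXYN.symm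
    _ = P * X * (P + Q) * Y * (P * N) := by rw [hPQ1, PN]; noncomm_ring
    _ = (P * X * P) * (P * Y * P) * N + (P * X * Q) * (Q * Y * P) * N := by
      have : P * X * (P + Q) * Y * (P * N) = P * X * P * Y * P * N + P * X * Q * Y * P * N := by
        noncomm_ring
      rw [this]
      congr 1
      · rw [show (P * X * P) * (P * Y * P) * N = P * X * (P * P) * Y * P * N by noncomm_ring, PP]
      · rw [show (P * X * Q) * (Q * Y * P) * N = P * X * (Q * Q) * Y * P * N by noncomm_ring, QQ]
    _ = (P * X * P + Q * X * Q) * (P * Y * P + Q * Y * Q) * N + (P * X * Q) * (Q * Y * P) * N := by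
      congr 1
      have : (P * X * P + Q * X * Q) * (P * Y * P + Q * Y * Q) * N =
        P * X * P * (P * Y * P) * N + P * X * (P * Q) * Y * (Q * N) + Q * X * (Q * P) * Y * P * N +
        Q * X * Q * Q * Y * (Q * N) := by noncomm_ring
      rw [this, QN, QP]; simp
    _ = (a + b) • N := by rw [ha, hb, add_smul]

end Pool.Agent.Helper78_MT
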