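import Pool.Agent.Helper78_MT.StepC

/-! Homogeneous triples, the ideal acting by scalars on the top degree, and the case of odd rank. -/

set_option autoImplicit false
set_option linter.unusedSectionVars false
set_option linter.unusedSimpArgs false

namespace Pool.Agent.Helper78_MT

open Module LinearMap

theorem Orth3.J1 {A : Type*} [Ring A] {p q e : A} (h : Orth3 p q e) (X : A) :
    p * (p * X * e + e * X * q) = p * X * e := by
  simp only [mul_add, mul_assoc, h.pp', h.pe', add_zero]

theorem Orth3.J2 {A : Type*} [Ring A] {p q e : A} (h : Orth3 p q e) (X : A) :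
    q * (e * X * p + q * X * e) = q * X * e := by
  simp only [mul_add, mul_assoc, h.qq', h.qe', zero_add]

variable {K V : Type*} [Field K] [CharZero K] [IsAlgClosed K] [AddCommGroup V] [Module K V]
  [FiniteDimensional K V]
variable {ψ : V →ₗ[K] V →ₗ[K] K} {g : Submodule K (End K V)}

/-- existence of a homogeneous triple when the raising part is nonzero -/
theorem Ctx.hom_aux (c : Ctx ψ g) {r : ℕ} (hg : Good g r) {N h : End K V} (hN : N ∈ g)
    (hN2 : N * N = 0) (hr : rk N = r) (hh : h * h = (1 / 4 : K) • 1) (hhg : h ∈ g)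
    (hne : ((1 / 2 : K) • (1 : End K V) + h) * N * ((1 / 2 : K) • 1 - h) ≠ 0) :
    ∃ F ∈ g, Hom (((1 / 2 : K) • (1 : End K V) + h) * N * ((1 / 2 : K) • 1 - h)) F h ∧
      rk (((1 / 2 : K) • (1 : End K V) + h) * N * ((1 / 2 : K) • 1 - h)) = r := by
  obtain ⟨P, hP⟩ : ∃ P, P = (1 / 2 : K) • (1 : End K V) + h := ⟨_, rfl⟩
  obtain ⟨Q, hQ⟩ : ∃ Q, Q = (1 / 2 : K) • (1 : End K V) - h := ⟨_, rfl⟩
  have N1g : P * N * Q ∈ g := by rw [hP, hQ]; exact half_mem c.br hh hhg hN
  rw [← hP, ← hQ] at hne ⊢
  have hPQ1 : P + Q = 1 := by rw [hP, hQ]; module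
  have PP : P * P = P := by rw [hP]; exact half_idem hh
  have PQ : P * Q = 0 := by rw [hP, hQ]; exact half_orth hh
  have QP : Q * P = 0 := by rw [hP, hQ]; exact half_orth' hh
  have QQ : Q * Q = Q := by
    have : Q * (P + Q) = Q := by rw [hPQ1, mul_one]
    rwa [mul_add, QP, zero_add] at this
  have hPQ : h = (1 / 2 : K) • (P - Q) := by rw [hP, hQ]; module
  have hhP : h * P = (1 / 2 : K) • P := by rw [hPQ, smul_mul_assoc, sub_mul, PP, QP, sub_zero]
  have hPh : P * h = (1 / 2 : K) • P := by rw [hPQ, mul_smul_comm, mul_sub, PP, PQ, sub_zero]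
  have hhQ : h * Q = (-(1 / 2) : K) • Q := by
    rw [hPQ, smul_mul_assoc, sub_mul, PQ, QQ]; module
  have hQh : Q * h = (-(1 / 2) : K) • Q := by
    rw [hPQ, mul_smul_comm, mul_sub, QP, QQ]; module
  have N12 : P * N * Q * (P * N * Q) = 0 := by
    rw [show P * N * Q * (P * N * Q) = P * N * (Q * P) * N * Q by noncomm_ring, QP]; simp
  have hext : ∀ X ∈ g, P * N * Q * X * (P * N * Q) = (trace K V (P * N * Q * X) / r) • (P * N * Q) := by
    intro X hX
    have hXm : Q * X * P ∈ g := by rw [hP, hQ]; exact half_mem' c.br hh hhg hX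
    have h1 := c.ext hg hN hN2 hr hXm
    have h2 : trace K V (N * (Q * X * P)) = trace K V (P * N * Q * X) := by
      rw [show N * (Q * X * P) = (N * Q * X) * P by noncomm_ring, trace_mul_comm,
        show P * (N * Q * X) = P * N * Q * X by noncomm_ring]
    rw [h2] at h1
    calc P * N * Q * X * (P * N * Q) = P * (N * (Q * X * P) * N) * Q := by noncomm_ring
      _ = _ := by rw [h1, mul_smul_comm, smul_mul_assoc]
  have hrk : rk (P * N * Q) = r := c.rk_of_ext hg.pos N1g hne hext
  obtain ⟨z, hz, hz1⟩ := c.jm N1g N12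
  have hF0 : Q * z * P ∈ g := by rw [hP, hQ]; exact half_mem' c.br hh hhg hz
  have hNF : P * N * Q * (Q * z * P) * (P * N * Q) = P * N * Q := by
    calc P * N * Q * (Q * z * P) * (P * N * Q) = P * N * (Q * Q) * z * (P * P) * N * Q := by noncomm_ring
      _ = P * N * Q * z * (P * N * Q) := by rw [QQ, PP]; noncomm_ring
      _ = P * N * Q := hz1
  obtain ⟨F, hF, t, ht⟩ := exists_tri c.br N1g hF0 N12 hNF
  have hN1 : h * (P * N * Q) = (1 / 2 : K) • (P * N * Q) := by
    rw [show h * (P * N * Q) = (h * P) * N * Q by noncomm_ring, hhP, smul_mul_assoc, smul_mul_assoc]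
  have hN1' : (P * N * Q) * h = (-(1 / 2) : K) • (P * N * Q) := by
    rw [show P * N * Q * h = P * N * (Q * h) by noncomm_ring, hQh, mul_smul_comm]
  have hF1 : h * F - F * h = (-1 : K) • F := by
    apply ht h 1
    · rw [hN1, hN1']; module
    · rw [show h * (Q * z * P) = (h * Q) * z * P by noncomm_ring,
        show Q * z * P * h = Q * z * (P * h) by noncomm_ring, hhQ, hPh]
      simp only [smul_mul_assoc, mul_smul_comm]
      module
  have hF2 : h * F = (-1 : K) • (F * h) := by
    have e1 : h * (h * F - F * h) = (1 / 4 : K) • F - h * F * h := by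
      rw [mul_sub, ← mul_assoc, hh, smul_mul_assoc, one_mul, mul_assoc]
    have e2 : (h * F - F * h) * h = h * F * h - (1 / 4 : K) • F := by
      rw [sub_mul, mul_assoc F h h, hh, mul_smul_comm, mul_one]
    rw [hF1, mul_smul_comm] at e1
    rw [hF1, smul_mul_assoc] at e2
    have e3 : (-1 : K) • (h * F) + (-1 : K) • (F * h) = 0 := by rw [e1, e2]; abel
    have e4 : h * F = (-1 : K) • (F * h) + (-1 : K) • ((-1 : K) • (h * F) + (-1 : K) • (F * h)) := by
      module
    rw [e3, smul_zero, add_zero] at e4
    exact e4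
  have hFh : F * h = (1 / 2 : K) • F := by
    rw [hF2] at hF1
    have : F * h = (-(1 / 2) : K) • ((-1 : K) • (F * h) - F * h) := by module
    rw [this, hF1]; module
  refine ⟨F, hF, ⟨t, hh, hN1, hN1', ?_, hFh⟩, hrk⟩
  rw [hF2, hFh]; module

/-- the raising or the lowering part of an odd rank element is nonzero -/
theorem Ctx.hom_ne (c : Ctx ψ g) {N h : End K V} (hN : N ∈ g)
    (hN2 : N * N = 0) (hodd : Odd (rk N)) (hh : h * h = (1 / 4 : K) • 1) (hhg : h ∈ g) :
    ((1 / 2 : K) • (1 : End K V) + h) * N * ((1 / 2 : K) • 1 - h) ≠ 0 ∨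
    ((1 / 2 : K) • (1 : End K V) + -h) * N * ((1 / 2 : K) • 1 - -h) ≠ 0 := by
  by_contra hcon
  push Not at hcon
  obtain ⟨h1, h2⟩ := hcon
  have hc : h * N = N * h := by
    have e1 : h * N - N * h =
        ((1 / 2 : K) • (1 : End K V) + h) * N * ((1 / 2 : K) • 1 - h) -
        ((1 / 2 : K) • (1 : End K V) + -h) * N * ((1 / 2 : K) • 1 - -h) := by
      simp only [mul_add, add_mul, mul_sub, sub_mul, smul_mul_assoc, mul_smul_comm, one_mul, mul_one,
        neg_mul, mul_neg]
      module
    rw [h1, h2, sub_zero] at e1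
    exact sub_eq_zero.mp e1
  have := c.parity hh hhg hN hN2 hc
  exact (Nat.not_even_iff_odd.mpr hodd) this

/-- an ideal containing a square-zero element of minimal odd rank is irreducible -/
theorem Ctx.ideal_irr (c : Ctx ψ g) {r : ℕ} (hg : Good g r) (hodd : Odd r)
    (hirr : ∀ U : Submodule K V, (∀ h ∈ g, h * h = (1 / 4 : K) • 1 → ∀ u ∈ U, h u ∈ U) → U = ⊥ ∨ U = ⊤)
    {k : Submodule K (End K V)} (hk : k ≤ g) (hid : ∀ X ∈ g, ∀ Y ∈ k, X * Y - Y * X ∈ k)
    {N : End K V} (hN : N ∈ k) (hN2 : N * N = 0) (hr : rk N = r) : Irr k := by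
  intro U hU
  by_cases hU0 : U = ⊥
  · exact Or.inl hU0
  right
  -- minimal nonzero stable submodule
  let S : Set (Submodule K V) := {M | M ≠ ⊥ ∧ M ≤ U ∧ ∀ X ∈ k, ∀ u ∈ M, X u ∈ M}
  have hS : S.Nonempty := ⟨U, hU0, le_rfl, hU⟩
  obtain ⟨M, ⟨hM0, hMU, hMk⟩, hmin⟩ := wellFounded_lt.has_min S hS
  have key : ∀ h ∈ g, h * h = (1 / 4 : K) • 1 →
      ((1 / 2 : K) • (1 : End K V) + h) * N * ((1 / 2 : K) • 1 - h) ≠ 0 → ∀ u ∈ M, h u ∈ M := by
    intro h hhg hh hne
    obtain ⟨F', hF', H, hrk⟩ := c.hom_aux hg (hk hN) hN2 hr hh hhg hne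
    obtain ⟨N', hN'⟩ : ∃ N', N' = ((1 / 2 : K) • (1 : End K V) + h) * N * ((1 / 2 : K) • 1 - h) :=
      ⟨_, rfl⟩
    rw [← hN'] at H hrk hne
    have hN'k : N' ∈ k := by
      rw [hN']
      have e : ((1 / 2 : K) • (1 : End K V) + h) * N * ((1 / 2 : K) • 1 - h) =
        (1 / 2 : K) • (h * (h * N - N * h) - (h * N - N * h) * h) + (1 / 2 : K) • (h * N - N * h) := by
        have e1 : h * (h * N - N * h) - (h * N - N * h) * h = (h * h) * N - 2 * (h * N * h) + N * (h * h) := by
          noncomm_ring
        rw [e1, hh, two_mul]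
        simp only [mul_add, add_mul, mul_sub, sub_mul, smul_mul_assoc, mul_smul_comm, one_mul, mul_one]
        module
      rw [e]
      exact k.add_mem (k.smul_mem _ (hid _ hhg _ (hid _ hhg _ hN))) (k.smul_mem _ (hid _ hhg _ hN))
    have t := H.tri
    have ho := t.orth
    have hF'k : F' ∈ k := by
      have h1 := hid _ hF' _ (hid _ hF' _ hN'k)
      have h2 : F' * (F' * N' - N' * F') - (F' * N' - N' * F') * F' = (-2 : K) • F' := by
        have : F' * (F' * N' - N' * F') - (F' * N' - N' * F') * F' =
          F' * F' * N' - 2 * (F' * N' * F') + N' * (F' * F') := by noncomm_ring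
        rw [this, t.F2, t.FNF, two_mul]
        simp only [zero_mul, mul_zero]
        module
      rw [h2] at h1
      exact mem_of_smul (by norm_num) h1
    have hHk : N' * F' - F' * N' ∈ k := hid _ (hk hN'k) _ hF'k
    have hHg : N' * F' - F' * N' ∈ g := hk hHk
    -- `N'` does not kill `M`
    have hNM : ∃ m ∈ M, N' m ≠ 0 := by
      by_contra hcon
      push Not at hcon
      have hHM : ∀ m ∈ M, (N' * F' - F' * N') m = 0 := by
        intro m hm
        rw [LinearMap.sub_apply, Module.End.mul_apply, Module.End.mul_apply, hcon m hm, map_zero,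
          hcon _ (hMk _ hF'k m hm), sub_zero]
      have hqM : ∀ m ∈ M, (F' * N') m = 0 := by
        intro m hm
        rw [Module.End.mul_apply, hcon m hm, map_zero]
      have hpM : ∀ m ∈ M, (N' * F') m = 0 := by
        intro m hm
        rw [Module.End.mul_apply, hcon _ (hMk _ hF'k m hm)]
      have hdeg : ∀ (a : K), a ≠ 0 → ∀ X ∈ g, (N' * F' - F' * N') * X - X * (N' * F' - F' * N') = a • X →
          ∀ m ∈ M, X m = 0 := by
        intro a ha X hX hXa m hm
        have hXk : X ∈ k := by
          have h1 := hid _ hX _ hHk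
          have h2 : X = (-a⁻¹) • (X * (N' * F' - F' * N') - (N' * F' - F' * N') * X) := by
            have : X * (N' * F' - F' * N') - (N' * F' - F' * N') * X = -(a • X) := by rw [← hXa]; abel
            rw [this, neg_smul, smul_neg, neg_neg, smul_smul, inv_mul_cancel₀ ha, one_smul]
          rw [h2]; exact k.smul_mem _ h1
        have h1 := congrArg (fun T : End K V => T m) hXa
        simp only [LinearMap.sub_apply (_ * X), LinearMap.smul_apply] at h1
        rw [Module.End.mul_apply, Module.End.mul_apply, hHM m hm, map_zero,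
          hHM _ (hMk _ hXk m hm), sub_zero] at h1
        exact (smul_eq_zero.mp h1.symm).resolve_left ha
      apply hM0
      rw [eq_bot_iff]
      intro m hm
      rw [Submodule.mem_bot]
      have hem : (1 - N' * F' - F' * N') m = m := by
        rw [LinearMap.sub_apply, LinearMap.sub_apply, hpM m hm, hqM m hm]; simp
      have hp0 : N' * F' ≠ 0 := by
        intro h0
        apply hne
        have := t.NFN
        rw [h0, zero_mul] at this
        exact this.symm
      apply killed c.br c.irr ho hHg hp0 (hpM m hm) (hqM m hm)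
      · intro X hX
        have cX := (ho.comps c.br hHg hX).2.1
        have d1 := ho.comm1 X
        have z := hdeg 1 one_ne_zero _ cX (by rw [one_smul]; exact d1) m hm
        have e1 : N' * F' * X = N' * F' * X * (N' * F') + N' * F' * X * (F' * N') +
            N' * F' * (N' * F' * X * (1 - N' * F' - F' * N') + (1 - N' * F' - F' * N') * X * (F' * N')) := by
          have e2 : N' * F' * (N' * F' * X * (1 - N' * F' - F' * N') +
              (1 - N' * F' - F' * N') * X * (F' * N')) = N' * F' * X * (1 - N' * F' - F' * N') :=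
            ho.J1 X
          rw [e2, ← mul_add, ← mul_add, ho.one, mul_one]
        have e3 := congrArg (fun T : End K V => T m) e1
        simp only [LinearMap.add_apply (_ * X * _), LinearMap.add_apply (_ * X * _ + _)] at e3
        change (N' * F' * X) m = 0
        rw [e3, Module.End.mul_apply (N' * F' * X) (N' * F'), hpM m hm,
          Module.End.mul_apply (N' * F' * X) (F' * N'), hqM m hm,
          Module.End.mul_apply (N' * F') (_ + _), z]
        simp
      · intro X hX
        have cX := (ho.comps c.br hHg hX).2.2.2.1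
        have d1 := ho.commm1 X
        have z := hdeg (-1) (by norm_num) _ cX (by rw [neg_smul, one_smul]; exact d1) m hm
        have e1 : F' * N' * X = F' * N' * X * (N' * F') + F' * N' * X * (F' * N') +
            F' * N' * ((1 - N' * F' - F' * N') * X * (N' * F') + F' * N' * X * (1 - N' * F' - F' * N')) := by
          have e2 : F' * N' * ((1 - N' * F' - F' * N') * X * (N' * F') +
              F' * N' * X * (1 - N' * F' - F' * N')) = F' * N' * X * (1 - N' * F' - F' * N') :=
            ho.J2 X
          rw [e2, ← mul_add, ← mul_add, ho.one, mul_one]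
        have e3 := congrArg (fun T : End K V => T m) e1
        simp only [LinearMap.add_apply (_ * X * _), LinearMap.add_apply (_ * X * _ + _)] at e3
        change (F' * N' * X) m = 0
        rw [e3, Module.End.mul_apply (F' * N' * X) (N' * F'), hpM m hm,
          Module.End.mul_apply (F' * N' * X) (F' * N'), hqM m hm,
          Module.End.mul_apply (F' * N') (_ + _), z]
        simp
    obtain ⟨m, hm, hm0⟩ := hNM
    let M' : Submodule K V := M ⊓ M.comap h
    have hM'0 : M' ≠ ⊥ := by
      intro h0
      have : N' m ∈ M' := by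
        refine ⟨hMk _ hN'k m hm, ?_⟩
        change (h * N') m ∈ M
        rw [H.hN]
        exact M.smul_mem _ (hMk _ hN'k m hm)
      rw [h0, Submodule.mem_bot] at this
      exact hm0 this
    have hM'S : M' ∈ S := by
      refine ⟨hM'0, inf_le_left.trans hMU, ?_⟩
      rintro X hX u ⟨hu1, hu2⟩
      refine ⟨hMk X hX u hu1, ?_⟩
      change h (X u) ∈ M
      have h1 : h (X u) = (h * X - X * h) u + X (h u) := by
        rw [LinearMap.sub_apply, Module.End.mul_apply, Module.End.mul_apply]; abel
      rw [h1]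
      exact M.add_mem (hMk _ (hid _ hhg _ hX) u hu1) (hMk X hX _ hu2)
    have hM'M : M' = M := by
      by_contra hne
      exact hmin M' hM'S (lt_of_le_of_ne inf_le_left hne)
    intro u hu
    have : u ∈ M' := by rw [hM'M]; exact hu
    exact this.2
  have hall : ∀ h ∈ g, h * h = (1 / 4 : K) • 1 → ∀ u ∈ M, h u ∈ M := by
    intro h hhg hh u hu
    rcases c.hom_ne (hk hN) hN2 (by rw [hr]; exact hodd) hh hhg with h1 | h1
    · exact key h hhg hh h1 u hu
    · have := key (-h) (g.neg_mem hhg) (half_neg hh) h1 u hu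
      rw [LinearMap.neg_apply] at this
      exact (M.neg_mem_iff).mp this
  rcases hirr M hall with h0 | h0
  · exact absurd h0 hM0
  · rw [h0] at hMU
    exact top_le_iff.mp hMU

end Pool.Agent.Helper78_MT
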