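import Pool.Agent.Helper78_MT.StepD

/-! The ideal acting by scalars on the top degree; rank one in the odd case; the case of rank two. -/

set_option autoImplicit false
set_option linter.unusedSectionVars false
set_option linter.unusedSimpArgs false

namespace Pool.Agent.Helper78_MT

open Module LinearMap

theorem Orth3.J3 {A : Type*} [Ring A] {p q e : A} (h : Orth3 p q e) (X Y : A) :
    p * (X * Y - Y * X) * p = (p * X * p * (p * Y * p) - p * Y * p * (p * X * p)) +
      ((p * X * e + e * X * q) * (e * Y * p + q * Y * e) * p -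
       (p * Y * e + e * Y * q) * (e * X * p + q * X * e) * p) +
      (p * X * q * (q * Y * p) - p * Y * q * (q * X * p)) := by
  have e1 : ∀ X Y : A, p * (X * Y) * p = p * X * p * (p * Y * p) + p * X * q * (q * Y * p) +
      p * X * e * (e * Y * p) := by
    intro X Y
    have : p * (X * Y) * p = p * X * (p + q + e) * Y * p := by rw [h.one]; noncomm_ring
    rw [this]
    have e2 : p * X * p * (p * Y * p) + p * X * q * (q * Y * p) + p * X * e * (e * Y * p) =
      p * X * (p * p) * Y * p + p * X * (q * q) * Y * p + p * X * (e * e) * Y * p := by noncomm_ring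
    rw [e2, h.pp, h.qq, h.ee]; noncomm_ring
  have e3 : ∀ X Y : A, (p * X * e + e * X * q) * (e * Y * p + q * Y * e) * p = p * X * e * (e * Y * p) := by
    intro X Y
    simp only [mul_add, add_mul, mul_assoc, h.pp', h.qq', h.ee', h.pq', h.qp', h.pe', h.ep',
      h.qe', h.eq', h.pp, h.qq, h.ee, h.pq, h.qp, h.pe, h.ep, h.qe, h.eq, mul_zero, zero_mul, add_zero,
      zero_add]
  rw [mul_sub, sub_mul, e1, e1, e3, e3]
  abel

variable {K V : Type*} [Field K] [CharZero K] [IsAlgClosed K] [AddCommGroup V] [Module K V]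
  [FiniteDimensional K V]
variable {ψ : V →ₗ[K] V →ₗ[K] K} {g : Submodule K (End K V)}

theorem Ctx.odd_rank_one (c : Ctx ψ g) {r : ℕ} (hg : Good g r) (hodd : Odd r)
    (hirr : ∀ U : Submodule K V, (∀ h ∈ g, h * h = (1 / 4 : K) • 1 → ∀ u ∈ U, h u ∈ U) → U = ⊥ ∨ U = ⊤)
    {h₀ : End K V} (hh₀ : h₀ * h₀ = (1 / 4 : K) • 1) (hhg₀ : h₀ ∈ g)
    {N₀ : End K V} (hN₀ : N₀ ∈ g) (hN₀2 : N₀ * N₀ = 0) (hr₀ : rk N₀ = r) : r = 1 := by
  -- a homogeneous triple
  obtain ⟨N, F, h, hN, hF, hh, H, hr⟩ : ∃ N F h, N ∈ g ∧ F ∈ g ∧ h ∈ g ∧ Hom N F h ∧ rk N = r := by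
    rcases c.hom_ne hN₀ hN₀2 (by rw [hr₀]; exact hodd) hh₀ hhg₀ with h1 | h1
    · obtain ⟨F, hF, H, hrk⟩ := c.hom_aux hg hN₀ hN₀2 hr₀ hh₀ hhg₀ h1
      exact ⟨_, F, h₀, half_mem c.br hh₀ hhg₀ hN₀, hF, hhg₀, H, hrk⟩
    · obtain ⟨F, hF, H, hrk⟩ := c.hom_aux hg hN₀ hN₀2 hr₀ (half_neg hh₀) (g.neg_mem hhg₀) h1
      exact ⟨_, F, -h₀, half_mem c.br (half_neg hh₀) (g.neg_mem hhg₀) hN₀, hF, g.neg_mem hhg₀, H, hrk⟩
  have t := H.tri
  have ho := t.orth
  have hHg : N * F - F * N ∈ g := c.br _ hN _ hF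
  have hgr : Good g (rk N) := by rw [hr]; exact hg
  have hgF : Good g (rk F) := by rw [t.rk_F]; exact hgr
  have prN : ∀ X ∈ g, ∃ a : K, N * F * X * (F * N) = a • N := by
    intro X hX
    have cX := (ho.comps c.br hHg hX).1
    apply c.prim hN hF t hgr.min hgr.odd cX
    rw [show N * F * (N * F * X * (F * N)) * (F * N) = (N * F * (N * F)) * X * (F * N * (F * N)) by
      noncomm_ring, ho.pp, ho.qq]
  have prF : ∀ X ∈ g, ∃ a : K, F * N * X * (N * F) = a • F := by
    intro X hX
    have cX := (ho.comps c.br hHg hX).2.2.2.2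
    apply c.prim hF hN t.symm hgF.min hgF.odd cX
    rw [show F * N * (F * N * X * (N * F)) * (N * F) = (F * N * (F * N)) * X * (N * F * (N * F)) by
      noncomm_ring, ho.pp, ho.qq]
  -- the products of degree one and minus one
  have p1 : ∀ X ∈ g, ∀ Y ∈ g, ∃ a : K, (N * F * X * (1 - N * F - F * N) + (1 - N * F - F * N) * X * (F * N)) *
      ((1 - N * F - F * N) * Y * (N * F) + F * N * Y * (1 - N * F - F * N)) * (N * F) = a • (N * F) := by
    intro X hX Y hY
    have cX := (ho.comps c.br hHg hX).2.1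
    have cY := (ho.comps c.br hHg hY).2.2.2.1
    obtain ⟨a, ha⟩ := c.step6 hg hodd hN hF hr hh H cX (ho.comm1 X) cY (ho.commm1 Y)
    refine ⟨a, ?_⟩
    rw [← mul_assoc _ N F, ha, smul_mul_assoc]
  have p2 : ∀ X ∈ g, ∀ Y ∈ g, ∃ a : K, N * F * X * (F * N) * (F * N * Y * (N * F)) = a • (N * F) := by
    intro X hX Y hY
    obtain ⟨a, ha⟩ := prN X hX
    obtain ⟨b, hb⟩ := prF Y hY
    exact ⟨a * b, by rw [ha, hb, smul_mul_assoc, mul_smul_comm, smul_smul]⟩
  let k : Submodule K (End K V) :=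
    { carrier := {X | X ∈ g ∧ ∃ μ : K, N * F * X * (N * F) = μ • (N * F)}
      add_mem' := by
        rintro X Y ⟨hX, a, ha⟩ ⟨hY, b, hb⟩
        exact ⟨g.add_mem hX hY, a + b, by rw [mul_add, add_mul, ha, hb, add_smul]⟩
      zero_mem' := ⟨g.zero_mem, 0, by simp⟩
      smul_mem' := by
        rintro s X ⟨hX, a, ha⟩
        exact ⟨g.smul_mem _ hX, s * a, by rw [mul_smul_comm, smul_mul_assoc, ha, smul_smul]⟩ }
  have hk : ∀ X, X ∈ k ↔ X ∈ g ∧ ∃ μ : K, N * F * X * (N * F) = μ • (N * F) := fun X => Iff.rfl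
  have hkg : k ≤ g := fun X hX => hX.1
  have hid : ∀ X ∈ g, ∀ Y ∈ k, X * Y - Y * X ∈ k := by
    intro X hX Y hY
    rw [hk] at hY ⊢
    obtain ⟨hY, μ, hμ⟩ := hY
    refine ⟨c.br _ hX _ hY, ?_⟩
    obtain ⟨a1, ha1⟩ := p1 X hX Y hY
    obtain ⟨a2, ha2⟩ := p1 Y hY X hX
    obtain ⟨b1, hb1⟩ := p2 X hX Y hY
    obtain ⟨b2, hb2⟩ := p2 Y hY X hX
    refine ⟨(a1 - a2) + (b1 - b2), ?_⟩
    rw [ho.J3, ha1, ha2, hb1, hb2, hμ]
    have : N * F * X * (N * F) * μ • (N * F) - μ • (N * F) * (N * F * X * (N * F)) = 0 := by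
      rw [mul_smul_comm, smul_mul_assoc, mul_assoc _ (N * F) (N * F), ho.pp,
        show N * F * (N * F * X * (N * F)) = (N * F * (N * F)) * X * (N * F) by noncomm_ring, ho.pp, sub_self]
    rw [this]
    module
  have hNk : N ∈ k := by
    rw [hk]
    refine ⟨hN, 0, ?_⟩
    rw [mul_assoc, t.Np, mul_zero, zero_smul]
  have hHk : N * F - F * N ∈ k := by
    rw [hk]
    refine ⟨hHg, 1, ?_⟩
    rw [mul_sub, sub_mul, ho.pp, ho.pq, zero_mul, sub_zero, ho.pp, one_smul]
  have hki : Irr k := c.ideal_irr hg hodd hirr hkg hid hNk t.N2 hr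
  have hkb : BrClosed k := fun X hX Y hY => hid X (hkg hX) Y hY
  have hp0 : N * F ≠ 0 := by
    intro h0
    have h1 := t.rk_NF
    rw [h0, hr] at h1
    have h2 : rk (0 : End K V) = 0 := by unfold rk; rw [LinearMap.range_zero, finrank_bot]
    rw [h2] at h1
    exact absurd h1.symm hg.pos.ne'
  obtain ⟨v, hv⟩ : ∃ v, (N * F) v ≠ 0 := by
    by_contra hcon
    push Not at hcon
    exact hp0 (LinearMap.ext hcon)
  have hpp : ∀ v, (N * F) ((N * F) v) = (N * F) v := by
    intro v; rw [← Module.End.mul_apply, ho.pp]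
  have htop := top_irr hkb hki ho hHk (l := K ∙ ((N * F) v)) (by
    rw [Ne, Submodule.span_singleton_eq_bot]; exact hv) (by
    intro w hw
    obtain ⟨a, rfl⟩ := Submodule.mem_span_singleton.mp hw
    rw [map_smul, hpp]) (by
    intro X hX w hw
    obtain ⟨a, rfl⟩ := Submodule.mem_span_singleton.mp hw
    obtain ⟨-, μ, hμ⟩ := hX
    rw [map_smul, map_smul]
    apply Submodule.smul_mem
    have := congrArg (fun T : End K V => T v) hμ
    change (N * F) (X ((N * F) v)) = μ • ((N * F) v) at this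
    rw [this]
    exact Submodule.smul_mem _ _ (Submodule.mem_span_singleton_self _))
  have h1 : rk (N * F) ≤ 1 := by
    have : range (N * F) ≤ K ∙ ((N * F) v) := by
      rintro _ ⟨w, rfl⟩
      exact htop w
    exact (Submodule.finrank_mono this).trans (finrank_span_singleton hv).le
  rw [t.rk_NF, hr] at h1
  have := hg.pos
  omega

/-- the case of rank two is impossible when there are no square-zero elements of rank one -/
theorem Ctx.no_two (c : Ctx ψ g) (hg : Good g 2) {N : End K V} (hN : N ∈ g) (hN2 : N * N = 0)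
    (hr : rk N = 2) : False := by
  obtain ⟨F, hF, t⟩ := c.tri hN hN2
  have ho := t.orth
  have hHg : N * F - F * N ∈ g := c.br _ hN _ hF
  -- an isotropic vector
  have hsym : ∀ u v, ψ u (N v) = ψ v (N u) := by
    intro u v
    rw [c.skew v (N u), c.sp N hN]; ring
  obtain ⟨u₀, hu1, hu2⟩ : ∃ u₀, ψ u₀ (N u₀) = 0 ∧ N u₀ ≠ 0 := by
    have h2 : 1 < finrank K (range N) := by
      change 1 < rk N
      rw [hr]; norm_num
    -- two independent vectors in the range
    obtain ⟨a, ha⟩ : ∃ a, N a ≠ 0 := by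
      by_contra hcon
      push Not at hcon
      have : N = 0 := LinearMap.ext hcon
      rw [this, LinearMap.range_zero, finrank_bot] at h2
      omega
    obtain ⟨b, hb⟩ : ∃ b, N b ∉ K ∙ (N a) := by
      by_contra hcon
      push Not at hcon
      have h3 : range N ≤ K ∙ (N a) := by
        rintro _ ⟨w, rfl⟩
        exact hcon w
      have := (Submodule.finrank_mono h3).trans (finrank_span_singleton ha).le
      omega
    by_cases haa : ψ a (N a) = 0
    · exact ⟨a, haa, ha⟩
    · obtain ⟨s, hs⟩ : ∃ s : K, ψ a (N a) * s ^ 2 + 2 * ψ a (N b) * s + ψ b (N b) = 0 := by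
        obtain ⟨δ, hδ⟩ := IsAlgClosed.exists_pow_nat_eq
          ((ψ a (N b)) ^ 2 - ψ a (N a) * ψ b (N b)) (n := 2) (by norm_num)
        refine ⟨(-ψ a (N b) + δ) / ψ a (N a), ?_⟩
        field_simp
        linear_combination hδ
      refine ⟨s • a + b, ?_, ?_⟩
      · simp only [map_add, map_smul, LinearMap.add_apply, LinearMap.smul_apply, smul_eq_mul]
        rw [hsym b a]
        linear_combination hs
      · intro h0
        apply hb
        rw [map_add, map_smul] at h0
        rw [Submodule.mem_span_singleton]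
        exact ⟨-s, by rw [neg_smul]; exact (eq_neg_of_add_eq_zero_right h0).symm⟩
  -- the functional `ψ u₀` on the range of `N`
  have hker : ∀ y ∈ range N, ψ u₀ y = 0 → y ∈ K ∙ (N u₀) := by
    let φ : range N →ₗ[K] K := (ψ u₀) ∘ₗ (range N).subtype
    have hφ : range φ = ⊤ := by
      have : φ ≠ 0 := by
        intro h0
        apply hu2
        apply c.nψ
        intro v
        rw [c.sp N hN]
        have := congrArg (fun f => f ⟨N v, v, rfl⟩) h0
        change ψ u₀ (N v) = 0 at this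
        rw [this, neg_zero]
      exact LinearMap.range_eq_top.mpr (LinearMap.surjective this)
    have h3 := LinearMap.finrank_range_add_finrank_ker φ
    rw [hφ, finrank_top, Module.finrank_self] at h3
    have h4 : finrank K (range N) = 2 := hr
    have h5 : finrank K (ker φ) = 1 := by omega
    have hmem : (⟨N u₀, u₀, rfl⟩ : range N) ∈ ker φ := hu1
    intro y hy hy0
    have h6 := (finrank_eq_one_iff_of_nonzero' (⟨⟨N u₀, u₀, rfl⟩, hmem⟩ : ker φ) (by
      intro h0
      apply hu2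
      have := congrArg (fun x : ker φ => (x : range N).1) h0
      exact this)).mp h5 ⟨⟨y, hy⟩, hy0⟩
    obtain ⟨s, hs⟩ := h6
    have := congrArg (fun x : ker φ => (x : range N).1) hs
    exact Submodule.mem_span_singleton.mpr ⟨s, this⟩
  have hirr : Irr g := c.irr
  have hpN : ∀ v, (N * F) (N v) = N v := by
    intro v; rw [← Module.End.mul_apply, t.NFN]
  have htop := top_irr c.br hirr ho hHg (l := K ∙ (N u₀)) (by
    rw [Ne, Submodule.span_singleton_eq_bot]; exact hu2) (by
    intro w hw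
    obtain ⟨a, rfl⟩ := Submodule.mem_span_singleton.mp hw
    rw [map_smul, hpN]) (by
    intro X hX w hw
    obtain ⟨a, rfl⟩ := Submodule.mem_span_singleton.mp hw
    rw [map_smul, map_smul]
    apply Submodule.smul_mem
    apply hker
    · exact ⟨F (X (N u₀)), rfl⟩
    · have h1 := c.ext hg hN hN2 hr (c.br _ hF _ hX)
      set s := trace K V (N * (F * X - X * F)) / (2 : ℕ) with hs
      have h2 : N * F * X * N - N * X * F * N = s • N := by
        rw [← h1]; noncomm_ring
      have h3 := congrArg (fun T : End K V => ψ u₀ (T u₀)) h2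
      change ψ u₀ ((N * F * X * N - N * X * F * N) u₀) = ψ u₀ ((s • N) u₀) at h3
      rw [LinearMap.sub_apply, LinearMap.smul_apply, map_sub, map_smul, hu1, smul_zero] at h3
      have h4 : ψ u₀ ((N * X * F * N) u₀) = -ψ u₀ ((N * F * X * N) u₀) := by
        change ψ u₀ (N (X (F (N u₀)))) = -ψ u₀ (N (F (X (N u₀))))
        rw [c.skew u₀ (N (F (X (N u₀)))), c.sp N hN, c.sp F hF, c.sp X hX, c.sp N hN]
        simp
      rw [h4] at h3
      change ψ u₀ ((N * F * X * N) u₀) = 0
      have h5 : (2 : K) * ψ u₀ ((N * F * X * N) u₀) = 0 := by linear_combination h3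
      exact (mul_eq_zero.mp h5).resolve_left two_ne_zero)
  have h1 : rk (N * F) ≤ 1 := by
    have : range (N * F) ≤ K ∙ (N u₀) := by
      rintro _ ⟨w, rfl⟩
      exact htop w
    exact (Submodule.finrank_mono this).trans (finrank_span_singleton hu2).le
  rw [t.rk_NF, hr] at h1
  omega

end Pool.Agent.Helper78_MT
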