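import Pool.Agent.Helper78_MT.StepE

/-! An element of rank one forces the whole symplectic Lie algebra. -/

set_option autoImplicit false
set_option linter.unusedSectionVars false
set_option linter.unusedSimpArgs false

namespace Pool.Agent.Helper78_MT

open Module LinearMap

variable {K V : Type*} [Field K] [CharZero K] [AddCommGroup V] [Module K V]
  [FiniteDimensional K V]
variable {ψ : V →ₗ[K] V →ₗ[K] K} {g : Submodule K (End K V)}

/-- the rank one operator `u ↦ ψ(a,u) b` -/
def r1 (ψ : V →ₗ[K] V →ₗ[K] K) (a b : V) : End K V := (ψ a).smulRight b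

theorem r1_apply (a b u : V) : r1 ψ a b u = ψ a u • b := rfl

theorem trace_mul_r1 (C : End K V) (a b : V) : trace K V (C * r1 ψ a b) = ψ a (C b) := by
  have : C * r1 ψ a b = (ψ a).smulRight (C b) := by
    ext u
    simp [r1]
  rw [this, LinearMap.trace_smulRight]

theorem Ctx.rank_one (c : Ctx ψ g) {N : End K V} (hN : N ∈ g) (hr : rk N = 1)
    {C : End K V} (hC : ∀ u v, ψ (C u) v = -ψ u (C v)) : C ∈ g := by
  -- shape of skew operators of rank one
  have shape : ∀ T ∈ g, rk T = 1 → ∃ (n : V) (κ : K), n ≠ 0 ∧ κ ≠ 0 ∧ T = κ • r1 ψ n n := by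
    intro T hT hT1
    obtain ⟨⟨n, hn⟩, hn0, hspan⟩ := finrank_eq_one_iff'.mp hT1
    have hn0' : n ≠ 0 := fun h => hn0 (Subtype.ext h)
    obtain ⟨v₀, hv₀⟩ : ∃ v, ψ n v ≠ 0 := by
      by_contra hcon
      push Not at hcon
      exact hn0' (c.nψ n hcon)
    have hl : ∀ u, ∃ a : K, T u = a • n := by
      intro u
      obtain ⟨a, ha⟩ := hspan ⟨T u, u, rfl⟩
      exact ⟨a, (congrArg Subtype.val ha).symm⟩
    choose lam hlam using hl
    have h1 : ∀ u, lam u * ψ n v₀ = lam v₀ * ψ n u := by
      intro u
      have := c.sp T hT u v₀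
      rw [hlam u, hlam v₀, map_smul, LinearMap.smul_apply, map_smul, smul_eq_mul, smul_eq_mul,
        c.skew u n] at this
      linear_combination this
    refine ⟨n, lam v₀ / ψ n v₀, hn0', ?_, ?_⟩
    · intro h0
      have h2 : lam v₀ = 0 := by
        rcases div_eq_zero_iff.mp h0 with h | h
        · exact h
        · exact absurd h hv₀
      have h3 : T = 0 := by
        ext u
        have := h1 u
        rw [h2, zero_mul] at this
        rw [hlam u, (mul_eq_zero.mp this).resolve_right hv₀, zero_smul]; rfl
      have : rk T = 0 := by rw [h3]; unfold rk; rw [LinearMap.range_zero, finrank_bot]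
      omega
    · ext u
      rw [hlam u, LinearMap.smul_apply, r1_apply, smul_smul]
      congr 1
      have := h1 u
      field_simp
      linear_combination this
  obtain ⟨n, κ, hn, hκ, hNκ⟩ := shape N hN hr
  have hnn : ψ n n = 0 := by
    have := c.skew n n
    have h2 : (2 : K) * ψ n n = 0 := by linear_combination this
    exact (mul_eq_zero.mp h2).resolve_left two_ne_zero
  have hN2 : N * N = 0 := by
    ext u
    rw [hNκ]
    simp [r1, hnn]
  obtain ⟨F, hF, t⟩ := c.tri hN hN2
  have ho := t.orth
  have hHg : N * F - F * N ∈ g := c.br _ hN _ hF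
  obtain ⟨m, κ', hm, hκ', hFκ⟩ := shape F hF (by rw [t.rk_F, hr])
  -- `m` is proportional to `F n`
  have hFm : ∃ s : K, m = s • F n := by
    obtain ⟨v, hv⟩ : ∃ v, F v ≠ 0 := by
      by_contra hcon
      push Not at hcon
      have : F = 0 := LinearMap.ext hcon
      have h2 := t.rk_F
      rw [this, hr] at h2
      unfold rk at h2
      rw [LinearMap.range_zero, finrank_bot] at h2
      omega
    have h1 : F v = F (N (F v)) := by
      have := congrArg (fun T : End K V => T v) t.FNF
      exact this.symm
    have h2 : N (F v) = (κ * ψ n (F v)) • n := by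
      rw [hNκ, LinearMap.smul_apply, r1_apply, smul_smul]
    have h3 : F v = (κ' * ψ m v) • m := by
      rw [hFκ, LinearMap.smul_apply, r1_apply, smul_smul]
    have h4 : κ' * ψ m v ≠ 0 := by
      intro h0
      rw [h0, zero_smul] at h3
      exact hv h3
    refine ⟨(κ' * ψ m v)⁻¹ * (κ * ψ n (F v)), ?_⟩
    rw [← smul_smul, ← map_smul F, ← h2, ← h1, h3, smul_smul, inv_mul_cancel₀ h4, one_smul]
  obtain ⟨s, hs⟩ := hFm
  -- orthogonal of `g n + K n`
  have horth : ∀ v, ψ n v = 0 → (∀ Y ∈ g, ψ (Y n) v = 0) → v = 0 := by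
    intro v h1 h2
    have hNv : ∀ u, ψ n u = 0 → N u = 0 := by
      intro u hu
      rw [hNκ, LinearMap.smul_apply, r1_apply, hu, zero_smul, smul_zero]
    have hmv : ∀ u, ψ (F n) u = 0 → F u = 0 := by
      intro u hu
      have : ψ m u = 0 := by rw [hs, map_smul, LinearMap.smul_apply, hu, smul_zero]
      rw [hFκ, LinearMap.smul_apply, r1_apply, this, zero_smul, smul_zero]
    have hp0 : N * F ≠ 0 := by
      intro h0
      have := t.rk_NF
      rw [h0, hr] at this
      unfold rk at this
      rw [LinearMap.range_zero, finrank_bot] at this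
      omega
    apply killed c.br c.irr ho hHg hp0
    · change N (F v) = 0
      rw [hmv v (h2 F hF), map_zero]
    · change F (N v) = 0
      rw [hNv v h1, map_zero]
    · intro X hX
      change N (F (X v)) = 0
      apply hNv
      have e1 : ψ n (F (X v)) = ψ (X (F n)) v := by
        rw [c.sp X hX, c.sp F hF, neg_neg]
      have e2 : X (F n) = F (X n) + (X * F - F * X) n := by
        rw [LinearMap.sub_apply, Module.End.mul_apply, Module.End.mul_apply]; abel
      rw [e1, e2, map_add, LinearMap.add_apply, h2 _ (c.br _ hX _ hF), add_zero]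
      have e3 : F (X n) = (κ' * ψ m (X n) * s) • F n := by
        conv_lhs => rw [hFκ, LinearMap.smul_apply, r1_apply, smul_smul, hs]
        rw [smul_smul, hs]
      rw [e3, map_smul, LinearMap.smul_apply, h2 F hF, smul_zero]
    · intro X hX
      change F (N (X v)) = 0
      have : ψ n (X v) = 0 := by
        have := h2 X hX
        rw [c.sp X hX] at this
        linear_combination -this
      rw [hNv _ this, map_zero]
  -- subtract the projection to `g`
  let φ : g →ₗ[K] K :=
    { toFun := fun Y => trace K V (C * (Y : End K V))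
      map_add' := fun a b => by simp [mul_add]
      map_smul' := fun a b => by simp }
  obtain ⟨X, hX, hφ⟩ := c.repr φ
  have main : ∀ D : End K V, (∀ u v, ψ (D u) v = -ψ u (D v)) → (∀ Y ∈ g, trace K V (D * Y) = 0) →
      D n = 0 := by
    intro D hD hD0
    apply horth
    · have h1 := hD0 N hN
      rw [hNκ, mul_smul_comm, map_smul, trace_mul_r1, smul_eq_mul] at h1
      exact (mul_eq_zero.mp h1).resolve_left hκ
    · intro Y hY
      have h1 := hD0 _ (c.br _ hY _ hN)
      have e1 : Y * N - N * Y = κ • (r1 ψ n (Y n) + r1 ψ (Y n) n) := by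
        ext u
        rw [hNκ]
        simp only [LinearMap.sub_apply, Module.End.mul_apply, LinearMap.smul_apply, LinearMap.add_apply,
          r1_apply, map_smul]
        rw [c.sp Y hY]
        module
      rw [e1, mul_smul_comm, map_smul, mul_add, map_add, trace_mul_r1, trace_mul_r1, smul_eq_mul] at h1
      have h2 := (mul_eq_zero.mp h1).resolve_left hκ
      have h3 : ψ n (D (Y n)) = ψ (Y n) (D n) := by
        have := hD n (Y n)
        rw [c.skew (D n) (Y n)] at this
        linear_combination this
      rw [h3] at h2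
      have h4 : (2 : K) * ψ (Y n) (D n) = 0 := by linear_combination h2
      exact (mul_eq_zero.mp h4).resolve_left two_ne_zero
  obtain ⟨D, hD⟩ : ∃ D, D = C - X := ⟨_, rfl⟩
  have hDsp : ∀ u v, ψ (D u) v = -ψ u (D v) := by
    intro u v
    rw [hD, LinearMap.sub_apply, LinearMap.sub_apply, map_sub, LinearMap.sub_apply, map_sub, hC, c.sp X hX]
    ring
  have hDtr : ∀ Y ∈ g, trace K V (D * Y) = 0 := by
    intro Y hY
    have := hφ ⟨Y, hY⟩
    change trace K V (C * Y) = trace K V (X * Y) at this
    rw [hD, sub_mul, map_sub, this, sub_self]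
  have hDn := main D hDsp hDtr
  have hDY : ∀ Y ∈ g, D (Y n) = 0 := by
    intro Y hY
    have := main (D * Y - Y * D) (by
      intro u v
      simp only [LinearMap.sub_apply, Module.End.mul_apply, map_sub]
      rw [hDsp, c.sp Y hY, c.sp Y hY, hDsp]
      ring) (by
      intro Z hZ
      have e : trace K V ((D * Y - Y * D) * Z) = trace K V (D * (Y * Z - Z * Y)) := by
        rw [sub_mul, map_sub, mul_sub, map_sub, mul_assoc D Y Z, show Y * D * Z = Y * (D * Z) by
          noncomm_ring, trace_mul_comm K Y (D * Z), mul_assoc D Z Y]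
      rw [e]
      exact hDtr _ (c.br _ hY _ hZ))
    rw [LinearMap.sub_apply, Module.End.mul_apply, Module.End.mul_apply, hDn, map_zero, sub_zero] at this
    exact this
  have hD0 : D = 0 := by
    ext v
    apply horth
    · rw [c.skew, hDsp, hDn]; simp
    · intro Y hY
      rw [c.skew, hDsp, hDY Y hY]; simp
  have : C = X := by rw [hD] at hD0; exact sub_eq_zero.mp hD0
  rw [this]; exact hX

end Pool.Agent.Helper78_MT
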