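import Pool.Agent.Helper78_MT.Alg

/-! Triples `(N, F)` with `N² = F² = 0`, `N F N = N`, `F N F = F`. -/

set_option autoImplicit false
set_option linter.unusedSectionVars false
set_option linter.unusedSimpArgs false

namespace Pool.Agent.Helper78_MT

variable {K A : Type*} [Field K] [CharZero K] [Ring A] [Algebra K A]

/-- a square-zero triple -/
structure Tri (N F : A) : Prop where
  N2 : N * N = 0
  F2 : F * F = 0
  NFN : N * F * N = N
  FNF : F * N * F = F

namespace Tri
variable {N F : A} (t : Tri N F)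
include t

theorem symm : Tri F N := ⟨t.F2, t.N2, t.FNF, t.NFN⟩

theorem orth : Orth3 (N * F) (F * N) (1 - N * F - F * N) := by
  have h1 : N * F * (N * F) = N * F := by rw [← mul_assoc, t.NFN]
  have h2 : F * N * (F * N) = F * N := by rw [← mul_assoc, t.FNF]
  have h3 : N * F * (F * N) = 0 := by
    rw [mul_assoc, ← mul_assoc F F N, t.F2, zero_mul, mul_zero]
  have h4 : F * N * (N * F) = 0 := by
    rw [mul_assoc, ← mul_assoc N N F, t.N2, zero_mul, mul_zero]
  refine ⟨h1, h2, ?_, h3, h4, ?_, ?_, ?_, ?_, by abel⟩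
  · simp only [sub_mul, mul_sub, one_mul, mul_one, h1, h2, h3, h4]; abel
  · simp only [sub_mul, mul_sub, one_mul, mul_one, h1, h2, h3, h4]; abel
  · simp only [sub_mul, mul_sub, one_mul, mul_one, h1, h2, h3, h4]; abel
  · simp only [sub_mul, mul_sub, one_mul, mul_one, h1, h2, h3, h4]; abel
  · simp only [sub_mul, mul_sub, one_mul, mul_one, h1, h2, h3, h4]; abel

theorem pN : N * F * N = N := t.NFN
theorem Nq : N * (F * N) = N := by rw [← mul_assoc, t.NFN]
theorem Np : N * (N * F) = 0 := by rw [← mul_assoc, t.N2, zero_mul]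
theorem qN : F * N * N = 0 := by rw [mul_assoc, t.N2, mul_zero]
theorem Fp : F * (N * F) = F := by rw [← mul_assoc, t.FNF]
theorem qF : F * N * F = F := t.FNF
theorem pF : N * F * F = 0 := by rw [mul_assoc, t.F2, mul_zero]
theorem Fq : F * (F * N) = 0 := by rw [← mul_assoc, t.F2, zero_mul]
theorem eN : (1 - N * F - F * N) * N = 0 := by
  rw [sub_mul, sub_mul, one_mul, t.NFN, t.qN]; abel
theorem Ne : N * (1 - N * F - F * N) = 0 := by
  rw [mul_sub, mul_sub, mul_one, t.Np, t.Nq]; abel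
theorem eF : (1 - N * F - F * N) * F = 0 := by
  rw [sub_mul, sub_mul, one_mul, t.pF, t.qF]; abel
theorem Fe : F * (1 - N * F - F * N) = 0 := by
  rw [mul_sub, mul_sub, mul_one, t.Fp, t.Fq]; abel

end Tri

/-- Completion of `N` to a triple inside `g`, compatible with gradings. -/
theorem exists_tri {g : Submodule K A} (hg : BrClosed g) {N F0 : A} (hN : N ∈ g) (hF0 : F0 ∈ g)
    (hN2 : N * N = 0) (hNF : N * F0 * N = N) :
    ∃ F ∈ g, Tri N F ∧ ∀ (T : A) (α : K), T * N - N * T = α • N → T * F0 - F0 * T = (-α) • F0 →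
      T * F - F * T = (-α) • F := by
  obtain ⟨p, hp⟩ : ∃ p, p = N * F0 := ⟨_, rfl⟩
  obtain ⟨q, hq⟩ : ∃ q, q = F0 * N := ⟨_, rfl⟩
  obtain ⟨k, hk⟩ : ∃ k, k = p * q := ⟨_, rfl⟩
  have pp : p * p = p := by rw [hp, ← mul_assoc, hNF]
  have qq : q * q = q := by
    rw [hq, mul_assoc, ← mul_assoc N F0 N, hNF]
  have qp : q * p = 0 := by
    rw [hp, hq, mul_assoc, ← mul_assoc N N F0, hN2, zero_mul, mul_zero]
  have pN : p * N = N := by rw [hp, hNF]
  have Nq : N * q = N := by rw [hq, ← mul_assoc, hNF]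
  have Np : N * p = 0 := by rw [hp, ← mul_assoc, hN2, zero_mul]
  have qN : q * N = 0 := by rw [hq, mul_assoc, hN2, mul_zero]
  have pk : p * k = k := by rw [hk, ← mul_assoc, pp]
  have kp : k * p = 0 := by rw [hk, mul_assoc, qp, mul_zero]
  have qk : q * k = 0 := by rw [hk, ← mul_assoc, qp, zero_mul]
  have kq : k * q = k := by rw [hk, mul_assoc, qq]
  have kk : k * k = 0 := by
    nth_rewrite 1 [hk]
    rw [mul_assoc, qk, mul_zero]
  have Nk : N * k = 0 := by rw [hk, ← mul_assoc, Np, zero_mul]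
  have kN : k * N = 0 := by rw [hk, mul_assoc, qN, mul_zero]
  set E1 := p - (1 / 2 : K) • k with hE1
  set E2 := q - (1 / 2 : K) • k with hE2
  have e11 : E1 * E1 = E1 := by
    rw [hE1]
    simp only [sub_mul, mul_sub, smul_mul_assoc, mul_smul_comm, pp, pk, kp, kk]
    module
  have e22 : E2 * E2 = E2 := by
    rw [hE2]
    simp only [sub_mul, mul_sub, smul_mul_assoc, mul_smul_comm, qq, qk, kq, kk]
    module
  have e12 : E1 * E2 = 0 := by
    rw [hE1, hE2]
    simp only [sub_mul, mul_sub, smul_mul_assoc, mul_smul_comm, pk, kq, kk]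
    rw [← hk]
    module
  have e21 : E2 * E1 = 0 := by
    rw [hE1, hE2]
    simp only [sub_mul, mul_sub, smul_mul_assoc, mul_smul_comm, qp, qk, kp, kk]
    module
  have ho : Orth3 E1 E2 (1 - E1 - E2) := by
    refine ⟨e11, e22, ?_, e12, e21, ?_, ?_, ?_, ?_, by abel⟩ <;>
    · simp only [sub_mul, mul_sub, one_mul, mul_one, e11, e22, e12, e21]; abel
  have hH : E1 - E2 ∈ g := by
    have : E1 - E2 = N * F0 - F0 * N := by rw [hE1, hE2, ← hp, ← hq]; abel
    rw [this]; exact hg _ hN _ hF0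
  have hF : E2 * F0 * E1 ∈ g := (ho.comps hg hH hF0).2.2.2.2
  have E1N : E1 * N = N := by rw [hE1, sub_mul, smul_mul_assoc, pN, kN]; simp
  have NE2 : N * E2 = N := by rw [hE2, mul_sub, mul_smul_comm, Nq, Nk]; simp
  have NE1 : N * E1 = 0 := by rw [hE1, mul_sub, mul_smul_comm, Np, Nk]; simp
  have pE1 : p * E1 = E1 := by
    rw [hE1, mul_sub, mul_smul_comm, pp, pk]
  have E2q : E2 * q = E2 := by
    rw [hE2, sub_mul, smul_mul_assoc, qq, kq]
  have NF : N * (E2 * F0 * E1) = E1 := by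
    rw [← mul_assoc, ← mul_assoc, NE2, ← hp, pE1]
  have FN : (E2 * F0 * E1) * N = E2 := by
    rw [mul_assoc, E1N, mul_assoc, ← hq, E2q]
  refine ⟨E2 * F0 * E1, hF, ⟨hN2, ?_, ?_, ?_⟩, ?_⟩
  · calc E2 * F0 * E1 * (E2 * F0 * E1) = E2 * F0 * (E1 * E2) * F0 * E1 := by noncomm_ring
      _ = 0 := by rw [e12]; simp
  · rw [NF, E1N]
  · rw [FN, ← mul_assoc, ← mul_assoc, e22]
  · intro T α h1 h2
    have hpT : T * p = p * T := by
      have : T * p - p * T = (T * N - N * T) * F0 + N * (T * F0 - F0 * T) := by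
        rw [hp]; noncomm_ring
      rw [h1, h2, smul_mul_assoc, mul_smul_comm, neg_smul, add_neg_cancel] at this
      exact sub_eq_zero.mp this
    have hqT : T * q = q * T := by
      have : T * q - q * T = (T * F0 - F0 * T) * N + F0 * (T * N - N * T) := by
        rw [hq]; noncomm_ring
      rw [h1, h2, smul_mul_assoc, mul_smul_comm, neg_smul, neg_add_cancel] at this
      exact sub_eq_zero.mp this
    have hkT : T * k = k * T := by
      calc T * k = (T * p) * q := by rw [hk, mul_assoc]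
        _ = p * (T * q) := by rw [hpT, mul_assoc]
        _ = k * T := by rw [hqT, hk, mul_assoc]
    have h1T : T * E1 = E1 * T := by
      rw [hE1]; simp only [mul_sub, sub_mul, mul_smul_comm, smul_mul_assoc, hpT, hkT]
    have h2T : T * E2 = E2 * T := by
      rw [hE2]; simp only [mul_sub, sub_mul, mul_smul_comm, smul_mul_assoc, hqT, hkT]
    calc T * (E2 * F0 * E1) - E2 * F0 * E1 * T = (T * E2) * F0 * E1 - E2 * F0 * (E1 * T) := by
          noncomm_ring
      _ = E2 * (T * F0 - F0 * T) * E1 := by rw [h2T, ← h1T]; noncomm_ring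
      _ = (-α) • (E2 * F0 * E1) := by rw [h2, mul_smul_comm, smul_mul_assoc]

end Pool.Agent.Helper78_MT
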